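import Pool.Agent.Work.NoCP.LayBasic

/-!
# MP_4545a8_an, S04532: realisation of a tower by two commuting interval maps
-/

set_option autoImplicit false

namespace Pool.Agent.Work.NoCP

open Set

/-- end points of the blocks -/
private noncomputable def ep (T : ℕ → Lay) : ℕ → ℕ → ℝ
  | 0, v => (v : ℝ)
  | k + 1, u => if u < (T (k + 1)).N then
      ep T k ((T (k + 1)).pi u) +
        ((u : ℝ) - (T (k + 1)).fst ((T (k + 1)).pi u)) /
          (((T (k + 1)).lst ((T (k + 1)).pi u) : ℝ) + 1 - (T (k + 1)).fst ((T (k + 1)).pi u)) *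
        (ep T k ((T (k + 1)).pi u + 1) - ep T k ((T (k + 1)).pi u))
    else 1

/-- hypotheses on the tower used for the realisation -/
private structure Tw (T : ℕ → Lay) : Prop where
  n0 : (T 0).N = 1
  n1 : (T 1).N = 1
  ok : ∀ k, LayOK (T k).N (T (k + 1))
  two : ∀ k v, v < (T (k + 1)).N → (T (k + 2)).fst v < (T (k + 2)).lst v

private theorem ep_top {T : ℕ → Lay} (h : Tw T) : ∀ k, ep T k (T k).N = 1
  | 0 => by rw [h.n0]; simp [ep]
  | k + 1 => by simp [ep]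

private theorem ep_fst {T : ℕ → Lay} (h : Tw T) (k v : ℕ) (hv : v < (T k).N) :
    ep T (k + 1) ((T (k + 1)).fst v) = ep T k v := by
  obtain ⟨h1, h2⟩ := layer_mem (h.ok k) hv le_rfl ((h.ok k).fst_le v hv)
  rw [ep, if_pos h1, h2]
  simp

private theorem ep_up {T : ℕ → Lay} (h : Tw T) (k u : ℕ) (hu : u < (T (k + 1)).N) :
    ep T (k + 1) (u + 1) = ep T k ((T (k + 1)).pi u) +
        ((u : ℝ) + 1 - (T (k + 1)).fst ((T (k + 1)).pi u)) /
          (((T (k + 1)).lst ((T (k + 1)).pi u) : ℝ) + 1 - (T (k + 1)).fst ((T (k + 1)).pi u)) *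
        (ep T k ((T (k + 1)).pi u + 1) - ep T k ((T (k + 1)).pi u)) := by
  have hok := h.ok k
  have hv := hok.pi_lt u hu
  have hfl := hok.fst_le _ hv
  have h2 := hok.fst_pi u hu
  have h3 := hok.le_lst u hu
  have hpos : (0 : ℝ) < ((T (k + 1)).lst ((T (k + 1)).pi u) : ℝ) + 1 -
      (T (k + 1)).fst ((T (k + 1)).pi u) := by
    have : ((T (k + 1)).fst ((T (k + 1)).pi u) : ℝ) ≤ (T (k + 1)).lst ((T (k + 1)).pi u) := by
      exact_mod_cast hfl
    linarith
  by_cases hlast : u = (T (k + 1)).lst ((T (k + 1)).pi u)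
  · have hq : ((u : ℝ) + 1 - (T (k + 1)).fst ((T (k + 1)).pi u)) /
          (((T (k + 1)).lst ((T (k + 1)).pi u) : ℝ) + 1 - (T (k + 1)).fst ((T (k + 1)).pi u)) = 1 := by
      have : (u : ℝ) = (T (k + 1)).lst ((T (k + 1)).pi u) := by exact_mod_cast hlast
      rw [this]
      exact div_self hpos.ne'
    rw [hq]
    by_cases hv' : (T (k + 1)).pi u + 1 < (T k).N
    · have h4 := hok.fst_succ _ hv'
      have h5 : u + 1 = (T (k + 1)).fst ((T (k + 1)).pi u + 1) := by omega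
      rw [h5, ep_fst h k _ hv']
      ring
    · have h6 : (T (k + 1)).pi u = (T k).N - 1 := by omega
      have h7 := hok.lst_top
      have h8 : u + 1 = (T (k + 1)).N := by rw [← h6] at h7; omega
      have h9 : (T (k + 1)).pi u + 1 = (T k).N := by omega
      rw [h8, ep_top h, h9, ep_top h]
      ring
  · have h4 : u + 1 ≤ (T (k + 1)).lst ((T (k + 1)).pi u) := by omega
    obtain ⟨h5, h6⟩ := layer_mem hok hv (by omega : (T (k + 1)).fst ((T (k + 1)).pi u) ≤ u + 1) h4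
    rw [ep, if_pos h5, h6]
    push_cast
    ring

private theorem ep_low {T : ℕ → Lay} (k u : ℕ) (hu : u < (T (k + 1)).N) :
    ep T (k + 1) u = ep T k ((T (k + 1)).pi u) +
        ((u : ℝ) - (T (k + 1)).fst ((T (k + 1)).pi u)) /
          (((T (k + 1)).lst ((T (k + 1)).pi u) : ℝ) + 1 - (T (k + 1)).fst ((T (k + 1)).pi u)) *
        (ep T k ((T (k + 1)).pi u + 1) - ep T k ((T (k + 1)).pi u)) := by
  rw [ep, if_pos hu]

private theorem ep_zero {T : ℕ → Lay} (h : Tw T) : ∀ k, ep T k 0 = 0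
  | 0 => by simp [ep]
  | k + 1 => by
      have h1 := ep_fst h k 0 (h.ok k).pos
      rw [(h.ok k).fst_zero, ep_zero h k] at h1
      exact h1

private theorem ep_lt {T : ℕ → Lay} (h : Tw T) : ∀ k v, v < (T k).N → ep T k v < ep T k (v + 1)
  | 0, v, _ => by simp [ep]
  | k + 1, u, hu => by
      have hok := h.ok k
      have hv := hok.pi_lt u hu
      have hfl := hok.fst_le _ hv
      have hpos : (0 : ℝ) < ((T (k + 1)).lst ((T (k + 1)).pi u) : ℝ) + 1 -
          (T (k + 1)).fst ((T (k + 1)).pi u) := by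
        have : ((T (k + 1)).fst ((T (k + 1)).pi u) : ℝ) ≤ (T (k + 1)).lst ((T (k + 1)).pi u) := by
          exact_mod_cast hfl
        linarith
      rw [ep_up h k u hu, ep_low k u hu]
      have ih := ep_lt h k _ hv
      have : ((u : ℝ) - (T (k + 1)).fst ((T (k + 1)).pi u)) /
          (((T (k + 1)).lst ((T (k + 1)).pi u) : ℝ) + 1 - (T (k + 1)).fst ((T (k + 1)).pi u)) <
          ((u : ℝ) + 1 - (T (k + 1)).fst ((T (k + 1)).pi u)) /
          (((T (k + 1)).lst ((T (k + 1)).pi u) : ℝ) + 1 - (T (k + 1)).fst ((T (k + 1)).pi u)) :=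
        div_lt_div_of_pos_right (by linarith) hpos
      nlinarith

private theorem ep_in {T : ℕ → Lay} (h : Tw T) (k u : ℕ) (hu : u < (T (k + 1)).N) :
    ep T k ((T (k + 1)).pi u) ≤ ep T (k + 1) u ∧
      ep T (k + 1) (u + 1) ≤ ep T k ((T (k + 1)).pi u + 1) := by
  have hok := h.ok k
  have hv := hok.pi_lt u hu
  have hfl := hok.fst_le _ hv
  have h2 := hok.fst_pi u hu
  have h3 := hok.le_lst u hu
  have h2' : ((T (k + 1)).fst ((T (k + 1)).pi u) : ℝ) ≤ u := by exact_mod_cast h2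
  have h3' : (u : ℝ) ≤ (T (k + 1)).lst ((T (k + 1)).pi u) := by exact_mod_cast h3
  have hpos : (0 : ℝ) < ((T (k + 1)).lst ((T (k + 1)).pi u) : ℝ) + 1 -
      (T (k + 1)).fst ((T (k + 1)).pi u) := by linarith
  have ih := ep_lt h k _ hv
  rw [ep_up h k u hu, ep_low k u hu]
  constructor
  · have : 0 ≤ ((u : ℝ) - (T (k + 1)).fst ((T (k + 1)).pi u)) /
          (((T (k + 1)).lst ((T (k + 1)).pi u) : ℝ) + 1 - (T (k + 1)).fst ((T (k + 1)).pi u)) :=
      div_nonneg (by linarith) hpos.le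
    nlinarith
  · have : ((u : ℝ) + 1 - (T (k + 1)).fst ((T (k + 1)).pi u)) /
          (((T (k + 1)).lst ((T (k + 1)).pi u) : ℝ) + 1 - (T (k + 1)).fst ((T (k + 1)).pi u)) ≤ 1 :=
      (div_le_one hpos).2 (by linarith)
    nlinarith

private theorem ep_mesh {T : ℕ → Lay} (h : Tw T) :
    ∀ k v, v < (T k).N → ep T k (v + 1) - ep T k v ≤ 2 * (1 / 2 : ℝ) ^ k
  | 0, v, _ => by simp [ep]
  | 1, u, hu => by
      have h1 : ep T 0 ((T 1).pi u) ≤ ep T 1 u ∧ ep T 1 (u + 1) ≤ ep T 0 ((T 1).pi u + 1) :=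
        ep_in h 0 u hu
      have h2 : (T 1).pi u < (T 0).N := (h.ok 0).pi_lt u hu
      have h3 : (T 1).pi u = 0 := by rw [h.n0] at h2; omega
      rw [h3] at h1
      have e0 : ep T 0 0 = 0 := by simp [ep]
      have e1 : ep T 0 (0 + 1) = 1 := by simp [ep]
      rw [e0, e1] at h1
      norm_num
      linarith [h1.1, h1.2]
  | k + 2, u, hu => by
      have hok := h.ok (k + 1)
      have hv := hok.pi_lt u hu
      have hfl := h.two k _ hv
      have ih := ep_mesh h (k + 1) _ hv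
      have hl := ep_lt h (k + 1) _ hv
      rw [ep_up h (k + 1) u hu, ep_low (k + 1) u hu]
      have h2 : (2 : ℝ) ≤ ((T (k + 1 + 1)).lst ((T (k + 1 + 1)).pi u) : ℝ) + 1 -
          (T (k + 1 + 1)).fst ((T (k + 1 + 1)).pi u) := by
        have : ((T (k + 2)).fst ((T (k + 2)).pi u) : ℝ) + 1 ≤ (T (k + 2)).lst ((T (k + 2)).pi u) := by
          exact_mod_cast hfl
        have e : k + 1 + 1 = k + 2 := rfl
        rw [e]
        linarith
      set n : ℝ := ((T (k + 1 + 1)).lst ((T (k + 1 + 1)).pi u) : ℝ) + 1 -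
          (T (k + 1 + 1)).fst ((T (k + 1 + 1)).pi u) with hn
      set Δ : ℝ := ep T (k + 1) ((T (k + 1 + 1)).pi u + 1) - ep T (k + 1) ((T (k + 1 + 1)).pi u)
        with hΔ
      have hn0 : (0 : ℝ) < n := by linarith
      have e1 : ep T (k + 1) ((T (k + 1 + 1)).pi u) + ((u : ℝ) + 1 -
          (T (k + 1 + 1)).fst ((T (k + 1 + 1)).pi u)) / n * Δ -
          (ep T (k + 1) ((T (k + 1 + 1)).pi u) + ((u : ℝ) -
          (T (k + 1 + 1)).fst ((T (k + 1 + 1)).pi u)) / n * Δ) = Δ / n := by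
        field_simp
        ring
      rw [e1]
      have hΔ0 : 0 < Δ := by rw [hΔ]; linarith
      have : Δ / n ≤ Δ / 2 := div_le_div_of_nonneg_left hΔ0.le (by norm_num) h2
      calc Δ / n ≤ Δ / 2 := this
        _ ≤ (2 * (1 / 2 : ℝ) ^ (k + 1)) / 2 := by linarith
        _ = 2 * (1 / 2 : ℝ) ^ (k + 2) := by rw [pow_succ (1 / 2 : ℝ) (k + 1)]; ring

/-- the closed block `v` of level `k` -/
private def Blk (T : ℕ → Lay) (k v : ℕ) : Set ℝ := Icc (ep T k v) (ep T k (v + 1))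

private theorem ep_mono {T : ℕ → Lay} (h : Tw T) (k : ℕ) {u v : ℕ} (huv : u ≤ v)
    (hv : v ≤ (T k).N) : ep T k u ≤ ep T k v := by
  induction v, huv using Nat.le_induction with
  | base => exact le_rfl
  | succ v hv' ih => exact (ih (by omega)).trans (ep_lt h k v (by omega)).le

private theorem blk_sub {T : ℕ → Lay} (h : Tw T) (k u : ℕ) (hu : u < (T (k + 1)).N) :
    Blk T (k + 1) u ⊆ Blk T k ((T (k + 1)).pi u) := by
  have := ep_in h k u hu
  exact Icc_subset_Icc this.1 this.2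

private theorem blk_unit {T : ℕ → Lay} (h : Tw T) (k u : ℕ) (hu : u < (T k).N) :
    Blk T k u ⊆ Icc (0 : ℝ) 1 := by
  apply Icc_subset_Icc
  · rw [← ep_zero h k]
    exact ep_mono h k (Nat.zero_le _) hu.le
  · rw [← ep_top h k]
    exact ep_mono h k hu le_rfl

private theorem blk_nr {T : ℕ → Lay} (h : Tw T) (k : ℕ) {u v : ℕ} (hu : u < (T k).N)
    (hv : v < (T k).N) {x : ℝ} (hx : x ∈ Blk T k u) (hx' : x ∈ Blk T k v) : Nr u v := by
  constructor
  · by_contra hc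
    push Not at hc
    have h1 := ep_lt h k (v + 1) (by omega)
    have h2 := ep_mono h k (by omega : v + 1 + 1 ≤ u) hu.le
    have h3 := hx.1
    have h4 := hx'.2
    linarith
  · by_contra hc
    push Not at hc
    have h1 := ep_lt h k (u + 1) (by omega)
    have h2 := ep_mono h k (by omega : u + 1 + 1 ≤ v) hv.le
    have h3 := hx'.1
    have h4 := hx.2
    linarith

private theorem step_exists (g : ℕ → ℝ) (x : ℝ) (a : ℕ) : ∀ n : ℕ, g a ≤ x → x ≤ g (a + n + 1) →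
    ∃ u, a ≤ u ∧ u ≤ a + n ∧ g u ≤ x ∧ x ≤ g (u + 1)
  | 0, h1, h2 => ⟨a, le_rfl, le_rfl, h1, h2⟩
  | n + 1, h1, h2 => by
      by_cases h : x ≤ g (a + n + 1)
      · obtain ⟨u, h3, h4, h5, h6⟩ := step_exists g x a n h1 h
        exact ⟨u, h3, by omega, h5, h6⟩
      · exact ⟨a + n + 1, by omega, by omega, (not_le.1 h).le, h2⟩

private theorem blk_child {T : ℕ → Lay} (h : Tw T) (k v : ℕ) (hv : v < (T k).N) {x : ℝ}
    (hx : x ∈ Blk T k v) : ∃ u, u < (T (k + 1)).N ∧ (T (k + 1)).pi u = v ∧ x ∈ Blk T (k + 1) u := by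
  have hok := h.ok k
  have hfl := hok.fst_le v hv
  have h1 : ep T (k + 1) ((T (k + 1)).fst v) = ep T k v := ep_fst h k v hv
  have h2 : ep T (k + 1) ((T (k + 1)).lst v + 1) = ep T k (v + 1) := by
    by_cases hv' : v + 1 < (T k).N
    · rw [← hok.fst_succ v hv']
      exact ep_fst h k (v + 1) hv'
    · have h6 : v = (T k).N - 1 := by omega
      have h7 := hok.lst_top
      rw [← h6] at h7
      rw [h7, ep_top h, (by omega : v + 1 = (T k).N), ep_top h]
  obtain ⟨u, h3, h4, h5, h6⟩ := step_exists (ep T (k + 1)) x ((T (k + 1)).fst v)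
    ((T (k + 1)).lst v - (T (k + 1)).fst v) (by rw [h1]; exact hx.1) (by
      rw [(by omega : (T (k + 1)).fst v + ((T (k + 1)).lst v - (T (k + 1)).fst v) + 1 =
        (T (k + 1)).lst v + 1), h2]
      exact hx.2)
  obtain ⟨h7, h8⟩ := layer_mem hok hv h3 (by omega)
  exact ⟨u, h7, h8, h5, h6⟩

private theorem blk_cover {T : ℕ → Lay} (h : Tw T) {x : ℝ} (hx : x ∈ Icc (0 : ℝ) 1) :
    ∀ k, ∃ u, u < (T k).N ∧ x ∈ Blk T k u
  | 0 => ⟨0, by rw [h.n0]; exact Nat.one_pos, by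
      simp only [Blk, ep]
      push_cast
      norm_num
      exact hx⟩
  | k + 1 => by
      obtain ⟨v, hv, hxv⟩ := blk_cover h hx k
      obtain ⟨u, h1, -, h2⟩ := blk_child h k v hv hxv
      exact ⟨u, h1, h2⟩

/-- hypotheses on one of the two families of maps -/
private structure Mp (T : ℕ → Lay) (m : ℕ → ℕ → ℕ) : Prop where
  lt : ∀ k u, u < (T (k + 1)).N → m (k + 1) u < (T k).N
  nr : ∀ k u u', u < (T (k + 1)).N → u' < (T (k + 1)).N → Nr u u' → Nr (m (k + 1) u) (m (k + 1) u')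
  pi : ∀ k u, u < (T (k + 2)).N → (T (k + 1)).pi (m (k + 2) u) = m (k + 1) ((T (k + 2)).pi u)

private theorem blk_meet {T : ℕ → Lay} (h : Tw T) (k : ℕ) {u v : ℕ} (hu : u < (T k).N)
    (hv : v < (T k).N) (hn : Nr u v) : ∃ y, y ∈ Blk T k u ∧ y ∈ Blk T k v := by
  have hc : u = v ∨ u + 1 = v ∨ v + 1 = u := by
    unfold Nr at hn
    omega
  rcases hc with hc | hc | hc
  · subst hc
    exact ⟨ep T k u, ⟨le_rfl, (ep_lt h k u hu).le⟩, ⟨le_rfl, (ep_lt h k u hu).le⟩⟩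
  · subst hc
    exact ⟨ep T k (u + 1), ⟨(ep_lt h k u hu).le, le_rfl⟩, ⟨le_rfl, (ep_lt h k _ hv).le⟩⟩
  · subst hc
    exact ⟨ep T k (v + 1), ⟨le_rfl, (ep_lt h k _ hu).le⟩, ⟨(ep_lt h k v hv).le, le_rfl⟩⟩

private theorem map_point {T : ℕ → Lay} (h : Tw T) {m : ℕ → ℕ → ℕ} (hm : Mp T m) {x : ℝ}
    (hx : x ∈ Icc (0 : ℝ) 1) : ∃ y, ∀ k u, u < (T (k + 1)).N → x ∈ Blk T (k + 1) u →
      y ∈ Blk T k (m (k + 1) u) := by
  let K : ℕ → Set ℝ := fun k => {y | ∀ u, u < (T (k + 1)).N → x ∈ Blk T (k + 1) u →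
      y ∈ Blk T k (m (k + 1) u)}
  have hKcl : ∀ k, IsClosed (K k) := by
    intro k
    have : K k = ⋂ (u : ℕ) (_ : u < (T (k + 1)).N) (_ : x ∈ Blk T (k + 1) u),
        Blk T k (m (k + 1) u) := by
      ext y
      simp [K]
    rw [this]
    exact isClosed_iInter fun u => isClosed_iInter fun _ => isClosed_iInter fun _ => isClosed_Icc
  have hKne : ∀ k, (K k).Nonempty := by
    intro k
    classical
    have hex : ∃ u, u < (T (k + 1)).N ∧ x ∈ Blk T (k + 1) u := blk_cover h hx (k + 1)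
    set u := Nat.find hex with hu
    obtain ⟨h1, h2⟩ := Nat.find_spec hex
    rw [← hu] at h1 h2
    have hmin : ∀ v, v < (T (k + 1)).N → x ∈ Blk T (k + 1) v → v = u ∨ v = u + 1 := by
      intro v hv hxv
      have h3 := Nat.find_min' hex ⟨hv, hxv⟩
      rw [← hu] at h3
      have h4 := blk_nr h (k + 1) hv h1 hxv h2
      unfold Nr at h4
      omega
    by_cases hs : u + 1 < (T (k + 1)).N
    · obtain ⟨y, hy1, hy2⟩ := blk_meet h k (hm.lt k u h1) (hm.lt k (u + 1) hs)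
        (hm.nr k u (u + 1) h1 hs ⟨by omega, by omega⟩)
      refine ⟨y, fun v hv hxv => ?_⟩
      rcases hmin v hv hxv with rfl | rfl
      · exact hy1
      · exact hy2
    · refine ⟨ep T k (m (k + 1) u), fun v hv hxv => ?_⟩
      rcases hmin v hv hxv with hvu | hvu
      · rw [hvu]
        exact ⟨le_rfl, (ep_lt h k _ (hm.lt k u h1)).le⟩
      · omega
  have hKsub : ∀ k, K (k + 1) ⊆ K k := by
    intro k y hy u hu hxu
    obtain ⟨u', h1, h2, h3⟩ := blk_child h (k + 1) u hu hxu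
    have h4 := hy u' h1 h3
    have h5 := blk_sub h k _ (hm.lt (k + 1) u' h1) h4
    rw [hm.pi k u' h1, h2] at h5
    exact h5
  have hK0 : IsCompact (K 0) := by
    obtain ⟨u, hu, hxu⟩ := blk_cover h hx 1
    exact (isCompact_Icc (a := (0 : ℝ)) (b := 1)).of_isClosed_subset (hKcl 0) fun y hy =>
      blk_unit h 0 _ (hm.lt 0 u hu) (hy u hu hxu)
  obtain ⟨y, hy⟩ := IsCompact.nonempty_iInter_of_sequence_nonempty_isCompact_isClosed K hKsub hKne
    hK0 hKcl
  exact ⟨y, fun k u hu hxu => mem_iInter.1 hy k u hu hxu⟩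

private theorem pow_small {ε : ℝ} (hε : 0 < ε) : ∃ k : ℕ, 4 * (1 / 2 : ℝ) ^ k < ε := by
  obtain ⟨k, hk⟩ := exists_pow_lt_of_lt_one (by positivity : (0 : ℝ) < ε / 4)
    (by norm_num : (1 / 2 : ℝ) < 1)
  exact ⟨k, by linarith⟩

private theorem dist_nr {T : ℕ → Lay} (h : Tw T) (k : ℕ) {u v : ℕ} (hu : u < (T k).N)
    (hv : v < (T k).N) (hn : Nr u v) {y z : ℝ} (hy : y ∈ Blk T k u) (hz : z ∈ Blk T k v) :
    |y - z| ≤ 4 * (1 / 2 : ℝ) ^ k := by
  have h1 := ep_mesh h k u hu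
  have h2 := ep_mesh h k v hv
  have h3 := ep_lt h k u hu
  have h4 := ep_lt h k v hv
  have hc : u = v ∨ u + 1 = v ∨ v + 1 = u := by
    unfold Nr at hn
    omega
  obtain ⟨y1, y2⟩ := hy
  obtain ⟨z1, z2⟩ := hz
  rw [abs_le]
  rcases hc with hc | hc | hc
  · subst hc
    constructor <;> linarith
  · subst hc
    constructor <;> linarith
  · subst hc
    constructor <;> linarith

private theorem map_exists {T : ℕ → Lay} (h : Tw T) {m : ℕ → ℕ → ℕ} (hm : Mp T m) :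
    ∃ φ : C(Icc (0 : ℝ) 1, Icc (0 : ℝ) 1), ∀ (x : Icc (0 : ℝ) 1) (k u : ℕ), u < (T (k + 1)).N →
      (x : ℝ) ∈ Blk T (k + 1) u → (φ x : ℝ) ∈ Blk T k (m (k + 1) u) := by
  choose f hf using fun x : Icc (0 : ℝ) 1 => map_point h hm x.2
  have hf01 : ∀ x, f x ∈ Icc (0 : ℝ) 1 := by
    intro x
    obtain ⟨u, hu, hxu⟩ := blk_cover h x.2 1
    exact blk_unit h 0 _ (hm.lt 0 u hu) (hf x 0 u hu hxu)
  have hcont : Continuous f := by
    rw [Metric.continuous_iff]
    intro x ε hε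
    obtain ⟨k, hk⟩ := pow_small hε
    have hfin : ∃ δ : ℝ, 0 < δ ∧ ∀ v, v < (T (k + 1)).N →
        δ ≤ ep T (k + 1) (v + 1) - ep T (k + 1) v := by
      have hne : (Finset.range (T (k + 1)).N).Nonempty := by
        rw [Finset.nonempty_range_iff]
        have := (h.ok (k + 1)).pos
        omega
      refine ⟨(Finset.range (T (k + 1)).N).inf' hne
        fun v => ep T (k + 1) (v + 1) - ep T (k + 1) v, ?_, ?_⟩
      · rw [Finset.lt_inf'_iff]
        intro v hv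
        have := ep_lt h (k + 1) v (Finset.mem_range.1 hv)
        linarith
      · intro v hv
        exact Finset.inf'_le (f := fun v => ep T (k + 1) (v + 1) - ep T (k + 1) v)
          (Finset.mem_range.2 hv)
    obtain ⟨δ, hδ, hδ'⟩ := hfin
    refine ⟨δ, hδ, fun y hy => ?_⟩
    obtain ⟨u, hu, hxu⟩ := blk_cover h x.2 (k + 1)
    obtain ⟨v, hv, hyv⟩ := blk_cover h y.2 (k + 1)
    rw [Subtype.dist_eq, Real.dist_eq, abs_lt] at hy
    have hn : Nr v u := by
      constructor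
      · by_contra hc
        push Not at hc
        have h1 := hδ' (u + 1) (by omega)
        have h2 := ep_mono h (k + 1) (by omega : u + 1 + 1 ≤ v) hv.le
        have h3 := hxu.2
        have h4 := hyv.1
        linarith [hy.2]
      · by_contra hc
        push Not at hc
        have h1 := hδ' (v + 1) (by omega)
        have h2 := ep_mono h (k + 1) (by omega : v + 1 + 1 ≤ u) hu.le
        have h3 := hyv.2
        have h4 := hxu.1
        linarith [hy.1]
    have h5 := dist_nr h k (hm.lt k v hv) (hm.lt k u hu) (hm.nr k v u hv hu hn)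
      (hf y k v hv hyv) (hf x k u hu hxu)
    rw [Real.dist_eq]
    exact h5.trans_lt hk
  exact ⟨⟨fun x => ⟨f x, hf01 x⟩, by fun_prop⟩, fun x k u hu hxu => hf x k u hu hxu⟩

private theorem it_map {T : ℕ → Lay} {m : ℕ → ℕ → ℕ} (hm : Mp T m)
    (it : ℕ → ℕ → ℕ → ℕ) (h0 : ∀ k u, it 0 k u = u)
    (h1 : ∀ j k u, it (j + 1) k u = it j k (m (k + j + 1) u))
    {φ : C(Icc (0 : ℝ) 1, Icc (0 : ℝ) 1)} (hφ : ∀ (x : Icc (0 : ℝ) 1) (k u : ℕ),
      u < (T (k + 1)).N → (x : ℝ) ∈ Blk T (k + 1) u → (φ x : ℝ) ∈ Blk T k (m (k + 1) u)) :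
    ∀ (j k u : ℕ) (x : Icc (0 : ℝ) 1), u < (T (k + j)).N → (x : ℝ) ∈ Blk T (k + j) u →
      it j k u < (T k).N ∧ ((⇑φ)^[j] x : ℝ) ∈ Blk T k (it j k u)
  | 0, k, u, x, hu, hx => by
      rw [h0]
      exact ⟨hu, hx⟩
  | j + 1, k, u, x, hu, hx => by
      have h2 := hφ x (k + j) u hu hx
      have h3 := hm.lt (k + j) u hu
      rw [h1, Function.iterate_succ_apply]
      exact it_map hm it h0 h1 hφ j k _ (φ x) h3 h2

private theorem it_pi {T : ℕ → Lay} (h : Tw T) : ∀ (j k u : ℕ) (x : ℝ), u < (T (k + j)).N →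
    x ∈ Blk T (k + j) u → itP T j k u < (T k).N ∧ x ∈ Blk T k (itP T j k u)
  | 0, _, _, _, hu, hx => ⟨hu, hx⟩
  | j + 1, k, u, x, hu, hx =>
      it_pi h j k _ x ((h.ok (k + j)).pi_lt u hu) (blk_sub h (k + j) u hu hx)

/-- A tower which kills every period gives two commuting interval maps without a common periodic
point. -/
theorem realise (T : ℕ → Lay) (hT : ∀ h, 2 ≤ h → TOK T h)
    (hk : ∀ q, 1 ≤ q → ∃ h, Kill T h q) :
    ∃ f g : C(Set.Icc (0 : ℝ) 1, Set.Icc (0 : ℝ) 1),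
      (⇑f ∘ ⇑g = ⇑g ∘ ⇑f) ∧
        ¬ (Function.periodicPts ⇑f ∩ Function.periodicPts ⇑g).Nonempty := by
  have hinv : ∀ k, Inv (T k) (T (k + 1)) (T (k + 2)) := fun k =>
    (hT (k + 2) (by omega)).inv k le_rfl
  have hok : ∀ k, LayOK (T k).N (T (k + 1)) := fun k => (hinv k).okQ
  have h : Tw T := by
    refine ⟨?_, ?_, hok, fun k v hv => (hinv k).two v hv⟩
    · rw [(hT 2 le_rfl).t0]; rfl
    · rw [(hT 2 le_rfl).t1]; rfl
  have hF : Mp T (fun k => (T k).F) :=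
    ⟨fun k u hu => (hok k).F_lt u hu, fun k u u' hu hu' hn => (layer_F_nr (hok k) hu hu' hn).1,
      fun k u hu => (hinv k).piF u hu⟩
  have hG : Mp T (fun k => (T k).G) :=
    ⟨fun k u hu => (hok k).G_lt u hu, fun k u u' hu hu' hn => (layer_F_nr (hok k) hu hu' hn).2.1,
      fun k u hu => (hinv k).piG u hu⟩
  obtain ⟨f, hf⟩ := map_exists h hF
  obtain ⟨g, hg⟩ := map_exists h hG
  have hcomm : (⇑f ∘ ⇑g = ⇑g ∘ ⇑f) := by
    funext x
    apply Subtype.ext
    simp only [Function.comp_apply]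
    by_contra hne
    obtain ⟨k, hk'⟩ := pow_small (abs_pos.2 (sub_ne_zero.2 hne))
    obtain ⟨u, hu, hxu⟩ := blk_cover h x.2 (k + 2)
    have h1 := hg x (k + 1) u hu hxu
    have h2 : (f (g x) : ℝ) ∈ Blk T k ((T (k + 1)).F ((T (k + 2)).G u)) :=
      hf (g x) k _ (hG.lt (k + 1) u hu) h1
    have h3 := hf x (k + 1) u hu hxu
    have h4 : (g (f x) : ℝ) ∈ Blk T k ((T (k + 1)).G ((T (k + 2)).F u)) :=
      hg (f x) k _ (hF.lt (k + 1) u hu) h3
    have h5 := (hinv k).comm u hu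
    have h6 : (T (k + 1)).F ((T (k + 2)).G u) < (T k).N := hF.lt k _ (hG.lt (k + 1) u hu)
    rw [← h5] at h4
    have h7 := dist_nr h k h6 h6 ⟨by omega, by omega⟩ h2 h4
    linarith
  refine ⟨f, g, hcomm, ?_⟩
  rintro ⟨x, hxf, hxg⟩
  obtain ⟨a, ha, hfa⟩ := Function.mem_periodicPts.1 hxf
  obtain ⟨b, hb, hgb⟩ := Function.mem_periodicPts.1 hxg
  have hfq : Function.IsPeriodicPt ⇑f (a * b) x := hfa.mul_const b
  have hgq : Function.IsPeriodicPt ⇑g (a * b) x := by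
    rw [mul_comm]
    exact hgb.mul_const a
  obtain ⟨_, n, j, -, hkill⟩ := hk (a * b) (Nat.mul_pos ha hb)
  obtain ⟨v, hv, hxv⟩ := blk_cover h x.2 (n + a * b + j)
  apply hkill v hv
  constructor
  · obtain ⟨h1, h2⟩ := it_map hF (itF T) (fun _ _ => rfl) (fun _ _ _ => rfl) hf j (n + a * b) v x hv hxv
    obtain ⟨h3, h4⟩ := it_map hF (itF T) (fun _ _ => rfl) (fun _ _ _ => rfl) hf (a * b) n _ _ h1 h2
    obtain ⟨h5, h6⟩ := it_pi h (a * b) n _ _ h1 h2
    have h7 : (⇑f)^[a * b] ((⇑f)^[j] x) = (⇑f)^[j] x := by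
      rw [← Function.iterate_add_apply, add_comm, Function.iterate_add_apply, hfq.eq]
    rw [h7] at h4
    exact blk_nr h n h3 h5 h4 h6
  · obtain ⟨h1, h2⟩ := it_map hG (itG T) (fun _ _ => rfl) (fun _ _ _ => rfl) hg j (n + a * b) v x hv hxv
    obtain ⟨h3, h4⟩ := it_map hG (itG T) (fun _ _ => rfl) (fun _ _ _ => rfl) hg (a * b) n _ _ h1 h2
    obtain ⟨h5, h6⟩ := it_pi h (a * b) n _ _ h1 h2
    have h7 : (⇑g)^[a * b] ((⇑g)^[j] x) = (⇑g)^[j] x := by
      rw [← Function.iterate_add_apply, add_comm, Function.iterate_add_apply, hgq.eq]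
    rw [h7] at h4
    exact blk_nr h n h3 h5 h4 h6

end Pool.Agent.Work.NoCP
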