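import Pool.Agent.Work.NoCP.Infinite
import Pool.Agent.Work.NoCP.Realise

set_option autoImplicit false

namespace Pool.Agent.Work.NoCP

/-- Two commuting continuous self-maps of `[0, 1]` without a common periodic point. -/
theorem no_common_periodic : ∃ f g : C(Set.Icc (0 : ℝ) 1, Set.Icc (0 : ℝ) 1),
    (⇑f ∘ ⇑g = ⇑g ∘ ⇑f) ∧ ¬ (Function.periodicPts ⇑f ∩ Function.periodicPts ⇑g).Nonempty := by
  obtain ⟨T, h1, h2⟩ := infinite_tower
  exact realise T h1 h2

end Pool.Agent.Work.NoCP
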