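import Pool.Agent.Work.NoCP.Defs

set_option autoImplicit false

namespace Pool.Agent.Work.NoCP

private theorem lb_order {n : ℕ} {L : Lay} (h : LayOK n L) {v : ℕ} :
    ∀ w : ℕ, v < w → w < n → L.lst v < L.fst w := by
  intro w
  induction w with
  | zero =>
    intro hv _
    omega
  | succ w ih =>
    intro hv hw
    have h1 := h.fst_succ w hw
    by_cases hvw : v = w
    · subst hvw
      omega
    · have h2 := ih (by omega) (by omega)
      have h3 := h.fst_le w (by omega)
      omega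

/-- Basic facts on layers: children of `v` are the interval `[fst v, lst v]`. -/
theorem layer_mem {n : ℕ} {L : Lay} (h : LayOK n L) {v u : ℕ} (hv : v < n)
    (h0 : L.fst v ≤ u) (h1 : u ≤ L.lst v) : u < L.N ∧ L.pi u = v := by
  have hpos := h.pos
  have htop := h.lst_top
  have hN : u < L.N := by
    by_cases hv' : v = n - 1
    · subst hv'
      omega
    · have h2 := lb_order h (v := v) (n - 1) (by omega) (by omega)
      have h3 := h.fst_le (n - 1) (by omega)
      omega
  refine ⟨hN, ?_⟩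
  have h4 := h.pi_lt u hN
  have h5 := h.fst_pi u hN
  have h6 := h.le_lst u hN
  rcases lt_trichotomy (L.pi u) v with h7 | h7 | h7
  · have h8 := lb_order h (v := L.pi u) v h7 hv
    omega
  · exact h7
  · have h8 := lb_order h (v := v) (L.pi u) h7 h4
    omega

theorem layer_lst_lt {n : ℕ} {L : Lay} (h : LayOK n L) {v : ℕ} (hv : v < n) :
    L.fst v < L.N ∧ L.lst v < L.N := by
  have h1 := h.fst_le v hv
  exact ⟨(layer_mem h hv le_rfl h1).1, (layer_mem h hv h1 le_rfl).1⟩

/-- the children intervals are ordered -/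
theorem layer_order {n : ℕ} {L : Lay} (h : LayOK n L) {v w : ℕ} (hv : v < w) (hw : w < n) :
    L.lst v < L.fst w := by
  exact lb_order h w hv hw

theorem layer_near {n : ℕ} {L : Lay} (h : LayOK n L) {v v' : ℕ} (hv : v < n) (hv' : v' < n)
    (ha : Adj v v') : In (L.fst v) (L.lst v) (near L v v') ∧
      In (L.fst v') (L.lst v') (near L v' v) ∧ Adj (near L v v') (near L v' v) := by
  have h1 := h.fst_le v hv
  have h2 := h.fst_le v' hv'
  rcases ha with ha | ha
  · subst ha
    have h3 := h.fst_succ v hv'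
    have e1 : near L v (v + 1) = L.lst v := by
      unfold near
      rw [if_pos (by omega)]
    have e2 : near L (v + 1) v = L.fst (v + 1) := by
      unfold near
      rw [if_neg (by omega)]
    rw [e1, e2]
    exact ⟨⟨h1, le_rfl⟩, ⟨le_rfl, h2⟩, Or.inl h3.symm⟩
  · subst ha
    have h3 := h.fst_succ v' hv
    have e1 : near L (v' + 1) v' = L.fst (v' + 1) := by
      unfold near
      rw [if_neg (by omega)]
    have e2 : near L v' (v' + 1) = L.lst v' := by
      unfold near
      rw [if_pos (by omega)]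
    rw [e1, e2]
    exact ⟨⟨le_rfl, h1⟩, ⟨h2, le_rfl⟩, Or.inr h3.symm⟩

/-- `pi` is monotone and maps neighbours to neighbours -/
theorem layer_pi_nr {n : ℕ} {L : Lay} (h : LayOK n L) {u : ℕ} (hu : u + 1 < L.N) :
    L.pi (u + 1) = L.pi u ∨ (L.pi (u + 1) = L.pi u + 1 ∧ u = L.lst (L.pi u) ∧
      u + 1 = L.fst (L.pi u + 1)) := by
  have hu' : u < L.N := by omega
  have h1 := h.pi_lt u hu'
  have h2 := h.fst_pi u hu'
  have h3 := h.le_lst u hu'
  have htop := h.lst_top
  by_cases h4 : u + 1 ≤ L.lst (L.pi u)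
  · left
    exact (layer_mem h h1 (by omega) h4).2
  · right
    have h5 : u = L.lst (L.pi u) := by omega
    have h6 : L.pi u + 1 < n := by
      by_contra h7
      have h8 : L.pi u = n - 1 := by omega
      rw [h8] at h5
      omega
    have h9 := h.fst_succ (L.pi u) h6
    have h10 := h.fst_le (L.pi u + 1) h6
    refine ⟨(layer_mem h h6 (by omega) (by omega)).2, h5, by omega⟩

theorem layer_F_nr {n : ℕ} {L : Lay} (h : LayOK n L) {u u' : ℕ} (hu : u < L.N) (hu' : u' < L.N)
    (hn : Nr u u') : Nr (L.F u) (L.F u') ∧ Nr (L.G u) (L.G u') ∧ Nr (L.pi u) (L.pi u') := by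
  have hc : u = u' ∨ u + 1 = u' ∨ u' + 1 = u := by
    unfold Nr at hn
    omega
  rcases hc with hc | hc | hc
  · subst hc
    unfold Nr
    omega
  · subst hc
    refine ⟨h.F_nr u hu', h.G_nr u hu', ?_⟩
    have h1 := layer_pi_nr h hu'
    unfold Nr
    omega
  · subst hc
    have h0 := h.F_nr u' hu
    have h0' := h.G_nr u' hu
    have h1 := layer_pi_nr h hu
    unfold Nr at *
    omega

private theorem lb_near {n : ℕ} {L : Lay} (h : LayOK n L) {u u' : ℕ} (hu : u < L.N)
    (hu' : u' < L.N) (hn : Nr u u') (hp : L.pi u ≠ L.pi u') :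
    u = near L (L.pi u) (L.pi u') := by
  have hc : u = u' ∨ u + 1 = u' ∨ u' + 1 = u := by
    unfold Nr at hn
    omega
  rcases hc with hc | hc | hc
  · subst hc
    exact absurd rfl hp
  · subst hc
    rcases layer_pi_nr h hu' with h1 | ⟨h1, h2, _⟩
    · exact absurd h1.symm hp
    · unfold near
      rw [if_pos (by omega)]
      exact h2
  · subst hc
    rcases layer_pi_nr h hu with h1 | ⟨h1, _, h2⟩
    · exact absurd h1 hp
    · unfold near
      rw [if_neg (by omega), h1]
      exact h2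

/-- In a stage: the local data at the block `e` of level `R`. -/
theorem inv_loc {P Q R : Lay} (h : Inv P Q R) {e : ℕ} (he : e < R.N) :
    Loc R.F R.G (R.fst (R.F e)) (R.lst (R.F e)) (R.fst (R.G e)) (R.lst (R.G e))
      (Q.fst (Q.F (R.G e))) (Q.lst (Q.F (R.G e))) := by
  have hb := h.okR.F_lt e he
  have hc := h.okR.G_lt e he
  refine ⟨h.okR.fst_le _ hb, h.okR.fst_le _ hc, ?_, ?_, ?_, ?_⟩
  · intro x hx1 hx2
    obtain ⟨h1, h2⟩ := layer_mem h.okR hb hx1 hx2
    have h3 := h.piG x h1
    rw [h2, ← h.comm e he] at h3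
    have h4 := h.okR.G_lt x h1
    rw [← h3]
    exact ⟨h.okQ.fst_pi _ h4, h.okQ.le_lst _ h4⟩
  · intro y hy1 hy2
    obtain ⟨h1, h2⟩ := layer_mem h.okR hc hy1 hy2
    have h3 := h.piF y h1
    rw [h2] at h3
    have h4 := h.okR.F_lt y h1
    rw [← h3]
    exact ⟨h.okQ.fst_pi _ h4, h.okQ.le_lst _ h4⟩
  · intro x hx1 hx2
    exact h.okR.G_nr x (layer_mem h.okR hb (by omega) (by omega)).1
  · intro y hy1 hy2
    exact h.okR.F_nr y (layer_mem h.okR hc (by omega) (by omega)).1

/-- In a stage: at a boundary crossed by both maps, the pair of near ends is an extreme state. -/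
theorem inv_corner {P Q R : Lay} (h : Inv P Q R) {e e' : ℕ} (he : e < R.N) (he' : e' < R.N)
    (ha : Adj e e') (hF : R.F e ≠ R.F e') (hG : R.G e ≠ R.G e') :
    St R.F R.G (R.fst (R.F e)) (R.lst (R.F e)) (R.fst (R.G e)) (R.lst (R.G e))
      (near R (R.F e) (R.F e'), near R (R.G e) (R.G e')) ∧
    (R.G (near R (R.F e) (R.F e')) = Q.fst (Q.F (R.G e)) ∨
      R.G (near R (R.F e) (R.F e')) = Q.lst (Q.F (R.G e))) ∧
    nice2 R.F R.G (near R (R.F e) (R.F e'), near R (R.G e) (R.G e'))
      (near R (R.F e') (R.F e), near R (R.G e') (R.G e)) := by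
  have hnr : Nr e e' := by
    unfold Adj at ha
    unfold Nr
    omega
  obtain ⟨hnF, hnG, -⟩ := layer_F_nr h.okR he he' hnr
  have hb := h.okR.F_lt e he
  have hb' := h.okR.F_lt e' he'
  have hc := h.okR.G_lt e he
  have hc' := h.okR.G_lt e' he'
  have haF : Adj (R.F e) (R.F e') := by
    unfold Nr at hnF
    unfold Adj
    omega
  have haG : Adj (R.G e) (R.G e') := by
    unfold Nr at hnG
    unfold Adj
    omega
  have hne : Q.F (R.G e) ≠ Q.F (R.G e') := by
    rcases ha with ha | ha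
    · subst ha
      exact h.nod e he' hF hG
    · subst ha
      exact fun h0 => h.nod e' he (Ne.symm hF) (Ne.symm hG) h0.symm
  obtain ⟨hx, hx', hxx⟩ := layer_near h.okR hb hb' haF
  obtain ⟨hy, hy', hyy⟩ := layer_near h.okR hc hc' haG
  obtain ⟨x1, x2⟩ := layer_mem h.okR hb hx.1 hx.2
  obtain ⟨x1', x2'⟩ := layer_mem h.okR hb' hx'.1 hx'.2
  obtain ⟨y1, y2⟩ := layer_mem h.okR hc hy.1 hy.2
  obtain ⟨y1', y2'⟩ := layer_mem h.okR hc' hy'.1 hy'.2
  have nxx : Nr (near R (R.F e) (R.F e')) (near R (R.F e') (R.F e)) := by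
    unfold Adj at hxx
    unfold Nr
    omega
  have nyy : Nr (near R (R.G e) (R.G e')) (near R (R.G e') (R.G e)) := by
    unfold Adj at hyy
    unfold Nr
    omega
  generalize near R (R.F e) (R.F e') = x at *
  generalize near R (R.F e') (R.F e) = x' at *
  generalize near R (R.G e) (R.G e') = y at *
  generalize near R (R.G e') (R.G e) = y' at *
  have px : Q.pi (R.G x) = Q.F (R.G e) := by
    rw [h.piG x x1, x2, h.comm e he]
  have px' : Q.pi (R.G x') = Q.F (R.G e') := by
    rw [h.piG x' x1', x2', h.comm e' he']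
  have py : Q.pi (R.F y) = Q.F (R.G e) := by
    rw [h.piF y y1, y2]
  have py' : Q.pi (R.F y') = Q.F (R.G e') := by
    rw [h.piF y' y1', y2']
  have nG := (layer_F_nr h.okR x1 x1' nxx).2.1
  have nF := (layer_F_nr h.okR y1 y1' nyy).1
  have e1 := lb_near h.okQ (h.okR.G_lt x x1) (h.okR.G_lt x' x1') nG (by rw [px, px']; exact hne)
  have e2 := lb_near h.okQ (h.okR.F_lt y y1) (h.okR.F_lt y' y1') nF (by rw [py, py']; exact hne)
  rw [px, px'] at e1
  rw [py, py'] at e2
  refine ⟨⟨hx.1, hx.2, hy.1, hy.2, ?_⟩, ?_, nxx, nyy, Or.inr (Or.inr ⟨?_, ?_⟩)⟩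
  · show R.G x = R.F y
    rw [e1, e2]
  · show R.G x = _ ∨ R.G x = _
    rw [e1]
    unfold near
    by_cases hlt : Q.F (R.G e) < Q.F (R.G e')
    · rw [if_pos hlt]
      exact Or.inr rfl
    · rw [if_neg hlt]
      exact Or.inl rfl
  · show R.G x ≠ R.G x'
    intro h0
    apply hne
    rw [← px, ← px', h0]
  · show R.F y ≠ R.F y'
    intro h0
    apply hne
    rw [← py, ← py', h0]

end Pool.Agent.Work.NoCP
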