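import Pool.Agent.Work.NoCP.LocHub

set_option autoImplicit false

namespace Pool.Agent.Work.NoCP

private theorem locA_mem_last {α : Type} {r : α → α → Prop} {S : α → Prop} {l : List α} {a b : α}
    (h : WalkL r S l a b) : b ∈ l := List.mem_of_getLast? h.2.1

private theorem locA_x {F G : ℕ → ℕ} {b0 b1 c0 c1 s t k0 k1 : ℕ}
    (h : Loc F G b0 b1 c0 c1 s t) (hJ : Sub F c0 c1 k0 k1 s t) {x y x1 : ℕ}
    (hx : In b0 b1 x) (hx1 : In b0 b1 x1) (hy : In k0 k1 y) (hv : G x = F y)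
    (he : G x = s ∨ G x = t) :
    ∃ l y1, WalkL (nice2 F G) (St F G b0 b1 k0 k1) l (x, y) (x1, y1) := by
  have hD : (iv G b0 b1).OK s t := loc_G h le_rfl le_rfl
  have hE : (iv F k0 k1).OK s t := loc_F h hJ.l hJ.r
  obtain ⟨y1, hpath⟩ := drive hD hE (iv_AF F k0 k1 s t hJ.hit) (iv_path G b0 b1 x x1 hx hx1) he
    (y0 := y) hy hv
  obtain ⟨l, hl⟩ := walk2_of_path hpath h.Gn
    (fun z hz1 hz2 => h.Fn z (le_trans hJ.l hz1) (lt_of_lt_of_le hz2 hJ.r))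
  exact ⟨l, y1, hl⟩

private theorem locA_y {F G : ℕ → ℕ} {b0 b1 c0 c1 s t i0 i1 : ℕ}
    (h : Loc F G b0 b1 c0 c1 s t) (hI : Sub G b0 b1 i0 i1 s t) {x y y1 : ℕ}
    (hx : In i0 i1 x) (hy : In c0 c1 y) (hy1 : In c0 c1 y1) (hv : G x = F y)
    (he : G x = s ∨ G x = t) :
    ∃ l x1, WalkL (nice2 F G) (St F G i0 i1 c0 c1) l (x, y) (x1, y1) := by
  have h' : Loc G F c0 c1 b0 b1 s t := ⟨h.hc, h.hb, h.Fc, h.Gb, h.Fn, h.Gn⟩
  obtain ⟨l, x1, hl⟩ := locA_x h' hI (x := y) (y := x) (x1 := y1) hy hy1 hx hv.symm (hv ▸ he)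
  exact ⟨l.map Prod.swap, x1, walkL_swap hl⟩

/-- Boundary walk of type A (both maps free): it starts and ends anywhere, ends at a hub, is safe
(`x` in `[i0, i1]` or `y` in `[k0, k1]`), and reaches `x = b0` and `y = c0`.
Start at a hub `(x, y)`; drive `x` to `b0` (`y` in `[k0, k1]`) and go back the same way; drive `y`
to `c0` (`x` in `[i0, i1]`) and go back the same way. -/
theorem locA {F G : ℕ → ℕ} {b0 b1 c0 c1 s t i0 i1 k0 k1 : ℕ}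
    (h : Loc F G b0 b1 c0 c1 s t) (hI : Sub G b0 b1 i0 i1 s t) (hJ : Sub F c0 c1 k0 k1 s t) :
    ∃ (l : List (ℕ × ℕ)) (p q : ℕ × ℕ), WalkL (nice2 F G) (St F G b0 b1 c0 c1) l p q ∧
      Hub F G i0 i1 k0 k1 s t q ∧ (∀ x ∈ l, In i0 i1 x.1 ∨ In k0 k1 x.2) ∧
      (∃ x ∈ l, x.1 = b0) ∧ (∃ x ∈ l, x.2 = c0) := by
  obtain ⟨⟨x, y⟩, hp⟩ := loc_hub hI hJ
  obtain ⟨⟨hx1, hx2, hy1, hy2, hv⟩, he⟩ := id hp
  have hxb : In b0 b1 x := ⟨le_trans hI.l hx1, le_trans hx2 hI.r⟩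
  have hyc : In c0 c1 y := ⟨le_trans hJ.l hy1, le_trans hy2 hJ.r⟩
  obtain ⟨l1, u1, h1⟩ := locA_x h hJ (x := x) (y := y) (x1 := b0) hxb ⟨le_rfl, h.hb⟩ ⟨hy1, hy2⟩ hv he
  obtain ⟨l2, u2, h2⟩ := locA_y h hI (x := x) (y := y) (y1 := c0) ⟨hx1, hx2⟩ hyc ⟨le_rfl, h.hc⟩ hv he
  have m1 : WalkL (nice2 F G) (St F G b0 b1 c0 c1) l1 (x, y) (b0, u1) :=
    walkL_mono (fun z hz => ⟨hz.1, hz.2.1, le_trans hJ.l hz.2.2.1, le_trans hz.2.2.2.1 hJ.r,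
      hz.2.2.2.2⟩) h1
  have m2 : WalkL (nice2 F G) (St F G b0 b1 c0 c1) l2 (x, y) (u2, c0) :=
    walkL_mono (fun z hz => ⟨le_trans hI.l hz.1, le_trans hz.2.1 hI.r, hz.2.2.1, hz.2.2.2.1,
      hz.2.2.2.2⟩) h2
  have r1 := walkL_reverse (nice2_symm F G) m1
  have r2 := walkL_reverse (nice2_symm F G) m2
  have k1' := walkL_append (nice2_refl F G) m1 r1
  have k2' := walkL_append (nice2_refl F G) m2 r2
  refine ⟨(l1 ++ l1.reverse) ++ (l2 ++ l2.reverse), (x, y), (x, y),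
    walkL_append (nice2_refl F G) k1' k2', hp, ?_, ?_, ?_⟩
  · intro z hz
    rw [List.mem_append, List.mem_append, List.mem_append, List.mem_reverse,
      List.mem_reverse] at hz
    have h3 : z ∈ l1 ∨ z ∈ l2 := by tauto
    rcases h3 with h3 | h3
    · have := h1.2.2.2 z h3
      exact Or.inr ⟨this.2.2.1, this.2.2.2.1⟩
    · have := h2.2.2.2 z h3
      exact Or.inl ⟨this.1, this.2.1⟩
  · exact ⟨(b0, u1), List.mem_append_left _ (List.mem_append_left _ (locA_mem_last m1)), rfl⟩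
  · exact ⟨(u2, c0), List.mem_append_right _ (List.mem_append_left _ (locA_mem_last m2)), rfl⟩

end Pool.Agent.Work.NoCP
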