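import Pool.Agent.Work.NoCP.Defs2
import Pool.Agent.Work.NoCP.LocA
import Pool.Agent.Work.NoCP.LayBasic

set_option autoImplicit false

namespace Pool.Agent.Work.NoCP

private theorem bdA_sync (f : ℕ × ℕ → ℕ) (s t : ℕ) {l : List (ℕ × ℕ)}
    (h : ∃ x ∈ l, f x = s) : Sync f s t l l := by
  obtain ⟨x, hx, hf⟩ := h
  obtain ⟨l1, l2, hl⟩ := List.append_of_mem hx
  refine ⟨l1 ++ [x], l1 ++ [x], l2, l2, ?_, ?_, rfl, x, ?_, Or.inl hf⟩
  · rw [hl]; simp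
  · rw [hl]; simp
  · simp

private theorem bdA_side {Q R : Lay} {A B : Set ℕ} (md : ℕ → ℕ → Prop)
    {i0 i1 k0 k1 : ℕ → ℕ} (e e' : ℕ) (l : List (ℕ × ℕ)) (a z : ℕ × ℕ)
    (hF : R.F e = R.F e') (hG : R.G e = R.G e')
    (hw : WalkL (nice2 R.F R.G) (stE R e) l a z) (hz : hubE Q R i0 i1 k0 k1 e z)
    (hs : ∀ p ∈ l, p.1 ∈ B ∨ p.2 ∈ A) :
    Side Q R A B md i0 i1 k0 k1 e e' l :=
  ⟨⟨a, z, hw, hz⟩, ⟨fun h => absurd hF h, fun _ h => absurd hG h, fun h => absurd hF h,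
    fun h => absurd hF h⟩, fun _ => hs⟩

/-- Boundary data of type A: both sides use the same list given by `locA`. -/
theorem bdA {P Q R : Lay} (hI : Inv P Q R) {A B : Set ℕ} (md : ℕ → ℕ → Prop)
    {i0 i1 k0 k1 : ℕ → ℕ} (hC : Choice Q R A B i0 i1 k0 k1) {e : ℕ} (he : e + 1 < R.N)
    (hF : R.F e = R.F (e + 1)) (hG : R.G e = R.G (e + 1)) :
    ∃ L1 L2, BD Q R A B md i0 i1 k0 k1 e L1 L2 := by
  have he0 : e < R.N := by omega
  have hloc := inv_loc hI he0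
  have hb := hI.okR.F_lt e he0
  have hc := hI.okR.G_lt e he0
  have hS1 := hC.i (R.F e) hb
  have hS2 := hC.k (R.G e) hc
  rw [← hI.comm e he0] at hS1
  obtain ⟨l, p, q, hw, hq, hsafe, hx, hy⟩ := locA hloc hS1 hS2
  have hs : ∀ p ∈ l, p.1 ∈ B ∨ p.2 ∈ A := by
    intro p hp
    rcases hsafe p hp with h | h
    · exact Or.inl (hC.iB _ hb _ h)
    · exact Or.inr (hC.kA _ hc _ h)
  have hst : stE R (e + 1) = stE R e := by unfold stE; rw [hF, hG]
  have hhub : hubE Q R i0 i1 k0 k1 (e + 1) = hubE Q R i0 i1 k0 k1 e := by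
    unfold hubE; rw [hF, hG]
  have hne : l.head? = some p := hw.1
  refine ⟨l, l, ?_, ?_, ?_, ?_, ?_⟩
  · exact bdA_side md e (e + 1) l p q hF hG hw hq hs
  · exact bdA_side md (e + 1) e l p q hF.symm hG.symm (by rw [hst]; exact hw)
      (by rw [hhub]; exact hq) hs
  · intro p1 q1 h1 h2
    rw [h1] at h2
    cases h2
    exact nice2_refl _ _ _
  · intro _
    exact bdA_sync _ _ _ hx
  · intro _
    exact bdA_sync _ _ _ hy

end Pool.Agent.Work.NoCP
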