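import Pool.Agent.Work.NoCP.LocHub

set_option autoImplicit false

namespace Pool.Agent.Work.NoCP

private theorem path_map' {α β : Type} {D : Dom α} {E : Dom β} (f : α → β)
    (hS : ∀ a, D.S a → E.S (f a)) (hst : ∀ a b, D.S a → D.S b → D.st a b → E.st (f a) (f b))
    {a b : α} (h : D.Path a b) : E.Path (f a) (f b) := by
  obtain ⟨ha, hb, hp⟩ := h
  refine ⟨hS a ha, hS b hb, ?_⟩
  clear hb
  induction hp with
  | refl => exact Relation.ReflTransGen.refl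
  | tail _ h2 ih =>
    exact ih.tail ⟨hS _ h2.1, hS _ h2.2.1, hst _ _ h2.1 h2.2.1 h2.2.2⟩

private theorem nice3_symm' (F G : ℕ → ℕ) (p q : ℕ × ℕ × ℕ) (h : nice3 F G p q) :
    nice3 F G q p := by
  obtain ⟨h1, h2, h3, h4⟩ := h
  refine ⟨⟨h1.2, h1.1⟩, ⟨h2.2, h2.1⟩, ⟨h3.2, h3.1⟩, ?_⟩
  rcases h4 with h | h | h | h
  · exact Or.inl ⟨h.1.symm, h.2.symm⟩
  · exact Or.inr (Or.inl ⟨h.1.symm, h.2.symm⟩)
  · exact Or.inr (Or.inr (Or.inl ⟨h.1.symm, h.2.symm⟩))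
  · exact Or.inr (Or.inr (Or.inr ⟨h.1.symm, h.2.1.symm, h.2.2.symm⟩))

private theorem walk_first {α : Type} {r : α → α → Prop} {S : α → Prop} {l : List α} {a b : α}
    (h : WalkL r S l a b) : a ∈ l := List.mem_of_head? h.1

private theorem walk_last {α : Type} {r : α → α → Prop} {S : α → Prop} {l : List α} {a b : α}
    (h : WalkL r S l a b) : b ∈ l := List.mem_of_getLast? h.2.1

/-- a walk there and back -/
private theorem walk_back {F G : ℕ → ℕ} {S : ℕ × ℕ × ℕ → Prop} {l : List (ℕ × ℕ × ℕ)}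
    {a b : ℕ × ℕ × ℕ} (h : WalkL (nice3 F G) S l a b) :
    WalkL (nice3 F G) S (l ++ l.reverse) a a ∧ b ∈ l ++ l.reverse :=
  ⟨walkL_append (nice3_refl F G) h (walkL_reverse (nice3_symm' F G) h),
    List.mem_append_left _ (walk_last h)⟩

private theorem path_seq' {α : Type} {D : Dom α} (n : ℕ) (x : ℕ → α) (hS : ∀ i, i ≤ n → D.S (x i))
    (hst : ∀ i, i < n → D.st (x i) (x (i + 1))) : D.Path (x 0) (x n) := by
  refine ⟨hS 0 (Nat.zero_le n), hS n le_rfl, ?_⟩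
  have : ∀ j, j ≤ n → Relation.ReflTransGen D.stp (x 0) (x j) := by
    intro j
    induction j with
    | zero => intro _; exact Relation.ReflTransGen.refl
    | succ j ih =>
      intro hj
      exact (ih (by omega)).tail ⟨hS j (by omega), hS (j + 1) hj, hst j (by omega)⟩
  exact this n le_rfl

/-- Boundary walk of type B (`F` crosses, `G` free): walkers `x` in `ch b`, `x'` in `ch b'` (value `G`),
`y` in `ch c` (value `F`). `hM` is the mirror property of `G` at the boundary `(b, b')`, starting at the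
near ends `nb`, `nb'`.
Proof: reversed drive (first walker = the pair `(x, x')`, second walker `y` in `[k0, k1]`) from the near
ends to an extreme triple; from there drive `x` to `b0` and back, to `b1` and back, `x'` to `b0'` and
back, to `b1'` and back (always `y` in `[k0, k1]`; partner of `x` is `(x', y)`); this is `l1`. Then drive
`x` into `[i0, i1]` (extreme position), `x'` into `[i0', i1']` (extreme position; partner `(x, y)` with `x` in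
`[i0, i1]`), finally `y` to `c0` and back (partner `(x, x')` in `[i0, i1] × [i0', i1']`). -/
theorem locB {F G : ℕ → ℕ} {b0 b1 b0' b1' c0 c1 s t i0 i1 i0' i1' k0 k1 : ℕ}
    (h : Loc F G b0 b1 c0 c1 s t) (h' : Loc F G b0' b1' c0 c1 s t)
    (hI : Sub G b0 b1 i0 i1 s t) (hI' : Sub G b0' b1' i0' i1' s t) (hJ : Sub F c0 c1 k0 k1 s t)
    {n : ℕ} {z z' : ℕ → ℕ}
    (hM : ∀ i, i ≤ n → In b0 b1 (z i) ∧ In b0' b1' (z' i) ∧ G (z i) = G (z' i))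
    (hM' : ∀ i, i < n → Nr (z i) (z (i + 1)) ∧ Nr (z' i) (z' (i + 1)))
    (hE : G (z n) = s ∨ G (z n) = t) :
    ∃ (l1 l2 : List (ℕ × ℕ × ℕ)) (y : ℕ) (q : ℕ × ℕ × ℕ),
      WalkL (nice3 F G) (St3 F G b0 b1 b0' b1' c0 c1) (l1 ++ l2) (z 0, z' 0, y) q ∧
      In i0 i1 q.1 ∧ In i0' i1' q.2.1 ∧ In k0 k1 q.2.2 ∧ (G q.1 = s ∨ G q.1 = t) ∧
      (∀ x ∈ l1, In k0 k1 x.2.2) ∧
      (∃ x ∈ l1, x.1 = b0) ∧ (∃ x ∈ l1, x.1 = b1) ∧
      (∃ x ∈ l1, x.2.1 = b0') ∧ (∃ x ∈ l1, x.2.1 = b1') ∧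
      (∀ x ∈ l2, In k0 k1 x.2.2 ∨ (In i0 i1 x.1 ∧ In i0' i1' x.2.1)) ∧
      (∃ x ∈ l1 ++ l2, x.2.2 = c0) := by
  -- the walkers
  have okX : (iv G b0 b1).OK s t := loc_G h le_rfl le_rfl
  have okX' : (iv G b0' b1').OK s t := loc_G h' le_rfl le_rfl
  have okY : (iv F c0 c1).OK s t := loc_F h le_rfl le_rfl
  have okJ : (iv F k0 k1).OK s t := loc_F h hJ.l hJ.r
  have okI : (iv G i0 i1).OK s t := loc_G h hI.l hI.r
  have okI' : (iv G i0' i1').OK s t := loc_G h' hI'.l hI'.r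
  have hitB : Hits G b0 b1 s t := by
    obtain ⟨⟨x, h1, h2, h3⟩, ⟨x', h1', h2', h3'⟩⟩ := hI.hit
    exact ⟨⟨x, hI.l.trans h1, h2.trans hI.r, h3⟩, ⟨x', hI.l.trans h1', h2'.trans hI.r, h3'⟩⟩
  have hitB' : Hits G b0' b1' s t := by
    obtain ⟨⟨x, h1, h2, h3⟩, ⟨x', h1', h2', h3'⟩⟩ := hI'.hit
    exact ⟨⟨x, hI'.l.trans h1, h2.trans hI'.r, h3⟩, ⟨x', hI'.l.trans h1', h2'.trans hI'.r, h3'⟩⟩
  have afX : (iv G b0 b1).AF s t := iv_AF G b0 b1 s t hitB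
  have afX' : (iv G b0' b1').AF s t := iv_AF G b0' b1' s t hitB'
  have afJ : (iv F k0 k1).AF s t := iv_AF F k0 k1 s t hJ.hit
  have afI : (iv G i0 i1).AF s t := iv_AF G i0 i1 s t hI.hit
  have afI' : (iv G i0' i1').AF s t := iv_AF G i0' i1' s t hI'.hit
  -- conversions of paths to walks
  have conv0 : ∀ {a a' y u u' w : ℕ},
      (((iv G b0 b1).prod (iv G b0' b1')).prod (iv F k0 k1)).Path ((a, a'), y) ((u, u'), w) →
      ∃ l, WalkL (nice3 F G) (St3 F G b0 b1 b0' b1' k0 k1) l (a, a', y) (u, u', w) := by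
    intro a a' y u u' w hp
    exact walk3_of_path hp
  have conv1 : ∀ {a a' y u u' w : ℕ},
      ((iv G b0 b1).prod ((iv G b0' b1').prod (iv F k0 k1))).Path (a, (a', y)) (u, (u', w)) →
      ∃ l, WalkL (nice3 F G) (St3 F G b0 b1 b0' b1' k0 k1) l (a, a', y) (u, u', w) := by
    intro a a' y u u' w hp
    refine conv0 (path_map' (fun p : ℕ × ℕ × ℕ => ((p.1, p.2.1), p.2.2)) ?_ ?_ hp)
    · rintro ⟨x, x', y⟩ ⟨h1, ⟨h2, h3, h4⟩, h5⟩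
      exact ⟨⟨h1, h2, h5⟩, h3, h5.trans h4⟩
    · rintro ⟨x, x', y⟩ ⟨u, u', w⟩ _ _ ⟨h1, h2, h3⟩
      exact ⟨⟨h1, h2⟩, h3⟩
  have conv2 : ∀ {a a' y u u' w : ℕ},
      ((iv G b0' b1').prod ((iv G b0 b1).prod (iv F k0 k1))).Path (a', (a, y)) (u', (u, w)) →
      ∃ l, WalkL (nice3 F G) (St3 F G b0 b1 b0' b1' k0 k1) l (a, a', y) (u, u', w) := by
    intro a a' y u u' w hp
    refine conv0 (path_map' (fun p : ℕ × ℕ × ℕ => ((p.2.1, p.1), p.2.2)) ?_ ?_ hp)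
    · rintro ⟨x', x, y⟩ ⟨h1, ⟨h2, h3, h4⟩, h5⟩
      exact ⟨⟨h2, h1, h5.symm⟩, h3, h4⟩
    · rintro ⟨x', x, y⟩ ⟨u', u, w⟩ _ _ ⟨h1, h2, h3⟩
      exact ⟨⟨h2, h1⟩, h3⟩
  -- step 1
  have p1 : ((iv G b0 b1).prod (iv G b0' b1')).Path (z 0, z' 0) (z n, z' n) :=
    path_seq' n (fun i => (z i, z' i)) (fun i hi => ⟨(hM i hi).1, (hM i hi).2.1, (hM i hi).2.2⟩)
      (fun i hi => ⟨(hM' i hi).1, (hM' i hi).2⟩)
  obtain ⟨y0, y1, hp0⟩ := drive_rev (prod_OK okX okX') okJ afJ p1 hE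
  obtain ⟨w0, hw0⟩ := conv0 hp0
  have hT := hp0.2.1
  have hTx : In b0 b1 (z n) := (hM n le_rfl).1
  have hTx' : In b0' b1' (z' n) := (hM n le_rfl).2.1
  have hTy : In k0 k1 y1 := hT.2.1
  have hv1 : G (z n) = F y1 := hT.2.2
  have hv2 : G (z n) = G (z' n) := (hM n le_rfl).2.2
  -- the excursions
  have hb0 : In b0 b1 b0 := ⟨le_rfl, h.hb⟩
  have hb1 : In b0 b1 b1 := ⟨h.hb, le_rfl⟩
  have hb0' : In b0' b1' b0' := ⟨le_rfl, h'.hb⟩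
  have hb1' : In b0' b1' b1' := ⟨h'.hb, le_rfl⟩
  have exc1 : ∀ u, In b0 b1 u → ∃ l, WalkL (nice3 F G) (St3 F G b0 b1 b0' b1' k0 k1) l
      (z n, z' n, y1) (z n, z' n, y1) ∧ ∃ x ∈ l, x.1 = u := by
    intro u hu
    obtain ⟨⟨u', w⟩, hp⟩ := drive okX (prod_OK okX' okJ) (prod_AF okX' okJ afX' afJ)
      (iv_path G b0 b1 (z n) u hTx hu) hE (y0 := (z' n, y1))
      ⟨hTx', hTy, hv2.symm.trans hv1⟩ hv2
    obtain ⟨l, hl⟩ := conv1 hp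
    exact ⟨_, (walk_back hl).1, _, (walk_back hl).2, rfl⟩
  have exc2 : ∀ u', In b0' b1' u' → ∃ l, WalkL (nice3 F G) (St3 F G b0 b1 b0' b1' k0 k1) l
      (z n, z' n, y1) (z n, z' n, y1) ∧ ∃ x ∈ l, x.2.1 = u' := by
    intro u' hu'
    obtain ⟨⟨u, w⟩, hp⟩ := drive okX' (prod_OK okX okJ) (prod_AF okX okJ afX afJ)
      (iv_path G b0' b1' (z' n) u' hTx' hu') (x0 := z' n)
      (by
        change G (z' n) = s ∨ G (z' n) = t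
        rw [← hv2]
        exact hE) (y0 := (z n, y1))
      ⟨hTx, hTy, hv1⟩ hv2.symm
    obtain ⟨l, hl⟩ := conv2 hp
    exact ⟨_, (walk_back hl).1, _, (walk_back hl).2, rfl⟩
  obtain ⟨wa, hwa, xa, hxa, hxa'⟩ := exc1 b0 hb0
  obtain ⟨wb, hwb, xb, hxb, hxb'⟩ := exc1 b1 hb1
  obtain ⟨wc, hwc, xc, hxc, hxc'⟩ := exc2 b0' hb0'
  obtain ⟨wd, hwd, xd, hxd, hxd'⟩ := exc2 b1' hb1'
  have hl1 : WalkL (nice3 F G) (St3 F G b0 b1 b0' b1' k0 k1) (w0 ++ (wa ++ (wb ++ (wc ++ wd))))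
      (z 0, z' 0, y0) (z n, z' n, y1) :=
    walkL_append (nice3_refl F G) hw0 (walkL_append (nice3_refl F G) hwa
      (walkL_append (nice3_refl F G) hwb (walkL_append (nice3_refl F G) hwc hwd)))
  -- step 3: drive `x` into `[i0, i1]`
  obtain ⟨⟨xi, hxi1, hxi2, hxi3⟩, -⟩ := id hI.hit
  obtain ⟨⟨xi', hxi1', hxi2', hxi3'⟩, -⟩ := id hI'.hit
  obtain ⟨⟨x2', y2⟩, hp3⟩ := drive okX (prod_OK okX' okJ) (prod_AF okX' okJ afX' afJ)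
    (iv_path G b0 b1 (z n) xi hTx ⟨hI.l.trans hxi1, hxi2.trans hI.r⟩) hE (y0 := (z' n, y1))
    ⟨hTx', hTy, hv2.symm.trans hv1⟩ hv2
  obtain ⟨wx, hwx⟩ := conv1 hp3
  obtain ⟨-, ⟨hx2', hy2, hv3⟩, hv4⟩ := hp3.2.1
  -- step 4: drive `x'` into `[i0', i1']`
  have hv4' : G xi = G x2' := hv4
  have hv3' : G x2' = F y2 := hv3
  obtain ⟨⟨x3, y3⟩, hp4⟩ := drive okX' (prod_OK okI okJ) (prod_AF okI okJ afI afJ)
    (iv_path G b0' b1' x2' xi' hx2' ⟨hI'.l.trans hxi1', hxi2'.trans hI'.r⟩)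
    (Or.inl (hv4'.symm.trans hxi3)) (y0 := (xi, y2)) ⟨⟨hxi1, hxi2⟩, hy2, hv4'.trans hv3'⟩
    hv4'.symm
  obtain ⟨-, ⟨hx3, hy3, hv5⟩, hv6⟩ := hp4.2.1
  have hv5' : G x3 = F y3 := hv5
  have hv6' : G xi' = G x3 := hv6
  obtain ⟨wx', hwx'⟩ : ∃ l, WalkL (nice3 F G) (St3 F G b0 b1 b0' b1' k0 k1) l (xi, x2', y2)
      (x3, xi', y3) := by
    refine conv2 (path_mono ?_ ?_ hp4)
    · rintro ⟨x', x, y⟩ ⟨h1, ⟨h2, h3, h4⟩, h5⟩
      exact ⟨h1, ⟨⟨hI.l.trans h2.1, h2.2.trans hI.r⟩, h3, h4⟩, h5⟩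
    · rintro ⟨x', x, y⟩ ⟨u', u, w⟩ _ _ ⟨h1, h2, h3⟩
      exact ⟨h1, h2, h3⟩
  -- step 5: drive `y` to `c0` and back
  obtain ⟨⟨x4, x4'⟩, hp5⟩ := drive okY (prod_OK okI okI') (prod_AF okI okI' afI afI')
    (iv_path F c0 c1 y3 c0 ⟨hJ.l.trans hy3.1, hy3.2.trans hJ.r⟩ ⟨le_rfl, h.hc⟩)
    (Or.inl (hv5'.symm.trans (hv6'.symm.trans hxi3'))) (y0 := (x3, xi'))
    ⟨hx3, ⟨hxi1', hxi2'⟩, hv6'.symm⟩ hv5'.symm
  obtain ⟨wy, hwy⟩ : ∃ l, WalkL (nice3 F G) (St3 F G i0 i1 i0' i1' c0 c1) l (x3, xi', y3)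
      (x4, x4', c0) := by
    refine walk3_of_path (p := ((x3, xi'), y3)) (q := ((x4, x4'), c0))
      (path_map' (fun p : ℕ × ℕ × ℕ => ((p.2.1, p.2.2), p.1)) ?_ ?_ hp5)
    · rintro ⟨y, x, x'⟩ ⟨h1, ⟨h2, h3, h4⟩, h5⟩
      exact ⟨⟨h2, h3, h4⟩, h1, h5.symm⟩
    · rintro ⟨y, x, x'⟩ ⟨w, u, u'⟩ _ _ ⟨h1, h2, h3⟩
      exact ⟨⟨h2, h3⟩, h1⟩
  have hwyb := walk_back hwy
  -- the common predicate of the second part
  set S2 : ℕ × ℕ × ℕ → Prop := fun p => St3 F G b0 b1 b0' b1' c0 c1 p ∧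
    (In k0 k1 p.2.2 ∨ (In i0 i1 p.1 ∧ In i0' i1' p.2.1)) with hS2
  have mono1 : ∀ p, St3 F G b0 b1 b0' b1' k0 k1 p → St3 F G b0 b1 b0' b1' c0 c1 p := by
    rintro ⟨x, x', y⟩ ⟨h1, h2, h3, h4, h5, h6, h7, h8⟩
    exact ⟨h1, h2, h3, h4, hJ.l.trans h5, h6.trans hJ.r, h7, h8⟩
  have mono2 : ∀ p, St3 F G b0 b1 b0' b1' k0 k1 p → S2 p := by
    intro p hp
    refine ⟨mono1 p hp, Or.inl ?_⟩
    obtain ⟨h1, h2, h3, h4, h5, h6, h7, h8⟩ := hp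
    exact ⟨h5, h6⟩
  have mono3 : ∀ p, St3 F G i0 i1 i0' i1' c0 c1 p → S2 p := by
    rintro ⟨x, x', y⟩ ⟨h1, h2, h3, h4, h5, h6, h7, h8⟩
    exact ⟨⟨hI.l.trans h1, h2.trans hI.r, hI'.l.trans h3, h4.trans hI'.r, h5, h6, h7, h8⟩,
      Or.inr ⟨⟨h1, h2⟩, ⟨h3, h4⟩⟩⟩
  have hl2 : WalkL (nice3 F G) S2 (wx ++ (wx' ++ (wy ++ wy.reverse))) (z n, z' n, y1)
      (x3, xi', y3) :=
    walkL_append (nice3_refl F G) (walkL_mono mono2 hwx)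
      (walkL_append (nice3_refl F G) (walkL_mono mono2 hwx') (walkL_mono mono3 hwyb.1))
  refine ⟨w0 ++ (wa ++ (wb ++ (wc ++ wd))), wx ++ (wx' ++ (wy ++ wy.reverse)), y0,
    (x3, xi', y3), ?_, hx3, ⟨hxi1', hxi2'⟩, hy3, Or.inl (hv6'.symm.trans hxi3'), ?_, ?_, ?_, ?_,
    ?_, ?_, ?_⟩
  · exact walkL_append (nice3_refl F G) (walkL_mono mono1 hl1)
      (walkL_mono (fun p hp => hp.1) hl2)
  · intro p hp
    obtain ⟨h1, h2, h3, h4, h5, h6, h7, h8⟩ := hl1.2.2.2 p hp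
    exact ⟨h5, h6⟩
  · exact ⟨xa, by simp [hxa], hxa'⟩
  · exact ⟨xb, by simp [hxb], hxb'⟩
  · exact ⟨xc, by simp [hxc], hxc'⟩
  · exact ⟨xd, by simp [hxd], hxd'⟩
  · intro p hp
    exact (hl2.2.2.2 p hp).2
  · refine ⟨(x4, x4', c0), ?_, rfl⟩
    exact List.mem_append_right _ (List.mem_append_right _ (List.mem_append_right _ hwyb.2))

end Pool.Agent.Work.NoCP
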