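import Pool.Agent.Work.NoCP.Defs2
import Pool.Agent.Work.NoCP.LocB
import Pool.Agent.Work.NoCP.LayBasic

set_option autoImplicit false

namespace Pool.Agent.Work.NoCP

private theorem walk_map {α β : Type} {r : α → α → Prop} {r' : β → β → Prop} {S : α → Prop}
    {S' : β → Prop} (f : α → β) (hr : ∀ a b, r a b → r' (f a) (f b)) (hS : ∀ a, S a → S' (f a))
    {l : List α} {a b : α} (h : WalkL r S l a b) : WalkL r' S' (l.map f) (f a) (f b) := by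
  obtain ⟨h1, h2, h3, h4⟩ := h
  refine ⟨?_, ?_, ?_, ?_⟩
  · rw [List.head?_map, h1]
    rfl
  · rw [List.getLast?_map, h2]
    rfl
  · rw [List.isChain_map]
    exact h3.imp fun a b hab => hr a b hab
  · intro p hp
    obtain ⟨x, hx, rfl⟩ := List.mem_map.1 hp
    exact hS x (h4 x hx)

private theorem mkSide {Q R : Lay} {A B : Set ℕ} {md : ℕ → ℕ → Prop} {i0 i1 k0 k1 : ℕ → ℕ}
    {e e' : ℕ} (f : ℕ × ℕ × ℕ → ℕ × ℕ) (l1 l2 : List (ℕ × ℕ × ℕ)) {a z : ℕ × ℕ}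
    (hw : WalkL (nice2 R.F R.G) (stE R e) ((l1 ++ l2).map f) a z)
    (hz : hubE Q R i0 i1 k0 k1 e z) (hF : R.F e ≠ R.F e') (hG : R.G e = R.G e')
    (hA1 : ∀ x ∈ l1, (f x).2 ∈ A) (h0 : ∃ x ∈ l1, (f x).1 = R.fst (R.F e))
    (h1 : ∃ x ∈ l1, (f x).1 = R.lst (R.F e)) (h2 : ∀ x ∈ l2, (f x).1 ∈ B ∨ (f x).2 ∈ A) :
    Side Q R A B md i0 i1 k0 k1 e e' ((l1 ++ l2).map f) := by
  refine ⟨⟨a, z, hw, hz⟩, ⟨?_, ?_, ?_, ?_⟩, ?_⟩
  · intro _ _
    refine ⟨l1.map f, l2.map f, List.map_append, ?_, ?_, ?_⟩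
    · intro p hp
      obtain ⟨x, hx, rfl⟩ := List.mem_map.1 hp
      exact hA1 x hx
    · obtain ⟨x, hx, hx'⟩ := h0
      exact ⟨f x, List.mem_map_of_mem hx, hx'⟩
    · obtain ⟨x, hx, hx'⟩ := h1
      exact ⟨f x, List.mem_map_of_mem hx, hx'⟩
  · intro h _
    exact absurd h hF
  · intro _ h _
    exact absurd hG h
  · intro _ h _
    exact absurd hG h
  · intro _ p hp
    obtain ⟨x, hx, rfl⟩ := List.mem_map.1 hp
    rcases List.mem_append.1 hx with hx | hx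
    · exact Or.inr (hA1 x hx)
    · exact h2 x hx

private theorem nice_l (F G : ℕ → ℕ) (p q : ℕ × ℕ × ℕ) (h : nice3 F G p q) :
    nice2 F G (p.1, p.2.2) (q.1, q.2.2) := by
  obtain ⟨h1, -, h3, h4⟩ := h
  refine ⟨h1, h3, ?_⟩
  rcases h4 with h | h | h | h
  · exact Or.inl h.1
  · exact Or.inl h.1
  · exact Or.inr (Or.inl h.2)
  · exact Or.inr (Or.inr ⟨h.1, h.2.2⟩)

private theorem nice_r (F G : ℕ → ℕ) (p q : ℕ × ℕ × ℕ) (h : nice3 F G p q) :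
    nice2 F G (p.2.1, p.2.2) (q.2.1, q.2.2) := by
  obtain ⟨-, h2, h3, h4⟩ := h
  refine ⟨h2, h3, ?_⟩
  rcases h4 with h | h | h | h
  · exact Or.inl h.2
  · exact Or.inr (Or.inl h.2)
  · exact Or.inl h.1
  · exact Or.inr (Or.inr ⟨h.2.1, h.2.2⟩)

/-- Boundary data of type B: the two lists are the projections `(x, y)`, `(x', y)` of the list of
triples given by `locB` (applied with the mirror property `hI.mirG` at the boundary `(F e, F (e+1))`;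
note `Q.G (R.F e) = Q.F (R.G e)` by `comm`). -/
theorem bdB {P Q R : Lay} (hI : Inv P Q R) {A B : Set ℕ} (md : ℕ → ℕ → Prop)
    {i0 i1 k0 k1 : ℕ → ℕ} (hC : Choice Q R A B i0 i1 k0 k1) {e : ℕ} (he : e + 1 < R.N)
    (hF : R.F e ≠ R.F (e + 1)) (hG : R.G e = R.G (e + 1)) :
    ∃ L1 L2, BD Q R A B md i0 i1 k0 k1 e L1 L2 := by
  have he0 : e < R.N := by omega
  have hb := hI.okR.F_lt e he0
  have hb' := hI.okR.F_lt (e + 1) he
  have hc := hI.okR.G_lt e he0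
  have hnF := hI.okR.F_nr e he
  have haF : Adj (R.F e) (R.F (e + 1)) := by
    unfold Nr at hnF
    unfold Adj
    omega
  have hcm := hI.comm e he0
  have hcm' := hI.comm (e + 1) he
  rw [← hG] at hcm'
  have h := inv_loc hI he0
  have h' := inv_loc hI he
  rw [← hG] at h'
  have hi := hC.i (R.F e) hb
  have hi' := hC.i (R.F (e + 1)) hb'
  have hk := hC.k (R.G e) hc
  rw [← hcm] at hi
  rw [← hcm'] at hi'
  have hmir := hI.mirG (R.F e) (R.F (e + 1)) hb hb' haF (hcm.symm.trans hcm')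
  rw [← hcm] at hmir
  obtain ⟨n, z, z', hz0, hz0', hM, hM', hE⟩ := hmir
  obtain ⟨l1, l2, y, q, hw, hq1, hq2, hq3, hqe, hl1, hb0, hb1, hb0', hb1', hl2, hc0⟩ :=
    locB h h' hi hi' hk hM hM' hE
  have hq : St3 R.F R.G (R.fst (R.F e)) (R.lst (R.F e)) (R.fst (R.F (e + 1)))
      (R.lst (R.F (e + 1))) (R.fst (R.G e)) (R.lst (R.G e)) q :=
    hw.2.2.2 q (List.mem_of_getLast? hw.2.1)
  obtain ⟨-, -, -, -, -, -, hqv, hqv'⟩ := hq
  have hw1 : WalkL (nice2 R.F R.G) (stE R e) ((l1 ++ l2).map fun p => (p.1, p.2.2))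
      (z 0, y) (q.1, q.2.2) := by
    refine walk_map (fun p : ℕ × ℕ × ℕ => (p.1, p.2.2)) (nice_l R.F R.G) ?_ hw
    rintro ⟨x, x', w⟩ ⟨g1, g2, g3, g4, g5, g6, g7, g8⟩
    exact ⟨g1, g2, g5, g6, g7⟩
  have hw2 : WalkL (nice2 R.F R.G) (stE R (e + 1)) ((l1 ++ l2).map fun p => (p.2.1, p.2.2))
      (z' 0, y) (q.2.1, q.2.2) := by
    refine walk_map (fun p : ℕ × ℕ × ℕ => (p.2.1, p.2.2)) (nice_r R.F R.G) ?_ hw
    rintro ⟨x, x', w⟩ ⟨g1, g2, g3, g4, g5, g6, g7, g8⟩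
    unfold stE
    rw [← hG]
    exact ⟨g3, g4, g5, g6, g8⟩
  refine ⟨(l1 ++ l2).map fun p => (p.1, p.2.2), (l1 ++ l2).map fun p => (p.2.1, p.2.2),
    ?_, ?_, ?_, ?_, ?_⟩
  · refine mkSide (fun p : ℕ × ℕ × ℕ => (p.1, p.2.2)) l1 l2 hw1 ?_ hF hG
      (fun x hx => hC.kA (R.G e) hc _ (hl1 x hx)) hb0 hb1 ?_
    · exact ⟨⟨hq1.1, hq1.2, hq3.1, hq3.2, hqv⟩, hqe⟩
    · intro x hx
      rcases hl2 x hx with g | g
      · exact Or.inr (hC.kA (R.G e) hc _ g)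
      · exact Or.inl (hC.iB (R.F e) hb _ g.1)
  · refine mkSide (fun p : ℕ × ℕ × ℕ => (p.2.1, p.2.2)) l1 l2 hw2 ?_ (Ne.symm hF) hG.symm
      (fun x hx => hC.kA (R.G e) hc _ (hl1 x hx)) hb0' hb1' ?_
    · unfold hubE
      rw [← hG]
      refine ⟨⟨hq2.1, hq2.2, hq3.1, hq3.2, hqv'⟩, ?_⟩
      show R.G q.2.1 = _ ∨ R.G q.2.1 = _
      rw [hqv', ← hqv]
      exact hqe
    · intro x hx
      rcases hl2 x hx with g | g
      · exact Or.inr (hC.kA (R.G e) hc _ g)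
      · exact Or.inl (hC.iB (R.F (e + 1)) hb' _ g.2)
  · intro p1 p2 hp1 hp2
    rw [hw1.1] at hp1
    rw [hw2.1] at hp2
    obtain rfl := Option.some.inj hp1
    obtain rfl := Option.some.inj hp2
    obtain ⟨-, -, hn⟩ := layer_near hI.okR hb hb' haF
    rw [← hz0, ← hz0'] at hn
    refine ⟨?_, ⟨Nat.le_succ y, Nat.le_succ y⟩, Or.inr (Or.inl rfl)⟩
    unfold Adj at hn
    unfold Nr
    omega
  · intro h0
    exact absurd h0 hF
  · intro _
    obtain ⟨x, hx, hxc⟩ := hc0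
    obtain ⟨u, v, huv⟩ := List.append_of_mem hx
    refine ⟨(u ++ [x]).map fun p => (p.1, p.2.2), (u ++ [x]).map fun p => (p.2.1, p.2.2),
      v.map fun p => (p.1, p.2.2), v.map fun p => (p.2.1, p.2.2), ?_, ?_, ?_, (x.1, x.2.2),
      ?_, Or.inl hxc⟩
    · rw [huv, ← List.map_append, List.append_assoc]
      rfl
    · rw [huv, ← List.map_append, List.append_assoc]
      rfl
    · rw [List.map_map, List.map_map]
      rfl
    · rw [List.getLast?_map, List.getLast?_append, List.getLast?_singleton]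
      rfl

end Pool.Agent.Work.NoCP
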