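import Pool.Agent.Work.NoCP.LocB

set_option autoImplicit false

namespace Pool.Agent.Work.NoCP

/-- Boundary walk of type C (`G` crosses, `F` free): `locB` with `F` and `G` exchanged; stated with the
triples `(y, y', x)`, `y` in `ch c`, `y'` in `ch c'` (value `F`), `x` in `ch b` (value `G`). -/
theorem locC {F G : ℕ → ℕ} {b0 b1 c0 c1 c0' c1' s t i0 i1 k0 k1 k0' k1' : ℕ}
    (h : Loc F G b0 b1 c0 c1 s t) (h' : Loc F G b0 b1 c0' c1' s t)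
    (hI : Sub G b0 b1 i0 i1 s t) (hJ : Sub F c0 c1 k0 k1 s t) (hJ' : Sub F c0' c1' k0' k1' s t)
    {n : ℕ} {z z' : ℕ → ℕ}
    (hM : ∀ i, i ≤ n → In c0 c1 (z i) ∧ In c0' c1' (z' i) ∧ F (z i) = F (z' i))
    (hM' : ∀ i, i < n → Nr (z i) (z (i + 1)) ∧ Nr (z' i) (z' (i + 1)))
    (hE : F (z n) = s ∨ F (z n) = t) :
    ∃ (l1 l2 : List (ℕ × ℕ × ℕ)) (x : ℕ) (q : ℕ × ℕ × ℕ),
      WalkL (nice3 G F) (St3 G F c0 c1 c0' c1' b0 b1) (l1 ++ l2) (z 0, z' 0, x) q ∧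
      In k0 k1 q.1 ∧ In k0' k1' q.2.1 ∧ In i0 i1 q.2.2 ∧ (F q.1 = s ∨ F q.1 = t) ∧
      (∀ x ∈ l1, In i0 i1 x.2.2) ∧
      (∃ x ∈ l1, x.1 = c0) ∧ (∃ x ∈ l1, x.1 = c1) ∧
      (∃ x ∈ l1, x.2.1 = c0') ∧ (∃ x ∈ l1, x.2.1 = c1') ∧
      (∀ x ∈ l2, In i0 i1 x.2.2 ∨ (In k0 k1 x.1 ∧ In k0' k1' x.2.1)) ∧
      (∃ x ∈ l1 ++ l2, x.2.2 = b0) :=
  locB (F := G) (G := F) ⟨h.hc, h.hb, h.Fc, h.Gb, h.Fn, h.Gn⟩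
    ⟨h'.hc, h'.hb, h'.Fc, h'.Gb, h'.Fn, h'.Gn⟩ hJ hJ' hI hM hM' hE

end Pool.Agent.Work.NoCP
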