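import Pool.Agent.Work.NoCP.Defs2
import Pool.Agent.Work.NoCP.LocC
import Pool.Agent.Work.NoCP.LayBasic

set_option autoImplicit false

namespace Pool.Agent.Work.NoCP

private theorem bdc_walk {F G : ℕ → ℕ} {S : ℕ × ℕ × ℕ → Prop} {S2 : ℕ × ℕ → Prop}
    (f : ℕ × ℕ × ℕ → ℕ × ℕ) (hf : ∀ p q, nice3 G F p q → nice2 F G (f p) (f q))
    (hS : ∀ p, S p → S2 (f p)) {l : List (ℕ × ℕ × ℕ)} {a z : ℕ × ℕ × ℕ}
    (h : WalkL (nice3 G F) S l a z) : WalkL (nice2 F G) S2 (l.map f) (f a) (f z) := by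
  obtain ⟨h1, h2, h3, h4⟩ := h
  refine ⟨?_, ?_, ?_, ?_⟩
  · rw [List.head?_map, h1]
    rfl
  · rw [List.getLast?_map, h2]
    rfl
  · rw [List.isChain_map]
    exact h3.imp (fun p q hpq => hf p q hpq)
  · intro p hp
    rw [List.mem_map] at hp
    obtain ⟨p', hp', rfl⟩ := hp
    exact hS p' (h4 p' hp')

private theorem bdc_sync {b0 b1 : ℕ} {l : List (ℕ × ℕ × ℕ)} (h : ∃ x ∈ l, x.2.2 = b0) :
    Sync Prod.fst b0 b1 (l.map (fun p => (p.2.2, p.1))) (l.map (fun p => (p.2.2, p.2.1))) := by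
  obtain ⟨x, hx, hx0⟩ := h
  obtain ⟨s1, s2, rfl⟩ := List.append_of_mem hx
  refine ⟨(s1 ++ [x]).map (fun p => (p.2.2, p.1)), (s1 ++ [x]).map (fun p => (p.2.2, p.2.1)),
    s2.map (fun p => (p.2.2, p.1)), s2.map (fun p => (p.2.2, p.2.1)), ?_, ?_, ?_, ?_⟩
  · simp
  · simp
  · simp
  · refine ⟨(x.2.2, x.1), ?_, Or.inl hx0⟩
    simp

/-- Boundary data of type C: the two lists are the projections `(x, y)`, `(x, y')` of the list of
triples `(y, y', x)` given by `locC` (applied with `hI.mirF` at the boundary `(G e, G (e+1))`). -/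
theorem bdC {P Q R : Lay} (hI : Inv P Q R) {A B : Set ℕ} (md : ℕ → ℕ → Prop)
    {i0 i1 k0 k1 : ℕ → ℕ} (hC : Choice Q R A B i0 i1 k0 k1) {e : ℕ} (he : e + 1 < R.N)
    (hF : R.F e = R.F (e + 1)) (hG : R.G e ≠ R.G (e + 1)) :
    ∃ L1 L2, BD Q R A B md i0 i1 k0 k1 e L1 L2 := by
  have he0 : e < R.N := by omega
  have hb := hI.okR.F_lt e he0
  have hc := hI.okR.G_lt e he0
  have hc' := hI.okR.G_lt (e + 1) he
  have hnG := hI.okR.G_nr e he
  have haG : Adj (R.G e) (R.G (e + 1)) := by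
    unfold Nr at hnG
    unfold Adj
    omega
  have hQ : Q.F (R.G (e + 1)) = Q.F (R.G e) := by
    rw [hI.comm (e + 1) he, hI.comm e he0, hF]
  have hQ2 : Q.G (R.F e) = Q.F (R.G e) := (hI.comm e he0).symm
  have hl := inv_loc hI he0
  have hl' := inv_loc hI he
  rw [← hF, hQ] at hl'
  have hi := hC.i (R.F e) hb
  rw [hQ2] at hi
  have hk := hC.k (R.G e) hc
  have hk' := hC.k (R.G (e + 1)) hc'
  rw [hQ] at hk'
  obtain ⟨n, z, z', hz0, hz0', hM, hM', hE⟩ := hI.mirF (R.G e) (R.G (e + 1)) hc hc' haG hQ.symm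
  obtain ⟨l1, l2, x, q, hw, hq1, hq2, hq3, hq4, hl1, ha1, ha2, ha3, ha4, hl2, hx0⟩ :=
    locC hl hl' hi hk hk' hM hM' hE
  have hqm : q ∈ l1 ++ l2 := List.mem_of_getLast? hw.2.1
  have hqs := hw.2.2.2 q hqm
  refine ⟨(l1 ++ l2).map (fun p => (p.2.2, p.1)), (l1 ++ l2).map (fun p => (p.2.2, p.2.1)), ?_⟩
  refine ⟨?_, ?_, ?_, ?_, ?_⟩
  · refine ⟨⟨(x, z 0), (q.2.2, q.1), ?_, ?_⟩, ⟨?_, ?_, ?_, ?_⟩, ?_⟩
    · refine bdc_walk (fun p => (p.2.2, p.1)) ?_ ?_ hw
      · intro p q hpq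
        obtain ⟨g1, g2, g3, g4⟩ := hpq
        refine ⟨g3, g1, ?_⟩
        rcases g4 with g | g | g | g
        · exact Or.inr (Or.inl g.1)
        · exact Or.inl g.2
        · exact Or.inl g.2
        · exact Or.inr (Or.inr ⟨g.2.2, g.1⟩)
      · intro p hp
        obtain ⟨g1, g2, g3, g4, g5, g6, g7, g8⟩ := hp
        exact ⟨g5, g6, g1, g2, g7.symm⟩
    · obtain ⟨g1, g2, g3, g4, g5, g6, g7, g8⟩ := hqs
      refine ⟨⟨hq3.1, hq3.2, hq1.1, hq1.2, g7.symm⟩, ?_⟩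
      show R.G q.2.2 = _ ∨ R.G q.2.2 = _
      rw [← g7]
      exact hq4
    · intro h
      exact absurd hF h
    · intro _ _
      refine ⟨l1.map (fun p => (p.2.2, p.1)), l2.map (fun p => (p.2.2, p.1)), by simp, ?_, ?_, ?_⟩
      · intro p hp
        rw [List.mem_map] at hp
        obtain ⟨p', hp', rfl⟩ := hp
        exact hC.iB _ hb _ (hl1 p' hp')
      · obtain ⟨p, hp, hp0⟩ := ha1
        exact ⟨_, List.mem_map_of_mem hp, hp0⟩
      · obtain ⟨p, hp, hp0⟩ := ha2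
        exact ⟨_, List.mem_map_of_mem hp, hp0⟩
    · intro h
      exact absurd hF h
    · intro h
      exact absurd hF h
    · intro _ p hp
      rw [List.mem_map] at hp
      obtain ⟨p', hp', rfl⟩ := hp
      rw [List.mem_append] at hp'
      rcases hp' with hp' | hp'
      · exact Or.inl (hC.iB _ hb _ (hl1 p' hp'))
      · rcases hl2 p' hp' with h | h
        · exact Or.inl (hC.iB _ hb _ h)
        · exact Or.inr (hC.kA _ hc _ h.1)
  · refine ⟨⟨(x, z' 0), (q.2.2, q.2.1), ?_, ?_⟩, ⟨?_, ?_, ?_, ?_⟩, ?_⟩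
    · refine bdc_walk (fun p => (p.2.2, p.2.1)) ?_ ?_ hw
      · intro p q hpq
        obtain ⟨g1, g2, g3, g4⟩ := hpq
        refine ⟨g3, g2, ?_⟩
        rcases g4 with g | g | g | g
        · exact Or.inr (Or.inl g.2)
        · exact Or.inl g.2
        · exact Or.inl g.2
        · exact Or.inr (Or.inr ⟨g.2.2, g.2.1⟩)
      · intro p hp
        obtain ⟨g1, g2, g3, g4, g5, g6, g7, g8⟩ := hp
        unfold stE
        rw [← hF]
        exact ⟨g5, g6, g3, g4, g8.symm⟩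
    · obtain ⟨g1, g2, g3, g4, g5, g6, g7, g8⟩ := hqs
      unfold hubE
      rw [← hF, hQ]
      refine ⟨⟨hq3.1, hq3.2, hq2.1, hq2.2, g8.symm⟩, ?_⟩
      show R.G q.2.2 = _ ∨ R.G q.2.2 = _
      rw [← g7]
      exact hq4
    · intro h
      exact absurd hF.symm h
    · intro _ _
      refine ⟨l1.map (fun p => (p.2.2, p.2.1)), l2.map (fun p => (p.2.2, p.2.1)), by simp, ?_, ?_, ?_⟩
      · intro p hp
        rw [List.mem_map] at hp
        obtain ⟨p', hp', rfl⟩ := hp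
        exact hC.iB _ hb _ (hl1 p' hp')
      · obtain ⟨p, hp, hp0⟩ := ha3
        exact ⟨_, List.mem_map_of_mem hp, hp0⟩
      · obtain ⟨p, hp, hp0⟩ := ha4
        exact ⟨_, List.mem_map_of_mem hp, hp0⟩
    · intro h
      exact absurd hF.symm h
    · intro h
      exact absurd hF.symm h
    · intro _ p hp
      rw [List.mem_map] at hp
      obtain ⟨p', hp', rfl⟩ := hp
      rw [List.mem_append] at hp'
      rcases hp' with hp' | hp'
      · exact Or.inl (hC.iB _ hb _ (hl1 p' hp'))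
      · rcases hl2 p' hp' with h | h
        · exact Or.inl (hC.iB _ hb _ h)
        · exact Or.inr (hC.kA _ hc' _ h.2)
  · intro p q' hp hq'
    rw [List.head?_map, hw.1] at hp hq'
    simp only [Option.map_some, Option.some.injEq] at hp hq'
    subst hp hq'
    have h1 := layer_near hI.okR hc hc' haG
    obtain ⟨-, -, h1⟩ := h1
    rw [← hz0, ← hz0'] at h1
    refine ⟨?_, ?_, Or.inl rfl⟩
    · unfold Nr
      omega
    · unfold Adj at h1
      unfold Nr
      show z 0 ≤ z' 0 + 1 ∧ z' 0 ≤ z 0 + 1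
      omega
  · intro _
    exact bdc_sync hx0
  · intro h
    exact absurd h hG

end Pool.Agent.Work.NoCP
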