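import Pool.Agent.Work.NoCP.LocHub

set_option autoImplicit false

namespace Pool.Agent.Work.NoCP

private theorem locD_first {α : Type} {r : α → α → Prop} {S : α → Prop} {l : List α} {a b : α}
    (h : WalkL r S l a b) : a ∈ l := by
  obtain ⟨h1, -, -, -⟩ := h
  cases l with
  | nil => simp at h1
  | cons x xs => simp at h1; simp [h1]

private theorem locD_last {α : Type} {r : α → α → Prop} {S : α → Prop} {l : List α} {a b : α}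
    (h : WalkL r S l a b) : b ∈ l := by
  obtain ⟨-, h2, -, -⟩ := h
  exact List.mem_of_getLast? h2

private theorem locD_swapPath {F G : ℕ → ℕ} {a0 a1 d0 d1 : ℕ} {p q : ℕ × ℕ}
    (h : ((iv F d0 d1).prod (iv G a0 a1)).Path p q) :
    ((iv G a0 a1).prod (iv F d0 d1)).Path p.swap q.swap := by
  obtain ⟨⟨h1, h2, h3⟩, ⟨h4, h5, h6⟩, h7⟩ := h
  refine ⟨⟨h2, h1, h3.symm⟩, ⟨h5, h4, h6.symm⟩, ?_⟩
  induction h7 with
  | refl => exact Relation.ReflTransGen.refl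
  | @tail x y _ hxy ih =>
    obtain ⟨⟨g1, g2, g3⟩, ⟨g4, g5, g6⟩, g7, g8⟩ := hxy
    exact (ih g1 g2 g3).tail ⟨⟨g2, g1, g3.symm⟩, ⟨g5, g4, g6.symm⟩, g8, g7⟩

/-- drive `x` anywhere, `y` stays in `[k0, k1]` -/
private theorem locD_drvX {F G : ℕ → ℕ} {b0 b1 c0 c1 s t k0 k1 : ℕ}
    (h : Loc F G b0 b1 c0 c1 s t) (hJ : Sub F c0 c1 k0 k1 s t)
    {p : ℕ × ℕ} (hp : St F G b0 b1 k0 k1 p) (he : G p.1 = s ∨ G p.1 = t)
    {x1 : ℕ} (hx : In b0 b1 x1) :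
    ∃ (l : List (ℕ × ℕ)) (y1 : ℕ), WalkL (nice2 F G) (St F G b0 b1 k0 k1) l p (x1, y1) := by
  obtain ⟨h1, h2, h3, h4, h5⟩ := hp
  obtain ⟨y1, hy1⟩ := drive (D := iv G b0 b1) (E := iv F k0 k1) (s := s) (t := t)
    (loc_G h (le_refl _) (le_refl _)) (loc_F h hJ.l hJ.r) (iv_AF F k0 k1 s t hJ.hit)
    (x0 := p.1) (x1 := x1) (iv_path G b0 b1 p.1 x1 ⟨h1, h2⟩ hx) he
    (y0 := p.2) ⟨h3, h4⟩ h5
  obtain ⟨l, hl⟩ := walk2_of_path hy1 h.Gn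
    (fun y a b => h.Fn y (le_trans hJ.l a) (lt_of_lt_of_le b hJ.r))
  exact ⟨l, y1, hl⟩

/-- drive `y` anywhere, `x` stays in `[j0, j1]` -/
private theorem locD_drvY {F G : ℕ → ℕ} {b0 b1 c0 c1 s t j0 j1 : ℕ}
    (h : Loc F G b0 b1 c0 c1 s t) (hj : Sub G b0 b1 j0 j1 s t)
    {p : ℕ × ℕ} (hp : St F G j0 j1 c0 c1 p) (he : G p.1 = s ∨ G p.1 = t)
    {y1 : ℕ} (hy : In c0 c1 y1) :
    ∃ (l : List (ℕ × ℕ)) (x1 : ℕ), WalkL (nice2 F G) (St F G j0 j1 c0 c1) l p (x1, y1) := by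
  obtain ⟨h1, h2, h3, h4, h5⟩ := hp
  rw [h5] at he
  obtain ⟨x1, hx1⟩ := drive (D := iv F c0 c1) (E := iv G j0 j1) (s := s) (t := t)
    (loc_F h (le_refl _) (le_refl _)) (loc_G h hj.l hj.r) (iv_AF G j0 j1 s t hj.hit)
    (x0 := p.2) (x1 := y1) (iv_path F c0 c1 p.2 y1 ⟨h3, h4⟩ hy) he
    (y0 := p.1) ⟨h1, h2⟩ h5.symm
  obtain ⟨l, hl⟩ := walk2_of_path (locD_swapPath hx1)
    (fun x a b => h.Gn x (le_trans hj.l a) (lt_of_lt_of_le b hj.r)) h.Fn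
  exact ⟨l, x1, hl⟩

private theorem locD_Loc_swap {F G : ℕ → ℕ} {b0 b1 c0 c1 s t : ℕ}
    (h : Loc F G b0 b1 c0 c1 s t) : Loc G F c0 c1 b0 b1 s t :=
  ⟨h.hc, h.hb, h.Fc, h.Gb, h.Fn, h.Gn⟩

/-- Side walk of type D, option D1: start at an extreme state `p` with `p.1` in a `G`-full interval
`[j0, j1]`; drive `y` to `c0` and back, to `c1` and back (`x` in `[j0, j1]`), then drive `y` into `[k0, k1]`
(still `x` in `[j0, j1]`); this is `l1`. Then drive `x` into `[i0, i1]` with `y` in `[k0, k1]`. -/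
theorem locD1 {F G : ℕ → ℕ} {b0 b1 c0 c1 s t i0 i1 k0 k1 j0 j1 : ℕ}
    (h : Loc F G b0 b1 c0 c1 s t) (hI : Sub G b0 b1 i0 i1 s t) (hJ : Sub F c0 c1 k0 k1 s t)
    (hj : Sub G b0 b1 j0 j1 s t) {p : ℕ × ℕ} (hp : St F G b0 b1 c0 c1 p)
    (he : G p.1 = s ∨ G p.1 = t) (hin : In j0 j1 p.1) :
    ∃ (l1 l2 : List (ℕ × ℕ)) (q : ℕ × ℕ), Hub F G i0 i1 k0 k1 s t q ∧
      WalkL (nice2 F G) (St F G b0 b1 c0 c1) (l1 ++ l2) p q ∧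
      (∀ x ∈ l1, In j0 j1 x.1) ∧ (∃ x ∈ l1, x.2 = c0) ∧ (∃ x ∈ l1, x.2 = c1) ∧
      (∀ x ∈ l2, In k0 k1 x.2) := by
  have hp' : St F G j0 j1 c0 c1 p := ⟨hin.1, hin.2, hp.2.2.1, hp.2.2.2.1, hp.2.2.2.2⟩
  obtain ⟨y0, hy1, hy2, hy3⟩ := hJ.hit.1
  obtain ⟨x0, hx1, hx2, hx3⟩ := hI.hit.1
  obtain ⟨la, xa, ha⟩ := locD_drvY h hj hp' he (y1 := c0) ⟨le_refl _, h.hc⟩
  obtain ⟨lb, xb, hb⟩ := locD_drvY h hj hp' he (y1 := c1) ⟨h.hc, le_refl _⟩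
  obtain ⟨lc, xc, hcc⟩ := locD_drvY h hj hp' he (y1 := y0)
    ⟨le_trans hJ.l hy1, le_trans hy2 hJ.r⟩
  -- the first part
  have ha' := walkL_reverse (nice2_symm F G) ha
  have hb' := walkL_reverse (nice2_symm F G) hb
  have w1 := walkL_append (nice2_refl F G) ha
    (walkL_append (nice2_refl F G) ha' (walkL_append (nice2_refl F G) hb
      (walkL_append (nice2_refl F G) hb' hcc)))
  -- the second part
  have hq1 : St F G j0 j1 c0 c1 (xc, y0) := hcc.2.2.2 _ (locD_last hcc)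
  have hq2 : St F G b0 b1 k0 k1 (xc, y0) :=
    ⟨le_trans hj.l hq1.1, le_trans hq1.2.1 hj.r, hy1, hy2, hq1.2.2.2.2⟩
  have hq3 : G (xc, y0).1 = s ∨ G (xc, y0).1 = t := Or.inl (hq1.2.2.2.2.trans hy3)
  obtain ⟨ld, yd, hd⟩ := locD_drvX h hJ hq2 hq3 (x1 := x0) ⟨le_trans hI.l hx1, le_trans hx2 hI.r⟩
  have hq4 : St F G b0 b1 k0 k1 (x0, yd) := hd.2.2.2 _ (locD_last hd)
  refine ⟨la ++ (la.reverse ++ (lb ++ (lb.reverse ++ lc))), ld, (x0, yd), ?_, ?_, ?_, ?_, ?_, ?_⟩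
  · exact ⟨⟨hx1, hx2, hq4.2.2.1, hq4.2.2.2.1, hq4.2.2.2.2⟩, Or.inl hx3⟩
  · refine walkL_append (nice2_refl F G) (walkL_mono ?_ w1) (walkL_mono ?_ hd)
    · rintro x ⟨g1, g2, g3, g4, g5⟩
      exact ⟨le_trans hj.l g1, le_trans g2 hj.r, g3, g4, g5⟩
    · rintro x ⟨g1, g2, g3, g4, g5⟩
      exact ⟨g1, g2, le_trans hJ.l g3, le_trans g4 hJ.r, g5⟩
  · intro x hx
    have := w1.2.2.2 x hx
    exact ⟨this.1, this.2.1⟩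
  · exact ⟨(xa, c0), List.mem_append_left _ (locD_last ha), rfl⟩
  · exact ⟨(xb, c1), List.mem_append_right _ (List.mem_append_right _
      (List.mem_append_left _ (locD_last hb))), rfl⟩
  · intro x hx
    have := hd.2.2.2 x hx
    exact ⟨this.2.2.1, this.2.2.2.1⟩

/-- Option D2 (coordinates exchanged). -/
theorem locD2 {F G : ℕ → ℕ} {b0 b1 c0 c1 s t i0 i1 k0 k1 j0 j1 : ℕ}
    (h : Loc F G b0 b1 c0 c1 s t) (hI : Sub G b0 b1 i0 i1 s t) (hJ : Sub F c0 c1 k0 k1 s t)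
    (hj : Sub F c0 c1 j0 j1 s t) {p : ℕ × ℕ} (hp : St F G b0 b1 c0 c1 p)
    (he : G p.1 = s ∨ G p.1 = t) (hin : In j0 j1 p.2) :
    ∃ (l1 l2 : List (ℕ × ℕ)) (q : ℕ × ℕ), Hub F G i0 i1 k0 k1 s t q ∧
      WalkL (nice2 F G) (St F G b0 b1 c0 c1) (l1 ++ l2) p q ∧
      (∀ x ∈ l1, In j0 j1 x.2) ∧ (∃ x ∈ l1, x.1 = b0) ∧ (∃ x ∈ l1, x.1 = b1) ∧
      (∀ x ∈ l2, In i0 i1 x.1) := by
  have hps : St G F c0 c1 b0 b1 p.swap :=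
    ⟨hp.2.2.1, hp.2.2.2.1, hp.1, hp.2.1, hp.2.2.2.2.symm⟩
  have hes : F p.swap.1 = s ∨ F p.swap.1 = t := by
    have : G p.1 = F p.swap.1 := hp.2.2.2.2
    rwa [← this]
  obtain ⟨l1, l2, q, hq, hw, h1, ⟨u, hu, hu'⟩, ⟨v, hv, hv'⟩, h4⟩ :=
    locD1 (locD_Loc_swap h) hJ hI hj hps hes hin
  refine ⟨l1.map Prod.swap, l2.map Prod.swap, q.swap, ?_, ?_, ?_, ?_, ?_, ?_⟩
  · obtain ⟨⟨g1, g2, g3, g4, g5⟩, g6⟩ := hq
    refine ⟨⟨g3, g4, g1, g2, g5.symm⟩, ?_⟩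
    have : F q.1 = G q.swap.1 := g5
    rwa [← this]
  · have := walkL_swap hw
    rw [List.map_append, Prod.swap_swap] at this
    exact this
  · intro x hx
    obtain ⟨z, hz, rfl⟩ := List.mem_map.1 hx
    exact h1 z hz
  · exact ⟨u.swap, List.mem_map.2 ⟨u, hu, rfl⟩, hu'⟩
  · exact ⟨v.swap, List.mem_map.2 ⟨v, hv, rfl⟩, hv'⟩
  · intro x hx
    obtain ⟨z, hz, rfl⟩ := List.mem_map.1 hx
    exact h4 z hz

private theorem locD_full {M : ℕ → ℕ} {a0 a1 i0 i1 s t : ℕ} (h : Sub M a0 a1 i0 i1 s t) :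
    Sub M a0 a1 a0 a1 s t := by
  obtain ⟨⟨x, hx1, hx2, hx3⟩, ⟨y, hy1, hy2, hy3⟩⟩ := h.hit
  exact ⟨le_refl _, le_trans h.l (le_trans h.m h.r), le_refl _,
    ⟨⟨x, le_trans h.l hx1, le_trans hx2 h.r, hx3⟩, ⟨y, le_trans h.l hy1, le_trans hy2 h.r, hy3⟩⟩⟩

/-- Option D3: any walk from an extreme state to a hub (`loc_conn` for the full intervals). -/
theorem locD3 {F G : ℕ → ℕ} {b0 b1 c0 c1 s t i0 i1 k0 k1 : ℕ}
    (h : Loc F G b0 b1 c0 c1 s t) (hI : Sub G b0 b1 i0 i1 s t) (hJ : Sub F c0 c1 k0 k1 s t)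
    {p : ℕ × ℕ} (hp : St F G b0 b1 c0 c1 p) (he : G p.1 = s ∨ G p.1 = t) :
    ∃ (l : List (ℕ × ℕ)) (q : ℕ × ℕ), Hub F G i0 i1 k0 k1 s t q ∧
      WalkL (nice2 F G) (St F G b0 b1 c0 c1) l p q := by
  obtain ⟨q, hq⟩ := loc_hub (F := F) (G := G) hI hJ
  have hq' : Hub F G b0 b1 c0 c1 s t q := by
    obtain ⟨⟨g1, g2, g3, g4, g5⟩, g6⟩ := hq
    exact ⟨⟨le_trans hI.l g1, le_trans g2 hI.r, le_trans hJ.l g3, le_trans g4 hJ.r, g5⟩, g6⟩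
  obtain ⟨l, hl⟩ := loc_conn h (locD_full hI) (locD_full hJ) (p := p) (q := q) ⟨hp, he⟩ hq'
  exact ⟨l, q, hq, hl⟩

end Pool.Agent.Work.NoCP
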