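import Pool.Agent.Work.NoCP.Defs2
import Pool.Agent.Work.NoCP.LocD
import Pool.Agent.Work.NoCP.LayBasic

set_option autoImplicit false

namespace Pool.Agent.Work.NoCP

/-- One side of a boundary of type D: `inv_corner` gives the extreme start state (the near ends);
if `OptG` use `locD1` (interval of `GE Q R B (F e) (F e')`), else if `OptF` use `locD2`, else `locD3`. -/
theorem sideD {P Q R : Lay} (hI : Inv P Q R) {A B : Set ℕ} (md : ℕ → ℕ → Prop)
    {i0 i1 k0 k1 : ℕ → ℕ} (hC : Choice Q R A B i0 i1 k0 k1) {e e' : ℕ} (he : e < R.N)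
    (he' : e' < R.N) (ha : Adj e e') (hF : R.F e ≠ R.F e') (hG : R.G e ≠ R.G e') :
    ∃ L, Side Q R A B md i0 i1 k0 k1 e e' L ∧
      L.head? = some (near R (R.F e) (R.F e'), near R (R.G e) (R.G e')) := by
  have hloc := inv_loc hI he
  obtain ⟨hst, hext, _⟩ := inv_corner hI he he' ha hF hG
  have hb := hI.okR.F_lt e he
  have hc := hI.okR.G_lt e he
  have hcomm := hI.comm e he
  have hIi := hC.i _ hb
  rw [← hcomm] at hIi
  have hJ := hC.k _ hc
  by_cases h1 : OptG Q R B md e e'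
  · obtain ⟨a, b, hsub, hin, ha1, hb1⟩ := h1.2
    rw [← hcomm] at hsub
    obtain ⟨l1, l2, q, hq, hw, hl1, hx0, hx1, hl2⟩ := locD1 hloc hIi hJ hsub hst hext ⟨ha1, hb1⟩
    have hB : ∀ x ∈ l1, x.1 ∈ B := fun x hx => hin _ (hl1 x hx).1 (hl1 x hx).2
    refine ⟨l1 ++ l2, ⟨⟨_, q, hw, hq⟩, ⟨?_, ?_, ?_, ?_⟩, ?_⟩, hw.1⟩
    · intro _ h
      exact absurd h hG
    · intro h _
      exact absurd h hF
    · intro _ _ _
      exact ⟨l1, l2, rfl, hB, hx0, hx1⟩
    · intro _ _ h
      exact absurd h1.1 h.1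
    · intro _ p hp
      rcases List.mem_append.1 hp with hp | hp
      · exact Or.inl (hB p hp)
      · exact Or.inr (hC.kA _ hc _ (hl2 p hp))
  · by_cases h2 : OptF Q R A md e e'
    · obtain ⟨a, b, hsub, hin, ha1, hb1⟩ := h2.2
      obtain ⟨l1, l2, q, hq, hw, hl1, hx0, hx1, hl2⟩ := locD2 hloc hIi hJ hsub hst hext ⟨ha1, hb1⟩
      have hA : ∀ x ∈ l1, x.2 ∈ A := fun x hx => hin _ (hl1 x hx).1 (hl1 x hx).2
      refine ⟨l1 ++ l2, ⟨⟨_, q, hw, hq⟩, ⟨?_, ?_, ?_, ?_⟩, ?_⟩, hw.1⟩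
      · intro _ h
        exact absurd h hG
      · intro h _
        exact absurd h hF
      · intro _ _ h
        exact absurd h h1
      · intro _ _ _
        exact ⟨l1, l2, rfl, hA, hx0, hx1⟩
      · intro _ p hp
        rcases List.mem_append.1 hp with hp | hp
        · exact Or.inr (hA p hp)
        · exact Or.inl (hC.iB _ hb _ (hl2 p hp))
    · obtain ⟨l, q, hq, hw⟩ := locD3 hloc hIi hJ hst hext
      refine ⟨l, ⟨⟨_, q, hw, hq⟩, ⟨?_, ?_, ?_, ?_⟩, ?_⟩, hw.1⟩
      · intro _ h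
        exact absurd h hG
      · intro h _
        exact absurd h hF
      · intro _ _ h
        exact absurd h h1
      · intro _ _ h
        exact absurd h h2
      · intro h
        rcases h with h | h | h | h
        · exact absurd h hF
        · exact absurd h hG
        · exact absurd h h1
        · exact absurd h h2

/-- Boundary data of type D. -/
theorem bdD {P Q R : Lay} (hI : Inv P Q R) {A B : Set ℕ} (md : ℕ → ℕ → Prop)
    {i0 i1 k0 k1 : ℕ → ℕ} (hC : Choice Q R A B i0 i1 k0 k1) {e : ℕ} (he : e + 1 < R.N)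
    (hF : R.F e ≠ R.F (e + 1)) (hG : R.G e ≠ R.G (e + 1)) :
    ∃ L1 L2, BD Q R A B md i0 i1 k0 k1 e L1 L2 := by
  have he0 : e < R.N := Nat.lt_of_succ_lt he
  obtain ⟨L1, s1, h1⟩ := sideD hI md hC he0 he (Or.inl rfl) hF hG
  obtain ⟨L2, s2, h2⟩ := sideD hI md hC he he0 (Or.inr rfl) hF.symm hG.symm
  obtain ⟨_, _, hn⟩ := inv_corner hI he0 he (Or.inl rfl) hF hG
  refine ⟨L1, L2, s1, s2, ?_, ?_, ?_⟩
  · intro p q hp hq
    rw [h1] at hp
    rw [h2] at hq
    obtain rfl := Option.some.inj hp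
    obtain rfl := Option.some.inj hq
    exact hn
  · intro h
    exact absurd h hF
  · intro h
    exact absurd h hG

end Pool.Agent.Work.NoCP
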