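import Pool.Agent.Work.NoCP.RealDefs

set_option autoImplicit false

namespace Pool.Agent.Work.NoCP

/-- break points of the next level: every block is subdivided into equal parts -/
private noncomputable def bkNext (L : Lay) (q : ℕ → ℝ) (w : ℕ) : ℝ :=
  if w < L.N then q (L.pi w) + ((w : ℝ) - (L.fst (L.pi w) : ℝ)) /
    ((L.lst (L.pi w) : ℝ) + 1 - (L.fst (L.pi w) : ℝ)) * (q (L.pi w + 1) - q (L.pi w)) else 1

/-- break points of all levels -/
private noncomputable def bk (T : ℕ → Lay) : ℕ → ℕ → ℝ
  | 0, u => (u : ℝ)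
  | k + 1, u => bkNext (T (k + 1)) (bk T k) u

private theorem bkNext_in {n : ℕ} {L : Lay} (h : LayOK n L) (q : ℕ → ℝ) {v w : ℕ} (hv : v < n)
    (h0 : L.fst v ≤ w) (h1 : w ≤ L.lst v) :
    bkNext L q w = q v + ((w : ℝ) - (L.fst v : ℝ)) /
      ((L.lst v : ℝ) + 1 - (L.fst v : ℝ)) * (q (v + 1) - q v) := by
  obtain ⟨ha, hb⟩ := layer_mem h hv h0 h1
  unfold bkNext
  rw [if_pos ha, hb]

private theorem bkNext_fst {n : ℕ} {L : Lay} (h : LayOK n L) (q : ℕ → ℝ) {v : ℕ} (hv : v < n) :
    bkNext L q (L.fst v) = q v := by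
  rw [bkNext_in h q hv le_rfl (h.fst_le v hv)]
  simp

private theorem bkNext_lst {n : ℕ} {L : Lay} (h : LayOK n L) (q : ℕ → ℝ) (hq : q n = 1) {v : ℕ}
    (hv : v < n) : bkNext L q (L.lst v + 1) = q (v + 1) := by
  by_cases hv' : v + 1 < n
  · rw [← h.fst_succ v hv', bkNext_fst h q hv']
  · have e : v = n - 1 := by omega
    have e' : v + 1 = n := by omega
    rw [e', hq]
    unfold bkNext
    rw [e, h.lst_top, if_neg (lt_irrefl _)]

private theorem bkNext_step {n : ℕ} {L : Lay} (h : LayOK n L) (q : ℕ → ℝ) (hq : q n = 1)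
    {v w : ℕ} (hv : v < n) (h0 : L.fst v ≤ w) (h1 : w ≤ L.lst v) :
    bkNext L q (w + 1) - bkNext L q w =
      (q (v + 1) - q v) / ((L.lst v : ℝ) + 1 - (L.fst v : ℝ)) := by
  have hle : ((L.fst v : ℕ) : ℝ) ≤ (L.lst v : ℝ) := by exact_mod_cast h.fst_le v hv
  have hpos : (0 : ℝ) < (L.lst v : ℝ) + 1 - (L.fst v : ℝ) := by linarith
  rw [bkNext_in h q hv h0 h1]
  rcases Nat.lt_or_ge w (L.lst v) with hw | hw
  · rw [bkNext_in h q hv (by omega) (by omega : w + 1 ≤ L.lst v)]
    push_cast
    field_simp
    ring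
  · have e : w = L.lst v := by omega
    subst e
    rw [bkNext_lst h q hq hv]
    field_simp
    ring

/-- Break points exist: subdivide every block into equal parts, one for each child. Every block of
level `k ≥ 1` has at least two children (`Inv.two`). -/
theorem brk_exists {T : ℕ → Lay} (hT : ∀ h, 2 ≤ h → TOK T h) : ∃ p, Brk T p := by
  have hL : ∀ k, LayOK (T k).N (T (k + 1)) := fun k =>
    tok_layer (hT (k + 2) (by omega)) k (by omega)
  have h0 : (T 0).N = 1 := by
    rw [(hT 2 le_rfl).t0]
    rfl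
  have h1 : (T 1).N = 1 := by
    rw [(hT 2 le_rfl).t1]
    rfl
  have hone : ∀ k, bk T k (T k).N = 1 := by
    intro k
    cases k with
    | zero =>
      rw [h0]
      simp [bk]
    | succ k =>
      change bkNext (T (k + 1)) (bk T k) (T (k + 1)).N = 1
      unfold bkNext
      rw [if_neg (lt_irrefl _)]
  have hstep : ∀ k u, u < (T (k + 1)).N → bk T (k + 1) (u + 1) - bk T (k + 1) u =
      (bk T k ((T (k + 1)).pi u + 1) - bk T k ((T (k + 1)).pi u)) /
        (((T (k + 1)).lst ((T (k + 1)).pi u) : ℝ) + 1 - ((T (k + 1)).fst ((T (k + 1)).pi u) : ℝ)) := by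
    intro k u hu
    exact bkNext_step (hL k) (bk T k) (hone k) ((hL k).pi_lt u hu) ((hL k).fst_pi u hu)
      ((hL k).le_lst u hu)
  have hlt : ∀ k u, u < (T k).N → bk T k u < bk T k (u + 1) := by
    intro k
    induction k with
    | zero =>
      intro u _
      simp [bk]
    | succ k ih =>
      intro u hu
      have hs := hstep k u hu
      have hp := (hL k).pi_lt u hu
      have hle : (((T (k + 1)).fst ((T (k + 1)).pi u) : ℕ) : ℝ) ≤
          ((T (k + 1)).lst ((T (k + 1)).pi u) : ℝ) := by exact_mod_cast (hL k).fst_le _ hp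
      have hi := ih _ hp
      have : 0 < bk T (k + 1) (u + 1) - bk T (k + 1) u := by
        rw [hs]
        apply div_pos
        · linarith
        · linarith
      linarith
  refine ⟨bk T, ?_, hone, hlt, ?_, ?_, ?_⟩
  · intro k
    cases k with
    | zero => simp [bk]
    | succ k =>
      induction k with
      | zero =>
        have := bkNext_fst (hL 0) (bk T 0) (v := 0) (hL 0).pos
        rw [(hL 0).fst_zero] at this
        change bkNext (T 1) (bk T 0) 0 = 0
        rw [this]
        simp [bk]
      | succ k ih =>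
        have := bkNext_fst (hL (k + 1)) (bk T (k + 1)) (v := 0) (hL (k + 1)).pos
        rw [(hL (k + 1)).fst_zero] at this
        change bkNext (T (k + 1 + 1)) (bk T (k + 1)) 0 = 0
        rw [this, ih]
  · intro k v hv
    exact bkNext_fst (hL k) (bk T k) hv
  · intro k v hv
    exact bkNext_lst (hL k) (bk T k) (hone k) hv
  · intro k
    induction k with
    | zero =>
      intro u _
      simp [bk]
    | succ k ih =>
      intro u hu
      have hs := hstep k u hu
      have hp := (hL k).pi_lt u hu
      have hi := ih _ hp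
      have hl := hlt k _ hp
      cases k with
      | zero =>
        have hu0 : u = 0 := by
          rw [h1] at hu
          omega
        subst hu0
        have hone1 := hone 1
        rw [h1] at hone1
        have hz : bk T (0 + 1) 0 = 0 := by
          have := bkNext_fst (hL 0) (bk T 0) (v := 0) (hL 0).pos
          rw [(hL 0).fst_zero] at this
          change bkNext (T 1) (bk T 0) 0 = 0
          rw [this]
          simp [bk]
        rw [hz]
        change bk T 1 (0 + 1) - 0 ≤ _
        rw [show (0 + 1 : ℕ) = 1 from rfl, hone1]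
        norm_num
      | succ k =>
        have htwo := ((hT (k + 2) (by omega)).inv k le_rfl).two _ hp
        have htwo' : (((T (k + 1 + 1)).fst ((T (k + 1 + 1)).pi u) : ℕ) : ℝ) + 1 ≤
            ((T (k + 1 + 1)).lst ((T (k + 1 + 1)).pi u) : ℝ) := by exact_mod_cast htwo
        rw [hs, div_le_iff₀ (by linarith)]
        have e : (2 : ℝ) * (1 / 2) ^ (k + 1 + 1) * 2 = 2 * (1 / 2) ^ (k + 1) := by
          rw [pow_succ ((1 : ℝ) / 2) (k + 1)]
          ring
        have hp0 : (0 : ℝ) < 2 * (1 / 2) ^ (k + 1 + 1) := by positivity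
        nlinarith

end Pool.Agent.Work.NoCP
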