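import Pool.Agent.Work.NoCP.RealDefs

set_option autoImplicit false

namespace Pool.Agent.Work.NoCP

/-- discrete intermediate value -/
private theorem cd_find (q : ℕ → ℝ) (x : ℝ) (a b : ℕ) (hab : a ≤ b) (h0 : q a ≤ x)
    (h1 : x ≤ q (b + 1)) : ∃ u, a ≤ u ∧ u ≤ b ∧ q u ≤ x ∧ x ≤ q (u + 1) := by
  induction b, hab using Nat.le_induction with
  | base => exact ⟨a, le_rfl, le_rfl, h0, h1⟩
  | succ b hb ih =>
    rcases le_total x (q (b + 1)) with h | h
    · obtain ⟨u, hu1, hu2, hu3⟩ := ih h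
      exact ⟨u, hu1, by omega, hu3⟩
    · exact ⟨b + 1, by omega, le_rfl, h, h1⟩

private theorem cd_mono {T : ℕ → Lay} {p : ℕ → ℕ → ℝ} (hp : Brk T p) {k a b : ℕ} (hab : a ≤ b)
    (hb : b ≤ (T k).N) : p k a ≤ p k b := by
  induction b, hab using Nat.le_induction with
  | base => exact le_rfl
  | succ b h ih => exact (ih (by omega)).trans (hp.lt k b (by omega)).le

private theorem cd_strict {T : ℕ → Lay} {p : ℕ → ℕ → ℝ} (hp : Brk T p) {k a b : ℕ} (hab : a < b)
    (hb : b ≤ (T k).N) : p k a < p k b :=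
  (hp.lt k a (by omega)).trans_le (cd_mono hp (by omega : a + 1 ≤ b) hb)

private theorem cd_layer {T : ℕ → Lay} (hT : ∀ h, 2 ≤ h → TOK T h) (k : ℕ) :
    LayOK (T k).N (T (k + 1)) :=
  tok_layer (hT (k + 2) (by omega)) k (by omega)

/-- every point has a nested code -/
theorem code_exists {T : ℕ → Lay} (hT : ∀ h, 2 ≤ h → TOK T h) {p : ℕ → ℕ → ℝ} (hp : Brk T p)
    {x : ℝ} (hx : x ∈ Set.Icc (0 : ℝ) 1) : ∃ z, Code T p x z := by
  have h0 : (T 0).N = 1 := by
    rw [(hT 2 le_rfl).t0]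
    rfl
  have hstep : ∀ (k : ℕ) (v : {v : ℕ // v < (T k).N ∧ Blk p k v x}),
      ∃ u : {u : ℕ // u < (T (k + 1)).N ∧ Blk p (k + 1) u x}, (T (k + 1)).pi u.1 = v.1 := by
    rintro k ⟨v, hv, hv1, hv2⟩
    have hL := cd_layer hT k
    obtain ⟨u, hu1, hu2, hu3, hu4⟩ := cd_find (p (k + 1)) x ((T (k + 1)).fst v)
      ((T (k + 1)).lst v) (hL.fst_le v hv) (by rw [hp.fst k v hv]; exact hv1)
      (by rw [hp.lst k v hv]; exact hv2)
    obtain ⟨ha, hb⟩ := layer_mem hL hv hu1 hu2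
    exact ⟨⟨u, ha, hu3, hu4⟩, hb⟩
  choose f hf using hstep
  have hz0 : 0 < (T 0).N ∧ Blk p 0 0 x := by
    refine ⟨by omega, ?_, ?_⟩
    · rw [hp.zero 0]
      exact hx.1
    · have := hp.one 0
      rw [h0] at this
      rw [show (0 + 1 : ℕ) = 1 from rfl, this]
      exact hx.2
  let z : (k : ℕ) → {v : ℕ // v < (T k).N ∧ Blk p k v x} :=
    fun k => Nat.rec ⟨0, hz0⟩ (fun k v => f k v) k
  refine ⟨fun k => (z k).1, fun k => (z k).2, fun k => ?_⟩
  exact hf k (z k)

/-- two blocks containing the same point are neighbours -/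
theorem blk_nr {T : ℕ → Lay} {p : ℕ → ℕ → ℝ} (hp : Brk T p) {k u v : ℕ} {x : ℝ}
    (hu : u < (T k).N) (hv : v < (T k).N) (h1 : Blk p k u x) (h2 : Blk p k v x) : Nr u v := by
  obtain ⟨h11, h12⟩ := h1
  obtain ⟨h21, h22⟩ := h2
  constructor
  · by_contra hc
    have := cd_strict hp (k := k) (a := v + 1) (b := u) (by omega) (by omega)
    linarith
  · by_contra hc
    have := cd_strict hp (k := k) (a := u + 1) (b := v) (by omega) (by omega)
    linarith

/-- blocks containing close points are neighbours -/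
theorem blk_close {T : ℕ → Lay} {p : ℕ → ℕ → ℝ} (hp : Brk T p) (k : ℕ) :
    ∃ δ : ℝ, 0 < δ ∧ ∀ x y u v, u < (T k).N → v < (T k).N → Blk p k u x → Blk p k v y →
      |x - y| < δ → Nr u v := by
  have hmin : ∀ n, n ≤ (T k).N → ∃ δ : ℝ, 0 < δ ∧ ∀ u, u < n → δ ≤ p k (u + 1) - p k u := by
    intro n
    induction n with
    | zero => exact fun _ => ⟨1, one_pos, fun u hu => absurd hu (by omega)⟩
    | succ n ih =>
      intro hn
      obtain ⟨δ, hδ, h⟩ := ih (by omega)
      have hl := hp.lt k n (by omega)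
      refine ⟨min δ (p k (n + 1) - p k n), lt_min hδ (by linarith), ?_⟩
      intro u hu
      rcases Nat.lt_or_ge u n with hun | hun
      · exact (min_le_left _ _).trans (h u hun)
      · have e : u = n := by omega
        subst e
        exact min_le_right _ _
  obtain ⟨δ, hδ, h⟩ := hmin _ le_rfl
  refine ⟨δ, hδ, ?_⟩
  rintro x y u v hu hv ⟨hx1, hx2⟩ ⟨hy1, hy2⟩ hxy
  rw [abs_lt] at hxy
  constructor
  · by_contra hc
    have h1 := h (v + 1) (by omega)
    have h2 := cd_mono hp (k := k) (a := v + 1 + 1) (b := u) (by omega) (by omega)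
    linarith
  · by_contra hc
    have h1 := h (u + 1) (by omega)
    have h2 := cd_mono hp (k := k) (a := u + 1 + 1) (b := v) (by omega) (by omega)
    linarith

/-- points of neighbouring blocks are close -/
theorem blk_dist {T : ℕ → Lay} {p : ℕ → ℕ → ℝ} (hp : Brk T p) {k u v : ℕ} {x y : ℝ}
    (hu : u < (T k).N) (hv : v < (T k).N) (h1 : Blk p k u x) (h2 : Blk p k v y) (hn : Nr u v) :
    |x - y| ≤ 4 * (1 / 2) ^ k := by
  obtain ⟨h11, h12⟩ := h1
  obtain ⟨h21, h22⟩ := h2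
  obtain ⟨hn1, hn2⟩ := hn
  have hmu := hp.mesh k u hu
  have hmv := hp.mesh k v hv
  have hpos : (0 : ℝ) < (1 / 2) ^ k := by positivity
  have hlu := hp.lt k u hu
  have hlv := hp.lt k v hv
  rw [abs_le]
  rcases Nat.lt_or_ge u v with h | h
  · have e : v = u + 1 := by omega
    subst e
    constructor <;> linarith
  · rcases Nat.lt_or_ge v u with h' | h'
    · have e : u = v + 1 := by omega
      subst e
      constructor <;> linarith
    · have e : u = v := by omega
      subst e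
      constructor <;> linarith

/-- blocks contain the blocks of their children -/
theorem blk_child {T : ℕ → Lay} (hT : ∀ h, 2 ≤ h → TOK T h) {p : ℕ → ℕ → ℝ} (hp : Brk T p)
    {k u : ℕ} {x : ℝ} (hu : u < (T (k + 1)).N) (h : Blk p (k + 1) u x) :
    Blk p k ((T (k + 1)).pi u) x := by
  have hL := cd_layer hT k
  have hv := hL.pi_lt u hu
  have h1 := hL.fst_pi u hu
  have h2 := hL.le_lst u hu
  have h3 := (layer_lst_lt hL hv).2
  have h4 := cd_mono hp (k := k + 1) h1 (by omega)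
  have h5 := cd_mono hp (k := k + 1) (a := u + 1) (b := (T (k + 1)).lst ((T (k + 1)).pi u) + 1)
    (by omega) (by omega)
  rw [hp.fst k _ hv] at h4
  rw [hp.lst k _ hv] at h5
  exact ⟨h4.trans h.1, h.2.trans h5⟩

/-- a nested sequence of blocks is the code of exactly one point -/
theorem code_point {T : ℕ → Lay} (hT : ∀ h, 2 ≤ h → TOK T h) {p : ℕ → ℕ → ℝ} (hp : Brk T p)
    {z : ℕ → ℕ} (hz : ∀ k, z k < (T k).N) (hz' : ∀ k, (T (k + 1)).pi (z (k + 1)) = z k) :
    ∃ x ∈ Set.Icc (0 : ℝ) 1, Code T p x z := by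
  have hlow : ∀ k, p k (z k) ≤ p (k + 1) (z (k + 1)) := by
    intro k
    have h := blk_child hT hp (x := p (k + 1) (z (k + 1))) (hz (k + 1))
      ⟨le_rfl, (hp.lt (k + 1) _ (hz (k + 1))).le⟩
    rw [hz' k] at h
    exact h.1
  have hupp : ∀ k, p (k + 1) (z (k + 1) + 1) ≤ p k (z k + 1) := by
    intro k
    have h := blk_child hT hp (x := p (k + 1) (z (k + 1) + 1)) (hz (k + 1))
      ⟨(hp.lt (k + 1) _ (hz (k + 1))).le, le_rfl⟩
    rw [hz' k] at h
    exact h.2
  have hmono : Monotone fun k => p k (z k) := monotone_nat_of_le_succ hlow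
  have hanti : Antitone fun k => p k (z k + 1) := antitone_nat_of_succ_le hupp
  have hle : ∀ k j, p k (z k) ≤ p j (z j + 1) := by
    intro k j
    have h1 := hmono (le_max_left k j)
    have h2 := hanti (le_max_right k j)
    have h3 := (hp.lt (max k j) _ (hz (max k j))).le
    exact h1.trans (h3.trans h2)
  have hbdd : BddAbove (Set.range fun k => p k (z k)) :=
    ⟨p 0 (z 0 + 1), by rintro _ ⟨k, rfl⟩; exact hle k 0⟩
  have hblk : ∀ k, Blk p k (z k) (⨆ k, p k (z k)) := fun k =>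
    ⟨le_ciSup hbdd k, ciSup_le fun j => hle j k⟩
  refine ⟨⨆ k, p k (z k), ⟨?_, ?_⟩, fun k => ⟨hz k, hblk k⟩, hz'⟩
  · have h1 := cd_mono hp (k := 0) (a := 0) (b := z 0) (by omega) (hz 0).le
    rw [hp.zero 0] at h1
    exact h1.trans (hblk 0).1
  · have h1 := cd_mono hp (k := 0) (a := z 0 + 1) (b := (T 0).N) (by have := hz 0; omega) le_rfl
    rw [hp.one 0] at h1
    exact (hblk 0).2.trans h1

theorem code_unique {T : ℕ → Lay} {p : ℕ → ℕ → ℝ} (hp : Brk T p) {x y : ℝ} {z : ℕ → ℕ}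
    (h1 : Code T p x z) (h2 : Code T p y z) : x = y := by
  have hd : ∀ k, |x - y| ≤ 4 * (1 / 2) ^ k := fun k =>
    blk_dist hp (h1.1 k).1 (h2.1 k).1 (h1.1 k).2 (h2.1 k).2 ⟨by omega, by omega⟩
  have hlim : Filter.Tendsto (fun k : ℕ => (4 : ℝ) * (1 / 2) ^ k) Filter.atTop (nhds 0) := by
    have := (tendsto_pow_atTop_nhds_zero_of_lt_one (r := (1 / 2 : ℝ)) (by norm_num)
      (by norm_num)).const_mul 4
    simpa using this
  have h0 : |x - y| ≤ 0 := ge_of_tendsto' hlim hd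
  have := abs_nonpos_iff.mp h0
  linarith

end Pool.Agent.Work.NoCP
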