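import Mathlib

/-!
# MP_4545a8_an, S04532: definitions for the tower of finite paths

Level `k` of a tower `T : ℕ → Lay` is the finite path `{0, ..., (T k).N - 1}`; the fields
`pi, F, G` of `T (k + 1)` are maps from level `k + 1` to level `k`, and `fst v`, `lst v` are the
first and the last child (in level `k + 1`) of the block `v` of level `k`.
-/

set_option autoImplicit false

namespace Pool.Agent.Work.NoCP

/-- equal or adjacent naturals -/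
def Nr (a b : ℕ) : Prop := a ≤ b + 1 ∧ b ≤ a + 1

/-- adjacent naturals (a boundary) -/
def Adj (a b : ℕ) : Prop := a + 1 = b ∨ b + 1 = a

/-- `M` takes both values `s` and `t` on the interval `[a, b]` -/
def Hits (M : ℕ → ℕ) (a b s t : ℕ) : Prop :=
  (∃ x, a ≤ x ∧ x ≤ b ∧ M x = s) ∧ (∃ x, a ≤ x ∧ x ≤ b ∧ M x = t)

/-! ## Walkers -/

/-- the domain of a walker: positions, step relation, value -/
structure Dom (α : Type) where
  S : α → Prop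
  st : α → α → Prop
  val : α → ℕ

/-- a step inside the domain -/
def Dom.stp {α : Type} (D : Dom α) (a b : α) : Prop := D.S a ∧ D.S b ∧ D.st a b

/-- a path inside the domain -/
def Dom.Path {α : Type} (D : Dom α) (a b : α) : Prop :=
  D.S a ∧ D.S b ∧ Relation.ReflTransGen D.stp a b

structure Dom.OK {α : Type} (D : Dom α) (s t : ℕ) : Prop where
  symm : ∀ a b, D.st a b → D.st b a
  refl : ∀ a, D.st a a
  nr : ∀ a b, D.S a → D.S b → D.st a b → Nr (D.val a) (D.val b)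
  rng : ∀ a, D.S a → s ≤ D.val a ∧ D.val a ≤ t

/-- product of two walkers: positions with equal values, king steps -/
def Dom.prod {α β : Type} (D : Dom α) (E : Dom β) : Dom (α × β) where
  S p := D.S p.1 ∧ E.S p.2 ∧ D.val p.1 = E.val p.2
  st p q := D.st p.1 q.1 ∧ E.st p.2 q.2
  val p := D.val p.1

/-- alternating-full domain -/
structure Dom.AF {α : Type} (D : Dom α) (s t : ℕ) : Prop where
  lo : ∃ a, D.S a ∧ D.val a = s
  hi : ∃ a, D.S a ∧ D.val a = t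
  up : ∀ a, D.S a → D.val a = s → ∃ b, D.val b = t ∧ D.Path a b
  dn : ∀ a, D.S a → D.val a = t → ∃ b, D.val b = s ∧ D.Path a b

/-- the interval `[a, b]` as a walker with value `M` -/
def iv (M : ℕ → ℕ) (a b : ℕ) : Dom ℕ where
  S x := a ≤ x ∧ x ≤ b
  st x y := Nr x y
  val x := M x

/-! ## Local lemmas: lists of states -/

/-- a list `l` of elements satisfying `S`, consecutive ones in relation `r`, from `a` to `b` -/
def WalkL {α : Type} (r : α → α → Prop) (S : α → Prop) (l : List α) (a b : α) : Prop :=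
  l.head? = some a ∧ l.getLast? = some b ∧ l.IsChain r ∧ ∀ p ∈ l, S p

/-- nice steps of states `(x, y)` -/
def nice2 (F G : ℕ → ℕ) (p q : ℕ × ℕ) : Prop :=
  Nr p.1 q.1 ∧ Nr p.2 q.2 ∧ (p.1 = q.1 ∨ p.2 = q.2 ∨ (G p.1 ≠ G q.1 ∧ F p.2 ≠ F q.2))

/-- nice steps of triples `(x, x', y)` -/
def nice3 (F G : ℕ → ℕ) (p q : ℕ × ℕ × ℕ) : Prop :=
  Nr p.1 q.1 ∧ Nr p.2.1 q.2.1 ∧ Nr p.2.2 q.2.2 ∧
    ((p.1 = q.1 ∧ p.2.1 = q.2.1) ∨ (p.1 = q.1 ∧ p.2.2 = q.2.2) ∨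
      (p.2.1 = q.2.1 ∧ p.2.2 = q.2.2) ∨
      (G p.1 ≠ G q.1 ∧ G p.2.1 ≠ G q.2.1 ∧ F p.2.2 ≠ F q.2.2))

/-- local data: `ch b = [b0, b1]` with value `G`, `ch c = [c0, c1]` with value `F`,
values in `[s, t]` -/
structure Loc (F G : ℕ → ℕ) (b0 b1 c0 c1 s t : ℕ) : Prop where
  hb : b0 ≤ b1
  hc : c0 ≤ c1
  Gb : ∀ x, b0 ≤ x → x ≤ b1 → s ≤ G x ∧ G x ≤ t
  Fc : ∀ y, c0 ≤ y → y ≤ c1 → s ≤ F y ∧ F y ≤ t
  Gn : ∀ x, b0 ≤ x → x < b1 → Nr (G x) (G (x + 1))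
  Fn : ∀ y, c0 ≤ y → y < c1 → Nr (F y) (F (y + 1))

/-- `[j0, j1]` is an `M`-full subinterval of `[a0, a1]` -/
structure Sub (M : ℕ → ℕ) (a0 a1 j0 j1 s t : ℕ) : Prop where
  l : a0 ≤ j0
  m : j0 ≤ j1
  r : j1 ≤ a1
  hit : Hits M j0 j1 s t

/-- states `(x, y)` over `[b0, b1] × [c0, c1]` -/
def St (F G : ℕ → ℕ) (b0 b1 c0 c1 : ℕ) (p : ℕ × ℕ) : Prop :=
  b0 ≤ p.1 ∧ p.1 ≤ b1 ∧ c0 ≤ p.2 ∧ p.2 ≤ c1 ∧ G p.1 = F p.2

/-- triple states -/
def St3 (F G : ℕ → ℕ) (b0 b1 b0' b1' c0 c1 : ℕ) (p : ℕ × ℕ × ℕ) : Prop :=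
  b0 ≤ p.1 ∧ p.1 ≤ b1 ∧ b0' ≤ p.2.1 ∧ p.2.1 ≤ b1' ∧ c0 ≤ p.2.2 ∧ p.2.2 ≤ c1 ∧
    G p.1 = F p.2.2 ∧ G p.2.1 = F p.2.2

/-- hub states: states over `[i0, i1] × [k0, k1]` with an extreme value -/
def Hub (F G : ℕ → ℕ) (i0 i1 k0 k1 s t : ℕ) (p : ℕ × ℕ) : Prop :=
  St F G i0 i1 k0 k1 p ∧ (G p.1 = s ∨ G p.1 = t)

/-- membership in an interval -/
def In (a b x : ℕ) : Prop := a ≤ x ∧ x ≤ b

/-! ## Layers and towers -/

structure Lay where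
  N : ℕ
  fst : ℕ → ℕ
  lst : ℕ → ℕ
  pi : ℕ → ℕ
  F : ℕ → ℕ
  G : ℕ → ℕ

/-- exchange of the roles of `F` and `G` -/
def Lay.swap (L : Lay) : Lay := ⟨L.N, L.fst, L.lst, L.pi, L.G, L.F⟩

/-- `L` is a layer over a level with `n` blocks -/
structure LayOK (n : ℕ) (L : Lay) : Prop where
  pos : 0 < n
  fst_zero : L.fst 0 = 0
  fst_succ : ∀ v, v + 1 < n → L.fst (v + 1) = L.lst v + 1
  fst_le : ∀ v, v < n → L.fst v ≤ L.lst v
  lst_top : L.lst (n - 1) + 1 = L.N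
  pi_lt : ∀ u, u < L.N → L.pi u < n
  fst_pi : ∀ u, u < L.N → L.fst (L.pi u) ≤ u
  le_lst : ∀ u, u < L.N → u ≤ L.lst (L.pi u)
  F_lt : ∀ u, u < L.N → L.F u < n
  G_lt : ∀ u, u < L.N → L.G u < n
  F_nr : ∀ u, u + 1 < L.N → Nr (L.F u) (L.F (u + 1))
  G_nr : ∀ u, u + 1 < L.N → Nr (L.G u) (L.G (u + 1))

/-- the end child of `v` on the side of `v'` -/
def near (L : Lay) (v v' : ℕ) : ℕ := if v < v' then L.lst v else L.fst v

/-- two synchronised walkers, starting at the two end children at the boundary `(v, v')`, with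
equal values `M`, reaching an extreme value (`s` or `t`) -/
def Mir (M : ℕ → ℕ) (R : Lay) (v v' s t : ℕ) : Prop :=
  ∃ (n : ℕ) (y y' : ℕ → ℕ), y 0 = near R v v' ∧ y' 0 = near R v' v ∧
    (∀ i, i ≤ n → In (R.fst v) (R.lst v) (y i) ∧ In (R.fst v') (R.lst v') (y' i) ∧
      M (y i) = M (y' i)) ∧
    (∀ i, i < n → Nr (y i) (y (i + 1)) ∧ Nr (y' i) (y' (i + 1))) ∧
    (M (y n) = s ∨ M (y n) = t)

/-- the invariants of one stage: `P, Q, R` are three consecutive levels -/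
structure Inv (P Q R : Lay) : Prop where
  okQ : LayOK P.N Q
  okR : LayOK Q.N R
  piF : ∀ u, u < R.N → Q.pi (R.F u) = Q.F (R.pi u)
  piG : ∀ u, u < R.N → Q.pi (R.G u) = Q.G (R.pi u)
  comm : ∀ u, u < R.N → Q.F (R.G u) = Q.G (R.F u)
  nod : ∀ u, u + 1 < R.N → R.F u ≠ R.F (u + 1) → R.G u ≠ R.G (u + 1) →
    Q.F (R.G u) ≠ Q.F (R.G (u + 1))
  two : ∀ v, v < Q.N → R.fst v < R.lst v
  fullF : ∀ v, v < Q.N → Hits R.F (R.fst v) (R.lst v) (Q.fst (Q.F v)) (Q.lst (Q.F v))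
  fullG : ∀ v, v < Q.N → Hits R.G (R.fst v) (R.lst v) (Q.fst (Q.G v)) (Q.lst (Q.G v))
  mirF : ∀ v v', v < Q.N → v' < Q.N → Adj v v' → Q.F v = Q.F v' →
    Mir R.F R v v' (Q.fst (Q.F v)) (Q.lst (Q.F v))
  mirG : ∀ v v', v < Q.N → v' < Q.N → Adj v v' → Q.G v = Q.G v' →
    Mir R.G R v v' (Q.fst (Q.G v)) (Q.lst (Q.G v))
  richF : ∀ v, v < Q.N → ∃ a b a' b', Sub R.F (R.fst v) (R.lst v) a b (Q.fst (Q.F v)) (Q.lst (Q.F v)) ∧
    Sub R.F (R.fst v) (R.lst v) a' b' (Q.fst (Q.F v)) (Q.lst (Q.F v)) ∧ b + 3 ≤ a'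
  richG : ∀ v, v < Q.N → ∃ a b a' b', Sub R.G (R.fst v) (R.lst v) a b (Q.fst (Q.G v)) (Q.lst (Q.G v)) ∧
    Sub R.G (R.fst v) (R.lst v) a' b' (Q.fst (Q.G v)) (Q.lst (Q.G v)) ∧ b + 3 ≤ a'

/-- `F`-good sets of blocks of the level `R` -/
def GoodF (Q R : Lay) (A : Set ℕ) : Prop :=
  ∀ v, v < Q.N → ∃ a b, Sub R.F (R.fst v) (R.lst v) a b (Q.fst (Q.F v)) (Q.lst (Q.F v)) ∧
    ∀ x, a ≤ x → x ≤ b → x ∈ A

/-- `G`-good sets of blocks of the level `R` -/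
def GoodG (Q R : Lay) (B : Set ℕ) : Prop :=
  ∀ v, v < Q.N → ∃ a b, Sub R.G (R.fst v) (R.lst v) a b (Q.fst (Q.G v)) (Q.lst (Q.G v)) ∧
    ∀ x, a ≤ x → x ≤ b → x ∈ B

/-- an `F`-full interval of children of `v`, inside `A`, containing the end child near `v'` -/
def FE (Q R : Lay) (A : Set ℕ) (v v' : ℕ) : Prop :=
  ∃ a b, Sub R.F (R.fst v) (R.lst v) a b (Q.fst (Q.F v)) (Q.lst (Q.F v)) ∧
    (∀ x, a ≤ x → x ≤ b → x ∈ A) ∧ a ≤ near R v v' ∧ near R v v' ≤ b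

/-- a `G`-full interval of children of `v`, inside `B`, containing the end child near `v'` -/
def GE (Q R : Lay) (B : Set ℕ) (v v' : ℕ) : Prop :=
  ∃ a b, Sub R.G (R.fst v) (R.lst v) a b (Q.fst (Q.G v)) (Q.lst (Q.G v)) ∧
    (∀ x, a ≤ x → x ≤ b → x ∈ B) ∧ a ≤ near R v v' ∧ near R v v' ≤ b

/-- iterates: `itF T j k u` is `F^j u` for a block `u` of level `k + j`; a block of level `k` -/
def itF (T : ℕ → Lay) : ℕ → ℕ → ℕ → ℕ
  | 0, _, u => u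
  | j + 1, k, u => itF T j k ((T (k + j + 1)).F u)

/-- iterates of `G` -/
def itG (T : ℕ → Lay) : ℕ → ℕ → ℕ → ℕ
  | 0, _, u => u
  | j + 1, k, u => itG T j k ((T (k + j + 1)).G u)

/-- iterates of `pi` -/
def itP (T : ℕ → Lay) : ℕ → ℕ → ℕ → ℕ
  | 0, _, u => u
  | j + 1, k, u => itP T j k ((T (k + j + 1)).pi u)

/-- the first three levels: `1`, `1` and `4` blocks -/
def lay0 : Lay := ⟨1, fun _ => 0, fun _ => 0, fun _ => 0, fun _ => 0, fun _ => 0⟩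
def lay2 : Lay := ⟨4, fun _ => 0, fun _ => 3, fun _ => 0, fun _ => 0, fun _ => 0⟩

/-- a tower with levels `0, ..., h` -/
structure TOK (T : ℕ → Lay) (h : ℕ) : Prop where
  t0 : T 0 = lay0
  t1 : T 1 = lay0
  t2 : T 2 = lay2
  inv : ∀ k, k + 2 ≤ h → Inv (T k) (T (k + 1)) (T (k + 2))

/-- the tower excludes, below level `h`, common periodic points of period `q` -/
def Kill (T : ℕ → Lay) (h q : ℕ) : Prop :=
  ∃ n j, n + q + j ≤ h ∧ ∀ v, v < (T (n + q + j)).N →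
    ¬ (Nr (itF T q n (itF T j (n + q) v)) (itP T q n (itF T j (n + q) v)) ∧
       Nr (itG T q n (itG T j (n + q) v)) (itP T q n (itG T j (n + q) v)))

end Pool.Agent.Work.NoCP
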