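import Pool.Agent.Work.NoCP.Defs

/-!
# MP_4545a8_an, S04532: definitions for the extension of one stage

`P, Q, R` are three consecutive levels. We build `S : Lay` over `R`: the children of the block `e` of
`R` are the states of the list `W e`; a state is a pair `(x, y)` with `x` a child of `R.F e` and `y` a
child of `R.G e` and `R.G x = R.F y`.
-/

set_option autoImplicit false

namespace Pool.Agent.Work.NoCP

/-- states of the block `e` -/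
def stE (R : Lay) (e : ℕ) : ℕ × ℕ → Prop :=
  St R.F R.G (R.fst (R.F e)) (R.lst (R.F e)) (R.fst (R.G e)) (R.lst (R.G e))

/-- hub states of the block `e`; `[i0 b, i1 b]` are `G`-full intervals of children of `b`,
`[k0 c, k1 c]` are `F`-full intervals of children of `c` -/
def hubE (Q R : Lay) (i0 i1 k0 k1 : ℕ → ℕ) (e : ℕ) : ℕ × ℕ → Prop :=
  Hub R.F R.G (i0 (R.F e)) (i1 (R.F e)) (k0 (R.G e)) (k1 (R.G e))
    (Q.fst (Q.F (R.G e))) (Q.lst (Q.F (R.G e)))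

/-- choice of the full intervals -/
structure Choice (Q R : Lay) (A B : Set ℕ) (i0 i1 k0 k1 : ℕ → ℕ) : Prop where
  i : ∀ b, b < Q.N → Sub R.G (R.fst b) (R.lst b) (i0 b) (i1 b) (Q.fst (Q.G b)) (Q.lst (Q.G b))
  k : ∀ c, c < Q.N → Sub R.F (R.fst c) (R.lst c) (k0 c) (k1 c) (Q.fst (Q.F c)) (Q.lst (Q.F c))
  iB : ∀ b, b < Q.N → ∀ x, In (i0 b) (i1 b) x → x ∈ B
  kA : ∀ c, c < Q.N → ∀ y, In (k0 c) (k1 c) y → y ∈ A

/-- `T` is a list of states of `e` with second coordinates in `A` and both ends of `ch (F e)` as first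
coordinates -/
def SegF (R : Lay) (e : ℕ) (A : Set ℕ) (T : List (ℕ × ℕ)) : Prop :=
  (∀ x ∈ T, x.2 ∈ A) ∧ (∃ x ∈ T, x.1 = R.fst (R.F e)) ∧ (∃ x ∈ T, x.1 = R.lst (R.F e))

/-- the same for `G` -/
def SegG (R : Lay) (e : ℕ) (B : Set ℕ) (T : List (ℕ × ℕ)) : Prop :=
  (∀ x ∈ T, x.1 ∈ B) ∧ (∃ x ∈ T, x.2 = R.fst (R.G e)) ∧ (∃ x ∈ T, x.2 = R.lst (R.G e))

/-- option D1 is available and chosen at the boundary `(e, e')` of type D -/
def OptG (Q R : Lay) (B : Set ℕ) (md : ℕ → ℕ → Prop) (e e' : ℕ) : Prop :=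
  md e e' ∧ GE Q R B (R.F e) (R.F e')

/-- option D2 is available and chosen at the boundary `(e, e')` of type D -/
def OptF (Q R : Lay) (A : Set ℕ) (md : ℕ → ℕ → Prop) (e e' : ℕ) : Prop :=
  ¬ md e e' ∧ FE Q R A (R.G e) (R.G e')

/-- two lists (inward from the boundary) which are synchronised in the coordinate `f` until an end
value `s` or `t` of this coordinate is reached -/
def Sync (f : ℕ × ℕ → ℕ) (s t : ℕ) (L1 L2 : List (ℕ × ℕ)) : Prop :=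
  ∃ T1 T2 l1 l2, L1 = T1 ++ l1 ∧ L2 = T2 ++ l2 ∧ T1.map f = T2.map f ∧
    ∃ p, T1.getLast? = some p ∧ (f p = s ∨ f p = t)

/-- properties of the walk of `e`, read inward (as the list `L`) from its boundary with `e'` -/
structure Ends (Q R : Lay) (A B : Set ℕ) (md : ℕ → ℕ → Prop) (e e' : ℕ) (L : List (ℕ × ℕ)) :
    Prop where
  fe : R.F e ≠ R.F e' → R.G e = R.G e' → ∃ T l, L = T ++ l ∧ SegF R e A T
  ge : R.F e = R.F e' → R.G e ≠ R.G e' → ∃ T l, L = T ++ l ∧ SegG R e B T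
  d1 : R.F e ≠ R.F e' → R.G e ≠ R.G e' → OptG Q R B md e e' → ∃ T l, L = T ++ l ∧ SegG R e B T
  d2 : R.F e ≠ R.F e' → R.G e ≠ R.G e' → OptF Q R A md e e' → ∃ T l, L = T ++ l ∧ SegF R e A T

/-- one-sided boundary data at the boundary `(e, e')` for the block `e`: the list `L` goes from the
boundary to a hub of `e` -/
structure Side (Q R : Lay) (A B : Set ℕ) (md : ℕ → ℕ → Prop) (i0 i1 k0 k1 : ℕ → ℕ)
    (e e' : ℕ) (L : List (ℕ × ℕ)) : Prop where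
  w : ∃ a z, WalkL (nice2 R.F R.G) (stE R e) L a z ∧ hubE Q R i0 i1 k0 k1 e z
  ends : Ends Q R A B md e e' L
  safe : (R.F e = R.F e' ∨ R.G e = R.G e' ∨ OptG Q R B md e e' ∨ OptF Q R A md e e') →
    ∀ p ∈ L, p.1 ∈ B ∨ p.2 ∈ A

/-- two-sided boundary data at the boundary `(e, e + 1)` -/
structure BD (Q R : Lay) (A B : Set ℕ) (md : ℕ → ℕ → Prop) (i0 i1 k0 k1 : ℕ → ℕ)
    (e : ℕ) (L1 L2 : List (ℕ × ℕ)) : Prop where
  s1 : Side Q R A B md i0 i1 k0 k1 e (e + 1) L1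
  s2 : Side Q R A B md i0 i1 k0 k1 (e + 1) e L2
  jn : ∀ p q, L1.head? = some p → L2.head? = some q → nice2 R.F R.G p q
  mirF : R.F e = R.F (e + 1) → Sync Prod.fst (R.fst (R.F e)) (R.lst (R.F e)) L1 L2
  mirG : R.G e = R.G (e + 1) → Sync Prod.snd (R.fst (R.G e)) (R.lst (R.G e)) L1 L2

/-- the walks of all blocks of `R` -/
structure WOK (Q R : Lay) (A B : Set ℕ) (As Bs : List (Set ℕ)) (md : ℕ → ℕ → Prop)
    (W : ℕ → List (ℕ × ℕ)) : Prop where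
  ne : ∀ e, e < R.N → W e ≠ []
  st : ∀ e, e < R.N → ∀ p ∈ W e, stE R e p
  ch : ∀ e, e < R.N → (W e).IsChain (nice2 R.F R.G)
  jn : ∀ e, e + 1 < R.N → ∀ p q, (W e).getLast? = some p → (W (e + 1)).head? = some q →
    nice2 R.F R.G p q
  mirF : ∀ e, e + 1 < R.N → R.F e = R.F (e + 1) →
    Sync Prod.fst (R.fst (R.F e)) (R.lst (R.F e)) (W e).reverse (W (e + 1))
  mirG : ∀ e, e + 1 < R.N → R.G e = R.G (e + 1) →
    Sync Prod.snd (R.fst (R.G e)) (R.lst (R.G e)) (W e).reverse (W (e + 1))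
  segF : ∀ e, e < R.N → ∀ X ∈ As, ∃ l1 T l2, W e = l1 ++ (T ++ l2) ∧ SegF R e X T
  segG : ∀ e, e < R.N → ∀ X ∈ Bs, ∃ l1 T l2, W e = l1 ++ (T ++ l2) ∧ SegG R e X T
  richF : ∀ e, e < R.N → ∃ l1 T1 l2 T2 l3, W e = l1 ++ (T1 ++ (l2 ++ (T2 ++ l3))) ∧
    2 ≤ l2.length ∧ SegF R e Set.univ T1 ∧ SegF R e Set.univ T2
  richG : ∀ e, e < R.N → ∃ l1 T1 l2 T2 l3, W e = l1 ++ (T1 ++ (l2 ++ (T2 ++ l3))) ∧
    2 ≤ l2.length ∧ SegG R e Set.univ T1 ∧ SegG R e Set.univ T2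
  endR : ∀ e, e + 1 < R.N → Ends Q R A B md e (e + 1) (W e).reverse
  endL : ∀ e, e + 1 < R.N → Ends Q R A B md (e + 1) e (W (e + 1))
  safe : (∀ X ∈ As, X ⊆ A) → (∀ X ∈ Bs, X ⊆ B) → ∀ e, e < R.N → ∀ p ∈ W e,
    p.1 ∈ B ∨ p.2 ∈ A ∨ ∃ e', e' < R.N ∧ Adj e e' ∧ R.F e ≠ R.F e' ∧ R.G e ≠ R.G e' ∧
      ¬ OptG Q R B md e e' ∧ ¬ OptF Q R A md e e'

/-- `S` is the layer over `n` blocks obtained by concatenating the lists `W 0, ..., W (n - 1)` -/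
structure Flat (n : ℕ) (W : ℕ → List (ℕ × ℕ)) (S : Lay) : Prop where
  fst_zero : S.fst 0 = 0
  fst_succ : ∀ v, v + 1 < n → S.fst (v + 1) = S.fst v + (W v).length
  lst : ∀ v, v < n → S.lst v + 1 = S.fst v + (W v).length
  top : S.lst (n - 1) + 1 = S.N
  val : ∀ e, e < n → ∀ i p, (W e)[i]? = some p →
    S.pi (S.fst e + i) = e ∧ S.F (S.fst e + i) = p.1 ∧ S.G (S.fst e + i) = p.2
  cov : ∀ u, u < S.N → ∃ e i p, e < n ∧ (W e)[i]? = some p ∧ u = S.fst e + i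

/-- the conclusion of the extension theorem (besides `Inv Q R S`) -/
structure ExtOK (Q R S : Lay) (A B : Set ℕ) (As Bs : List (Set ℕ)) (md : ℕ → ℕ → Prop) :
    Prop where
  goodF : ∀ X ∈ As, GoodF R S {u | S.G u ∈ X}
  goodG : ∀ X ∈ Bs, GoodG R S {u | S.F u ∈ X}
  feB : ∀ e e', e < R.N → e' < R.N → Adj e e' → R.F e ≠ R.F e' → R.G e = R.G e' →
    FE R S {u | S.G u ∈ A} e e'
  geC : ∀ e e', e < R.N → e' < R.N → Adj e e' → R.F e = R.F e' → R.G e ≠ R.G e' →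
    GE R S {u | S.F u ∈ B} e e'
  geD : ∀ e e', e < R.N → e' < R.N → Adj e e' → R.F e ≠ R.F e' → R.G e ≠ R.G e' →
    OptG Q R B md e e' → GE R S {u | S.F u ∈ B} e e'
  feD : ∀ e e', e < R.N → e' < R.N → Adj e e' → R.F e ≠ R.F e' → R.G e ≠ R.G e' →
    OptF Q R A md e e' → FE R S {u | S.G u ∈ A} e e'
  safe : (∀ X ∈ As, X ⊆ A) → (∀ X ∈ Bs, X ⊆ B) → ∀ u, u < S.N →
    S.F u ∈ B ∨ S.G u ∈ A ∨ ∃ e', e' < R.N ∧ Adj (S.pi u) e' ∧ R.F (S.pi u) ≠ R.F e' ∧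
      R.G (S.pi u) ≠ R.G e' ∧ ¬ OptG Q R B md (S.pi u) e' ∧ ¬ OptF Q R A md (S.pi u) e'

end Pool.Agent.Work.NoCP
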