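import Pool.Agent.Work.NoCP.Defs

/-!
# Mountain climbing

Two integer valued walks `a` on `[0, m]`, `b` on `[0, n]` with steps in `{-1, 0, 1}`. `St a b m n` is the relation of one step of the two
walkers which stay at equal values. `mc`: if both walks go from one extreme value to the other one and stay between them, the walkers can
go from the start to the end.
-/

set_option autoImplicit false

namespace Pool.Agent.Work.NoCP.McA

/-- `k` is between `i` and `j`. -/
def Btw (i k j : ℕ) : Prop := (i ≤ k ∧ k ≤ j) ∨ (j ≤ k ∧ k ≤ i)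

/-- `x` is between `s` and `t`. -/
def Rg (s x t : ℤ) : Prop := (s ≤ x ∧ x ≤ t) ∨ (t ≤ x ∧ x ≤ s)

/-- Steps of size at most one on `[0, m]`. -/
def Lip (a : ℕ → ℤ) (m : ℕ) : Prop := ∀ i < m, a (i + 1) ≤ a i + 1 ∧ a i ≤ a (i + 1) + 1

/-- One step of the two walkers. -/
def St (a b : ℕ → ℤ) (m n : ℕ) (u v : ℕ × ℕ) : Prop :=
  (u.1 ≤ m ∧ u.2 ≤ n ∧ a u.1 = b u.2) ∧ (v.1 ≤ m ∧ v.2 ≤ n ∧ a v.1 = b v.2) ∧
    (u.1 ≤ v.1 + 1 ∧ v.1 ≤ u.1 + 1) ∧ (u.2 ≤ v.2 + 1 ∧ v.2 ≤ u.2 + 1)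

theorem St.symm {a b : ℕ → ℤ} {m n : ℕ} {u v : ℕ × ℕ} (h : St a b m n u v) : St a b m n v u :=
  ⟨h.2.1, h.1, ⟨h.2.2.1.2, h.2.2.1.1⟩, ⟨h.2.2.2.2, h.2.2.2.1⟩⟩

/-- Connected. -/
def Cn (a b : ℕ → ℤ) (m n : ℕ) (u v : ℕ × ℕ) : Prop := Relation.ReflTransGen (St a b m n) u v

theorem rtg_map {α β : Type} {r : α → α → Prop} {q : β → β → Prop} (f : α → β) (h : ∀ u v, r u v → q (f u) (f v)) {u v : α}
    (c : Relation.ReflTransGen r u v) : Relation.ReflTransGen q (f u) (f v) := by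
  induction c with
  | refl => exact Relation.ReflTransGen.refl
  | tail _ hs ih => exact ih.tail (h _ _ hs)

theorem rtg_symm {α : Type} {r : α → α → Prop} (h : ∀ u v, r u v → r v u) {u v : α} (c : Relation.ReflTransGen r u v) :
    Relation.ReflTransGen r v u := by
  induction c with
  | refl => exact Relation.ReflTransGen.refl
  | tail _ hs ih => exact Relation.ReflTransGen.head (h _ _ hs) ih

theorem Cn.symm {a b : ℕ → ℤ} {m n : ℕ} {u v : ℕ × ℕ} (h : Cn a b m n u v) : Cn a b m n v u :=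
  rtg_symm (fun _ _ h => St.symm h) h

theorem Cn.trans {a b : ℕ → ℤ} {m n : ℕ} {u v w : ℕ × ℕ} (h : Cn a b m n u v) (h' : Cn a b m n v w) : Cn a b m n u w :=
  Relation.ReflTransGen.trans h h'

theorem Cn.one {a b : ℕ → ℤ} {m n : ℕ} {u v : ℕ × ℕ} (h : St a b m n u v) : Cn a b m n u v := Relation.ReflTransGen.single h

theorem Cn.swap {a b : ℕ → ℤ} {m n : ℕ} {i j i' j' : ℕ} (h : Cn b a n m (j, i) (j', i')) : Cn a b m n (i, j) (i', j') := by
  have key : ∀ u v : ℕ × ℕ, Cn b a n m u v → Cn a b m n u.swap v.swap := by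
    intro u v h
    refine rtg_map Prod.swap ?_ h
    intro u v h
    exact ⟨⟨h.1.2.1, h.1.1, h.1.2.2.symm⟩, ⟨h.2.1.2.1, h.2.1.1, h.2.1.2.2.symm⟩, h.2.2.2, h.2.2.1⟩
  exact key _ _ h

theorem Cn.neg {a b : ℕ → ℤ} {m n : ℕ} {u v : ℕ × ℕ} (h : Cn (fun i => -a i) (fun i => -b i) m n u v) : Cn a b m n u v := by
  refine rtg_map id ?_ h
  intro u v h
  exact ⟨⟨h.1.1, h.1.2.1, neg_injective h.1.2.2⟩, ⟨h.2.1.1, h.2.1.2.1, neg_injective h.2.1.2.2⟩, h.2.2⟩

/-- The neighbour of `i` in the direction of `j`. -/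
def nx (i j : ℕ) : ℕ := if i < j then i + 1 else if j < i then i - 1 else i

theorem Lip.nx {a : ℕ → ℤ} {m : ℕ} (h : Lip a m) {i j : ℕ} (hi : i ≤ m) (hj : j ≤ m) : a (nx i j) ≤ a i + 1 ∧ a i ≤ a (nx i j) + 1 := by
  unfold McA.nx
  split_ifs with h1 h2
  · exact h i (by omega)
  · obtain ⟨h3, h4⟩ := h (i - 1) (by omega)
    rw [show i - 1 + 1 = i by omega] at h3 h4
    exact ⟨h4, h3⟩
  · constructor <;> omega

/-- The walkers at constant value in the first coordinate. -/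
theorem flat1 {a b : ℕ → ℤ} {m n : ℕ} (j : ℕ) (hj : j ≤ n) : ∀ (N i i' : ℕ), (i - i') + (i' - i) ≤ N → i ≤ m → i' ≤ m →
    (∀ k, Btw i k i' → a k = b j) → Cn a b m n (i, j) (i', j) := by
  intro N
  induction N with
  | zero =>
    intro i i' hN _ _ _
    have : i = i' := by omega
    subst this
    exact Relation.ReflTransGen.refl
  | succ N ih =>
    intro i i' hN hi hi' h
    by_cases e : i = i'
    · subst e
      exact Relation.ReflTransGen.refl
    · have hb : Btw i (nx i i') i' := by unfold Btw nx; split_ifs <;> omega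
      have hd : (nx i i' - i') + (i' - nx i i') ≤ N := by unfold nx; split_ifs <;> omega
      have hm : nx i i' ≤ m := by unfold Btw at hb; omega
      refine (Cn.one ⟨⟨hi, hj, h i (by unfold Btw; omega)⟩, ⟨hm, hj, h _ hb⟩, ?_, by omega, by omega⟩).trans
        (ih (nx i i') i' hd hm hi' fun k hk => h k ?_)
      · unfold nx
        split_ifs <;> constructor <;> dsimp only <;> omega
      · unfold nx Btw at *
        split_ifs at * <;> omega

/-- The last passage. -/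
theorem last {b : ℕ → ℤ} {n : ℕ} (hb : Lip b n) (u : ℤ) : ∀ (N j0 j1 : ℕ), (j0 - j1) + (j1 - j0) ≤ N → j0 ≤ n → j1 ≤ n → b j0 ≤ u → u ≤ b j1 →
    ∃ j, Btw j0 j j1 ∧ b j = u ∧ ∀ k, Btw j k j1 → u ≤ b k := by
  intro N
  induction N with
  | zero =>
    intro j0 j1 hN _ _ h0 h1
    have : j0 = j1 := by omega
    subst this
    refine ⟨j0, by unfold Btw; omega, le_antisymm h0 h1, fun k hk => ?_⟩
    have : k = j0 := by unfold Btw at hk; omega
    rw [this]
    exact h1
  | succ N ih =>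
    intro j0 j1 hN hj0 hj1 h0 h1
    by_cases hall : ∀ k, Btw j0 k j1 → u ≤ b k
    · exact ⟨j0, by unfold Btw; omega, le_antisymm h0 (hall j0 (by unfold Btw; omega)), hall⟩
    · push Not at hall
      obtain ⟨k, hk, hku⟩ := hall
      by_cases e : k = j0
      · subst e
        have e1 : k ≠ j1 := by
          rintro rfl
          omega
        have hb1 : Btw k (nx k j1) j1 := by unfold Btw nx; split_ifs <;> omega
        have hd : (nx k j1 - j1) + (j1 - nx k j1) ≤ N := by unfold nx; split_ifs <;> omega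
        have hm : nx k j1 ≤ n := by unfold Btw at hb1; omega
        have hu := (hb.nx (i := k) (j := j1) hj0 hj1).1
        obtain ⟨j, g1, g2, g3⟩ := ih (nx k j1) j1 hd hm hj1 (by omega) h1
        refine ⟨j, ?_, g2, g3⟩
        unfold Btw at *
        omega
      · obtain ⟨j, g1, g2, g3⟩ := ih k j1 (by unfold Btw at hk; omega) (by unfold Btw at hk; omega) hj1 hku.le h1
        refine ⟨j, ?_, g2, g3⟩
        unfold Btw at *
        omega

/-- The statement for all smaller data. -/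
def Cl (N : ℕ) : Prop := ∀ (a b : ℕ → ℤ) (m n : ℕ), Lip a m → Lip b n → ∀ (i0 i1 j0 j1 : ℕ) (s t : ℤ),
  (i0 - i1) + (i1 - i0) + ((j0 - j1) + (j1 - j0)) < N → i0 ≤ m → i1 ≤ m → j0 ≤ n → j1 ≤ n → a i0 = s → b j0 = s → a i1 = t → b j1 = t →
  (∀ k, Btw i0 k i1 → Rg s (a k) t) → (∀ k, Btw j0 k j1 → Rg s (b k) t) → Cn a b m n (i0, j0) (i1, j1)

/-- The final value is taken before the end. -/
theorem step1 {N : ℕ} (IH : Cl N) (a b : ℕ → ℤ) (m n : ℕ) (ha : Lip a m) (hb : Lip b n) (i0 i1 j0 j1 : ℕ) (s t : ℤ)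
    (hN : (i0 - i1) + (i1 - i0) + ((j0 - j1) + (j1 - j0)) ≤ N) (hi0 : i0 ≤ m) (hi1 : i1 ≤ m) (hj0 : j0 ≤ n) (hj1 : j1 ≤ n)
    (e0 : a i0 = s) (f0 : b j0 = s) (e1 : a i1 = t) (f1 : b j1 = t)
    (ra : ∀ k, Btw i0 k i1 → Rg s (a k) t) (rb : ∀ k, Btw j0 k j1 → Rg s (b k) t) (hst : s < t)
    (i' : ℕ) (hi' : Btw i0 i' i1) (hne : i' ≠ i1) (hv : a i' = t) : Cn a b m n (i0, j0) (i1, j1) := by
  have hne0 : i' ≠ i0 := by
    rintro rfl
    omega
  have hm' : i' ≤ m := by unfold Btw at hi'; omega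
  have c1 : Cn a b m n (i0, j0) (i', j1) := by
    refine IH a b m n ha hb i0 i' j0 j1 s t ?_ hi0 hm' hj0 hj1 e0 f0 hv f1 (fun k hk => ra k ?_) rb
    · unfold Btw at hi'
      omega
    · unfold Btw at *
      omega
  -- the minimum on the rest
  obtain ⟨i'', hi'', hmin⟩ := Finset.exists_min_image (Finset.Icc (min i' i1) (max i' i1)) a ⟨i', by simp⟩
  rw [Finset.mem_Icc] at hi''
  have hb'' : Btw i' i'' i1 := by
    unfold Btw
    omega
  have hmin' : ∀ k, Btw i' k i1 → a i'' ≤ a k := by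
    intro k hk
    apply hmin
    rw [Finset.mem_Icc]
    unfold Btw at hk
    omega
  have hm'' : i'' ≤ m := by unfold Btw at *; omega
  have hsu : s ≤ a i'' := by
    have := ra i'' (by unfold Btw at *; omega)
    unfold Rg at this
    omega
  have hut : a i'' ≤ t := by
    have := ra i'' (by unfold Btw at *; omega)
    unfold Rg at this
    omega
  obtain ⟨n', g1, g2, g3⟩ := last hb (a i'') _ j0 j1 le_rfl hj0 hj1 (by omega) (by omega)
  have hn' : n' ≤ n := by unfold Btw at g1; omega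
  have c2 : Cn a b m n (i', j1) (i'', n') := by
    refine IH a b m n ha hb i' i'' j1 n' t (a i'') ?_ hm' hm'' hj1 hn' hv f1 rfl g2 (fun k hk => ?_) (fun k hk => ?_)
    · unfold Btw at *
      omega
    · have h1 := hmin' k (by unfold Btw at *; omega)
      have h2 := ra k (by unfold Btw at *; omega)
      unfold Rg at *
      omega
    · have h1 := g3 k (by unfold Btw at *; omega)
      have h2 := rb k (by unfold Btw at *; omega)
      unfold Rg at *
      omega
  have c3 : Cn a b m n (i'', n') (i1, j1) := by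
    refine IH a b m n ha hb i'' i1 n' j1 (a i'') t ?_ hm'' hi1 hn' hj1 rfl g2 e1 f1 (fun k hk => ?_) (fun k hk => ?_)
    · unfold Btw at *
      omega
    · have h1 := hmin' k (by unfold Btw at *; omega)
      have h2 := ra k (by unfold Btw at *; omega)
      unfold Rg at *
      omega
    · have h1 := g3 k (by unfold Btw at *; omega)
      have h2 := rb k (by unfold Btw at *; omega)
      unfold Rg at *
      omega
  exact (c1.trans c2).trans c3

/-- The same without the assumption on the order of the extreme values. -/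
theorem step2 {N : ℕ} (IH : Cl N) (a b : ℕ → ℤ) (m n : ℕ) (ha : Lip a m) (hb : Lip b n) (i0 i1 j0 j1 : ℕ) (s t : ℤ)
    (hN : (i0 - i1) + (i1 - i0) + ((j0 - j1) + (j1 - j0)) ≤ N) (hi0 : i0 ≤ m) (hi1 : i1 ≤ m) (hj0 : j0 ≤ n) (hj1 : j1 ≤ n)
    (e0 : a i0 = s) (f0 : b j0 = s) (e1 : a i1 = t) (f1 : b j1 = t)
    (ra : ∀ k, Btw i0 k i1 → Rg s (a k) t) (rb : ∀ k, Btw j0 k j1 → Rg s (b k) t) (hst : s ≠ t)
    (i' : ℕ) (hi' : Btw i0 i' i1) (hne : i' ≠ i1) (hv : a i' = t) : Cn a b m n (i0, j0) (i1, j1) := by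
  rcases lt_or_gt_of_ne hst with h | h
  · exact step1 IH a b m n ha hb i0 i1 j0 j1 s t hN hi0 hi1 hj0 hj1 e0 f0 e1 f1 ra rb h i' hi' hne hv
  · refine Cn.neg (step1 IH (fun i => -a i) (fun i => -b i) m n (fun i hi => ?_) (fun i hi => ?_) i0 i1 j0 j1 (-s) (-t) hN hi0 hi1 hj0 hj1
      (by rw [e0]) (by rw [f0]) (by rw [e1]) (by rw [f1]) (fun k hk => ?_) (fun k hk => ?_) (by omega) i' hi' hne (by rw [hv]))
    · have := ha i hi
      constructor <;> dsimp only <;> omega
    · have := hb i hi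
      constructor <;> dsimp only <;> omega
    · have := ra k hk
      unfold Rg at *
      omega
    · have := rb k hk
      unfold Rg at *
      omega

/-- The inductive step. -/
theorem step {N : ℕ} (IH : Cl N) (a b : ℕ → ℤ) (m n : ℕ) (ha : Lip a m) (hb : Lip b n) (i0 i1 j0 j1 : ℕ) (s t : ℤ)
    (hN : (i0 - i1) + (i1 - i0) + ((j0 - j1) + (j1 - j0)) ≤ N) (hi0 : i0 ≤ m) (hi1 : i1 ≤ m) (hj0 : j0 ≤ n) (hj1 : j1 ≤ n)
    (e0 : a i0 = s) (f0 : b j0 = s) (e1 : a i1 = t) (f1 : b j1 = t)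
    (ra : ∀ k, Btw i0 k i1 → Rg s (a k) t) (rb : ∀ k, Btw j0 k j1 → Rg s (b k) t) (hst : s < t) : Cn a b m n (i0, j0) (i1, j1) := by
  have bs : ∀ i k j : ℕ, Btw i k j → Btw j k i := fun i k j h => by unfold Btw at *; omega
  have rs : ∀ s x t : ℤ, Rg s x t → Rg t x s := fun i k j h => by unfold Rg at *; omega
  by_cases h1 : ∃ i', Btw i0 i' i1 ∧ i' ≠ i1 ∧ a i' = t
  · obtain ⟨i', g1, g2, g3⟩ := h1
    exact step2 IH a b m n ha hb i0 i1 j0 j1 s t hN hi0 hi1 hj0 hj1 e0 f0 e1 f1 ra rb hst.ne i' g1 g2 g3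
  by_cases h2 : ∃ j', Btw j0 j' j1 ∧ j' ≠ j1 ∧ b j' = t
  · obtain ⟨j', g1, g2, g3⟩ := h2
    exact Cn.swap (step2 IH b a n m hb ha j0 j1 i0 i1 s t (by omega) hj0 hj1 hi0 hi1 f0 e0 f1 e1 rb ra hst.ne j' g1 g2 g3)
  by_cases h3 : ∃ i', Btw i0 i' i1 ∧ i' ≠ i0 ∧ a i' = s
  · obtain ⟨i', g1, g2, g3⟩ := h3
    exact Cn.symm (step2 IH a b m n ha hb i1 i0 j1 j0 t s (by omega) hi1 hi0 hj1 hj0 e1 f1 e0 f0 (fun k hk => rs _ _ _ (ra k (bs _ _ _ hk)))
      (fun k hk => rs _ _ _ (rb k (bs _ _ _ hk))) hst.ne' i' (bs _ _ _ g1) g2 g3)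
  by_cases h4 : ∃ j', Btw j0 j' j1 ∧ j' ≠ j0 ∧ b j' = s
  · obtain ⟨j', g1, g2, g3⟩ := h4
    exact Cn.symm (Cn.swap (step2 IH b a n m hb ha j1 j0 i1 i0 t s (by omega) hj1 hj0 hi1 hi0 f1 e1 f0 e0
      (fun k hk => rs _ _ _ (rb k (bs _ _ _ hk))) (fun k hk => rs _ _ _ (ra k (bs _ _ _ hk))) hst.ne' j' (bs _ _ _ g1) g2 g3))
  push Not at h1 h2 h3 h4
  have d1 : i0 ≠ i1 := by
    rintro rfl
    omega
  have d2 : j0 ≠ j1 := by
    rintro rfl
    omega
  -- the neighbours
  have p1 : Btw i0 (nx i0 i1) i1 := by unfold Btw nx; split_ifs <;> omega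
  have p2 : Btw i0 (nx i1 i0) i1 := by unfold Btw nx; split_ifs <;> omega
  have p3 : Btw j0 (nx j0 j1) j1 := by unfold Btw nx; split_ifs <;> omega
  have p4 : Btw j0 (nx j1 j0) j1 := by unfold Btw nx; split_ifs <;> omega
  have q1 := ha.nx (i := i0) (j := i1) hi0 hi1
  have q2 := ha.nx (i := i1) (j := i0) hi1 hi0
  have q3 := hb.nx (i := j0) (j := j1) hj0 hj1
  have q4 := hb.nx (i := j1) (j := j0) hj1 hj0
  have r1 := ra _ p1
  have r2 := ra _ p2
  have r3 := rb _ p3
  have r4 := rb _ p4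
  have s1 := h3 _ p1 (by unfold nx; split_ifs <;> omega)
  have s2 := h1 _ p2 (by unfold nx; split_ifs <;> omega)
  have s3 := h4 _ p3 (by unfold nx; split_ifs <;> omega)
  have s4 := h2 _ p4 (by unfold nx; split_ifs <;> omega)
  unfold Rg at r1 r2 r3 r4
  by_cases ht : t = s + 1
  · have t1 : nx i0 i1 = i1 := by
      by_contra hc
      exact h1 _ p1 hc (by omega)
    have t2 : nx j0 j1 = j1 := by
      by_contra hc
      exact h2 _ p3 hc (by omega)
    refine Cn.one ⟨⟨hi0, hj0, by rw [e0, f0]⟩, ⟨hi1, hj1, by rw [e1, f1]⟩, ?_, ?_⟩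
    · unfold nx at t1
      split_ifs at t1 <;> constructor <;> dsimp only <;> omega
    · unfold nx at t2
      split_ifs at t2 <;> constructor <;> dsimp only <;> omega
  · have t1 : nx i0 i1 ≠ i1 := by
      intro hc
      rw [hc] at q1
      omega
    have t2 : nx j0 j1 ≠ j1 := by
      intro hc
      rw [hc] at q3
      omega
    have m1 : nx i0 i1 ≤ m := by unfold Btw at p1; omega
    have m2 : nx i1 i0 ≤ m := by unfold Btw at p2; omega
    have m3 : nx j0 j1 ≤ n := by unfold Btw at p3; omega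
    have m4 : nx j1 j0 ≤ n := by unfold Btw at p4; omega
    have c1 : Cn a b m n (i0, j0) (nx i0 i1, nx j0 j1) := by
      refine Cn.one ⟨⟨hi0, hj0, by rw [e0, f0]⟩, ⟨m1, m3, by dsimp only; omega⟩, ?_, ?_⟩
      · unfold nx
        split_ifs <;> constructor <;> dsimp only <;> omega
      · unfold nx
        split_ifs <;> constructor <;> dsimp only <;> omega
    have c3 : Cn a b m n (nx i1 i0, nx j1 j0) (i1, j1) := by
      refine Cn.one ⟨⟨m2, m4, by dsimp only; omega⟩, ⟨hi1, hj1, by rw [e1, f1]⟩, ?_, ?_⟩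
      · unfold nx
        split_ifs <;> constructor <;> dsimp only <;> omega
      · unfold nx
        split_ifs <;> constructor <;> dsimp only <;> omega
    have c2 : Cn a b m n (nx i0 i1, nx j0 j1) (nx i1 i0, nx j1 j0) := by
      refine IH a b m n ha hb _ _ _ _ (s + 1) (t - 1) ?_ m1 m2 m3 m4 (by omega) (by omega) (by omega) (by omega)
        (fun k hk => ?_) (fun k hk => ?_)
      · unfold nx at *
        split_ifs at * <;> omega
      · have k1 : Btw i0 k i1 ∧ k ≠ i0 ∧ k ≠ i1 := by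
          unfold nx Btw at *
          split_ifs at * <;> omega
        have := ra k k1.1
        have := h1 k k1.1 k1.2.2
        have := h3 k k1.1 k1.2.1
        unfold Rg at *
        omega
      · have k1 : Btw j0 k j1 ∧ k ≠ j0 ∧ k ≠ j1 := by
          unfold nx Btw at *
          split_ifs at * <;> omega
        have := rb k k1.1
        have := h2 k k1.1 k1.2.2
        have := h4 k k1.1 k1.2.1
        unfold Rg at *
        omega
    exact (c1.trans c2).trans c3

theorem cl (N : ℕ) : Cl N := by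
  induction N with
  | zero => intro a b m n _ _ i0 i1 j0 j1 s t h; omega
  | succ N ih =>
    intro a b m n ha hb i0 i1 j0 j1 s t hN hi0 hi1 hj0 hj1 e0 f0 e1 f1 ra rb
    rcases lt_trichotomy s t with h | h | h
    · exact step ih a b m n ha hb i0 i1 j0 j1 s t (by omega) hi0 hi1 hj0 hj1 e0 f0 e1 f1 ra rb h
    · have c1 : Cn a b m n (i0, j0) (i1, j0) := by
        refine flat1 j0 hj0 _ i0 i1 le_rfl hi0 hi1 fun k hk => ?_
        have := ra k hk
        unfold Rg at this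
        omega
      have c2 : Cn a b m n (i1, j0) (i1, j1) := by
        refine Cn.swap (flat1 i1 hi1 _ j0 j1 le_rfl hj0 hj1 fun k hk => ?_)
        have := rb k hk
        unfold Rg at this
        omega
      exact c1.trans c2
    · have bs : ∀ i k j : ℕ, Btw i k j → Btw j k i := fun i k j h => by unfold Btw at *; omega
      have rs : ∀ s x t : ℤ, Rg s x t → Rg t x s := fun i k j h => by unfold Rg at *; omega
      exact Cn.symm (step ih a b m n ha hb i1 i0 j1 j0 t s (by omega) hi1 hi0 hj1 hj0 e1 f1 e0 f0 (fun k hk => rs _ _ _ (ra k (bs _ _ _ hk)))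
        (fun k hk => rs _ _ _ (rb k (bs _ _ _ hk))) h)

/-- **Mountain climbing.** -/
theorem mc {a b : ℕ → ℤ} {m n : ℕ} {s t : ℤ} (ha : Lip a m) (hb : Lip b n) (a0 : a 0 = s) (b0 : b 0 = s) (am : a m = t) (bn : b n = t)
    (ra : ∀ k ≤ m, Rg s (a k) t) (rb : ∀ k ≤ n, Rg s (b k) t) : Relation.ReflTransGen (St a b m n) (0, 0) (m, n) :=
  cl (m + n + 1) a b m n ha hb 0 m 0 n s t (by omega) (by omega) le_rfl (by omega) le_rfl a0 b0 am bn
    (fun k hk => ra k (by unfold Btw at hk; omega)) (fun k hk => rb k (by unfold Btw at hk; omega))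

end Pool.Agent.Work.NoCP.McA
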