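import Pool.Agent.Work.NoCP.PathMC
import Pool.Agent.Work.NoCP.McA

set_option autoImplicit false

namespace Pool.Agent.Work.NoCP

namespace McA

/-- The walkers are stopped when the first one arrives at `m`. -/
theorem cut {a b : ℕ → ℤ} {M n m : ℕ} {w : ℕ × ℕ} (h : Relation.ReflTransGen (St a b M n) (0, 0) w) :
    (w.1 ≤ m ∧ Relation.ReflTransGen (St a b m n) (0, 0) w) ∨ ∃ j, Relation.ReflTransGen (St a b m n) (0, 0) (m, j) := by
  induction h with
  | refl => exact Or.inl ⟨Nat.zero_le _, Relation.ReflTransGen.refl⟩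
  | @tail u v _ hs ih =>
    rcases ih with ⟨h1, h2⟩ | h1
    · by_cases hv : v.1 ≤ m
      · exact Or.inl ⟨hv, h2.tail ⟨⟨h1, hs.1.2⟩, ⟨hv, hs.2.1.2⟩, hs.2.2⟩⟩
      · have e : u.1 = m := by
          have := hs.2.2.1.2
          omega
        refine Or.inr ⟨u.2, ?_⟩
        rw [← e]
        rw [← e] at h2
        exact h2
    · exact Or.inr h1

/-- Driving, indices, upwards. -/
theorem drvI {a b : ℕ → ℤ} {m n : ℕ} {s t : ℤ} (ha : Lip a m) (hb : Lip b n) (a0 : a 0 = s) (b0 : b 0 = s) (bn : b n = t)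
    (ra : ∀ k ≤ m, s ≤ a k ∧ a k ≤ t) (rb : ∀ k ≤ n, s ≤ b k ∧ b k ≤ t) : ∃ j, Relation.ReflTransGen (St a b m n) (0, 0) (m, j) := by
  set a' : ℕ → ℤ := fun k => if k ≤ m then a k else min (a m + (k - m)) t with ha'
  have hm := ra m le_rfl
  set M := m + (t - a m).toNat with hM
  have hmM : m ≤ M := by omega
  have e1 : ∀ k ≤ m, a' k = a k := fun k hk => by rw [ha']; simp only [hk, if_true]
  have e2 : ∀ k, m ≤ k → a' k = min (a m + (k - m)) t := by
    intro k hk
    rcases Nat.eq_or_lt_of_le hk with e | e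
    · subst e
      rw [e1 _ le_rfl, sub_self, add_zero, min_eq_left hm.2]
    · rw [ha']
      simp only [not_le.mpr e, if_false]
  have hl : Lip a' M := by
    intro i hi
    rcases Nat.lt_or_ge i m with h | h
    · rw [e1 i h.le, e1 (i + 1) h]
      exact ha i h
    · rw [e2 i h, e2 (i + 1) (by omega)]
      push_cast
      constructor <;> omega
  have hc := mc (a := a') (b := b) (m := M) (n := n) (s := s) (t := t) hl hb (by rw [e1 0 (Nat.zero_le _)]; exact a0) b0
    (by rw [e2 M hmM]; omega) bn (fun k _ => ?_) (fun k hk => Or.inl (rb k hk))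
  · have key : ∀ w, Relation.ReflTransGen (St a' b m n) (0, 0) w → Relation.ReflTransGen (St a b m n) (0, 0) w := by
      intro w h
      refine rtg_map id ?_ h
      intro u v h
      refine ⟨⟨h.1.1, h.1.2.1, ?_⟩, ⟨h.2.1.1, h.2.1.2.1, ?_⟩, h.2.2⟩
      · rw [id, ← e1 _ h.1.1]
        exact h.1.2.2
      · rw [id, ← e1 _ h.2.1.1]
        exact h.2.1.2.2
    rcases cut (m := m) hc with ⟨h1, h2⟩ | ⟨j, h⟩
    · have e : M = m := le_antisymm h1 hmM
      rw [e] at h2
      exact ⟨n, key _ h2⟩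
    · exact ⟨j, key _ h⟩
  · left
    rcases Nat.lt_or_ge m k with h | h
    · rw [e2 k h.le]
      constructor <;> omega
    · rw [e1 k h]
      exact ra k h

/-- From index walks to paths of the product. -/
theorem toPath {α β : Type} {D : Dom α} {E : Dom β} {s t : ℕ} (hD : D.OK s t) (hE : E.OK s t) {m n : ℕ} {x : ℕ → α} {y : ℕ → β}
    (xS : ∀ i, i ≤ m → D.S (x i)) (xst : ∀ i, i < m → D.st (x i) (x (i + 1))) (yS : ∀ i, i ≤ n → E.S (y i))
    (yst : ∀ i, i < n → E.st (y i) (y (i + 1))) (h0 : D.val (x 0) = E.val (y 0)) {w : ℕ × ℕ}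
    (h : Relation.ReflTransGen (St (fun i => (D.val (x i) : ℤ)) (fun i => (E.val (y i) : ℤ)) m n) (0, 0) w) :
    (D.prod E).Path (x 0, y 0) (x w.1, y w.2) := by
  have hD2 : ∀ i j, i ≤ m → j ≤ m → (i ≤ j + 1 ∧ j ≤ i + 1) → D.st (x i) (x j) := by
    intro i j hi hj hij
    rcases Nat.lt_trichotomy i j with h5 | h5 | h5
    · have h6 : j = i + 1 := by omega
      subst h6
      exact xst i (by omega)
    · subst h5
      exact hD.refl _
    · have h6 : i = j + 1 := by omega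
      subst h6
      exact hD.symm _ _ (xst j (by omega))
  have hE2 : ∀ i j, i ≤ n → j ≤ n → (i ≤ j + 1 ∧ j ≤ i + 1) → E.st (y i) (y j) := by
    intro i j hi hj hij
    rcases Nat.lt_trichotomy i j with h5 | h5 | h5
    · have h6 : j = i + 1 := by omega
      subst h6
      exact yst i (by omega)
    · subst h5
      exact hE.refl _
    · have h6 : i = j + 1 := by omega
      subst h6
      exact hE.symm _ _ (yst j (by omega))
  have z0 : (D.prod E).S (x 0, y 0) := ⟨xS 0 (Nat.zero_le _), yS 0 (Nat.zero_le _), h0⟩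
  induction h with
  | refl => exact ⟨z0, z0, Relation.ReflTransGen.refl⟩
  | @tail u v _ hs ih =>
    have hv : (D.prod E).S (x v.1, y v.2) := ⟨xS _ hs.2.1.1, yS _ hs.2.1.2.1, Int.natCast_inj.mp hs.2.1.2.2⟩
    refine ⟨z0, hv, ih.2.2.tail ⟨ih.2.1, hv, hD2 _ _ hs.1.1 hs.2.1.1 hs.2.2.1, hE2 _ _ hs.1.2.1 hs.2.1.2.1 hs.2.2.2⟩⟩

end McA

theorem prod_OK {α β : Type} {D : Dom α} {E : Dom β} {s t : ℕ} (hD : D.OK s t) (hE : E.OK s t) :
    (D.prod E).OK s t where
  symm a b h := ⟨hD.symm _ _ h.1, hE.symm _ _ h.2⟩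
  refl a := ⟨hD.refl _, hE.refl _⟩
  nr a b ha hb h := hD.nr _ _ ha.1 hb.1 h.1
  rng a ha := hD.rng _ ha.1

theorem prod_AF {α β : Type} {D : Dom α} {E : Dom β} {s t : ℕ} (hD : D.OK s t) (hE : E.OK s t)
    (hA : D.AF s t) (hB : E.AF s t) : (D.prod E).AF s t where
  lo := by
    obtain ⟨a, h1, h2⟩ := hA.lo
    obtain ⟨b, h3, h4⟩ := hB.lo
    exact ⟨(a, b), ⟨h1, h3, by rw [h2, h4]⟩, h2⟩
  hi := by
    obtain ⟨a, h1, h2⟩ := hA.hi
    obtain ⟨b, h3, h4⟩ := hB.hi
    exact ⟨(a, b), ⟨h1, h3, by rw [h2, h4]⟩, h2⟩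
  up := by
    rintro ⟨a, c⟩ ⟨h1, h2, h3⟩ h4
    change D.val a = s at h4
    change D.val a = E.val c at h3
    obtain ⟨b, h5, h6⟩ := hA.up a h1 h4
    obtain ⟨d, h7, h8⟩ := hB.up c h2 (by rw [← h3, h4])
    exact ⟨(b, d), h5, path_mc hD hE h6 h8 (Or.inl ⟨h4, by rw [← h3, h4], h5, h7⟩)⟩
  dn := by
    rintro ⟨a, c⟩ ⟨h1, h2, h3⟩ h4
    change D.val a = t at h4
    change D.val a = E.val c at h3
    obtain ⟨b, h5, h6⟩ := hA.dn a h1 h4
    obtain ⟨d, h7, h8⟩ := hB.dn c h2 (by rw [← h3, h4])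
    exact ⟨(b, d), h5, path_mc hD hE h6 h8 (Or.inr ⟨h4, by rw [← h3, h4], h5, h7⟩)⟩

/-- Drive lemma: any path of the first walker starting at an extreme value can be followed by the
second walker inside an alternating-full domain. (Append virtual positions to the first path such that
the value goes monotonically to the opposite extreme value; `mc` with a path of `E` from `y0` to the
opposite extreme value; stop at the first arrival of the first walker at the end of its path.) -/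
theorem drive {α β : Type} {D : Dom α} {E : Dom β} {s t : ℕ} (hD : D.OK s t) (hE : E.OK s t)
    (hA : E.AF s t) {x0 x1 : α} (hp : D.Path x0 x1) (hx : D.val x0 = s ∨ D.val x0 = t)
    {y0 : β} (hy : E.S y0) (hv : D.val x0 = E.val y0) :
    ∃ y1, (D.prod E).Path (x0, y0) (x1, y1) := by
  obtain ⟨m, x, ex0, exm, xS, xst⟩ := path_seq hp
  have key : ∃ y2, E.Path y0 y2 ∧ ((D.val x0 = s ∧ E.val y2 = t) ∨ (D.val x0 = t ∧ E.val y2 = s)) := by
    rcases hx with e | e
    · obtain ⟨y2, h1, h2⟩ := hA.up y0 hy (by rw [← hv, e])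
      exact ⟨y2, h2, Or.inl ⟨e, h1⟩⟩
    · obtain ⟨y2, h1, h2⟩ := hA.dn y0 hy (by rw [← hv, e])
      exact ⟨y2, h2, Or.inr ⟨e, h1⟩⟩
  obtain ⟨y2, hp2, he⟩ := key
  obtain ⟨n, y, ey0, eyn, yS, yst⟩ := path_seq hp2
  have la : McA.Lip (fun i => (D.val (x i) : ℤ)) m := by
    intro i hi
    have := hD.nr _ _ (xS i hi.le) (xS (i + 1) hi) (xst i hi)
    unfold Nr at this
    constructor <;> dsimp only <;> omega
  have lb : McA.Lip (fun i => (E.val (y i) : ℤ)) n := by
    intro i hi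
    have := hE.nr _ _ (yS i hi.le) (yS (i + 1) hi) (yst i hi)
    unfold Nr at this
    constructor <;> dsimp only <;> omega
  have h0 : D.val (x 0) = E.val (y 0) := by rw [ex0, ey0, hv]
  have fin : ∀ j, Relation.ReflTransGen (McA.St (fun i => (D.val (x i) : ℤ)) (fun i => (E.val (y i) : ℤ)) m n) (0, 0) (m, j) →
      ∃ y1, (D.prod E).Path (x0, y0) (x1, y1) := by
    intro j h
    have h2 := McA.toPath hD hE xS xst yS yst h0 h
    rw [ex0, ey0] at h2
    refine ⟨y j, ?_⟩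
    have e : x (m, j).1 = x1 := exm
    rw [e] at h2
    exact h2
  rcases he with ⟨e1, e2⟩ | ⟨e1, e2⟩
  · obtain ⟨j, hj⟩ := McA.drvI (s := s) (t := t) la lb (by rw [ex0, e1]) (by rw [ey0, ← hv, e1])
      (by rw [eyn, e2]) (fun k hk => by have := hD.rng _ (xS k hk); constructor <;> omega)
      (fun k hk => by have := hE.rng _ (yS k hk); constructor <;> omega)
    exact fin j hj
  · obtain ⟨j, hj⟩ := McA.drvI (a := fun i => -(D.val (x i) : ℤ)) (b := fun i => -(E.val (y i) : ℤ)) (m := m) (n := n)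
      (s := -(t : ℤ)) (t := -(s : ℤ))
      (fun i hi => by obtain ⟨g1, g2⟩ := la i hi; dsimp only at g1 g2; constructor <;> dsimp only <;> omega)
      (fun i hi => by obtain ⟨g1, g2⟩ := lb i hi; dsimp only at g1 g2; constructor <;> dsimp only <;> omega)
      (by rw [ex0, e1]) (by rw [ey0, ← hv, e1])
      (by rw [eyn, e2]) (fun k hk => by have := hD.rng _ (xS k hk); constructor <;> omega)
      (fun k hk => by have := hE.rng _ (yS k hk); constructor <;> omega)
    exact fin j (McA.Cn.neg hj)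

/-- Reversed drive. -/
theorem drive_rev {α β : Type} {D : Dom α} {E : Dom β} {s t : ℕ} (hD : D.OK s t) (hE : E.OK s t)
    (hA : E.AF s t) {x0 x1 : α} (hp : D.Path x0 x1) (hx : D.val x1 = s ∨ D.val x1 = t) :
    ∃ y0 y1, (D.prod E).Path (x0, y0) (x1, y1) := by
  have key : ∃ y1, E.S y1 ∧ D.val x1 = E.val y1 := by
    rcases hx with e | e
    · obtain ⟨y, h1, h2⟩ := hA.lo
      exact ⟨y, h1, by rw [e, h2]⟩
    · obtain ⟨y, h1, h2⟩ := hA.hi
      exact ⟨y, h1, by rw [e, h2]⟩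
  obtain ⟨y1, h1, h2⟩ := key
  obtain ⟨y0, h3⟩ := drive hD hE hA (path_symm hD hp) hx h1 h2
  exact ⟨y0, y1, path_symm (prod_OK hD hE) h3⟩

end Pool.Agent.Work.NoCP
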