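import Pool.Agent.Work.NoCP.Flatten
import Pool.Agent.Work.NoCP.LayBasic

set_option autoImplicit false

namespace Pool.Agent.Work.NoCP

private theorem t1_cov {n : ℕ} {W : ℕ → List (ℕ × ℕ)} {S : Lay} (hS : Flat n W S) {u : ℕ}
    (hu : u < S.N) : ∃ e i p, e < n ∧ (W e)[i]? = some p ∧ i < (W e).length ∧ p ∈ W e ∧
      u = S.fst e + i ∧ S.pi u = e ∧ S.F u = p.1 ∧ S.G u = p.2 := by
  obtain ⟨e, i, p, he, hp, rfl⟩ := hS.cov u hu
  obtain ⟨h1, h2, h3⟩ := hS.val e he i p hp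
  obtain ⟨hi, hpi⟩ := List.getElem?_eq_some_iff.1 hp
  exact ⟨e, i, p, he, hp, hi, hpi ▸ List.getElem_mem hi, rfl, h1, h2, h3⟩

private theorem t1_step {Q R S : Lay} {A B : Set ℕ} {As Bs : List (Set ℕ)}
    {md : ℕ → ℕ → Prop} {W : ℕ → List (ℕ × ℕ)} (hW : WOK Q R A B As Bs md W)
    (hS : Flat R.N W S) {u : ℕ} (hu : u + 1 < S.N) :
    nice2 R.F R.G (S.F u, S.G u) (S.F (u + 1), S.G (u + 1)) := by
  obtain ⟨e, i, p, he, hp, hi, hpm, rfl, h1, h2, h3⟩ := t1_cov hS (u := u) (by omega)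
  rw [h2, h3]
  by_cases h4 : i + 1 < (W e).length
  · have h5 : (W e)[i + 1]? = some (W e)[i + 1] := List.getElem?_eq_getElem h4
    obtain ⟨-, h6, h7⟩ := hS.val e he (i + 1) _ h5
    rw [← add_assoc] at h6 h7
    rw [h6, h7]
    have h8 := List.isChain_iff_getElem.1 (hW.ch e he) i h4
    have h9 : (W e)[i] = p := (List.getElem?_eq_some_iff.1 hp).2
    rw [h9] at h8
    exact h8
  · have h5 : i + 1 = (W e).length := by omega
    have h6 := hS.lst e he
    have h7 : e + 1 < R.N := by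
      by_contra h8
      have h9 : e = R.N - 1 := by omega
      have h10 := hS.top
      rw [← h9] at h10
      omega
    have h8 := hS.fst_succ e h7
    have h9 : S.fst e + i + 1 = S.fst (e + 1) + 0 := by omega
    have hne := hW.ne (e + 1) h7
    have h10 : (W (e + 1))[0]? = some ((W (e + 1)).head hne) := by
      rw [← List.head?_eq_getElem?, List.head?_eq_some_head hne]
    obtain ⟨-, h11, h12⟩ := hS.val (e + 1) h7 0 _ h10
    rw [h9, h11, h12]
    refine hW.jn e h7 p _ ?_ (List.head?_eq_some_head hne)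
    rw [List.getLast?_eq_getElem?]
    have h13 : (W e).length - 1 = i := by omega
    rw [h13]
    exact hp

/-- The new layer is a layer. -/
theorem tr_layer {P Q R S : Lay} (hI : Inv P Q R) {A B : Set ℕ} {As Bs : List (Set ℕ)}
    {md : ℕ → ℕ → Prop} {W : ℕ → List (ℕ × ℕ)} (hW : WOK Q R A B As Bs md W)
    (hS : Flat R.N W S) : LayOK R.N S := by
  have hpos : 0 < R.N := by
    have := hI.okR.lst_top
    omega
  have hmemF : ∀ u, u < S.N → S.F u < R.N ∧ S.G u < R.N := by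
    intro u hu
    obtain ⟨e, i, p, he, hp, hi, hpm, rfl, h1, h2, h3⟩ := t1_cov hS hu
    have h4 := hW.st e he p hpm
    have h5 := layer_mem hI.okR (hI.okR.F_lt e he) h4.1 h4.2.1
    have h6 := layer_mem hI.okR (hI.okR.G_lt e he) h4.2.2.1 h4.2.2.2.1
    rw [h2, h3]
    exact ⟨h5.1, h6.1⟩
  refine ⟨hpos, hS.fst_zero, ?_, ?_, hS.top, ?_, ?_, ?_, fun u hu => (hmemF u hu).1,
    fun u hu => (hmemF u hu).2, ?_, ?_⟩
  · intro v hv
    have h1 := hS.fst_succ v hv
    have h2 := hS.lst v (by omega)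
    omega
  · intro v hv
    have h1 := hS.lst v hv
    have h2 : 0 < (W v).length := List.length_pos_iff.2 (hW.ne v hv)
    omega
  · intro u hu
    obtain ⟨e, i, p, he, hp, hi, hpm, rfl, h1, h2, h3⟩ := t1_cov hS hu
    rw [h1]
    exact he
  · intro u hu
    obtain ⟨e, i, p, he, hp, hi, hpm, rfl, h1, h2, h3⟩ := t1_cov hS hu
    rw [h1]
    omega
  · intro u hu
    obtain ⟨e, i, p, he, hp, hi, hpm, rfl, h1, h2, h3⟩ := t1_cov hS hu
    rw [h1]
    have := hS.lst e he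
    omega
  · intro u hu
    exact (t1_step hW hS hu).1
  · intro u hu
    exact (t1_step hW hS hu).2.1

/-- The relations (R1), (R2), (R3) and (I2) for the new layer. -/
theorem tr_rel {P Q R S : Lay} (hI : Inv P Q R) {A B : Set ℕ} {As Bs : List (Set ℕ)}
    {md : ℕ → ℕ → Prop} {W : ℕ → List (ℕ × ℕ)} (hW : WOK Q R A B As Bs md W)
    (hS : Flat R.N W S) :
    (∀ u, u < S.N → R.pi (S.F u) = R.F (S.pi u)) ∧
    (∀ u, u < S.N → R.pi (S.G u) = R.G (S.pi u)) ∧
    (∀ u, u < S.N → R.F (S.G u) = R.G (S.F u)) ∧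
    (∀ u, u + 1 < S.N → S.F u ≠ S.F (u + 1) → S.G u ≠ S.G (u + 1) →
      R.F (S.G u) ≠ R.F (S.G (u + 1))) := by
  refine ⟨?_, ?_, ?_, ?_⟩
  · intro u hu
    obtain ⟨e, i, p, he, hp, hi, hpm, rfl, h1, h2, h3⟩ := t1_cov hS hu
    have h4 := hW.st e he p hpm
    rw [h1, h2]
    exact (layer_mem hI.okR (hI.okR.F_lt e he) h4.1 h4.2.1).2
  · intro u hu
    obtain ⟨e, i, p, he, hp, hi, hpm, rfl, h1, h2, h3⟩ := t1_cov hS hu
    have h4 := hW.st e he p hpm
    rw [h1, h3]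
    exact (layer_mem hI.okR (hI.okR.G_lt e he) h4.2.2.1 h4.2.2.2.1).2
  · intro u hu
    obtain ⟨e, i, p, he, hp, hi, hpm, rfl, h1, h2, h3⟩ := t1_cov hS hu
    have h4 := hW.st e he p hpm
    rw [h2, h3]
    exact h4.2.2.2.2.symm
  · intro u hu hF hG
    rcases (t1_step hW hS hu).2.2 with h1 | h1 | h1
    · exact absurd h1 hF
    · exact absurd h1 hG
    · exact h1.2

end Pool.Agent.Work.NoCP
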