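import Pool.Agent.Work.NoCP.Flatten
import Pool.Agent.Work.NoCP.LayBasic

set_option autoImplicit false

namespace Pool.Agent.Work.NoCP

private theorem tr2_F {R S : Lay} {W : ℕ → List (ℕ × ℕ)} (hS : Flat R.N W S) {e : ℕ}
    (he : e < R.N) {X : Set ℕ} {l1 T l2 : List (ℕ × ℕ)} (hW : W e = l1 ++ (T ++ l2))
    (hT : SegF R e X T) : ∃ a b, a = S.fst e + l1.length ∧ b + 1 = a + T.length ∧
      Sub S.F (S.fst e) (S.lst e) a b (R.fst (R.F e)) (R.lst (R.F e)) ∧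
      ∀ u, a ≤ u → u ≤ b → S.G u ∈ X := by
  obtain ⟨h1, ⟨x, hx, hx1⟩, ⟨y, hy, hy1⟩⟩ := hT
  have hne : T ≠ [] := by
    intro h
    rw [h] at hx
    exact absurd hx List.not_mem_nil
  obtain ⟨a, b, ha, hb, h2, h3, h4, h5, h6⟩ := flat_seg hS he hW hne
  refine ⟨a, b, ha, hb, ⟨h2, h3, h4, ?_, ?_⟩, fun u hu hu' => h1 _ (h5 u hu hu')⟩
  · obtain ⟨u, hu, hu', hF, _⟩ := h6 x hx
    exact ⟨u, hu, hu', hF.trans hx1⟩
  · obtain ⟨u, hu, hu', hF, _⟩ := h6 y hy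
    exact ⟨u, hu, hu', hF.trans hy1⟩

private theorem tr2_G {R S : Lay} {W : ℕ → List (ℕ × ℕ)} (hS : Flat R.N W S) {e : ℕ}
    (he : e < R.N) {X : Set ℕ} {l1 T l2 : List (ℕ × ℕ)} (hW : W e = l1 ++ (T ++ l2))
    (hT : SegG R e X T) : ∃ a b, a = S.fst e + l1.length ∧ b + 1 = a + T.length ∧
      Sub S.G (S.fst e) (S.lst e) a b (R.fst (R.G e)) (R.lst (R.G e)) ∧
      ∀ u, a ≤ u → u ≤ b → S.F u ∈ X := by
  obtain ⟨h1, ⟨x, hx, hx1⟩, ⟨y, hy, hy1⟩⟩ := hT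
  have hne : T ≠ [] := by
    intro h
    rw [h] at hx
    exact absurd hx List.not_mem_nil
  obtain ⟨a, b, ha, hb, h2, h3, h4, h5, h6⟩ := flat_seg hS he hW hne
  refine ⟨a, b, ha, hb, ⟨h2, h3, h4, ?_, ?_⟩, fun u hu hu' => h1 _ (h5 u hu hu')⟩
  · obtain ⟨u, hu, hu', _, hG⟩ := h6 x hx
    exact ⟨u, hu, hu', hG.trans hx1⟩
  · obtain ⟨u, hu, hu', _, hG⟩ := h6 y hy
    exact ⟨u, hu, hu', hG.trans hy1⟩

private theorem tr2_hits {M : ℕ → ℕ} {a0 a1 j0 j1 s t : ℕ} (h : Sub M a0 a1 j0 j1 s t) :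
    Hits M a0 a1 s t := by
  obtain ⟨⟨x, hx, hx', hxs⟩, ⟨y, hy, hy', hyt⟩⟩ := h.hit
  exact ⟨⟨x, h.l.trans hx, hx'.trans h.r, hxs⟩, ⟨y, h.l.trans hy, hy'.trans h.r, hyt⟩⟩

/-- (I3), (I6) and two children for the new layer (from `richF`, `richG` of `WOK`). -/
theorem tr_full {P Q R S : Lay} (hI : Inv P Q R) {A B : Set ℕ} {As Bs : List (Set ℕ)}
    {md : ℕ → ℕ → Prop} {W : ℕ → List (ℕ × ℕ)} (hW : WOK Q R A B As Bs md W)
    (hS : Flat R.N W S) :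
    (∀ v, v < R.N → S.fst v < S.lst v) ∧
    (∀ v, v < R.N → Hits S.F (S.fst v) (S.lst v) (R.fst (R.F v)) (R.lst (R.F v))) ∧
    (∀ v, v < R.N → Hits S.G (S.fst v) (S.lst v) (R.fst (R.G v)) (R.lst (R.G v))) ∧
    (∀ v, v < R.N → ∃ a b a' b',
      Sub S.F (S.fst v) (S.lst v) a b (R.fst (R.F v)) (R.lst (R.F v)) ∧
      Sub S.F (S.fst v) (S.lst v) a' b' (R.fst (R.F v)) (R.lst (R.F v)) ∧ b + 3 ≤ a') ∧
    (∀ v, v < R.N → ∃ a b a' b',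
      Sub S.G (S.fst v) (S.lst v) a b (R.fst (R.G v)) (R.lst (R.G v)) ∧
      Sub S.G (S.fst v) (S.lst v) a' b' (R.fst (R.G v)) (R.lst (R.G v)) ∧ b + 3 ≤ a') := by
  have hF : ∀ v, v < R.N → ∃ a b a' b',
      Sub S.F (S.fst v) (S.lst v) a b (R.fst (R.F v)) (R.lst (R.F v)) ∧
      Sub S.F (S.fst v) (S.lst v) a' b' (R.fst (R.F v)) (R.lst (R.F v)) ∧ b + 3 ≤ a' := by
    intro v hv
    obtain ⟨l1, T1, l2, T2, l3, h1, h2, h3, h4⟩ := hW.richF v hv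
    obtain ⟨a, b, ha, hb, hs, -⟩ := tr2_F hS hv h1 h3
    have h5 : W v = (l1 ++ (T1 ++ l2)) ++ (T2 ++ l3) := by
      rw [h1, List.append_assoc, List.append_assoc]
    obtain ⟨a', b', ha', hb', hs', -⟩ := tr2_F hS hv h5 h4
    refine ⟨a, b, a', b', hs, hs', ?_⟩
    rw [List.length_append, List.length_append] at ha'
    omega
  have hG : ∀ v, v < R.N → ∃ a b a' b',
      Sub S.G (S.fst v) (S.lst v) a b (R.fst (R.G v)) (R.lst (R.G v)) ∧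
      Sub S.G (S.fst v) (S.lst v) a' b' (R.fst (R.G v)) (R.lst (R.G v)) ∧ b + 3 ≤ a' := by
    intro v hv
    obtain ⟨l1, T1, l2, T2, l3, h1, h2, h3, h4⟩ := hW.richG v hv
    obtain ⟨a, b, ha, hb, hs, -⟩ := tr2_G hS hv h1 h3
    have h5 : W v = (l1 ++ (T1 ++ l2)) ++ (T2 ++ l3) := by
      rw [h1, List.append_assoc, List.append_assoc]
    obtain ⟨a', b', ha', hb', hs', -⟩ := tr2_G hS hv h5 h4
    refine ⟨a, b, a', b', hs, hs', ?_⟩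
    rw [List.length_append, List.length_append] at ha'
    omega
  refine ⟨fun v hv => ?_, fun v hv => ?_, fun v hv => ?_, hF, hG⟩
  · obtain ⟨a, b, a', b', hs, hs', hl⟩ := hF v hv
    have h1 := hs.l
    have h2 := hs.m
    have h3 := hs'.m
    have h4 := hs'.r
    omega
  · obtain ⟨a, b, a', b', hs, -, -⟩ := hF v hv
    exact tr2_hits hs
  · obtain ⟨a, b, a', b', hs, -, -⟩ := hG v hv
    exact tr2_hits hs

/-- goodness of the preimages -/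
theorem tr_good {P Q R S : Lay} (hI : Inv P Q R) {A B : Set ℕ} {As Bs : List (Set ℕ)}
    {md : ℕ → ℕ → Prop} {W : ℕ → List (ℕ × ℕ)} (hW : WOK Q R A B As Bs md W)
    (hS : Flat R.N W S) :
    (∀ X ∈ As, GoodF R S {u | S.G u ∈ X}) ∧ (∀ X ∈ Bs, GoodG R S {u | S.F u ∈ X}) := by
  refine ⟨fun X hX v hv => ?_, fun X hX v hv => ?_⟩
  · obtain ⟨l1, T, l2, h1, h2⟩ := hW.segF v hv X hX
    obtain ⟨a, b, -, -, hs, hx⟩ := tr2_F hS hv h1 h2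
    exact ⟨a, b, hs, fun x h3 h4 => hx x h3 h4⟩
  · obtain ⟨l1, T, l2, h1, h2⟩ := hW.segG v hv X hX
    obtain ⟨a, b, -, -, hs, hx⟩ := tr2_G hS hv h1 h2
    exact ⟨a, b, hs, fun x h3 h4 => hx x h3 h4⟩

end Pool.Agent.Work.NoCP
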