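import Pool.Agent.Work.NoCP.Flatten
import Pool.Agent.Work.NoCP.LayBasic

set_option autoImplicit false

namespace Pool.Agent.Work.NoCP

private theorem t3_core {n : ℕ} {W : ℕ → List (ℕ × ℕ)} {S : Lay} (h : Flat n W S) {e : ℕ}
    (he : e + 1 < n) {f : ℕ × ℕ → ℕ} {M : ℕ → ℕ}
    (hM : ∀ e, e < n → ∀ i p, (W e)[i]? = some p → M (S.fst e + i) = f p)
    {s t : ℕ} (hs : Sync f s t (W e).reverse (W (e + 1))) :
    ∃ (m : ℕ) (y y' : ℕ → ℕ), y 0 = S.lst e ∧ y' 0 = S.fst (e + 1) ∧
      (∀ i, i ≤ m → In (S.fst e) (S.lst e) (y i) ∧ In (S.fst (e + 1)) (S.lst (e + 1)) (y' i) ∧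
        M (y i) = M (y' i)) ∧
      (∀ i, i < m → Nr (y i) (y (i + 1)) ∧ Nr (y' i) (y' (i + 1))) ∧
      (M (y m) = s ∨ M (y m) = t) := by
  obtain ⟨T1, T2, l1, l2, h1, h2, h3, p, hp, hst⟩ := hs
  have hk1 : 0 < T1.length := by
    rcases T1 with _ | ⟨a, T1⟩
    · simp at hp
    · simp
  have hlen : T1.length = T2.length := by
    have := congrArg List.length h3
    simpa using this
  have hW1 : (W e).length = T1.length + l1.length := by
    have := congrArg List.length h1
    simpa using this
  have hW2 : (W (e + 1)).length = T2.length + l2.length := by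
    have := congrArg List.length h2
    simpa using this
  have hl1 := h.lst e (by omega)
  have hl2 := h.lst (e + 1) he
  have hf := h.fst_succ e he
  -- values
  have key1 : ∀ i, i < T1.length → ∃ q, T1[i]? = some q ∧ M (S.lst e - i) = f q := by
    intro i hi
    refine ⟨T1[i], List.getElem?_eq_getElem hi, ?_⟩
    have e1 : (W e).reverse[i]? = some T1[i] := by
      rw [h1, List.getElem?_append_left hi]
      exact List.getElem?_eq_getElem hi
    rw [List.getElem?_reverse (by omega)] at e1
    have e2 := hM e (by omega) _ _ e1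
    have e3 : S.fst e + ((W e).length - 1 - i) = S.lst e - i := by omega
    rw [← e3]
    exact e2
  have key2 : ∀ i, i < T2.length → ∃ q, T2[i]? = some q ∧ M (S.fst (e + 1) + i) = f q := by
    intro i hi
    refine ⟨T2[i], List.getElem?_eq_getElem hi, ?_⟩
    have e1 : (W (e + 1))[i]? = some T2[i] := by
      rw [h2, List.getElem?_append_left hi]
      exact List.getElem?_eq_getElem hi
    exact hM (e + 1) he _ _ e1
  refine ⟨T1.length - 1, fun i => S.lst e - i, fun i => S.fst (e + 1) + i, by simp, by simp, ?_,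
    ?_, ?_⟩
  · intro i hi
    obtain ⟨q, hq, hq'⟩ := key1 i (by omega)
    obtain ⟨r, hr, hr'⟩ := key2 i (by omega)
    have hqr : f q = f r := by
      have a1 : (T1.map f)[i]? = some (f q) := by rw [List.getElem?_map, hq]; rfl
      have a2 : (T2.map f)[i]? = some (f r) := by rw [List.getElem?_map, hr]; rfl
      rw [h3, a2] at a1
      exact (Option.some.inj a1).symm
    refine ⟨?_, ?_, ?_⟩
    · unfold In
      constructor
      · show S.fst e ≤ S.lst e - i
        omega
      · show S.lst e - i ≤ S.lst e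
        omega
    · unfold In
      constructor
      · show S.fst (e + 1) ≤ S.fst (e + 1) + i
        omega
      · show S.fst (e + 1) + i ≤ S.lst (e + 1)
        omega
    · show M (S.lst e - i) = M (S.fst (e + 1) + i)
      rw [hq', hr', hqr]
  · intro i _
    constructor
    · show Nr (S.lst e - i) (S.lst e - (i + 1))
      unfold Nr
      omega
    · show Nr (S.fst (e + 1) + i) (S.fst (e + 1) + (i + 1))
      unfold Nr
      omega
  · obtain ⟨q, hq, hq'⟩ := key1 (T1.length - 1) (by omega)
    rw [List.getLast?_eq_getElem?] at hp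
    have hqp : q = p := by
      rw [hq] at hp
      exact Option.some.inj hp
    show M (S.lst e - (T1.length - 1)) = s ∨ M (S.lst e - (T1.length - 1)) = t
    rw [hq', hqp]
    exact hst

private theorem t3_main {n : ℕ} {W : ℕ → List (ℕ × ℕ)} {S : Lay} (h : Flat n W S)
    {f : ℕ × ℕ → ℕ} {M F : ℕ → ℕ} {a b : ℕ → ℕ}
    (hM : ∀ e, e < n → ∀ i p, (W e)[i]? = some p → M (S.fst e + i) = f p)
    (hs : ∀ e, e + 1 < n → F e = F (e + 1) →
      Sync f (a (F e)) (b (F e)) (W e).reverse (W (e + 1))) :
    ∀ v v', v < n → v' < n → Adj v v' → F v = F v' → Mir M S v v' (a (F v)) (b (F v)) := by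
  intro v v' hv hv' hadj hF
  rcases hadj with hadj | hadj
  · subst hadj
    obtain ⟨m, y, y', h0, h0', h1, h2, h3⟩ := t3_core h hv' hM (hs v hv' hF)
    have e1 : near S v (v + 1) = S.lst v := by
      unfold near
      rw [if_pos (by omega)]
    have e2 : near S (v + 1) v = S.fst (v + 1) := by
      unfold near
      rw [if_neg (by omega)]
    exact ⟨m, y, y', by rw [h0, e1], by rw [h0', e2], h1, h2, h3⟩
  · subst hadj
    obtain ⟨m, y, y', h0, h0', h1, h2, h3⟩ := t3_core h hv hM (hs v' hv hF.symm)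
    have e1 : near S v' (v' + 1) = S.lst v' := by
      unfold near
      rw [if_pos (by omega)]
    have e2 : near S (v' + 1) v' = S.fst (v' + 1) := by
      unfold near
      rw [if_neg (by omega)]
    refine ⟨m, y', y, by rw [h0', e2], by rw [h0, e1], ?_, ?_, ?_⟩
    · intro i hi
      obtain ⟨c1, c2, c3⟩ := h1 i hi
      exact ⟨c2, c1, c3.symm⟩
    · intro i hi
      exact ⟨(h2 i hi).2, (h2 i hi).1⟩
    · rw [← (h1 m le_rfl).2.2, hF]
      exact h3

/-- the mirror property (I5) for the new layer, both orders of the two neighbours -/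
theorem tr_mir {P Q R S : Lay} (hI : Inv P Q R) {A B : Set ℕ} {As Bs : List (Set ℕ)}
    {md : ℕ → ℕ → Prop} {W : ℕ → List (ℕ × ℕ)} (hW : WOK Q R A B As Bs md W)
    (hS : Flat R.N W S) :
    (∀ v v', v < R.N → v' < R.N → Adj v v' → R.F v = R.F v' →
      Mir S.F S v v' (R.fst (R.F v)) (R.lst (R.F v))) ∧
    (∀ v v', v < R.N → v' < R.N → Adj v v' → R.G v = R.G v' →
      Mir S.G S v v' (R.fst (R.G v)) (R.lst (R.G v))) := by
  constructor
  · exact t3_main hS (f := Prod.fst) (M := S.F) (F := R.F) (a := R.fst) (b := R.lst)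
      (fun e he i p hp => (hS.val e he i p hp).2.1) hW.mirF
  · exact t3_main hS (f := Prod.snd) (M := S.G) (F := R.G) (a := R.fst) (b := R.lst)
      (fun e he i p hp => (hS.val e he i p hp).2.2) hW.mirG

end Pool.Agent.Work.NoCP
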