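import Pool.Agent.Work.NoCP.Flatten
import Pool.Agent.Work.NoCP.LayBasic

set_option autoImplicit false

namespace Pool.Agent.Work.NoCP

private theorem t4_seg {Q R : Lay} {A B : Set ℕ} {As Bs : List (Set ℕ)}
    {md : ℕ → ℕ → Prop} {W : ℕ → List (ℕ × ℕ)} {S : Lay} (hW : WOK Q R A B As Bs md W)
    (hS : Flat R.N W S) {e e' : ℕ} (he : e < R.N) (he' : e' < R.N) (ha : Adj e e') :
    ∃ L : List (ℕ × ℕ), Ends Q R A B md e e' L ∧ ∀ T l, L = T ++ l → T ≠ [] →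
      ∃ a b, S.fst e ≤ a ∧ a ≤ b ∧ b ≤ S.lst e ∧ a ≤ near S e e' ∧ near S e e' ≤ b ∧
      (∀ u, a ≤ u → u ≤ b → (S.F u, S.G u) ∈ T) ∧
      (∀ p ∈ T, ∃ u, a ≤ u ∧ u ≤ b ∧ S.F u = p.1 ∧ S.G u = p.2) := by
  rcases ha with ha | ha
  · subst ha
    refine ⟨_, hW.endR e he', fun T l hL hT => ?_⟩
    have h1 : W e = l.reverse ++ (T.reverse ++ []) := by
      have h2 := congrArg List.reverse hL
      rw [List.reverse_reverse, List.reverse_append] at h2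
      rw [h2, List.append_nil]
    obtain ⟨a, b, e1, e2, h3, h4, h5, h6, h7⟩ :=
      flat_seg hS he h1 (fun h => hT (List.reverse_eq_nil_iff.1 h))
    have h8 := hS.lst e he
    have h9 : (W e).length = l.length + T.length := by
      rw [h1]
      simp
    rw [List.length_reverse] at e1 e2
    have h10 : near S e (e + 1) = S.lst e := by
      unfold near
      rw [if_pos (by omega)]
    refine ⟨a, b, h3, h4, h5, ?_, ?_, fun u hu1 hu2 => List.mem_reverse.1 (h6 u hu1 hu2),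
      fun p hp => h7 p (List.mem_reverse.2 hp)⟩
    · rw [h10]
      omega
    · rw [h10]
      omega
  · subst ha
    refine ⟨_, hW.endL e' he, fun T l hL hT => ?_⟩
    have h1 : W (e' + 1) = [] ++ (T ++ l) := by
      rw [hL, List.nil_append]
    obtain ⟨a, b, e1, e2, h3, h4, h5, h6, h7⟩ := flat_seg hS he h1 hT
    have h10 : near S (e' + 1) e' = S.fst (e' + 1) := by
      unfold near
      rw [if_neg (by omega)]
    rw [List.length_nil] at e1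
    refine ⟨a, b, h3, h4, h5, ?_, ?_, h6, h7⟩
    · rw [h10]
      omega
    · rw [h10]
      omega

private theorem t4_fe {Q R : Lay} {A B : Set ℕ} {As Bs : List (Set ℕ)}
    {md : ℕ → ℕ → Prop} {W : ℕ → List (ℕ × ℕ)} {S : Lay} (hW : WOK Q R A B As Bs md W)
    (hS : Flat R.N W S) {e e' : ℕ} (he : e < R.N) (he' : e' < R.N) (ha : Adj e e') {C : Set ℕ}
    (h : ∀ L, Ends Q R A B md e e' L → ∃ T l, L = T ++ l ∧ SegF R e C T) :
    FE R S {u | S.G u ∈ C} e e' := by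
  obtain ⟨L, hL, hseg⟩ := t4_seg hW hS he he' ha
  obtain ⟨T, l, hTl, h1, ⟨x, hx, hx'⟩, ⟨y, hy, hy'⟩⟩ := h L hL
  obtain ⟨a, b, h2, h3, h4, h5, h6, h7, h8⟩ := hseg T l hTl (List.ne_nil_of_mem hx)
  obtain ⟨u, hu1, hu2, hu3, -⟩ := h8 x hx
  obtain ⟨w, hw1, hw2, hw3, -⟩ := h8 y hy
  exact ⟨a, b, ⟨h2, h3, h4, ⟨u, hu1, hu2, hu3.trans hx'⟩, ⟨w, hw1, hw2, hw3.trans hy'⟩⟩,
    fun v hv1 hv2 => h1 _ (h7 v hv1 hv2), h5, h6⟩

private theorem t4_ge {Q R : Lay} {A B : Set ℕ} {As Bs : List (Set ℕ)}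
    {md : ℕ → ℕ → Prop} {W : ℕ → List (ℕ × ℕ)} {S : Lay} (hW : WOK Q R A B As Bs md W)
    (hS : Flat R.N W S) {e e' : ℕ} (he : e < R.N) (he' : e' < R.N) (ha : Adj e e') {C : Set ℕ}
    (h : ∀ L, Ends Q R A B md e e' L → ∃ T l, L = T ++ l ∧ SegG R e C T) :
    GE R S {u | S.F u ∈ C} e e' := by
  obtain ⟨L, hL, hseg⟩ := t4_seg hW hS he he' ha
  obtain ⟨T, l, hTl, h1, ⟨x, hx, hx'⟩, ⟨y, hy, hy'⟩⟩ := h L hL
  obtain ⟨a, b, h2, h3, h4, h5, h6, h7, h8⟩ := hseg T l hTl (List.ne_nil_of_mem hx)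
  obtain ⟨u, hu1, hu2, -, hu3⟩ := h8 x hx
  obtain ⟨w, hw1, hw2, -, hw3⟩ := h8 y hy
  exact ⟨a, b, ⟨h2, h3, h4, ⟨u, hu1, hu2, hu3.trans hx'⟩, ⟨w, hw1, hw2, hw3.trans hy'⟩⟩,
    fun v hv1 hv2 => h1 _ (h7 v hv1 hv2), h5, h6⟩

/-- end-fullness: a prefix of `W e'` (or of `(W e).reverse`) gives an interval containing the near end -/
theorem tr_ends {P Q R S : Lay} (hI : Inv P Q R) {A B : Set ℕ} {As Bs : List (Set ℕ)}
    {md : ℕ → ℕ → Prop} {W : ℕ → List (ℕ × ℕ)} (hW : WOK Q R A B As Bs md W)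
    (hS : Flat R.N W S) :
    (∀ e e', e < R.N → e' < R.N → Adj e e' → R.F e ≠ R.F e' → R.G e = R.G e' →
      FE R S {u | S.G u ∈ A} e e') ∧
    (∀ e e', e < R.N → e' < R.N → Adj e e' → R.F e = R.F e' → R.G e ≠ R.G e' →
      GE R S {u | S.F u ∈ B} e e') ∧
    (∀ e e', e < R.N → e' < R.N → Adj e e' → R.F e ≠ R.F e' → R.G e ≠ R.G e' →
      OptG Q R B md e e' → GE R S {u | S.F u ∈ B} e e') ∧
    (∀ e e', e < R.N → e' < R.N → Adj e e' → R.F e ≠ R.F e' → R.G e ≠ R.G e' →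
      OptF Q R A md e e' → FE R S {u | S.G u ∈ A} e e') := by
  exact ⟨fun e e' he he' ha h1 h2 => t4_fe hW hS he he' ha fun L hL => hL.fe h1 h2,
    fun e e' he he' ha h1 h2 => t4_ge hW hS he he' ha fun L hL => hL.ge h1 h2,
    fun e e' he he' ha h1 h2 h3 => t4_ge hW hS he he' ha fun L hL => hL.d1 h1 h2 h3,
    fun e e' he he' ha h1 h2 h3 => t4_fe hW hS he he' ha fun L hL => hL.d2 h1 h2 h3⟩

/-- safety -/
theorem tr_safe {P Q R S : Lay} (hI : Inv P Q R) {A B : Set ℕ} {As Bs : List (Set ℕ)}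
    {md : ℕ → ℕ → Prop} {W : ℕ → List (ℕ × ℕ)} (hW : WOK Q R A B As Bs md W)
    (hS : Flat R.N W S) (h1 : ∀ X ∈ As, X ⊆ A) (h2 : ∀ X ∈ Bs, X ⊆ B) :
    ∀ u, u < S.N →
      S.F u ∈ B ∨ S.G u ∈ A ∨ ∃ e', e' < R.N ∧ Adj (S.pi u) e' ∧ R.F (S.pi u) ≠ R.F e' ∧
        R.G (S.pi u) ≠ R.G e' ∧ ¬ OptG Q R B md (S.pi u) e' ∧ ¬ OptF Q R A md (S.pi u) e' := by
  intro u hu
  obtain ⟨e, i, p, he, hp, hu'⟩ := hS.cov u hu
  obtain ⟨h3, h4, h5⟩ := hS.val e he i p hp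
  rw [← hu'] at h3 h4 h5
  rw [h3, h4, h5]
  exact hW.safe h1 h2 e he p (List.mem_of_getElem? hp)

end Pool.Agent.Work.NoCP
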