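import Pool.Agent.Work.NoCP.Walks
import Pool.Agent.Work.NoCP.Tr1
import Pool.Agent.Work.NoCP.Tr2
import Pool.Agent.Work.NoCP.Tr3
import Pool.Agent.Work.NoCP.Tr4

set_option autoImplicit false

namespace Pool.Agent.Work.NoCP

/-- The extension theorem. -/
theorem extend {P Q R : Lay} (hI : Inv P Q R) {A B : Set ℕ} (hA : GoodF Q R A)
    (hB : GoodG Q R B) (As Bs : List (Set ℕ)) (hAs : ∀ X ∈ As, GoodF Q R X)
    (hBs : ∀ X ∈ Bs, GoodG Q R X) (hla : 3 ≤ As.length) (hlb : 3 ≤ Bs.length)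
    (md : ℕ → ℕ → Prop) : ∃ S, Inv Q R S ∧ ExtOK Q R S A B As Bs md := by
  obtain ⟨W, hW⟩ := wok_exists hI hA hB As Bs hAs hBs hla hlb md
  have hpos : 0 < R.N := by
    have := hI.okR.lst_top
    omega
  obtain ⟨S, hS⟩ := flat_exists R.N hpos W hW.ne
  obtain ⟨r1, r2, r3, r4⟩ := tr_rel hI hW hS
  obtain ⟨f1, f2, f3, f4, f5⟩ := tr_full hI hW hS
  obtain ⟨m1, m2⟩ := tr_mir hI hW hS
  obtain ⟨g1, g2⟩ := tr_good hI hW hS
  obtain ⟨e1, e2, e3, e4⟩ := tr_ends hI hW hS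
  exact ⟨S, ⟨hI.okR, tr_layer hI hW hS, r1, r2, r3, r4, f1, f2, f3, m1, m2, f4, f5⟩,
    ⟨g1, g2, e1, e2, e3, e4, fun h1 h2 => tr_safe hI hW hS h1 h2⟩⟩

end Pool.Agent.Work.NoCP
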