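import Pool.Agent.Work.NoCP.Defs2

set_option autoImplicit false

namespace Pool.Agent.Work.NoCP

private def flOff (W : ℕ → List (ℕ × ℕ)) (v : ℕ) : ℕ := ∑ j ∈ Finset.range v, (W j).length

private theorem flOff_succ (W : ℕ → List (ℕ × ℕ)) (v : ℕ) :
    flOff W (v + 1) = flOff W v + (W v).length := Finset.sum_range_succ _ _

private theorem flOff_mono (W : ℕ → List (ℕ × ℕ)) {v w : ℕ} (h : v ≤ w) :
    flOff W v ≤ flOff W w := by
  induction w, h using Nat.le_induction with
  | base => exact le_rfl
  | succ w _ ih => rw [flOff_succ]; omega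

private def flPi (W : ℕ → List (ℕ × ℕ)) (n u : ℕ) : ℕ :=
  Nat.findGreatest (fun e => flOff W e ≤ u) (n - 1)

private theorem flPi_eq (W : ℕ → List (ℕ × ℕ)) {n e i : ℕ} (he : e < n)
    (hi : i < (W e).length) : flPi W n (flOff W e + i) = e := by
  unfold flPi
  rw [Nat.findGreatest_eq_iff]
  refine ⟨by omega, fun _ => by omega, ?_⟩
  intro m hm _ hc
  have h1 : flOff W (e + 1) ≤ flOff W m := flOff_mono W hm
  rw [flOff_succ] at h1
  omega

/-- Concatenation of nonempty lists gives a layer. -/
theorem flat_exists (n : ℕ) (hn : 0 < n) (W : ℕ → List (ℕ × ℕ)) (hW : ∀ e, e < n → W e ≠ []) :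
    ∃ S : Lay, Flat n W S := by
  have hpos : ∀ e, e < n → 0 < (W e).length := fun e he => List.length_pos_iff.2 (hW e he)
  let X : ℕ → ℕ × ℕ := fun u => ((W (flPi W n u))[u - flOff W (flPi W n u)]?).getD (0, 0)
  refine ⟨⟨flOff W n, flOff W, fun v => flOff W v + (W v).length - 1, flPi W n,
    fun u => (X u).1, fun u => (X u).2⟩, ?_⟩
  refine ⟨?_, ?_, ?_, ?_, ?_, ?_⟩
  · exact Finset.sum_range_zero (fun j => (W j).length)
  · exact fun v _ => flOff_succ W v
  · intro v hv
    show flOff W v + (W v).length - 1 + 1 = flOff W v + (W v).length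
    have := hpos v hv
    omega
  · show flOff W (n - 1) + (W (n - 1)).length - 1 + 1 = flOff W n
    have h1 := hpos (n - 1) (by omega)
    have h2 := flOff_succ W (n - 1)
    rw [Nat.sub_add_cancel hn] at h2
    omega
  · intro e he i p hp
    have hi : i < (W e).length := (List.getElem?_eq_some_iff.1 hp).1
    have h1 : flPi W n (flOff W e + i) = e := flPi_eq W he hi
    have h2 : X (flOff W e + i) = p := by
      show ((W (flPi W n (flOff W e + i)))[flOff W e + i -
        flOff W (flPi W n (flOff W e + i))]?).getD (0, 0) = p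
      rw [h1, Nat.add_sub_cancel_left, hp]
      rfl
    exact ⟨h1, congrArg Prod.fst h2, congrArg Prod.snd h2⟩
  · intro u hu
    have hu' : u < flOff W n := hu
    have h0 : flOff W 0 ≤ u := by
      have : flOff W 0 = 0 := Finset.sum_range_zero (fun j => (W j).length)
      omega
    have h1 : flPi W n u ≤ n - 1 := Nat.findGreatest_le _
    have h2 : flOff W (flPi W n u) ≤ u :=
      Nat.findGreatest_spec (P := fun e => flOff W e ≤ u) (Nat.zero_le _) h0
    have h3 : u < flOff W (flPi W n u + 1) := by
      rcases Nat.lt_or_ge (flPi W n u) (n - 1) with h | h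
      · by_contra hc
        exact Nat.findGreatest_is_greatest (P := fun e => flOff W e ≤ u) (n := n - 1)
          (k := flPi W n u + 1) (Nat.lt_succ_self _) (by omega) (not_lt.1 hc)
      · have h4 : flPi W n u + 1 = n := by omega
        rw [h4]
        exact hu'
    rw [flOff_succ] at h3
    have h5 : u - flOff W (flPi W n u) < (W (flPi W n u)).length := by omega
    refine ⟨flPi W n u, u - flOff W (flPi W n u), _, by omega,
      List.getElem?_eq_getElem h5, ?_⟩
    show u = flOff W (flPi W n u) + (u - flOff W (flPi W n u))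
    omega

/-- A decomposition of `W e` gives an interval of blocks. -/
theorem flat_seg {n : ℕ} {W : ℕ → List (ℕ × ℕ)} {S : Lay} (h : Flat n W S) {e : ℕ} (he : e < n)
    {l1 T l2 : List (ℕ × ℕ)} (hW : W e = l1 ++ (T ++ l2)) (hT : T ≠ []) :
    ∃ a b, a = S.fst e + l1.length ∧ b + 1 = a + T.length ∧ S.fst e ≤ a ∧ a ≤ b ∧ b ≤ S.lst e ∧
      (∀ u, a ≤ u → u ≤ b → (S.F u, S.G u) ∈ T) ∧
      (∀ p ∈ T, ∃ u, a ≤ u ∧ u ≤ b ∧ S.F u = p.1 ∧ S.G u = p.2) := by
  have hTl : 0 < T.length := List.length_pos_iff.2 hT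
  have hlen : (W e).length = l1.length + (T.length + l2.length) := by
    rw [hW, List.length_append, List.length_append]
  have hlst := h.lst e he
  have key : ∀ j, j < T.length → ∀ p, T[j]? = some p →
      S.F (S.fst e + l1.length + j) = p.1 ∧ S.G (S.fst e + l1.length + j) = p.2 := by
    intro j hj p hp
    have h1 : (W e)[l1.length + j]? = some p := by
      rw [hW, List.getElem?_append_right (by omega), Nat.add_sub_cancel_left,
        List.getElem?_append_left hj, hp]
    have h2 := h.val e he _ p h1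
    rw [← add_assoc] at h2
    exact ⟨h2.2.1, h2.2.2⟩
  refine ⟨S.fst e + l1.length, S.fst e + l1.length + T.length - 1, rfl, by omega, by omega,
    by omega, by omega, ?_, ?_⟩
  · intro u hu1 hu2
    obtain ⟨j, rfl⟩ := Nat.exists_eq_add_of_le hu1
    have hj : j < T.length := by omega
    obtain ⟨h3, h4⟩ := key j hj _ (List.getElem?_eq_getElem hj)
    rw [h3, h4]
    exact List.getElem_mem hj
  · intro p hp
    obtain ⟨j, hj, hjp⟩ := List.getElem_of_mem hp
    obtain ⟨h3, h4⟩ := key j hj p (by rw [List.getElem?_eq_getElem hj, hjp])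
    exact ⟨S.fst e + l1.length + j, by omega, by omega, h3, h4⟩

end Pool.Agent.Work.NoCP
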