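import Pool.Agent.Work.NoCP.Round

set_option autoImplicit false

namespace Pool.Agent.Work.NoCP

/-- the start of the tower -/
theorem base_tok : TOK (fun k => if k ≤ 1 then lay0 else lay2) 2 := by
  have hsub : ∀ a : ℕ, a ≤ 3 → Sub (fun _ => 0) 0 3 a a 0 0 := fun a ha =>
    ⟨Nat.zero_le _, le_rfl, ha, ⟨⟨a, le_rfl, le_rfl, rfl⟩, ⟨a, le_rfl, le_rfl, rfl⟩⟩⟩
  have hnr : Nr 0 0 := ⟨Nat.zero_le _, Nat.zero_le _⟩
  have h0 : LayOK 1 lay0 :=
    { pos := Nat.one_pos
      fst_zero := rfl
      fst_succ := fun v hv => absurd hv (by omega)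
      fst_le := fun v hv => le_rfl
      lst_top := rfl
      pi_lt := fun u hu => Nat.one_pos
      fst_pi := fun u hu => Nat.zero_le _
      le_lst := fun u hu => by
        have h1 : u < 1 := hu
        show u ≤ 0
        omega
      F_lt := fun u hu => Nat.one_pos
      G_lt := fun u hu => Nat.one_pos
      F_nr := fun u hu => hnr
      G_nr := fun u hu => hnr }
  have h2 : LayOK 1 lay2 :=
    { pos := Nat.one_pos
      fst_zero := rfl
      fst_succ := fun v hv => absurd hv (by omega)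
      fst_le := fun v hv => Nat.zero_le _
      lst_top := rfl
      pi_lt := fun u hu => Nat.one_pos
      fst_pi := fun u hu => Nat.zero_le _
      le_lst := fun u hu => by
        have h1 : u < 4 := hu
        show u ≤ 3
        omega
      F_lt := fun u hu => Nat.one_pos
      G_lt := fun u hu => Nat.one_pos
      F_nr := fun u hu => hnr
      G_nr := fun u hu => hnr }
  have hits : Hits (fun _ => 0) 0 3 0 0 :=
    ⟨⟨0, le_rfl, Nat.zero_le _, rfl⟩, ⟨0, le_rfl, Nat.zero_le _, rfl⟩⟩
  have noadj : ∀ v v' : ℕ, v < 1 → v' < 1 → Adj v v' → False := by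
    intro v v' hv hv' h
    unfold Adj at h
    omega
  have hinv : Inv lay0 lay0 lay2 :=
    { okQ := h0
      okR := h2
      piF := fun u hu => rfl
      piG := fun u hu => rfl
      comm := fun u hu => rfl
      nod := fun u hu h => absurd rfl h
      two := fun v hv => by show (0 : ℕ) < 3; omega
      fullF := fun v hv => hits
      fullG := fun v hv => hits
      mirF := fun v v' hv hv' ha => (noadj v v' hv hv' ha).elim
      mirG := fun v v' hv hv' ha => (noadj v v' hv hv' ha).elim
      richF := fun v hv => ⟨0, 0, 3, 3, hsub 0 (by omega), hsub 3 (by omega), by omega⟩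
      richG := fun v hv => ⟨0, 0, 3, 3, hsub 0 (by omega), hsub 3 (by omega), by omega⟩ }
  refine ⟨rfl, rfl, rfl, ?_⟩
  intro k hk
  have hk0 : k = 0 := by omega
  subst hk0
  exact hinv

/-- The infinite tower: iterate `round` for `q = 1, 2, 3, ...` and take the limit (level `k` of the
limit is level `k` of the `i`-th tower for all `i ≥ k`, whose height is at least `i + 2`). -/
theorem infinite_tower : ∃ T : ℕ → Lay, (∀ h, 2 ≤ h → TOK T h) ∧ ∀ q, 1 ≤ q → ∃ h, Kill T h q := by
  classical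
  have hstep : ∀ (i : ℕ) (p : {p : (ℕ → Lay) × ℕ // TOK p.1 p.2 ∧ 2 ≤ p.2}),
      ∃ p' : {p : (ℕ → Lay) × ℕ // TOK p.1 p.2 ∧ 2 ≤ p.2}, p.1.2 < p'.1.2 ∧
        (∀ k, k ≤ p.1.2 → p'.1.1 k = p.1.1 k) ∧ Kill p'.1.1 p'.1.2 (i + 1) := by
    intro i p
    obtain ⟨T', h', h1, h2, h3, h4⟩ := round p.2.1 p.2.2 (i + 1) (by omega)
    exact ⟨⟨(T', h'), h3, by have := p.2.2; simp only; omega⟩, h1, h2, h4⟩
  choose nx hn1 hn2 hn3 using hstep
  let s : ℕ → {p : (ℕ → Lay) × ℕ // TOK p.1 p.2 ∧ 2 ≤ p.2} := fun n =>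
    Nat.rec ⟨(fun k => if k ≤ 1 then lay0 else lay2, 2), base_tok, le_rfl⟩ (fun i p => nx i p) n
  have hs : ∀ i, s (i + 1) = nx i (s i) := fun i => rfl
  have hh : ∀ i, i + 2 ≤ (s i).1.2 := by
    intro i
    induction i with
    | zero => exact (s 0).2.2
    | succ i ih =>
      have h1 := hn1 i (s i)
      rw [← hs] at h1
      omega
  have hmono : ∀ i j, i ≤ j → (s i).1.2 ≤ (s j).1.2 := by
    intro i j hij
    induction j, hij using Nat.le_induction with
    | base => exact le_rfl
    | succ j hij ih =>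
      have h1 := hn1 j (s j)
      rw [← hs] at h1
      omega
  have hagree : ∀ i j, i ≤ j → ∀ k, k ≤ (s i).1.2 → (s j).1.1 k = (s i).1.1 k := by
    intro i j hij
    induction j, hij using Nat.le_induction with
    | base => exact fun k _ => rfl
    | succ j hij ih =>
      intro k hk
      have h1 := hn2 j (s j) k (le_trans hk (hmono i j hij))
      rw [← hs] at h1
      rw [h1]
      exact ih k hk
  have hT : ∀ i k, k ≤ (s i).1.2 → (s k).1.1 k = (s i).1.1 k := by
    intro i k hk
    have hk' : k ≤ (s k).1.2 := by have := hh k; omega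
    rw [← hagree k (max i k) (le_max_right _ _) k hk', hagree i (max i k) (le_max_left _ _) k hk]
  refine ⟨fun k => (s k).1.1 k, ?_, ?_⟩
  · intro h hh2
    have hle : h ≤ (s h).1.2 := by have := hh h; omega
    have htok := (s h).2.1
    refine ⟨?_, ?_, ?_, ?_⟩
    · show (s 0).1.1 0 = lay0
      rw [hT h 0 (by omega)]; exact htok.t0
    · show (s 1).1.1 1 = lay0
      rw [hT h 1 (by omega)]; exact htok.t1
    · show (s 2).1.1 2 = lay2
      rw [hT h 2 (by omega)]; exact htok.t2
    · intro k hk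
      show Inv ((s k).1.1 k) ((s (k + 1)).1.1 (k + 1)) ((s (k + 2)).1.1 (k + 2))
      rw [hT h k (by omega), hT h (k + 1) (by omega), hT h (k + 2) (by omega)]
      exact htok.inv k (by omega)
  · intro q hq
    obtain ⟨i, rfl⟩ : ∃ i, q = i + 1 := ⟨q - 1, by omega⟩
    have hk := hn3 i (s i)
    rw [← hs] at hk
    obtain ⟨n, j, hnj, hkill⟩ := hk
    refine ⟨(s (i + 1)).1.2, n, j, hnj, ?_⟩
    have hTT : ∀ k, k ≤ (s (i + 1)).1.2 → (fun k => (s k).1.1 k) k = (s (i + 1)).1.1 k :=
      fun k hk => hT (i + 1) k hk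
    intro v hv
    have hv' : v < ((s (i + 1)).1.1 (n + (i + 1) + j)).N := by
      have h1 := hT (i + 1) (n + (i + 1) + j) hnj
      rw [← h1]; exact hv
    have c1 := it_congr hTT j (n + (i + 1)) (by omega)
    have c2 := it_congr hTT (i + 1) n (by omega)
    have h2 := hkill v hv'
    rw [(c1 v).1, (c1 v).2.1, (c2 _).1, (c2 _).2.2, (c2 _).2.1, (c2 _).2.2]
    exact h2

end Pool.Agent.Work.NoCP
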