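import Pool.Agent.Work.NoCP.LayBasic

set_option autoImplicit false

namespace Pool.Agent.Work.NoCP

/-- iterates depend only on the levels up to `k + j` -/
theorem it_congr {T T' : ℕ → Lay} {h : ℕ} (hTT : ∀ k, k ≤ h → T' k = T k) (j k : ℕ)
    (hk : k + j ≤ h) (u : ℕ) :
    itF T' j k u = itF T j k u ∧ itG T' j k u = itG T j k u ∧ itP T' j k u = itP T j k u := by
  induction j generalizing u with
  | zero => exact ⟨rfl, rfl, rfl⟩
  | succ j ih =>
    have e := hTT (k + j + 1) (by omega)
    refine ⟨?_, ?_, ?_⟩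
    · change itF T' j k ((T' (k + j + 1)).F u) = itF T j k ((T (k + j + 1)).F u)
      rw [e]
      exact (ih (by omega) _).1
    · change itG T' j k ((T' (k + j + 1)).G u) = itG T j k ((T (k + j + 1)).G u)
      rw [e]
      exact (ih (by omega) _).2.1
    · change itP T' j k ((T' (k + j + 1)).pi u) = itP T j k ((T (k + j + 1)).pi u)
      rw [e]
      exact (ih (by omega) _).2.2

/-- composition of iterates -/
theorem it_add (T : ℕ → Lay) (i j k u : ℕ) :
    itF T (i + j) k u = itF T i k (itF T j (k + i) u) ∧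
    itG T (i + j) k u = itG T i k (itG T j (k + i) u) ∧
    itP T (i + j) k u = itP T i k (itP T j (k + i) u) := by
  induction j generalizing u with
  | zero => exact ⟨rfl, rfl, rfl⟩
  | succ j ih =>
    have e : k + (i + j) + 1 = k + i + j + 1 := by omega
    refine ⟨?_, ?_, ?_⟩
    · change itF T (i + j) k ((T (k + (i + j) + 1)).F u) =
        itF T i k (itF T j (k + i) ((T (k + i + j + 1)).F u))
      rw [e]
      exact (ih _).1
    · change itG T (i + j) k ((T (k + (i + j) + 1)).G u) =
        itG T i k (itG T j (k + i) ((T (k + i + j + 1)).G u))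
      rw [e]
      exact (ih _).2.1
    · change itP T (i + j) k ((T (k + (i + j) + 1)).pi u) =
        itP T i k (itP T j (k + i) ((T (k + i + j + 1)).pi u))
      rw [e]
      exact (ih _).2.2

/-- the layers of a tower are layers -/
private theorem tok_layer' {T : ℕ → Lay} {h : ℕ} (hT : TOK T h) (k : ℕ) (hk : k + 1 ≤ h) :
    LayOK (T k).N (T (k + 1)) := by
  rcases k with _ | k
  · rw [hT.t0, hT.t1]
    constructor
    · exact Nat.one_pos
    · rfl
    · intro v hv
      change v + 1 < 1 at hv
      omega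
    · intro v _
      exact le_rfl
    · rfl
    · intro u _
      exact Nat.one_pos
    · intro u _
      exact Nat.zero_le _
    · intro u hu
      change u < 1 at hu
      change u ≤ 0
      omega
    · intro u _
      exact Nat.one_pos
    · intro u _
      exact Nat.one_pos
    · intro u hu
      change u + 1 < 1 at hu
      omega
    · intro u hu
      change u + 1 < 1 at hu
      omega
  · exact (hT.inv k (by omega)).okR

/-- iterates map blocks to blocks -/
theorem it_lt {T : ℕ → Lay} {h : ℕ} (hT : TOK T h) (j k : ℕ) (hk : k + j ≤ h) (u : ℕ)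
    (hu : u < (T (k + j)).N) :
    itF T j k u < (T k).N ∧ itG T j k u < (T k).N ∧ itP T j k u < (T k).N := by
  induction j generalizing u with
  | zero => exact ⟨hu, hu, hu⟩
  | succ j ih =>
    have hL := tok_layer' hT (k + j) (by omega)
    exact ⟨(ih (by omega) _ (hL.F_lt u hu)).1, (ih (by omega) _ (hL.G_lt u hu)).2.1,
      (ih (by omega) _ (hL.pi_lt u hu)).2.2⟩

/-- iterates map neighbours to neighbours -/
theorem it_nr {T : ℕ → Lay} {h : ℕ} (hT : TOK T h) (j k : ℕ) (hk : k + j ≤ h) (u u' : ℕ)
    (hu : u < (T (k + j)).N) (hu' : u' < (T (k + j)).N) (hn : Nr u u') :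
    Nr (itF T j k u) (itF T j k u') ∧ Nr (itG T j k u) (itG T j k u') := by
  induction j generalizing u u' with
  | zero => exact ⟨hn, hn⟩
  | succ j ih =>
    have hL := tok_layer' hT (k + j) (by omega)
    have h1 := layer_F_nr hL hu hu' hn
    exact ⟨(ih (by omega) _ _ (hL.F_lt u hu) (hL.F_lt u' hu') h1.1).1,
      (ih (by omega) _ _ (hL.G_lt u hu) (hL.G_lt u' hu') h1.2.1).2⟩

/-- one step of the commutation -/
private theorem it_commA {T : ℕ → Lay} {h : ℕ} (hT : TOK T h) (i k : ℕ) (hk : k + i + 1 ≤ h)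
    (u : ℕ) (hu : u < (T (k + i + 1)).N) :
    itF T i k ((T (k + i + 1)).G u) = (T (k + 1)).G (itF T i (k + 1) u) := by
  induction i generalizing u with
  | zero => rfl
  | succ i ih =>
    have e : k + 1 + i + 1 = k + i + 2 := by omega
    have e' : k + (i + 1) + 1 = k + i + 2 := by omega
    rw [e'] at hu
    have hI := hT.inv (k + i) (by omega)
    change itF T i k ((T (k + i + 1)).F ((T (k + (i + 1) + 1)).G u)) =
      (T (k + 1)).G (itF T i (k + 1) ((T (k + 1 + i + 1)).F u))
    rw [e, e', hI.comm u hu]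
    exact ih (by omega) _ (hI.okR.F_lt u hu)

/-- iterates of `F` commute with `G` -/
theorem it_comm {T : ℕ → Lay} {h : ℕ} (hT : TOK T h) (i j k : ℕ) (hk : k + (i + j) ≤ h) (u : ℕ)
    (hu : u < (T (k + (i + j))).N) :
    itF T i k (itG T j (k + i) u) = itG T j k (itF T i (k + j) u) := by
  induction j generalizing u with
  | zero => rfl
  | succ j ih =>
    have e : k + (i + (j + 1)) = k + (i + j) + 1 := by omega
    have e1 : k + i + j + 1 = k + (i + j) + 1 := by omega
    have e2 : k + j + i + 1 = k + (i + j) + 1 := by omega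
    rw [e] at hu
    have hL := tok_layer' hT (k + (i + j)) (by omega)
    change itF T i k (itG T j (k + i) ((T (k + i + j + 1)).G u)) =
      itG T j k ((T (k + j + 1)).G (itF T i (k + j + 1) u))
    rw [e1, ih (by omega) _ (hL.G_lt u hu)]
    have hA := it_commA hT i (k + j) (by omega) u (by rw [e2]; exact hu)
    rw [e2] at hA
    rw [hA]

/-- iterates of `F`, `G` commute with `pi` -/
theorem it_pi {T : ℕ → Lay} {h : ℕ} (hT : TOK T h) (j k : ℕ) (hk : k + 1 + j ≤ h) (u : ℕ)
    (hu : u < (T (k + 1 + j)).N) :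
    (T (k + 1)).pi (itF T j (k + 1) u) = itF T j k ((T (k + 1 + j)).pi u) ∧
    (T (k + 1)).pi (itG T j (k + 1) u) = itG T j k ((T (k + 1 + j)).pi u) := by
  induction j generalizing u with
  | zero => exact ⟨rfl, rfl⟩
  | succ j ih =>
    have e : k + 1 + (j + 1) = k + j + 2 := by omega
    have e1 : k + 1 + j + 1 = k + j + 2 := by omega
    have e2 : k + 1 + j = k + j + 1 := by omega
    rw [e] at hu
    have hI := hT.inv (k + j) (by omega)
    have hF := hI.okR.F_lt u hu
    have hG := hI.okR.G_lt u hu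
    rw [← e2] at hF hG
    have h1 := (ih (by omega) _ hF).1
    have h2 := (ih (by omega) _ hG).2
    refine ⟨?_, ?_⟩
    · change (T (k + 1)).pi (itF T j (k + 1) ((T (k + 1 + j + 1)).F u)) =
        itF T j k ((T (k + j + 1)).F ((T (k + 1 + (j + 1))).pi u))
      rw [e, e1, h1, e2, hI.piF u hu]
    · change (T (k + 1)).pi (itG T j (k + 1) ((T (k + 1 + j + 1)).G u)) =
        itG T j k ((T (k + j + 1)).G ((T (k + 1 + (j + 1))).pi u))
      rw [e, e1, h2, e2, hI.piG u hu]

/-- the layers of a tower are layers -/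
theorem tok_layer {T : ℕ → Lay} {h : ℕ} (hT : TOK T h) (k : ℕ) (hk : k + 1 ≤ h) :
    LayOK (T k).N (T (k + 1)) := tok_layer' hT k hk

/-- a tower of height `h` whose levels up to `h` agree is a tower -/
theorem tok_congr {T T' : ℕ → Lay} {h : ℕ} (hh : 2 ≤ h) (hT : TOK T h)
    (hTT : ∀ k, k ≤ h → T' k = T k) : TOK T' h := by
  refine ⟨(hTT 0 (by omega)).trans hT.t0, (hTT 1 (by omega)).trans hT.t1,
    (hTT 2 hh).trans hT.t2, ?_⟩
  intro k hk
  rw [hTT k (by omega), hTT (k + 1) (by omega), hTT (k + 2) hk]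
  exact hT.inv k hk

end Pool.Agent.Work.NoCP
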