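import Pool.Agent.Work.NoCP.Defs

set_option autoImplicit false

namespace Pool.Agent.Work.NoCP

theorem iv_OK (M : ℕ → ℕ) (a b s t : ℕ) (hn : ∀ x, a ≤ x → x < b → Nr (M x) (M (x + 1)))
    (hr : ∀ x, a ≤ x → x ≤ b → s ≤ M x ∧ M x ≤ t) : (iv M a b).OK s t := by
  refine ⟨fun x y h => ⟨h.2, h.1⟩, fun x => ⟨by omega, by omega⟩, ?_, fun x hx => hr x hx.1 hx.2⟩
  intro x y hx hy hxy
  obtain ⟨hx1, hx2⟩ := hx
  obtain ⟨hy1, hy2⟩ := hy
  obtain ⟨h1, h2⟩ := hxy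
  show Nr (M x) (M y)
  rcases Nat.lt_trichotomy x y with h | h | h
  · obtain rfl : y = x + 1 := by omega
    exact hn x hx1 (by omega)
  · subst h
    exact ⟨by omega, by omega⟩
  · obtain rfl : x = y + 1 := by omega
    have := hn y hy1 (by omega)
    exact ⟨this.2, this.1⟩

theorem iv_path (M : ℕ → ℕ) (a b x y : ℕ) (hx : In a b x) (hy : In a b y) :
    (iv M a b).Path x y := by
  refine ⟨hx, hy, ?_⟩
  have key : ∀ n u : ℕ, a ≤ u → u + n ≤ b →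
      Relation.ReflTransGen (iv M a b).stp u (u + n) ∧
      Relation.ReflTransGen (iv M a b).stp (u + n) u := by
    intro n
    induction n with
    | zero => intro u _ _; exact ⟨Relation.ReflTransGen.refl, Relation.ReflTransGen.refl⟩
    | succ n ih =>
      intro u h1 h2
      obtain ⟨i1, i2⟩ := ih u h1 (by omega)
      have s1 : (iv M a b).stp (u + n) (u + (n + 1)) :=
        ⟨⟨by omega, by omega⟩, ⟨by omega, by omega⟩, ⟨by omega, by omega⟩⟩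
      have s2 : (iv M a b).stp (u + (n + 1)) (u + n) :=
        ⟨⟨by omega, by omega⟩, ⟨by omega, by omega⟩, ⟨by omega, by omega⟩⟩
      exact ⟨i1.tail s1, Relation.ReflTransGen.head s2 i2⟩
  obtain ⟨hx1, hx2⟩ := hx
  obtain ⟨hy1, hy2⟩ := hy
  rcases Nat.le_total x y with h | h
  · obtain ⟨n, rfl⟩ := Nat.exists_eq_add_of_le h
    exact (key n x hx1 hy2).1
  · obtain ⟨n, rfl⟩ := Nat.exists_eq_add_of_le h
    exact (key n y hy1 hx2).2

theorem iv_AF (M : ℕ → ℕ) (a b s t : ℕ) (h : Hits M a b s t) : (iv M a b).AF s t := by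
  obtain ⟨⟨x, hx1, hx2, hx⟩, ⟨y, hy1, hy2, hy⟩⟩ := h
  exact ⟨⟨x, ⟨hx1, hx2⟩, hx⟩, ⟨y, ⟨hy1, hy2⟩, hy⟩,
    fun z hz _ => ⟨y, hy, iv_path M a b z y hz ⟨hy1, hy2⟩⟩,
    fun z hz _ => ⟨x, hx, iv_path M a b z x hz ⟨hx1, hx2⟩⟩⟩

/-- the local data give walkers -/
theorem loc_G {F G : ℕ → ℕ} {b0 b1 c0 c1 s t i0 i1 : ℕ} (h : Loc F G b0 b1 c0 c1 s t)
    (h0 : b0 ≤ i0) (h1 : i1 ≤ b1) : (iv G i0 i1).OK s t := by
  exact iv_OK G i0 i1 s t (fun x h2 h3 => h.Gn x (by omega) (by omega))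
    (fun x h2 h3 => h.Gb x (by omega) (by omega))

theorem loc_F {F G : ℕ → ℕ} {b0 b1 c0 c1 s t k0 k1 : ℕ} (h : Loc F G b0 b1 c0 c1 s t)
    (h0 : c0 ≤ k0) (h1 : k1 ≤ c1) : (iv F k0 k1).OK s t := by
  exact iv_OK F k0 k1 s t (fun x h2 h3 => h.Fn x (by omega) (by omega))
    (fun x h2 h3 => h.Fc x (by omega) (by omega))

end Pool.Agent.Work.NoCP
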