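import Pool.Agent.Work.NoCP.Defs

set_option autoImplicit false

namespace Pool.Agent.Work.NoCP

private theorem walkL_snoc {α : Type} {r : α → α → Prop} {S : α → Prop} {l : List α} {a b c : α}
    (h : WalkL r S l a b) (hr : r b c) (hS : S c) : WalkL r S (l ++ [c]) a c := by
  obtain ⟨h1, h2, h3, h4⟩ := h
  refine ⟨?_, ?_, ?_, ?_⟩
  · rw [List.head?_append, h1]
    rfl
  · rw [List.getLast?_append]
    rfl
  · rw [List.isChain_append]
    refine ⟨h3, List.isChain_singleton c, ?_⟩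
    intro x hx y hy
    rw [h2] at hx
    rw [List.head?_cons] at hy
    cases hx
    cases hy
    exact hr
  · intro p hp
    rw [List.mem_append, List.mem_singleton] at hp
    rcases hp with hp | rfl
    · exact h4 p hp
    · exact hS

private theorem walkL_map {α β : Type} {r : α → α → Prop} {S : α → Prop} {r' : β → β → Prop}
    {S' : β → Prop} (f : α → β) (hr : ∀ x y, r x y → r' (f x) (f y)) (hS : ∀ x, S x → S' (f x))
    {l : List α} {a b : α} (h : WalkL r S l a b) : WalkL r' S' (l.map f) (f a) (f b) := by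
  obtain ⟨h1, h2, h3, h4⟩ := h
  refine ⟨?_, ?_, ?_, ?_⟩
  · rw [List.head?_map, h1]
    rfl
  · rw [List.getLast?_map, h2]
    rfl
  · rw [List.isChain_map]
    exact h3.imp fun x y hxy => hr x y hxy
  · intro p hp
    rw [List.mem_map] at hp
    obtain ⟨x, hx, rfl⟩ := hp
    exact hS x (h4 x hx)

theorem walkL_append {α : Type} {r : α → α → Prop} {S : α → Prop} {l l' : List α} {a b c : α}
    (hr : ∀ x, r x x) (h : WalkL r S l a b) (h' : WalkL r S l' b c) :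
    WalkL r S (l ++ l') a c := by
  obtain ⟨h1, h2, h3, h4⟩ := h
  obtain ⟨h1', h2', h3', h4'⟩ := h'
  refine ⟨?_, ?_, ?_, ?_⟩
  · rw [List.head?_append, h1]
    rfl
  · rw [List.getLast?_append, h2']
    rfl
  · rw [List.isChain_append]
    refine ⟨h3, h3', ?_⟩
    intro x hx y hy
    rw [h2] at hx
    rw [h1'] at hy
    cases hx
    cases hy
    exact hr b
  · intro p hp
    rw [List.mem_append] at hp
    rcases hp with hp | hp
    · exact h4 p hp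
    · exact h4' p hp

theorem walkL_reverse {α : Type} {r : α → α → Prop} {S : α → Prop} {l : List α} {a b : α}
    (hr : ∀ x y, r x y → r y x) (h : WalkL r S l a b) : WalkL r S l.reverse b a := by
  obtain ⟨h1, h2, h3, h4⟩ := h
  refine ⟨?_, ?_, ?_, ?_⟩
  · rw [List.head?_reverse, h2]
  · rw [List.getLast?_reverse, h1]
  · rw [List.isChain_reverse]
    exact h3.imp fun x y hxy => hr x y hxy
  · intro p hp
    exact h4 p (List.mem_reverse.1 hp)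

theorem walkL_mono {α : Type} {r : α → α → Prop} {S S' : α → Prop} {l : List α} {a b : α}
    (hS : ∀ x, S x → S' x) (h : WalkL r S l a b) : WalkL r S' l a b :=
  ⟨h.1, h.2.1, h.2.2.1, fun p hp => hS p (h.2.2.2 p hp)⟩

/-- exchange of the two coordinates -/
theorem walkL_swap {F G : ℕ → ℕ} {b0 b1 c0 c1 : ℕ} {l : List (ℕ × ℕ)} {p q : ℕ × ℕ}
    (h : WalkL (nice2 F G) (St F G b0 b1 c0 c1) l p q) :
    WalkL (nice2 G F) (St G F c0 c1 b0 b1) (l.map Prod.swap) p.swap q.swap := by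
  refine walkL_map Prod.swap ?_ ?_ h
  · rintro ⟨x, y⟩ ⟨u, w⟩ ⟨h1, h2, h3⟩
    refine ⟨h2, h1, ?_⟩
    rcases h3 with h3 | h3 | h3
    · exact Or.inr (Or.inl h3)
    · exact Or.inl h3
    · exact Or.inr (Or.inr ⟨h3.2, h3.1⟩)
  · rintro ⟨x, y⟩ ⟨h1, h2, h3, h4, h5⟩
    exact ⟨h3, h4, h1, h2, h5.symm⟩

private theorem Nr_refl (a : ℕ) : Nr a a := ⟨Nat.le_succ a, Nat.le_succ a⟩

theorem nice2_refl (F G : ℕ → ℕ) (p : ℕ × ℕ) : nice2 F G p p :=
  ⟨Nr_refl _, Nr_refl _, Or.inl rfl⟩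

theorem nice2_symm (F G : ℕ → ℕ) (p q : ℕ × ℕ) (h : nice2 F G p q) : nice2 F G q p := by
  obtain ⟨h1, h2, h3⟩ := h
  refine ⟨⟨h1.2, h1.1⟩, ⟨h2.2, h2.1⟩, ?_⟩
  rcases h3 with h3 | h3 | h3
  · exact Or.inl h3.symm
  · exact Or.inr (Or.inl h3.symm)
  · exact Or.inr (Or.inr ⟨h3.1.symm, h3.2.symm⟩)

theorem nice3_refl (F G : ℕ → ℕ) (p : ℕ × ℕ × ℕ) : nice3 F G p p :=
  ⟨Nr_refl _, Nr_refl _, Nr_refl _, Or.inl ⟨rfl, rfl⟩⟩

/-- projections of nice walks of triples -/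
theorem walkL_proj1 {F G : ℕ → ℕ} {b0 b1 b0' b1' c0 c1 : ℕ} {l : List (ℕ × ℕ × ℕ)}
    {p q : ℕ × ℕ × ℕ} (h : WalkL (nice3 F G) (St3 F G b0 b1 b0' b1' c0 c1) l p q) :
    WalkL (nice2 F G) (St F G b0 b1 c0 c1) (l.map fun x => (x.1, x.2.2)) (p.1, p.2.2)
      (q.1, q.2.2) := by
  refine walkL_map (fun x : ℕ × ℕ × ℕ => (x.1, x.2.2)) ?_ ?_ h
  · rintro ⟨x, x', y⟩ ⟨u, u', w⟩ ⟨h1, h2, h3, h4⟩
    refine ⟨h1, h3, ?_⟩
    rcases h4 with h4 | h4 | h4 | h4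
    · exact Or.inl h4.1
    · exact Or.inl h4.1
    · exact Or.inr (Or.inl h4.2)
    · exact Or.inr (Or.inr ⟨h4.1, h4.2.2⟩)
  · rintro ⟨x, x', y⟩ ⟨h1, h2, h3, h4, h5, h6, h7, h8⟩
    exact ⟨h1, h2, h5, h6, h7⟩

theorem walkL_proj2 {F G : ℕ → ℕ} {b0 b1 b0' b1' c0 c1 : ℕ} {l : List (ℕ × ℕ × ℕ)}
    {p q : ℕ × ℕ × ℕ} (h : WalkL (nice3 F G) (St3 F G b0 b1 b0' b1' c0 c1) l p q) :
    WalkL (nice2 F G) (St F G b0' b1' c0 c1) (l.map fun x => (x.2.1, x.2.2)) (p.2.1, p.2.2)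
      (q.2.1, q.2.2) := by
  refine walkL_map (fun x : ℕ × ℕ × ℕ => (x.2.1, x.2.2)) ?_ ?_ h
  · rintro ⟨x, x', y⟩ ⟨u, u', w⟩ ⟨h1, h2, h3, h4⟩
    refine ⟨h2, h3, ?_⟩
    rcases h4 with h4 | h4 | h4 | h4
    · exact Or.inl h4.2
    · exact Or.inr (Or.inl h4.2)
    · exact Or.inl h4.1
    · exact Or.inr (Or.inr ⟨h4.2.1, h4.2.2⟩)
  · rintro ⟨x, x', y⟩ ⟨h1, h2, h3, h4, h5, h6, h7, h8⟩
    exact ⟨h3, h4, h5, h6, h8⟩

/-- King walks of states can be subdivided to nice walks: a king step with both coordinates changing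
and the same value is replaced by two steps. -/
theorem walk2_of_path {F G : ℕ → ℕ} {b0 b1 c0 c1 : ℕ} {p q : ℕ × ℕ}
    (h : ((iv G b0 b1).prod (iv F c0 c1)).Path p q)
    (hG : ∀ x, b0 ≤ x → x < b1 → Nr (G x) (G (x + 1)))
    (hF : ∀ y, c0 ≤ y → y < c1 → Nr (F y) (F (y + 1))) :
    ∃ l, WalkL (nice2 F G) (St F G b0 b1 c0 c1) l p q := by
  obtain ⟨hp, -, hr⟩ := h
  have toSt : ∀ x : ℕ × ℕ, ((iv G b0 b1).prod (iv F c0 c1)).S x → St F G b0 b1 c0 c1 x := by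
    rintro ⟨x, y⟩ ⟨⟨h1, h2⟩, ⟨h3, h4⟩, h5⟩
    exact ⟨h1, h2, h3, h4, h5⟩
  induction hr with
  | refl =>
    refine ⟨[p], rfl, rfl, List.isChain_singleton p, ?_⟩
    intro x hx
    rw [List.mem_singleton] at hx
    subst hx
    exact toSt _ hp
  | @tail b c _ hstep ih =>
    obtain ⟨l, hl⟩ := ih
    obtain ⟨hb, hc, h1, h2⟩ := hstep
    obtain ⟨x, y⟩ := b
    obtain ⟨u, w⟩ := c
    have hb' := toSt _ hb
    have hc' := toSt _ hc
    obtain ⟨g1, g2, g3, g4, g5⟩ := hb'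
    obtain ⟨g1', g2', g3', g4', g5'⟩ := hc'
    have n1 : Nr x u := h1
    have n2 : Nr y w := h2
    have v1 : G x = F y := g5
    have v2 : G u = F w := g5'
    by_cases hv : G x = G u
    · have s1 : nice2 F G (x, y) (u, y) := ⟨n1, Nr_refl _, Or.inr (Or.inl rfl)⟩
      have s2 : nice2 F G (u, y) (u, w) := ⟨Nr_refl _, n2, Or.inl rfl⟩
      have m : St F G b0 b1 c0 c1 (u, y) := ⟨g1', g2', g3, g4, hv.symm.trans v1⟩
      exact ⟨_, walkL_snoc (walkL_snoc hl s1 m) s2 ⟨g1', g2', g3', g4', g5'⟩⟩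
    · have s1 : nice2 F G (x, y) (u, w) := by
        refine ⟨n1, n2, Or.inr (Or.inr ⟨hv, ?_⟩)⟩
        intro hv'
        exact hv (v1.trans (hv'.trans v2.symm))
      exact ⟨_, walkL_snoc hl s1 ⟨g1', g2', g3', g4', g5'⟩⟩

/-- The same for triples. -/
theorem walk3_of_path {F G : ℕ → ℕ} {b0 b1 b0' b1' c0 c1 : ℕ} {p q : (ℕ × ℕ) × ℕ}
    (h : (((iv G b0 b1).prod (iv G b0' b1')).prod (iv F c0 c1)).Path p q) :
    ∃ l, WalkL (nice3 F G) (St3 F G b0 b1 b0' b1' c0 c1) l (p.1.1, p.1.2, p.2)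
      (q.1.1, q.1.2, q.2) := by
  obtain ⟨hp, -, hr⟩ := h
  have toSt : ∀ x : (ℕ × ℕ) × ℕ, (((iv G b0 b1).prod (iv G b0' b1')).prod (iv F c0 c1)).S x →
      St3 F G b0 b1 b0' b1' c0 c1 (x.1.1, x.1.2, x.2) := by
    rintro ⟨⟨x, x'⟩, y⟩ ⟨⟨⟨h1, h2⟩, ⟨h3, h4⟩, h5⟩, ⟨h6, h7⟩, h8⟩
    have h5' : G x = G x' := h5
    have h8' : G x = F y := h8
    exact ⟨h1, h2, h3, h4, h6, h7, h8', h5'.symm.trans h8'⟩
  induction hr with
  | refl =>
    refine ⟨[(p.1.1, p.1.2, p.2)], rfl, rfl, List.isChain_singleton _, ?_⟩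
    intro x hx
    rw [List.mem_singleton] at hx
    subst hx
    exact toSt _ hp
  | @tail b c _ hstep ih =>
    obtain ⟨l, hl⟩ := ih
    obtain ⟨hb, hc, ⟨h1, h2⟩, h3⟩ := hstep
    obtain ⟨⟨x, x'⟩, y⟩ := b
    obtain ⟨⟨u, u'⟩, w⟩ := c
    obtain ⟨g1, g2, g3, g4, g5, g6, g7, g8⟩ := toSt _ hb
    obtain ⟨k1, k2, k3, k4, k5, k6, k7, k8⟩ := toSt _ hc
    have n1 : Nr x u := h1
    have n2 : Nr x' u' := h2
    have n3 : Nr y w := h3
    have v1 : G x = F y := g7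
    have v2 : G x' = F y := g8
    have v3 : G u = F w := k7
    have v4 : G u' = F w := k8
    by_cases hv : G x = G u
    · have s1 : nice3 F G (x, x', y) (u, x', y) :=
        ⟨n1, Nr_refl _, Nr_refl _, Or.inr (Or.inr (Or.inl ⟨rfl, rfl⟩))⟩
      have s2 : nice3 F G (u, x', y) (u, u', y) :=
        ⟨Nr_refl _, n2, Nr_refl _, Or.inr (Or.inl ⟨rfl, rfl⟩)⟩
      have s3 : nice3 F G (u, u', y) (u, u', w) :=
        ⟨Nr_refl _, Nr_refl _, n3, Or.inl ⟨rfl, rfl⟩⟩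
      have m1 : St3 F G b0 b1 b0' b1' c0 c1 (u, x', y) :=
        ⟨k1, k2, g3, g4, g5, g6, hv.symm.trans v1, v2⟩
      have m2 : St3 F G b0 b1 b0' b1' c0 c1 (u, u', y) :=
        ⟨k1, k2, k3, k4, g5, g6, hv.symm.trans v1,
          v4.trans (v3.symm.trans (hv.symm.trans v1))⟩
      exact ⟨_, walkL_snoc (walkL_snoc (walkL_snoc hl s1 m1) s2 m2) s3
        ⟨k1, k2, k3, k4, k5, k6, k7, k8⟩⟩
    · have s1 : nice3 F G (x, x', y) (u, u', w) := by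
        refine ⟨n1, n2, n3, Or.inr (Or.inr (Or.inr ⟨hv, ?_, ?_⟩))⟩
        · intro hv'
          exact hv (v1.trans (v2.symm.trans (hv'.trans (v4.trans v3.symm))))
        · intro hv'
          exact hv (v1.trans (hv'.trans v3.symm))
      exact ⟨_, walkL_snoc hl s1 ⟨k1, k2, k3, k4, k5, k6, k7, k8⟩⟩

end Pool.Agent.Work.NoCP
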