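import Pool.Agent.Work.NoCP.Drive
import Pool.Agent.Work.NoCP.Iv
import Pool.Agent.Work.NoCP.WalkLists

set_option autoImplicit false

namespace Pool.Agent.Work.NoCP

/-- there is a hub state -/
theorem loc_hub {F G : ℕ → ℕ} {b0 b1 c0 c1 s t i0 i1 k0 k1 : ℕ}
    (hI : Sub G b0 b1 i0 i1 s t) (hJ : Sub F c0 c1 k0 k1 s t) :
    ∃ p, Hub F G i0 i1 k0 k1 s t p := by
  obtain ⟨⟨x, hx0, hx1, hx⟩, -⟩ := hI.hit
  obtain ⟨⟨y, hy0, hy1, hy⟩, -⟩ := hJ.hit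
  exact ⟨(x, y), ⟨hx0, hx1, hy0, hy1, hx.trans hy.symm⟩, Or.inl hx⟩

private theorem hub_path {F G : ℕ → ℕ} {b0 b1 c0 c1 s t i0 i1 k0 k1 : ℕ}
    (h : Loc F G b0 b1 c0 c1 s t) (hI : Sub G b0 b1 i0 i1 s t) (hJ : Sub F c0 c1 k0 k1 s t)
    {p q : ℕ × ℕ} (hp : St F G i0 i1 k0 k1 p) (hq : St F G i0 i1 k0 k1 q)
    (hc : (G p.1 = s ∧ G q.1 = t) ∨ (G p.1 = t ∧ G q.1 = s)) :
    ((iv G i0 i1).prod (iv F k0 k1)).Path p q := by
  have h1 := path_mc (loc_G h hI.l hI.r) (loc_F h hJ.l hJ.r) (a := p.1) (b := q.1) (c := p.2)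
    (d := q.2) (iv_path G i0 i1 _ _ ⟨hp.1, hp.2.1⟩ ⟨hq.1, hq.2.1⟩)
    (iv_path F k0 k1 _ _ ⟨hp.2.2.1, hp.2.2.2.1⟩ ⟨hq.2.2.1, hq.2.2.2.1⟩) (by
      have e1 := hp.2.2.2.2
      have e2 := hq.2.2.2.2
      rcases hc with ⟨h1, h2⟩ | ⟨h1, h2⟩
      · exact Or.inl ⟨h1, e1.symm.trans h1, h2, e2.symm.trans h2⟩
      · exact Or.inr ⟨h1, e1.symm.trans h1, h2, e2.symm.trans h2⟩)
  exact h1

/-- driving `x` (states `(x, y)`, `y` in the full interval `[k0, k1]`) -/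
private theorem hub_drive {F G : ℕ → ℕ} {b0 b1 c0 c1 s t k0 k1 : ℕ}
    (h : Loc F G b0 b1 c0 c1 s t) (hJ : Sub F c0 c1 k0 k1 s t)
    {p : ℕ × ℕ} (hp : St F G b0 b1 k0 k1 p) (hc : G p.1 = s ∨ G p.1 = t) {x : ℕ}
    (hx : In b0 b1 x) :
    ∃ y l, WalkL (nice2 F G) (St F G b0 b1 k0 k1) l p (x, y) := by
  obtain ⟨y, hy⟩ := drive (loc_G h le_rfl le_rfl) (loc_F h hJ.l hJ.r)
    (iv_AF F k0 k1 s t hJ.hit) (x0 := p.1) (x1 := x) (y0 := p.2)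
    (iv_path G b0 b1 _ _ ⟨hp.1, hp.2.1⟩ hx) hc ⟨hp.2.2.1, hp.2.2.2.1⟩ hp.2.2.2.2
  obtain ⟨l, hl⟩ := walk2_of_path hy h.Gn
    (fun z h1 h2 => h.Fn z (hJ.l.trans h1) (lt_of_lt_of_le h2 hJ.r))
  exact ⟨y, l, hl⟩

private theorem loc_swap {F G : ℕ → ℕ} {b0 b1 c0 c1 s t : ℕ}
    (h : Loc F G b0 b1 c0 c1 s t) : Loc G F c0 c1 b0 b1 s t :=
  ⟨h.hc, h.hb, h.Fc, h.Gb, h.Fn, h.Gn⟩

private theorem st_swap {F G : ℕ → ℕ} {b0 b1 c0 c1 : ℕ} {p : ℕ × ℕ}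
    (h : St F G b0 b1 c0 c1 p) : St G F c0 c1 b0 b1 p.swap :=
  ⟨h.2.2.1, h.2.2.2.1, h.1, h.2.1, h.2.2.2.2.symm⟩

private theorem walk_mem {α : Type} {r : α → α → Prop} {S : α → Prop} {l : List α} {a b : α}
    (h : WalkL r S l a b) : b ∈ l := List.mem_of_getLast? h.2.1

/-- All hub states are connected by nice walks inside the hub region (every low corner is connected
to every high corner by `path_mc`; if `s = t` every pair is a state). -/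
theorem loc_conn {F G : ℕ → ℕ} {b0 b1 c0 c1 s t i0 i1 k0 k1 : ℕ}
    (h : Loc F G b0 b1 c0 c1 s t) (hI : Sub G b0 b1 i0 i1 s t) (hJ : Sub F c0 c1 k0 k1 s t)
    {p q : ℕ × ℕ} (hp : Hub F G i0 i1 k0 k1 s t p) (hq : Hub F G i0 i1 k0 k1 s t q) :
    ∃ l, WalkL (nice2 F G) (St F G i0 i1 k0 k1) l p q := by
  have hw : ∀ p q : ℕ × ℕ, ((iv G i0 i1).prod (iv F k0 k1)).Path p q →
      ∃ l, WalkL (nice2 F G) (St F G i0 i1 k0 k1) l p q := by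
    intro p q hpq
    exact walk2_of_path hpq
      (fun z h1 h2 => h.Gn z (hI.l.trans h1) (lt_of_lt_of_le h2 hI.r))
      (fun z h1 h2 => h.Fn z (hJ.l.trans h1) (lt_of_lt_of_le h2 hJ.r))
  obtain ⟨⟨x, hx0, hx1, hx⟩, ⟨x', hx0', hx1', hx'⟩⟩ := hI.hit
  obtain ⟨⟨y, hy0, hy1, hy⟩, ⟨y', hy0', hy1', hy'⟩⟩ := hJ.hit
  have hlo : St F G i0 i1 k0 k1 (x, y) := ⟨hx0, hx1, hy0, hy1, hx.trans hy.symm⟩
  have hhi : St F G i0 i1 k0 k1 (x', y') := ⟨hx0', hx1', hy0', hy1', hx'.trans hy'.symm⟩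
  obtain ⟨hp1, hp2⟩ := hp
  obtain ⟨hq1, hq2⟩ := hq
  apply hw
  rcases hp2 with hp2 | hp2 <;> rcases hq2 with hq2 | hq2
  · exact path_trans (hub_path h hI hJ hp1 hhi (Or.inl ⟨hp2, hx'⟩))
      (hub_path h hI hJ hhi hq1 (Or.inr ⟨hx', hq2⟩))
  · exact hub_path h hI hJ hp1 hq1 (Or.inl ⟨hp2, hq2⟩)
  · exact hub_path h hI hJ hp1 hq1 (Or.inr ⟨hp2, hq2⟩)
  · exact path_trans (hub_path h hI hJ hp1 hlo (Or.inr ⟨hp2, hx⟩))
      (hub_path h hI hJ hlo hq1 (Or.inl ⟨hx, hq2⟩))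

/-- A loop at the hub: first `y` is driven into `[k0', k1']` (with `x` in `[i0, i1]`), then `x` is driven
to `b0`, to `b1` and back into `[i0, i1]` (with `y` in `[k0', k1']`), then `y` is driven back
into `[k0, k1]` (with `x` in `[i0, i1]`). -/
theorem loc_loopF {F G : ℕ → ℕ} {b0 b1 c0 c1 s t i0 i1 k0 k1 k0' k1' : ℕ}
    (h : Loc F G b0 b1 c0 c1 s t) (hI : Sub G b0 b1 i0 i1 s t) (hJ : Sub F c0 c1 k0 k1 s t)
    (hJ' : Sub F c0 c1 k0' k1' s t) {p : ℕ × ℕ} (hp : Hub F G i0 i1 k0 k1 s t p) :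
    ∃ (l1 l2 l3 : List (ℕ × ℕ)) (q : ℕ × ℕ), Hub F G i0 i1 k0 k1 s t q ∧
      WalkL (nice2 F G) (St F G b0 b1 c0 c1) (l1 ++ (l2 ++ l3)) p q ∧
      (∀ x ∈ l1 ++ (l2 ++ l3), In i0 i1 x.1 ∨ In k0 k1 x.2 ∨ In k0' k1' x.2) ∧
      (∀ x ∈ l2, In k0' k1' x.2) ∧ (∃ x ∈ l2, x.1 = b0) ∧ (∃ x ∈ l2, x.1 = b1) := by
  -- drive `y` into `[k0', k1']`
  obtain ⟨⟨y', hy0', hy1', hy'⟩, -⟩ := hJ'.hit
  obtain ⟨hp1, hp2⟩ := hp
  have hps : St G F c0 c1 i0 i1 p.swap := by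
    refine ⟨hJ.l.trans hp1.2.2.1, hp1.2.2.2.1.trans hJ.r, hp1.1, hp1.2.1, hp1.2.2.2.2.symm⟩
  obtain ⟨x', m, hm⟩ := hub_drive (loc_swap h) (F := G) (G := F) (k0 := i0) (k1 := i1) hI hps
    (by
      have e := hp1.2.2.2.2
      rcases hp2 with h1 | h1
      · exact Or.inl (e.symm.trans h1)
      · exact Or.inr (e.symm.trans h1)) (x := y') ⟨hJ'.l.trans hy0', hy1'.trans hJ'.r⟩
  have hm' := walkL_swap hm
  rw [Prod.swap_swap, Prod.swap_prod_mk] at hm'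
  set l1 := m.map Prod.swap with hl1
  have hmem : (x', y') ∈ l1 := walk_mem hm'
  have hst := hm'.2.2.2 _ hmem
  have hxs : G x' = s := by
    have e := hst.2.2.2.2
    exact e.trans hy'
  have hst' : St F G b0 b1 k0' k1' (x', y') :=
    ⟨hI.l.trans hst.1, hst.2.1.trans hI.r, hy0', hy1', hst.2.2.2.2⟩
  -- the two excursions
  obtain ⟨y1, A, hA⟩ := hub_drive h hJ' hst' (Or.inl hxs) (x := b0) ⟨le_rfl, h.hb⟩
  obtain ⟨y2, B, hB⟩ := hub_drive h hJ' hst' (Or.inl hxs) (x := b1) ⟨h.hb, le_rfl⟩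
  have hA' := walkL_reverse (nice2_symm F G) hA
  have hB' := walkL_reverse (nice2_symm F G) hB
  have h2 := walkL_append (nice2_refl F G) (walkL_append (nice2_refl F G) hA hA')
    (walkL_append (nice2_refl F G) hB hB')
  set l2 := (A ++ A.reverse) ++ (B ++ B.reverse) with hl2
  have hb : ∀ x, St F G i0 i1 c0 c1 x → St F G b0 b1 c0 c1 x := fun x hx =>
    ⟨hI.l.trans hx.1, hx.2.1.trans hI.r, hx.2.2.1, hx.2.2.2.1, hx.2.2.2.2⟩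
  have hk : ∀ x, St F G b0 b1 k0' k1' x → St F G b0 b1 c0 c1 x := fun x hx =>
    ⟨hx.1, hx.2.1, hJ'.l.trans hx.2.2.1, hx.2.2.2.1.trans hJ'.r, hx.2.2.2.2⟩
  have h1w := walkL_mono hb hm'
  have h3w := walkL_mono hb (walkL_reverse (nice2_symm F G) hm')
  have h2w := walkL_mono hk h2
  refine ⟨l1, l2, l1.reverse, p, ⟨hp1, hp2⟩,
    walkL_append (nice2_refl F G) h1w (walkL_append (nice2_refl F G) h2w h3w), ?_, ?_, ?_, ?_⟩
  · intro x hx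
    rw [List.mem_append, List.mem_append] at hx
    rcases hx with hx | hx | hx
    · have := hm'.2.2.2 x hx
      exact Or.inl ⟨this.1, this.2.1⟩
    · have := h2.2.2.2 x hx
      exact Or.inr (Or.inr ⟨this.2.2.1, this.2.2.2.1⟩)
    · have := hm'.2.2.2 x (List.mem_reverse.1 hx)
      exact Or.inl ⟨this.1, this.2.1⟩
  · intro x hx
    have := h2.2.2.2 x hx
    exact ⟨this.2.2.1, this.2.2.2.1⟩
  · exact ⟨_, List.mem_append_left _ (List.mem_append_left _ (walk_mem hA)), rfl⟩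
  · exact ⟨_, List.mem_append_right _ (List.mem_append_left _ (walk_mem hB)), rfl⟩

/-- The same with the coordinates exchanged (from `loc_loopF` by `walkL_swap`). -/
theorem loc_loopG {F G : ℕ → ℕ} {b0 b1 c0 c1 s t i0 i1 k0 k1 i0' i1' : ℕ}
    (h : Loc F G b0 b1 c0 c1 s t) (hI : Sub G b0 b1 i0 i1 s t) (hJ : Sub F c0 c1 k0 k1 s t)
    (hI' : Sub G b0 b1 i0' i1' s t) {p : ℕ × ℕ} (hp : Hub F G i0 i1 k0 k1 s t p) :
    ∃ (l1 l2 l3 : List (ℕ × ℕ)) (q : ℕ × ℕ), Hub F G i0 i1 k0 k1 s t q ∧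
      WalkL (nice2 F G) (St F G b0 b1 c0 c1) (l1 ++ (l2 ++ l3)) p q ∧
      (∀ x ∈ l1 ++ (l2 ++ l3), In i0 i1 x.1 ∨ In k0 k1 x.2 ∨ In i0' i1' x.1) ∧
      (∀ x ∈ l2, In i0' i1' x.1) ∧ (∃ x ∈ l2, x.2 = c0) ∧ (∃ x ∈ l2, x.2 = c1) := by
  obtain ⟨hp1, hp2⟩ := hp
  have hps : Hub G F k0 k1 i0 i1 s t p.swap := by
    refine ⟨st_swap hp1, ?_⟩
    have e := hp1.2.2.2.2
    rcases hp2 with h1 | h1
    · exact Or.inl (e.symm.trans h1)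
    · exact Or.inr (e.symm.trans h1)
  obtain ⟨l1, l2, l3, q, hq, hw, h1, h2, ⟨u, hu, hu'⟩, ⟨v, hv, hv'⟩⟩ :=
    loc_loopF (loc_swap h) hJ hI hI' hps
  have hw' := walkL_swap hw
  rw [Prod.swap_swap, List.map_append, List.map_append] at hw'
  refine ⟨l1.map Prod.swap, l2.map Prod.swap, l3.map Prod.swap, q.swap, ?_, hw', ?_, ?_, ?_, ?_⟩
  · refine ⟨st_swap hq.1, ?_⟩
    have e := hq.1.2.2.2.2
    rcases hq.2 with h1 | h1
    · exact Or.inl (e.symm.trans h1)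
    · exact Or.inr (e.symm.trans h1)
  · intro x hx
    rw [← List.map_append, ← List.map_append, List.mem_map] at hx
    obtain ⟨z, hz, rfl⟩ := hx
    rcases h1 z hz with h3 | h3 | h3
    · exact Or.inr (Or.inl h3)
    · exact Or.inl h3
    · exact Or.inr (Or.inr h3)
  · intro x hx
    obtain ⟨z, hz, rfl⟩ := List.mem_map.1 hx
    exact h2 z hz
  · exact ⟨u.swap, List.mem_map_of_mem hu, hu'⟩
  · exact ⟨v.swap, List.mem_map_of_mem hv, hv'⟩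

end Pool.Agent.Work.NoCP
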