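import Pool.Agent.Work.NoCP.LocHub

set_option autoImplicit false

namespace Pool.Agent.Work.NoCP

private def TT {α : Type} (U : List α → Prop) (l : List α) : Prop :=
  ∃ l1 l2 l3 l4 l5, l = l1 ++ (l2 ++ (l3 ++ (l4 ++ l5))) ∧ 2 ≤ l3.length ∧ U l2 ∧ U l4

private lemma TT_ext {α : Type} {U : List α → Prop} {l : List α} (a b : List α) (h : TT U l) :
    TT U (a ++ (l ++ b)) := by
  obtain ⟨l1, l2, l3, l4, l5, e, h3, h2, h4⟩ := h
  refine ⟨a ++ l1, l2, l3, l4, l5 ++ b, ?_, h3, h2, h4⟩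
  rw [e]
  simp [List.append_assoc]

private lemma loops {α κ : Type} {r : α → α → Prop} {S H Reg : α → Prop}
    {E : κ → List α → Prop} (hr : ∀ x, r x x) (hH : ∀ p, H p → S p ∧ Reg p)
    (hE : ∀ k a l b, E k l → E k (a ++ (l ++ b))) (Ks : List κ)
    (hK : ∀ k ∈ Ks, ∀ p, H p → ∃ l q, H q ∧ WalkL r S l p q ∧ (∀ x ∈ l, Reg x) ∧ E k l) :
    ∀ p, H p → ∃ l q, H q ∧ WalkL r S l p q ∧ (∀ x ∈ l, Reg x) ∧ ∀ k ∈ Ks, E k l := by
  induction Ks with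
  | nil =>
    intro p hp
    refine ⟨[p], p, hp, ⟨rfl, rfl, List.isChain_singleton p, ?_⟩, ?_, ?_⟩
    · intro x hx
      rw [List.mem_singleton] at hx
      subst hx
      exact (hH x hp).1
    · intro x hx
      rw [List.mem_singleton] at hx
      subst hx
      exact (hH x hp).2
    · intro k hk
      simp at hk
  | cons k0 Ks ih =>
    intro p hp
    obtain ⟨l, q, hq, hw, hreg, hEk⟩ := hK k0 (List.mem_cons_self ..) p hp
    obtain ⟨l', q', hq', hw', hreg', hE'⟩ :=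
      ih (fun k hk => hK k (List.mem_cons_of_mem _ hk)) q hq
    refine ⟨l ++ l', q', hq', walkL_append hr hw hw', ?_, ?_⟩
    · intro x hx
      rcases List.mem_append.1 hx with h | h
      · exact hreg x h
      · exact hreg' x h
    · intro k hk
      rcases List.mem_cons.1 hk with h | h
      · subst h
        have := hE k [] l l' hEk
        simpa using this
      · have := hE k l l' [] (hE' k h)
        simpa using this

private lemma loops3 {α κ : Type} {r : α → α → Prop} {S H Reg : α → Prop}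
    {E : κ → List α → Prop} {U : List α → Prop} (hr : ∀ x, r x x)
    (hH : ∀ p, H p → S p ∧ Reg p)
    (hE : ∀ k a l b, E k l → E k (a ++ (l ++ b))) (hEU : ∀ k l, E k l → U l)
    (hU : ∀ l, U l → 2 ≤ l.length) (Ks : List κ) (h3 : 3 ≤ Ks.length)
    (hK : ∀ k ∈ Ks, ∀ p, H p → ∃ l q, H q ∧ WalkL r S l p q ∧ (∀ x ∈ l, Reg x) ∧ E k l) :
    ∀ p, H p → ∃ l q, H q ∧ WalkL r S l p q ∧ (∀ x ∈ l, Reg x) ∧ (∀ k ∈ Ks, E k l) ∧
      TT U l := by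
  intro p hp
  match Ks, h3, hK with
  | k1 :: k2 :: k3 :: Ks, _, hK =>
    obtain ⟨l1, q1, hq1, hw1, hr1, hE1⟩ := hK k1 (by simp) p hp
    obtain ⟨l2, q2, hq2, hw2, hr2, hE2⟩ := hK k2 (by simp) q1 hq1
    obtain ⟨l3, q3, hq3, hw3, hr3, hE3⟩ := hK k3 (by simp) q2 hq2
    obtain ⟨l4, q4, hq4, hw4, hr4, hE4⟩ :=
      loops hr hH hE Ks (fun k hk => hK k (by simp [hk])) q3 hq3
    refine ⟨l1 ++ (l2 ++ (l3 ++ l4)), q4, hq4,
      walkL_append hr hw1 (walkL_append hr hw2 (walkL_append hr hw3 hw4)), ?_, ?_, ?_⟩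
    · intro x hx
      simp only [List.mem_append] at hx
      rcases hx with h | h | h | h
      · exact hr1 x h
      · exact hr2 x h
      · exact hr3 x h
      · exact hr4 x h
    · intro k hk
      simp only [List.mem_cons] at hk
      rcases hk with h | h | h | h
      · subst h
        have := hE k [] l1 (l2 ++ (l3 ++ l4)) hE1
        simpa using this
      · subst h
        exact hE k l1 l2 (l3 ++ l4) hE2
      · subst h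
        have := hE k (l1 ++ l2) l3 l4 hE3
        simpa [List.append_assoc] using this
      · have := hE k (l1 ++ (l2 ++ l3)) l4 [] (hE4 k h)
        simpa [List.append_assoc] using this
    · exact ⟨[], l1, l2, l3, l4, by simp, hU _ (hEU _ _ hE2), hEU _ _ hE1, hEU _ _ hE3⟩

private lemma two_le_of_ne {α : Type} {l : List α} {x y : α} (hx : x ∈ l) (hy : y ∈ l)
    (h : x ≠ y) : 2 ≤ l.length := by
  match l with
  | [] => simp at hx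
  | [a] =>
    rw [List.mem_singleton] at hx hy
    exact absurd (hx.trans hy.symm) h
  | a :: b :: l => simp

/-- The middle part of a walk: from hub `p` to hub `q`, with one loop for every interval of `As` and of
`Bs` (concatenate `loc_loopF`, `loc_loopG`, closing with `loc_conn`). Three loops of the same kind give
the last two clauses: the middle loop `l3` (with its connections) has at least two elements because it
contains states with different coordinates. -/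
theorem loc_mid {F G : ℕ → ℕ} {b0 b1 c0 c1 s t i0 i1 k0 k1 : ℕ}
    (h : Loc F G b0 b1 c0 c1 s t) (hI : Sub G b0 b1 i0 i1 s t) (hJ : Sub F c0 c1 k0 k1 s t)
    (hb : b0 < b1) (hc : c0 < c1) (As Bs : List (ℕ × ℕ)) (hla : 3 ≤ As.length) (hlb : 3 ≤ Bs.length)
    (hAs : ∀ k ∈ As, Sub F c0 c1 k.1 k.2 s t) (hBs : ∀ k ∈ Bs, Sub G b0 b1 k.1 k.2 s t)
    {p q : ℕ × ℕ} (hp : Hub F G i0 i1 k0 k1 s t p) (hq : Hub F G i0 i1 k0 k1 s t q) :
    ∃ l : List (ℕ × ℕ), WalkL (nice2 F G) (St F G b0 b1 c0 c1) l p q ∧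
      (∀ x ∈ l, In i0 i1 x.1 ∨ In k0 k1 x.2 ∨ (∃ k ∈ As, In k.1 k.2 x.2) ∨
        (∃ k ∈ Bs, In k.1 k.2 x.1)) ∧
      (∀ k ∈ As, ∃ l1 l2 l3, l = l1 ++ (l2 ++ l3) ∧ (∀ x ∈ l2, In k.1 k.2 x.2) ∧
        (∃ x ∈ l2, x.1 = b0) ∧ (∃ x ∈ l2, x.1 = b1)) ∧
      (∀ k ∈ Bs, ∃ l1 l2 l3, l = l1 ++ (l2 ++ l3) ∧ (∀ x ∈ l2, In k.1 k.2 x.1) ∧
        (∃ x ∈ l2, x.2 = c0) ∧ (∃ x ∈ l2, x.2 = c1)) ∧
      (∃ l1 l2 l3 l4 l5, l = l1 ++ (l2 ++ (l3 ++ (l4 ++ l5))) ∧ 2 ≤ l3.length ∧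
        (∃ x ∈ l2, x.1 = b0) ∧ (∃ x ∈ l2, x.1 = b1) ∧
        (∃ x ∈ l4, x.1 = b0) ∧ (∃ x ∈ l4, x.1 = b1)) ∧
      (∃ l1 l2 l3 l4 l5, l = l1 ++ (l2 ++ (l3 ++ (l4 ++ l5))) ∧ 2 ≤ l3.length ∧
        (∃ x ∈ l2, x.2 = c0) ∧ (∃ x ∈ l2, x.2 = c1) ∧
        (∃ x ∈ l4, x.2 = c0) ∧ (∃ x ∈ l4, x.2 = c1)) := by
  set H : ℕ × ℕ → Prop := Hub F G i0 i1 k0 k1 s t with hHdef
  set Reg : ℕ × ℕ → Prop := fun x => In i0 i1 x.1 ∨ In k0 k1 x.2 ∨
    (∃ k ∈ As, In k.1 k.2 x.2) ∨ (∃ k ∈ Bs, In k.1 k.2 x.1) with hReg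
  have hsub : ∀ x, St F G i0 i1 k0 k1 x → St F G b0 b1 c0 c1 x := by
    rintro x ⟨h1, h2, h3, h4, h5⟩
    exact ⟨hI.l.trans h1, h2.trans hI.r, hJ.l.trans h3, h4.trans hJ.r, h5⟩
  have hH : ∀ p, H p → St F G b0 b1 c0 c1 p ∧ Reg p := by
    intro p hp
    exact ⟨hsub p hp.1, Or.inl ⟨hp.1.1, hp.1.2.1⟩⟩
  have hr := nice2_refl F G
  set E1 : ℕ × ℕ → List (ℕ × ℕ) → Prop := fun k l => ∃ l1 l2 l3, l = l1 ++ (l2 ++ l3) ∧
    (∀ x ∈ l2, In k.1 k.2 x.2) ∧ (∃ x ∈ l2, x.1 = b0) ∧ (∃ x ∈ l2, x.1 = b1) with hE1def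
  set E2 : ℕ × ℕ → List (ℕ × ℕ) → Prop := fun k l => ∃ l1 l2 l3, l = l1 ++ (l2 ++ l3) ∧
    (∀ x ∈ l2, In k.1 k.2 x.1) ∧ (∃ x ∈ l2, x.2 = c0) ∧ (∃ x ∈ l2, x.2 = c1) with hE2def
  set U1 : List (ℕ × ℕ) → Prop := fun l => (∃ x ∈ l, x.1 = b0) ∧ (∃ x ∈ l, x.1 = b1) with hU1def
  set U2 : List (ℕ × ℕ) → Prop := fun l => (∃ x ∈ l, x.2 = c0) ∧ (∃ x ∈ l, x.2 = c1) with hU2def
  have hE1 : ∀ k a l b, E1 k l → E1 k (a ++ (l ++ b)) := by
    rintro k a l b ⟨l1, l2, l3, e, h1, h2, h3⟩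
    refine ⟨a ++ l1, l2, l3 ++ b, ?_, h1, h2, h3⟩
    rw [e]; simp [List.append_assoc]
  have hE2 : ∀ k a l b, E2 k l → E2 k (a ++ (l ++ b)) := by
    rintro k a l b ⟨l1, l2, l3, e, h1, h2, h3⟩
    refine ⟨a ++ l1, l2, l3 ++ b, ?_, h1, h2, h3⟩
    rw [e]; simp [List.append_assoc]
  have hEU1 : ∀ k l, E1 k l → U1 l := by
    rintro k l ⟨l1, l2, l3, e, h1, ⟨x, hx, hx'⟩, ⟨y, hy, hy'⟩⟩
    subst e
    exact ⟨⟨x, by simp [hx], hx'⟩, ⟨y, by simp [hy], hy'⟩⟩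
  have hEU2 : ∀ k l, E2 k l → U2 l := by
    rintro k l ⟨l1, l2, l3, e, h1, ⟨x, hx, hx'⟩, ⟨y, hy, hy'⟩⟩
    subst e
    exact ⟨⟨x, by simp [hx], hx'⟩, ⟨y, by simp [hy], hy'⟩⟩
  have hUl1 : ∀ l, U1 l → 2 ≤ l.length := by
    rintro l ⟨⟨x, hx, hx'⟩, ⟨y, hy, hy'⟩⟩
    refine two_le_of_ne hx hy ?_
    rintro rfl
    omega
  have hUl2 : ∀ l, U2 l → 2 ≤ l.length := by
    rintro l ⟨⟨x, hx, hx'⟩, ⟨y, hy, hy'⟩⟩
    refine two_le_of_ne hx hy ?_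
    rintro rfl
    omega
  have hK1 : ∀ k ∈ As, ∀ p, H p → ∃ l q, H q ∧
      WalkL (nice2 F G) (St F G b0 b1 c0 c1) l p q ∧ (∀ x ∈ l, Reg x) ∧ E1 k l := by
    intro k hk p hp
    obtain ⟨l1, l2, l3, q, hq, hw, hreg, h2, hb0, hb1⟩ := loc_loopF h hI hJ (hAs k hk) hp
    refine ⟨l1 ++ (l2 ++ l3), q, hq, hw, ?_, l1, l2, l3, rfl, h2, hb0, hb1⟩
    intro x hx
    rcases hreg x hx with h' | h' | h'
    · exact Or.inl h'
    · exact Or.inr (Or.inl h')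
    · exact Or.inr (Or.inr (Or.inl ⟨k, hk, h'⟩))
  have hK2 : ∀ k ∈ Bs, ∀ p, H p → ∃ l q, H q ∧
      WalkL (nice2 F G) (St F G b0 b1 c0 c1) l p q ∧ (∀ x ∈ l, Reg x) ∧ E2 k l := by
    intro k hk p hp
    obtain ⟨l1, l2, l3, q, hq, hw, hreg, h2, hb0, hb1⟩ := loc_loopG h hI hJ (hBs k hk) hp
    refine ⟨l1 ++ (l2 ++ l3), q, hq, hw, ?_, l1, l2, l3, rfl, h2, hb0, hb1⟩
    intro x hx
    rcases hreg x hx with h' | h' | h'
    · exact Or.inl h'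
    · exact Or.inr (Or.inl h')
    · exact Or.inr (Or.inr (Or.inr ⟨k, hk, h'⟩))
  obtain ⟨lF, q1, hq1, hwF, hrF, hEF, hTF⟩ := loops3 hr hH hE1 hEU1 hUl1 As hla hK1 p hp
  obtain ⟨lG, q2, hq2, hwG, hrG, hEG, hTG⟩ := loops3 hr hH hE2 hEU2 hUl2 Bs hlb hK2 q1 hq1
  obtain ⟨lC, hwC⟩ := loc_conn h hI hJ hq2 hq
  have hwC' : WalkL (nice2 F G) (St F G b0 b1 c0 c1) lC q2 q := walkL_mono hsub hwC
  refine ⟨lF ++ (lG ++ lC), walkL_append hr hwF (walkL_append hr hwG hwC'), ?_, ?_, ?_, ?_, ?_⟩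
  · intro x hx
    simp only [List.mem_append] at hx
    rcases hx with h' | h' | h'
    · exact hrF x h'
    · exact hrG x h'
    · have := hwC.2.2.2 x h'
      exact Or.inl ⟨this.1, this.2.1⟩
  · intro k hk
    have := hE1 k [] lF (lG ++ lC) (hEF k hk)
    simpa only [List.nil_append] using this
  · intro k hk
    exact hE2 k lF lG lC (hEG k hk)
  · obtain ⟨l1, l2, l3, l4, l5, e, h3, h2, h4⟩ := TT_ext [] (lG ++ lC) hTF
    exact ⟨l1, l2, l3, l4, l5, by simpa using e, h3, h2.1, h2.2, h4.1, h4.2⟩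
  · obtain ⟨l1, l2, l3, l4, l5, e, h3, h2, h4⟩ := TT_ext lF lC hTG
    exact ⟨l1, l2, l3, l4, l5, e, h3, h2.1, h2.2, h4.1, h4.2⟩

end Pool.Agent.Work.NoCP
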