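import Pool.Agent.Work.NoCP.Defs

set_option autoImplicit false

namespace Pool.Agent.Work.NoCP

/-- positions with equal values in the box, king steps -/
private def Rl (u v : ℕ → ℕ) (m n : ℕ) (p q : ℕ × ℕ) : Prop :=
  (p.1 ≤ m ∧ p.2 ≤ n ∧ u p.1 = v p.2) ∧ (q.1 ≤ m ∧ q.2 ≤ n ∧ u q.1 = v q.2) ∧
    Nr p.1 q.1 ∧ Nr p.2 q.2

private abbrev RT (u v : ℕ → ℕ) (m n : ℕ) (p q : ℕ × ℕ) : Prop :=
  Relation.ReflTransGen (Rl u v m n) p q

private theorem nr_symm {a b : ℕ} (h : Nr a b) : Nr b a := ⟨h.2, h.1⟩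

private theorem Rl_symm {u v : ℕ → ℕ} {m n : ℕ} {p q : ℕ × ℕ} (h : Rl u v m n p q) :
    Rl u v m n q p := ⟨h.2.1, h.1, nr_symm h.2.2.1, nr_symm h.2.2.2⟩

private theorem RT_symm {u v : ℕ → ℕ} {m n : ℕ} {p q : ℕ × ℕ} (h : RT u v m n p q) :
    RT u v m n q p := by
  induction h with
  | refl => exact .refl
  | tail _ h2 ih => exact Relation.ReflTransGen.head (Rl_symm h2) ih

private theorem RT_tr {u v u' v' : ℕ → ℕ} {m n m' n' : ℕ} (α β : ℕ → ℕ)
    (hα : ∀ i, i ≤ m' → α i ≤ m) (hβ : ∀ j, j ≤ n' → β j ≤ n)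
    (hα' : ∀ i j, i ≤ m' → j ≤ m' → Nr i j → Nr (α i) (α j))
    (hβ' : ∀ i j, i ≤ n' → j ≤ n' → Nr i j → Nr (β i) (β j))
    (huv : ∀ i j, i ≤ m' → j ≤ n' → u' i = v' j → u (α i) = v (β j)) {p q : ℕ × ℕ}
    (h : RT u' v' m' n' p q) : RT u v m n (α p.1, β p.2) (α q.1, β q.2) := by
  refine Relation.ReflTransGen.lift (fun p : ℕ × ℕ => (α p.1, β p.2)) ?_ _ _ h
  rintro ⟨a, b⟩ ⟨c, d⟩ ⟨⟨h1, h2, h3⟩, ⟨h4, h5, h6⟩, h7, h8⟩
  exact ⟨⟨hα _ h1, hβ _ h2, huv _ _ h1 h2 h3⟩, ⟨hα _ h4, hβ _ h5, huv _ _ h4 h5 h6⟩,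
    hα' _ _ h1 h4 h7, hβ' _ _ h2 h5 h8⟩

private theorem RT_swap {u v : ℕ → ℕ} {m n : ℕ} {p q : ℕ × ℕ} (h : RT u v m n p q) :
    RT v u n m (p.2, p.1) (q.2, q.1) := by
  refine Relation.ReflTransGen.lift (fun p : ℕ × ℕ => (p.2, p.1)) ?_ _ _ h
  rintro ⟨a, b⟩ ⟨c, d⟩ ⟨⟨h1, h2, h3⟩, ⟨h4, h5, h6⟩, h7, h8⟩
  exact ⟨⟨h2, h1, h3.symm⟩, ⟨h5, h4, h6.symm⟩, h8, h7⟩

/-- the hypotheses without the end conditions -/
private structure Hy (u v : ℕ → ℕ) (m n s t : ℕ) : Prop where
  hu : ∀ i, i < m → Nr (u i) (u (i + 1))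
  hv : ∀ j, j < n → Nr (v j) (v (j + 1))
  hur : ∀ i, i ≤ m → s ≤ u i ∧ u i ≤ t
  hvr : ∀ j, j ≤ n → s ≤ v j ∧ v j ≤ t

private theorem Hy.swap {u v : ℕ → ℕ} {m n s t : ℕ} (h : Hy u v m n s t) : Hy v u n m s t :=
  ⟨h.hv, h.hu, h.hvr, h.hur⟩

private def Cl (N : ℕ) : Prop := ∀ m n, m + n < N → ∀ u v s t, Hy u v m n s t →
  ((u 0 = s ∧ v 0 = s ∧ u m = t ∧ v n = t) ∨ (u 0 = t ∧ v 0 = t ∧ u m = s ∧ v n = s)) →
  RT u v m n (0, 0) (m, n)

private theorem caseA {m n : ℕ} (IH : Cl (m + n)) {u v : ℕ → ℕ} {s t : ℕ} (h : Hy u v m n s t)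
    (u0 : u 0 = s) (v0 : v 0 = s) (um : u m = t) (vn : v n = t) (hst : s < t)
    {m' : ℕ} (hm' : m' < m) (um' : u m' = t) : RT u v m n (0, 0) (m, n) := by
  classical
  have hm0 : 0 < m' := by
    rcases Nat.eq_zero_or_pos m' with h0 | h0
    · rw [h0, u0] at um'
      omega
    · exact h0
  -- the minimum of `u` on `[m', m]`
  obtain ⟨m2, hm2, hmin⟩ := Finset.exists_min_image (Finset.Icc m' m) u
    ⟨m', Finset.mem_Icc.2 ⟨le_rfl, hm'.le⟩⟩
  rw [Finset.mem_Icc] at hm2
  have hmin' : ∀ i, m' ≤ i → i ≤ m → u m2 ≤ u i := fun i h1 h2 =>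
    hmin i (Finset.mem_Icc.2 ⟨h1, h2⟩)
  obtain ⟨a, ha⟩ : ∃ a, a = u m2 := ⟨_, rfl⟩
  rw [← ha] at hmin'
  have has : s ≤ a := by
    rw [ha]
    exact (h.hur m2 hm2.2).1
  have hat : a ≤ t := by
    rw [ha]
    exact (h.hur m2 hm2.2).2
  -- the last index with `v ≤ a`
  obtain ⟨n2, hn2⟩ : ∃ n2, n2 = Nat.findGreatest (fun j => v j ≤ a) n := ⟨_, rfl⟩
  have hn2n : n2 ≤ n := by
    rw [hn2]
    exact Nat.findGreatest_le n
  have hvn2 : v n2 ≤ a := by
    rw [hn2]
    exact Nat.findGreatest_spec (P := fun j => v j ≤ a) (m := 0) (Nat.zero_le n)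
      (by rw [v0]; exact has)
  have hgt : ∀ j, n2 < j → j ≤ n → a < v j := by
    intro j h1 h2
    rw [hn2] at h1
    have h3 : ¬ (fun j => v j ≤ a) j :=
      Nat.findGreatest_is_greatest (P := fun j => v j ≤ a) h1 h2
    exact not_le.1 h3
  have hvn2' : v n2 = a := by
    refine le_antisymm hvn2 ?_
    rcases Nat.lt_or_ge n2 n with h1 | h1
    · have h2 := hgt (n2 + 1) (Nat.lt_succ_self _) h1
      have h3 := h.hv n2 h1
      unfold Nr at h3
      omega
    · have : n2 = n := le_antisymm hn2n h1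
      rw [this, vn]
      exact hat
  have hge : ∀ j, n2 ≤ j → j ≤ n → a ≤ v j := by
    intro j h1 h2
    rcases Nat.eq_or_lt_of_le h1 with h3 | h3
    · rw [← h3, hvn2']
    · exact (hgt j h3 h2).le
  have P1 : RT u v m n (0, 0) (m', n) := by
    have h1 := IH m' n (by omega) u v s t
      ⟨fun i hi => h.hu i (by omega), h.hv, fun i hi => h.hur i (by omega), h.hvr⟩
      (Or.inl ⟨u0, v0, um', vn⟩)
    exact RT_tr (fun i => i) (fun j => j) (fun i hi => by omega) (fun j hj => hj)
      (fun _ _ _ _ h => h) (fun _ _ _ _ h => h) (fun _ _ _ _ h => h) h1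
  have P2 : RT u v m n (m', n) (m2, n2) := by
    have h1 := IH (m2 - m') (n - n2) (by omega) (fun i => u (m' + i)) (fun j => v (n - j)) a t
      ⟨fun i hi => h.hu (m' + i) (by omega), fun j hj => by
        have h2 := h.hv (n - (j + 1)) (by omega)
        have e : n - (j + 1) + 1 = n - j := by omega
        rw [e] at h2
        exact nr_symm h2,
        fun i hi => ⟨hmin' _ (by omega) (by omega), (h.hur _ (by omega)).2⟩,
        fun j hj => ⟨hge _ (by omega) (by omega), (h.hvr _ (by omega)).2⟩⟩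
      (Or.inr ⟨um', vn, by
        show u (m' + (m2 - m')) = a
        rw [show m' + (m2 - m') = m2 by omega, ← ha], by
        show v (n - (n - n2)) = a
        rw [show n - (n - n2) = n2 by omega, hvn2']⟩)
    have h2 := RT_tr (u := u) (v := v) (m := m) (n := n) (fun i => m' + i) (fun j => n - j)
      (fun i hi => by omega) (fun j hj => by omega)
      (fun i j _ _ h => by unfold Nr at h ⊢; omega)
      (fun i j _ _ h => by unfold Nr at h ⊢; omega) (fun _ _ _ _ h => h) h1
    have e1 : m' + (m2 - m') = m2 := by omega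
    have e2 : n - (n - n2) = n2 := by omega
    simp only [Nat.add_zero, Nat.sub_zero, e1, e2] at h2
    exact h2
  have P3 : RT u v m n (m2, n2) (m, n) := by
    have h1 := IH (m - m2) (n - n2) (by omega) (fun i => u (m2 + i)) (fun j => v (n2 + j)) a t
      ⟨fun i hi => h.hu (m2 + i) (by omega), fun j hj => h.hv (n2 + j) (by omega),
        fun i hi => ⟨hmin' _ (by omega) (by omega), (h.hur _ (by omega)).2⟩,
        fun j hj => ⟨hge _ (by omega) (by omega), (h.hvr _ (by omega)).2⟩⟩
      (Or.inl ⟨ha.symm, hvn2', by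
        show u (m2 + (m - m2)) = t
        rw [show m2 + (m - m2) = m by omega, um], by
        show v (n2 + (n - n2)) = t
        rw [show n2 + (n - n2) = n by omega, vn]⟩)
    have h2 := RT_tr (u := u) (v := v) (m := m) (n := n) (fun i => m2 + i) (fun j => n2 + j)
      (fun i hi => by omega) (fun j hj => by omega)
      (fun i j _ _ h => by unfold Nr at h ⊢; omega)
      (fun i j _ _ h => by unfold Nr at h ⊢; omega) (fun _ _ _ _ h => h) h1
    have e1 : m2 + (m - m2) = m := by omega
    have e2 : n2 + (n - n2) = n := by omega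
    simp only [Nat.add_zero, e1, e2] at h2
    exact h2
  exact (P1.trans P2).trans P3

/-- time reversal and reflection of the values -/
private theorem rev {u v : ℕ → ℕ} {m n s t : ℕ} (h : Hy u v m n s t)
    (H : RT (fun i => s + t - u (m - i)) (fun j => s + t - v (n - j)) m n (0, 0) (m, n)) :
    RT u v m n (0, 0) (m, n) := by
  have h2 := RT_tr (u := u) (v := v) (m := m) (n := n) (fun i => m - i) (fun j => n - j)
    (fun i hi => by omega) (fun j hj => by omega)
    (fun i j _ _ h => by unfold Nr at h ⊢; omega)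
    (fun i j _ _ h => by unfold Nr at h ⊢; omega) (fun i j hi hj e => by
      have h3 := h.hur (m - i) (by omega)
      have h4 := h.hvr (n - j) (by omega)
      have e' : s + t - u (m - i) = s + t - v (n - j) := e
      omega) H
  simp only [Nat.sub_zero, Nat.sub_self] at h2
  exact RT_symm h2

private theorem Hy.rev {u v : ℕ → ℕ} {m n s t : ℕ} (h : Hy u v m n s t) :
    Hy (fun i => s + t - u (m - i)) (fun j => s + t - v (n - j)) m n s t := by
  refine ⟨fun i hi => ?_, fun j hj => ?_, fun i hi => ?_, fun j hj => ?_⟩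
  · have h1 := h.hu (m - (i + 1)) (by omega)
    rw [show m - (i + 1) + 1 = m - i by omega] at h1
    have h2 := h.hur (m - i) (by omega)
    have h3 := h.hur (m - (i + 1)) (by omega)
    unfold Nr at h1 ⊢
    omega
  · have h1 := h.hv (n - (j + 1)) (by omega)
    rw [show n - (j + 1) + 1 = n - j by omega] at h1
    have h2 := h.hvr (n - j) (by omega)
    have h3 := h.hvr (n - (j + 1)) (by omega)
    unfold Nr at h1 ⊢
    omega
  · have h2 := h.hur (m - i) (by omega)
    show s ≤ s + t - u (m - i) ∧ s + t - u (m - i) ≤ t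
    omega
  · have h2 := h.hvr (n - j) (by omega)
    show s ≤ s + t - v (n - j) ∧ s + t - v (n - j) ≤ t
    omega

private theorem case1 {m n : ℕ} (IH : Cl (m + n)) {u v : ℕ → ℕ} {s t : ℕ} (h : Hy u v m n s t)
    (u0 : u 0 = s) (v0 : v 0 = s) (um : u m = t) (vn : v n = t) : RT u v m n (0, 0) (m, n) := by
  have hst : s ≤ t := by
    have := h.hur 0 (Nat.zero_le m)
    omega
  rcases Nat.eq_or_lt_of_le hst with hst | hst
  · -- constant functions
    have hu : ∀ i, i ≤ m → u i = s := fun i hi => by have := h.hur i hi; omega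
    have hv : ∀ j, j ≤ n → v j = s := fun j hj => by have := h.hvr j hj; omega
    have h1 : ∀ i, i ≤ m → RT u v m n (0, 0) (i, 0) := by
      intro i
      induction i with
      | zero => intro _; exact .refl
      | succ i ih =>
        intro hi
        refine (ih (by omega)).tail ⟨⟨by show i ≤ m; omega, Nat.zero_le n, ?_⟩,
          ⟨hi, Nat.zero_le n, ?_⟩, ?_, ?_⟩
        · show u i = v 0
          rw [hu i (by omega), v0]
        · show u (i + 1) = v 0
          rw [hu _ hi, v0]
        · unfold Nr; simp only; omega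
        · unfold Nr; simp only; omega
    have h2 : ∀ j, j ≤ n → RT u v m n (m, 0) (m, j) := by
      intro j
      induction j with
      | zero => intro _; exact .refl
      | succ j ih =>
        intro hj
        refine (ih (by omega)).tail ⟨⟨le_rfl, by show j ≤ n; omega, ?_⟩,
          ⟨le_rfl, hj, ?_⟩, ?_, ?_⟩
        · show u m = v j
          rw [hu m le_rfl, hv j (by omega)]
        · show u m = v (j + 1)
          rw [hu m le_rfl, hv _ hj]
        · unfold Nr; simp only; omega
        · unfold Nr; simp only; omega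
    exact (h1 m le_rfl).trans (h2 n le_rfl)
  by_cases hA : ∃ m' < m, u m' = t
  · obtain ⟨m', h1, h2⟩ := hA
    exact caseA IH h u0 v0 um vn hst h1 h2
  by_cases hB : ∃ n' < n, v n' = t
  · obtain ⟨n', h1, h2⟩ := hB
    have IH' : Cl (n + m) := by rwa [Nat.add_comm]
    exact RT_swap (caseA IH' h.swap v0 u0 vn um hst h1 h2)
  by_cases hC : ∃ i, 0 < i ∧ i ≤ m ∧ u i = s
  · obtain ⟨i, h1, h2, h3⟩ := hC
    refine rev h (caseA IH h.rev ?_ ?_ ?_ ?_ hst (m' := m - i) (by omega) ?_)
    · show s + t - u (m - 0) = s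
      rw [Nat.sub_zero, um]; omega
    · show s + t - v (n - 0) = s
      rw [Nat.sub_zero, vn]; omega
    · show s + t - u (m - m) = t
      rw [Nat.sub_self, u0]; omega
    · show s + t - v (n - n) = t
      rw [Nat.sub_self, v0]; omega
    · show s + t - u (m - (m - i)) = t
      rw [show m - (m - i) = i by omega, h3]; omega
  by_cases hD : ∃ j, 0 < j ∧ j ≤ n ∧ v j = s
  · obtain ⟨j, h1, h2, h3⟩ := hD
    have IH' : Cl (n + m) := by rwa [Nat.add_comm]
    refine rev h (RT_swap (caseA IH' h.rev.swap ?_ ?_ ?_ ?_ hst (m' := n - j) (by omega) ?_))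
    · show s + t - v (n - 0) = s
      rw [Nat.sub_zero, vn]; omega
    · show s + t - u (m - 0) = s
      rw [Nat.sub_zero, um]; omega
    · show s + t - v (n - n) = t
      rw [Nat.sub_self, v0]; omega
    · show s + t - u (m - m) = t
      rw [Nat.sub_self, u0]; omega
    · show s + t - v (n - (n - j)) = t
      rw [show n - (n - j) = j by omega, h3]; omega
  -- the inner parts
  have m0 : 0 < m := by
    rcases Nat.eq_zero_or_pos m with h0 | h0
    · rw [h0, u0] at um; omega
    · exact h0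
  have n0 : 0 < n := by
    rcases Nat.eq_zero_or_pos n with h0 | h0
    · rw [h0, v0] at vn; omega
    · exact h0
  have hui : ∀ i, 0 < i → i < m → s < u i ∧ u i < t := by
    intro i h1 h2
    have h3 := h.hur i h2.le
    have h4 : u i ≠ t := fun e => hA ⟨i, h2, e⟩
    have h5 : u i ≠ s := fun e => hC ⟨i, h1, h2.le, e⟩
    omega
  have hvi : ∀ j, 0 < j → j < n → s < v j ∧ v j < t := by
    intro j h1 h2
    have h3 := h.hvr j h2.le
    have h4 : v j ≠ t := fun e => hB ⟨j, h2, e⟩
    have h5 : v j ≠ s := fun e => hD ⟨j, h1, h2.le, e⟩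
    omega
  have hu1 := h.hu 0 m0
  have hv1 := h.hv 0 n0
  have hum := h.hu (m - 1) (by omega)
  have hvm := h.hv (n - 1) (by omega)
  rw [show m - 1 + 1 = m by omega, um] at hum
  rw [show n - 1 + 1 = n by omega, vn] at hvm
  rw [u0, Nat.zero_add] at hu1
  rw [v0, Nat.zero_add] at hv1
  unfold Nr at hu1 hv1 hum hvm
  rcases Nat.eq_or_lt_of_le (Nat.succ_le_of_lt hst) with h1 | h1
  · -- `t = s + 1`
    have em : m = 1 := by
      by_contra hne
      have := hui 1 one_pos (by omega)
      omega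
    have en : n = 1 := by
      by_contra hne
      have := hvi 1 one_pos (by omega)
      omega
    subst em
    subst en
    refine Relation.ReflTransGen.single ⟨⟨Nat.zero_le _, Nat.zero_le _, ?_⟩,
      ⟨le_rfl, le_rfl, ?_⟩, ?_, ?_⟩
    · show u 0 = v 0
      rw [u0, v0]
    · show u 1 = v 1
      rw [um, vn]
    · unfold Nr; simp only; omega
    · unfold Nr; simp only; omega
  · have m2 : 2 ≤ m := by
      by_contra hne
      have em : m = 1 := by omega
      subst em
      omega
    have n2 : 2 ≤ n := by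
      by_contra hne
      have en : n = 1 := by omega
      subst en
      omega
    have a1 := hui 1 one_pos (by omega)
    have a2 := hui (m - 1) (by omega) (by omega)
    have b1 := hvi 1 one_pos (by omega)
    have b2 := hvi (n - 1) (by omega) (by omega)
    have P := IH (m - 2) (n - 2) (by omega) (fun i => u (1 + i)) (fun j => v (1 + j)) (s + 1)
      (t - 1)
      ⟨fun i hi => h.hu (1 + i) (by omega), fun j hj => h.hv (1 + j) (by omega),
        fun i hi => by
          have := hui (1 + i) (by omega) (by omega)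
          omega,
        fun j hj => by
          have := hvi (1 + j) (by omega) (by omega)
          omega⟩
      (Or.inl ⟨by show u 1 = s + 1; omega, by show v 1 = s + 1; omega, by
        show u (1 + (m - 2)) = t - 1
        rw [show 1 + (m - 2) = m - 1 by omega]
        omega, by
        show v (1 + (n - 2)) = t - 1
        rw [show 1 + (n - 2) = n - 1 by omega]
        omega⟩)
    have P2 := RT_tr (u := u) (v := v) (m := m) (n := n) (fun i => 1 + i) (fun j => 1 + j)
      (fun i hi => by omega) (fun j hj => by omega)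
      (fun i j _ _ h => by unfold Nr at h ⊢; omega)
      (fun i j _ _ h => by unfold Nr at h ⊢; omega) (fun _ _ _ _ h => h) P
    have e1 : 1 + (m - 2) = m - 1 := by omega
    have e2 : 1 + (n - 2) = n - 1 := by omega
    simp only [Nat.add_zero, e1, e2] at P2
    refine Relation.ReflTransGen.head (b := (1, 1)) ⟨⟨Nat.zero_le _, Nat.zero_le _, ?_⟩,
      ⟨by show 1 ≤ m; omega, by show 1 ≤ n; omega, ?_⟩, ?_, ?_⟩ (P2.tail
      ⟨⟨by show m - 1 ≤ m; omega, by show n - 1 ≤ n; omega, ?_⟩, ⟨le_rfl, le_rfl, ?_⟩, ?_, ?_⟩)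
    · show u 0 = v 0
      rw [u0, v0]
    · show u 1 = v 1
      omega
    · unfold Nr; simp only; omega
    · unfold Nr; simp only; omega
    · show u (m - 1) = v (n - 1)
      omega
    · show u m = v n
      rw [um, vn]
    · unfold Nr; simp only; omega
    · unfold Nr; simp only; omega

private theorem clAll : ∀ N, Cl N := by
  intro N
  induction N with
  | zero =>
    intro m n h
    omega
  | succ N ih =>
    intro m n hmn u v s t h hc
    rcases Nat.lt_or_ge (m + n) N with h1 | h1
    · exact ih m n h1 u v s t h hc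
    · have e : m + n = N := by omega
      have IH : Cl (m + n) := by rwa [e]
      rcases hc with ⟨u0, v0, um, vn⟩ | ⟨u0, v0, um, vn⟩
      · exact case1 IH h u0 v0 um vn
      · -- reflection of the values
        have h2 : Hy (fun i => s + t - u i) (fun j => s + t - v j) m n s t := by
          refine ⟨fun i hi => ?_, fun j hj => ?_, fun i hi => ?_, fun j hj => ?_⟩
          · have a1 := h.hu i hi
            have a2 := h.hur i hi.le
            have a3 := h.hur (i + 1) hi
            unfold Nr at a1 ⊢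
            omega
          · have a1 := h.hv j hj
            have a2 := h.hvr j hj.le
            have a3 := h.hvr (j + 1) hj
            unfold Nr at a1 ⊢
            omega
          · have a2 := h.hur i hi
            show s ≤ s + t - u i ∧ s + t - u i ≤ t
            omega
          · have a2 := h.hvr j hj
            show s ≤ s + t - v j ∧ s + t - v j ≤ t
            omega
        have h3 := case1 IH h2 (by show s + t - u 0 = s; omega)
          (by show s + t - v 0 = s; omega) (by show s + t - u m = t; omega)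
          (by show s + t - v n = t; omega)
        exact RT_tr (fun i => i) (fun j => j) (fun i hi => hi) (fun j hj => hj)
          (fun _ _ _ _ h => h) (fun _ _ _ _ h => h) (fun i j hi hj e => by
            have a1 := h.hur i hi
            have a2 := h.hvr j hj
            have e' : s + t - u i = s + t - v j := e
            omega) h3

/-- Mountain climbing lemma (discrete, with plateaus). Proof: induction on `m + n`.
If `u` takes the final extreme value at some `m' < m`: connect `(0,0)` with `(m', n)`, let `a` be the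
value of `u` on `[m', m]` farthest from the final extreme, taken at `m''`, and `n'` the last index with
`v n' = a`; connect `(m', n)` with `(m'', n')` (here `v` runs backwards) and `(m'', n')` with `(m, n)`
(smaller range `[a, t]`, smaller total length). Same for `v`, and for the initial extreme value after
time `0`. In the remaining case the inner parts `[1, m-1]`, `[1, n-1]` stay in the smaller range. -/
theorem mc (u v : ℕ → ℕ) (m n s t : ℕ)
    (hu : ∀ i, i < m → Nr (u i) (u (i + 1))) (hv : ∀ j, j < n → Nr (v j) (v (j + 1)))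
    (hur : ∀ i, i ≤ m → s ≤ u i ∧ u i ≤ t) (hvr : ∀ j, j ≤ n → s ≤ v j ∧ v j ≤ t)
    (hc : (u 0 = s ∧ v 0 = s ∧ u m = t ∧ v n = t) ∨ (u 0 = t ∧ v 0 = t ∧ u m = s ∧ v n = s)) :
    Relation.ReflTransGen
      (fun p q : ℕ × ℕ => q.1 ≤ m ∧ q.2 ≤ n ∧ u q.1 = v q.2 ∧ Nr p.1 q.1 ∧ Nr p.2 q.2)
      (0, 0) (m, n) := by
  refine Relation.ReflTransGen.mono ?_ _ _
    (clAll (m + n + 1) m n (Nat.lt_succ_self _) u v s t ⟨hu, hv, hur, hvr⟩ hc)
  rintro p q ⟨-, ⟨h1, h2, h3⟩, h4, h5⟩
  exact ⟨h1, h2, h3, h4, h5⟩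

end Pool.Agent.Work.NoCP
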