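import Pool.Agent.Work.NoCP.MC

set_option autoImplicit false

namespace Pool.Agent.Work.NoCP

/-- Paths inside a domain can be reversed. -/
theorem path_symm {α : Type} {D : Dom α} {s t : ℕ} (hD : D.OK s t) {a b : α}
    (h : D.Path a b) : D.Path b a := by
  refine ⟨h.2.1, h.1, ?_⟩
  obtain ⟨_, hb, hr⟩ := h
  clear hb
  induction hr with
  | refl => exact Relation.ReflTransGen.refl
  | tail h1 h2 ih =>
    exact Relation.ReflTransGen.head ⟨h2.2.1, h2.1, hD.symm _ _ h2.2.2⟩ ih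

/-- A path inside a domain as a finite sequence. -/
theorem path_seq {α : Type} {D : Dom α} {a b : α} (h : D.Path a b) :
    ∃ (n : ℕ) (x : ℕ → α), x 0 = a ∧ x n = b ∧ (∀ i, i ≤ n → D.S (x i)) ∧
      ∀ i, i < n → D.st (x i) (x (i + 1)) := by
  obtain ⟨ha, hb, hr⟩ := h
  clear hb
  induction hr with
  | refl => exact ⟨0, fun _ => a, rfl, rfl, fun i _ => ha, fun i hi => absurd hi (Nat.not_lt_zero i)⟩
  | tail h1 h2 ih =>
    rename_i b c
    obtain ⟨n, x, hx0, hxn, hS, hst⟩ := ih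
    refine ⟨n + 1, fun i => if i ≤ n then x i else c, ?_, ?_, ?_, ?_⟩
    · simp [hx0]
    · simp
    · intro i hi
      by_cases hin : i ≤ n
      · simp only [hin, if_true]; exact hS i hin
      · simp only [hin, if_false]; exact h2.2.1
    · intro i hi
      have hin : i ≤ n := Nat.lt_succ_iff.mp hi
      rcases Nat.lt_or_ge i n with h3 | h3
      · have h4 : i + 1 ≤ n := h3
        simp only [hin, h4, if_true]; exact hst i h3
      · have h4 : i = n := le_antisymm hin h3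
        subst h4
        have h5 : ¬ (i + 1 ≤ i) := by omega
        simp only [le_refl, if_true, h5, if_false]
        rw [hxn]; exact h2.2.2

/-- Mountain climbing lemma for walkers. -/
theorem path_mc {α β : Type} {D : Dom α} {E : Dom β} {s t : ℕ} (hD : D.OK s t) (hE : E.OK s t)
    {a b : α} {c d : β} (h1 : D.Path a b) (h2 : E.Path c d)
    (hc : (D.val a = s ∧ E.val c = s ∧ D.val b = t ∧ E.val d = t) ∨
      (D.val a = t ∧ E.val c = t ∧ D.val b = s ∧ E.val d = s)) :
    (D.prod E).Path (a, c) (b, d) := by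
  obtain ⟨m, x, hx0, hxm, hxS, hxst⟩ := path_seq h1
  obtain ⟨n, y, hy0, hyn, hyS, hyst⟩ := path_seq h2
  have hD2 : ∀ i j, i ≤ m → j ≤ m → Nr i j → D.st (x i) (x j) := by
    intro i j hi hj hij
    obtain ⟨h3, h4⟩ := hij
    rcases Nat.lt_trichotomy i j with h5 | h5 | h5
    · have h6 : j = i + 1 := by omega
      subst h6
      exact hxst i (by omega)
    · subst h5; exact hD.refl _
    · have h6 : i = j + 1 := by omega
      subst h6
      exact hD.symm _ _ (hxst j (by omega))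
  have hE2 : ∀ i j, i ≤ n → j ≤ n → Nr i j → E.st (y i) (y j) := by
    intro i j hi hj hij
    obtain ⟨h3, h4⟩ := hij
    rcases Nat.lt_trichotomy i j with h5 | h5 | h5
    · have h6 : j = i + 1 := by omega
      subst h6
      exact hyst i (by omega)
    · subst h5; exact hE.refl _
    · have h6 : i = j + 1 := by omega
      subst h6
      exact hE.symm _ _ (hyst j (by omega))
  have hmc := mc (fun i => D.val (x i)) (fun j => E.val (y j)) m n s t
    (fun i hi => hD.nr _ _ (hxS i hi.le) (hxS (i + 1) hi) (hxst i hi))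
    (fun j hj => hE.nr _ _ (hyS j hj.le) (hyS (j + 1) hj) (hyst j hj))
    (fun i hi => hD.rng _ (hxS i hi)) (fun j hj => hE.rng _ (hyS j hj))
    (by simpa only [hx0, hy0, hxm, hyn] using hc)
  have hac : D.val a = E.val c := by
    rcases hc with hc | hc
    · rw [hc.1, hc.2.1]
    · rw [hc.1, hc.2.1]
  have key : ∀ q : ℕ × ℕ, Relation.ReflTransGen
      (fun p q : ℕ × ℕ => q.1 ≤ m ∧ q.2 ≤ n ∧ D.val (x q.1) = E.val (y q.2) ∧
        Nr p.1 q.1 ∧ Nr p.2 q.2) (0, 0) q →
      q.1 ≤ m ∧ q.2 ≤ n ∧ D.val (x q.1) = E.val (y q.2) ∧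
        Relation.ReflTransGen (D.prod E).stp (a, c) (x q.1, y q.2) := by
    intro q hq
    induction hq with
    | refl =>
      refine ⟨Nat.zero_le _, Nat.zero_le _, ?_, ?_⟩
      · show D.val (x 0) = E.val (y 0)
        rw [hx0, hy0]; exact hac
      · show Relation.ReflTransGen (D.prod E).stp (a, c) (x 0, y 0)
        rw [hx0, hy0]
    | tail h3 h4 ih =>
      rename_i p q
      obtain ⟨hp1, hp2, hp3, hp4⟩ := ih
      obtain ⟨hq1, hq2, hq3, hq4, hq5⟩ := h4
      refine ⟨hq1, hq2, hq3, hp4.tail ?_⟩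
      exact ⟨⟨hxS _ hp1, hyS _ hp2, hp3⟩, ⟨hxS _ hq1, hyS _ hq2, hq3⟩,
        ⟨hD2 _ _ hp1 hq1 hq4, hE2 _ _ hp2 hq2 hq5⟩⟩
  obtain ⟨_, _, h3, h4⟩ := key (m, n) hmc
  simp only [hxm, hyn] at h3 h4
  exact ⟨⟨h1.1, h2.1, hac⟩, ⟨h1.2.1, h2.2.1, h3⟩, h4⟩

/-- Paths inside a domain compose. -/
theorem path_trans {α : Type} {D : Dom α} {a b c : α} (h1 : D.Path a b) (h2 : D.Path b c) :
    D.Path a c := ⟨h1.1, h2.2.1, h1.2.2.trans h2.2.2⟩

/-- Paths stay paths in a larger domain. -/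
theorem path_mono {α : Type} {D E : Dom α} (hS : ∀ a, D.S a → E.S a)
    (hst : ∀ a b, D.S a → D.S b → D.st a b → E.st a b) {a b : α} (h : D.Path a b) :
    E.Path a b :=
  ⟨hS _ h.1, hS _ h.2.1,
    Relation.ReflTransGen.mono
      (fun x y hxy => ⟨hS _ hxy.1, hS _ hxy.2.1, hst _ _ hxy.1 hxy.2.1 hxy.2.2⟩) _ _ h.2.2⟩

end Pool.Agent.Work.NoCP
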