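import Pool.Agent.Work.NoCP.ItBasic

/-!
# Realisation of an infinite tower on `[0, 1]`
-/

set_option autoImplicit false

namespace Pool.Agent.Work.NoCP

/-- break points of all levels: block `u` of level `k` is the interval `[p k u, p k (u + 1)]` -/
structure Brk (T : ℕ → Lay) (p : ℕ → ℕ → ℝ) : Prop where
  zero : ∀ k, p k 0 = 0
  one : ∀ k, p k (T k).N = 1
  lt : ∀ k u, u < (T k).N → p k u < p k (u + 1)
  fst : ∀ k v, v < (T k).N → p (k + 1) ((T (k + 1)).fst v) = p k v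
  lst : ∀ k v, v < (T k).N → p (k + 1) ((T (k + 1)).lst v + 1) = p k (v + 1)
  mesh : ∀ k u, u < (T k).N → p k (u + 1) - p k u ≤ 2 * (1 / 2) ^ k

/-- the point `x` lies in the block `u` of level `k` -/
def Blk (p : ℕ → ℕ → ℝ) (k u : ℕ) (x : ℝ) : Prop := p k u ≤ x ∧ x ≤ p k (u + 1)

/-- `z` is a nested code of `x` -/
def Code (T : ℕ → Lay) (p : ℕ → ℕ → ℝ) (x : ℝ) (z : ℕ → ℕ) : Prop :=
  (∀ k, z k < (T k).N ∧ Blk p k (z k) x) ∧ ∀ k, (T (k + 1)).pi (z (k + 1)) = z k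

end Pool.Agent.Work.NoCP
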