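import Pool.Agent.Work.NoCP.Codes

set_option autoImplicit false

namespace Pool.Agent.Work.NoCP

/-- codes of iterates -/
theorem code_iter {T : ℕ → Lay} {p : ℕ → ℕ → ℝ} {f : ℝ → ℝ}
    (h0 : ∀ x ∈ Set.Icc (0 : ℝ) 1, f x ∈ Set.Icc (0 : ℝ) 1)
    (hf : ∀ x ∈ Set.Icc (0 : ℝ) 1, ∀ z, Code T p x z →
      Code T p (f x) (fun k => (T (k + 1)).F (z (k + 1)))) (j : ℕ) {x : ℝ}
    (hx : x ∈ Set.Icc (0 : ℝ) 1) {z : ℕ → ℕ} (hz : Code T p x z) :
    Code T p (f^[j] x) (fun k => itF T j k (z (k + j))) := by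
  induction j generalizing x z with
  | zero => simpa [itF] using hz
  | succ j ih =>
    rw [Function.iterate_succ_apply]
    exact ih (h0 x hx) (hf x hx z hz)

theorem code_iterG {T : ℕ → Lay} {p : ℕ → ℕ → ℝ} {g : ℝ → ℝ}
    (h0 : ∀ x ∈ Set.Icc (0 : ℝ) 1, g x ∈ Set.Icc (0 : ℝ) 1)
    (hg : ∀ x ∈ Set.Icc (0 : ℝ) 1, ∀ z, Code T p x z →
      Code T p (g x) (fun k => (T (k + 1)).G (z (k + 1)))) (j : ℕ) {x : ℝ}
    (hx : x ∈ Set.Icc (0 : ℝ) 1) {z : ℕ → ℕ} (hz : Code T p x z) :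
    Code T p (g^[j] x) (fun k => itG T j k (z (k + j))) := by
  induction j generalizing x z with
  | zero => simpa [itG] using hz
  | succ j ih =>
    rw [Function.iterate_succ_apply]
    exact ih (h0 x hx) (hg x hx z hz)

/-- the ancestors of a member of a code are members of the code -/
theorem code_itP {T : ℕ → Lay} {p : ℕ → ℕ → ℝ} {x : ℝ} {z : ℕ → ℕ} (hz : Code T p x z)
    (q n : ℕ) : itP T q n (z (n + q)) = z n := by
  induction q with
  | zero => rfl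
  | succ q ih =>
    have h := hz.2 (n + q)
    show itP T q n ((T (n + q + 1)).pi (z (n + q + 1))) = z n
    rw [h, ih]

/-- a killed period is not a common period -/
theorem real_kill {T : ℕ → Lay} (hT : ∀ h, 2 ≤ h → TOK T h) {p : ℕ → ℕ → ℝ} (hp : Brk T p)
    {f g : ℝ → ℝ} (hf0 : ∀ x ∈ Set.Icc (0 : ℝ) 1, f x ∈ Set.Icc (0 : ℝ) 1)
    (hg0 : ∀ x ∈ Set.Icc (0 : ℝ) 1, g x ∈ Set.Icc (0 : ℝ) 1)
    (hf : ∀ x ∈ Set.Icc (0 : ℝ) 1, ∀ z, Code T p x z →
      Code T p (f x) (fun k => (T (k + 1)).F (z (k + 1))))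
    (hg : ∀ x ∈ Set.Icc (0 : ℝ) 1, ∀ z, Code T p x z →
      Code T p (g x) (fun k => (T (k + 1)).G (z (k + 1))))
    {h q : ℕ} (hk : Kill T h q) {x : ℝ} (hx : x ∈ Set.Icc (0 : ℝ) 1) (h1 : f^[q] x = x)
    (h2 : g^[q] x = x) : False := by
  obtain ⟨n, j, -, hkill⟩ := hk
  obtain ⟨z, hz⟩ := code_exists hT hp hx
  have hfj : ∀ i, f^[i] x ∈ Set.Icc (0 : ℝ) 1 := fun i =>
    (Set.MapsTo.iterate (s := Set.Icc (0 : ℝ) 1) (f := f) hf0 i) hx
  have hgj : ∀ i, g^[i] x ∈ Set.Icc (0 : ℝ) 1 := fun i =>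
    (Set.MapsTo.iterate (s := Set.Icc (0 : ℝ) 1) (f := g) hg0 i) hx
  refine hkill (z (n + q + j)) (hz.1 _).1 ⟨?_, ?_⟩
  · have c1 := code_iter hf0 hf j hx hz
    have c2 := code_iter hf0 hf q (hfj j) c1
    have e : f^[q] (f^[j] x) = f^[j] x := by
      rw [← Function.iterate_add_apply, Nat.add_comm, Function.iterate_add_apply, h1]
    rw [e] at c2
    have c3 := code_itP c1 q n
    refine blk_nr hp (c2.1 n).1 ?_ (c2.1 n).2 ?_
    · show itP T q n (itF T j (n + q) (z (n + q + j))) < _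
      rw [c3]; exact (c1.1 n).1
    · show Blk p n (itP T q n (itF T j (n + q) (z (n + q + j)))) _
      rw [c3]; exact (c1.1 n).2
  · have c1 := code_iterG hg0 hg j hx hz
    have c2 := code_iterG hg0 hg q (hgj j) c1
    have e : g^[q] (g^[j] x) = g^[j] x := by
      rw [← Function.iterate_add_apply, Nat.add_comm, Function.iterate_add_apply, h2]
    rw [e] at c2
    have c3 := code_itP c1 q n
    refine blk_nr hp (c2.1 n).1 ?_ (c2.1 n).2 ?_
    · show itP T q n (itG T j (n + q) (z (n + q + j))) < _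
      rw [c3]; exact (c1.1 n).1
    · show Blk p n (itP T q n (itG T j (n + q) (z (n + q + j)))) _
      rw [c3]; exact (c1.1 n).2

end Pool.Agent.Work.NoCP
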