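import Pool.Agent.Work.NoCP.Codes

set_option autoImplicit false

namespace Pool.Agent.Work.NoCP

private theorem small_pow {ε : ℝ} (hε : 0 < ε) : ∃ k : ℕ, 4 * (1 / 2 : ℝ) ^ k < ε := by
  obtain ⟨k, hk⟩ := exists_pow_lt_of_lt_one (show (0 : ℝ) < ε / 4 by positivity)
    (show (1 / 2 : ℝ) < 1 by norm_num)
  exact ⟨k, by linarith⟩

private theorem eq_of_all {a b : ℝ} (h : ∀ k : ℕ, |a - b| ≤ 4 * (1 / 2 : ℝ) ^ k) : a = b := by
  by_contra hne
  have hpos : 0 < |a - b| := abs_pos.mpr (sub_ne_zero.mpr hne)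
  obtain ⟨k, hk⟩ := small_pow hpos
  exact absurd (h k) (not_le.mpr hk)

/-- A family `M k` of maps from level `k + 1` to level `k` which preserve neighbours and commute with
`pi` gives a continuous map of `[0, 1]` which maps codes to codes. (Choose a code `z` of every point
`x`, let `f x` be the point with code `M k (z (k + 1))`; two codes of the same point are neighbours at
every level.) -/
theorem real_map {T : ℕ → Lay} (hT : ∀ h, 2 ≤ h → TOK T h) {p : ℕ → ℕ → ℝ} (hp : Brk T p)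
    (M : ℕ → ℕ → ℕ) (h1 : ∀ k u, u < (T (k + 1)).N → M k u < (T k).N)
    (h2 : ∀ k u u', u < (T (k + 1)).N → u' < (T (k + 1)).N → Nr u u' → Nr (M k u) (M k u'))
    (h3 : ∀ k u, u < (T (k + 2)).N → (T (k + 1)).pi (M (k + 1) u) = M k ((T (k + 2)).pi u)) :
    ∃ f : ℝ → ℝ, (∀ x ∈ Set.Icc (0 : ℝ) 1, f x ∈ Set.Icc (0 : ℝ) 1) ∧
      ContinuousOn f (Set.Icc (0 : ℝ) 1) ∧
      ∀ x ∈ Set.Icc (0 : ℝ) 1, ∀ z, Code T p x z → Code T p (f x) (fun k => M k (z (k + 1))) := by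
  classical
  -- the image of a code is the code of a point
  have himg : ∀ x z, Code T p x z → ∃ y ∈ Set.Icc (0 : ℝ) 1, Code T p y (fun k => M k (z (k + 1))) := by
    intro x z hz
    refine code_point hT hp (z := fun k => M k (z (k + 1))) (fun k => h1 k _ (hz.1 (k + 1)).1) ?_
    intro k
    show (T (k + 1)).pi (M (k + 1) (z (k + 1 + 1))) = M k (z (k + 1))
    rw [h3 k _ (hz.1 (k + 2)).1, hz.2 (k + 1)]
  -- choose a point for every x
  have hch : ∀ x, x ∈ Set.Icc (0 : ℝ) 1 → ∃ y ∈ Set.Icc (0 : ℝ) 1, ∃ z, Code T p x z ∧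
      Code T p y (fun k => M k (z (k + 1))) := by
    intro x hx
    obtain ⟨z, hz⟩ := code_exists hT hp hx
    obtain ⟨y, hy, hyz⟩ := himg x z hz
    exact ⟨y, hy, z, hz, hyz⟩
  choose! f hf using hch
  have hf1 : ∀ x ∈ Set.Icc (0 : ℝ) 1, f x ∈ Set.Icc (0 : ℝ) 1 := fun x hx => (hf x hx).1
  have hf2 : ∀ x ∈ Set.Icc (0 : ℝ) 1, ∀ z, Code T p x z →
      Code T p (f x) (fun k => M k (z (k + 1))) := by
    intro x hx z hz
    obtain ⟨_, z', hz', hfz'⟩ := hf x hx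
    obtain ⟨y, _, hyz⟩ := himg x z hz
    have : f x = y := by
      refine eq_of_all (fun k => ?_)
      refine blk_dist hp (k := k) (hfz'.1 k).1 (hyz.1 k).1 (hfz'.1 k).2 (hyz.1 k).2 ?_
      exact h2 k _ _ (hz'.1 (k + 1)).1 (hz.1 (k + 1)).1
        (blk_nr hp (hz'.1 (k + 1)).1 (hz.1 (k + 1)).1 (hz'.1 (k + 1)).2 (hz.1 (k + 1)).2)
    rw [this]
    exact hyz
  refine ⟨f, hf1, ?_, hf2⟩
  rw [Metric.continuousOn_iff]
  intro x hx ε hε
  obtain ⟨k, hk⟩ := small_pow hε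
  obtain ⟨δ, hδ, hclose⟩ := blk_close hp (k + 1)
  refine ⟨δ, hδ, ?_⟩
  intro y hy hyx
  rw [Real.dist_eq] at hyx ⊢
  obtain ⟨zx, hzx⟩ := code_exists hT hp hx
  obtain ⟨zy, hzy⟩ := code_exists hT hp hy
  have hnr : Nr (zy (k + 1)) (zx (k + 1)) :=
    hclose y x _ _ (hzy.1 (k + 1)).1 (hzx.1 (k + 1)).1 (hzy.1 (k + 1)).2 (hzx.1 (k + 1)).2 hyx
  have hcx := hf2 x hx zx hzx
  have hcy := hf2 y hy zy hzy
  refine lt_of_le_of_lt ?_ hk
  exact blk_dist hp (k := k) (hcy.1 k).1 (hcx.1 k).1 (hcy.1 k).2 (hcx.1 k).2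
    (h2 k _ _ (hzy.1 (k + 1)).1 (hzx.1 (k + 1)).1 hnr)

end Pool.Agent.Work.NoCP
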