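import Pool.Agent.Work.NoCP.RealMap

set_option autoImplicit false

namespace Pool.Agent.Work.NoCP

private theorem nr_of_succ {n : ℕ} {F : ℕ → ℕ} (h : ∀ u, u + 1 < n → Nr (F u) (F (u + 1)))
    {u u' : ℕ} (hu : u < n) (hu' : u' < n) (hn : Nr u u') : Nr (F u) (F u') := by
  unfold Nr at hn
  rcases lt_trichotomy u u' with h1 | h1 | h1
  · have : u' = u + 1 := by omega
    subst this
    exact h u hu'
  · subst h1
    unfold Nr
    omega
  · have : u = u' + 1 := by omega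
    subst this
    have := h u' hu
    unfold Nr at *
    omega

/-- The two commuting maps. -/
theorem real_pair {T : ℕ → Lay} (hT : ∀ h, 2 ≤ h → TOK T h) {p : ℕ → ℕ → ℝ} (hp : Brk T p) :
    ∃ f g : ℝ → ℝ, (∀ x ∈ Set.Icc (0 : ℝ) 1, f x ∈ Set.Icc (0 : ℝ) 1) ∧
      (∀ x ∈ Set.Icc (0 : ℝ) 1, g x ∈ Set.Icc (0 : ℝ) 1) ∧
      ContinuousOn f (Set.Icc (0 : ℝ) 1) ∧ ContinuousOn g (Set.Icc (0 : ℝ) 1) ∧
      (∀ x ∈ Set.Icc (0 : ℝ) 1, f (g x) = g (f x)) ∧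
      (∀ x ∈ Set.Icc (0 : ℝ) 1, ∀ z, Code T p x z →
        Code T p (f x) (fun k => (T (k + 1)).F (z (k + 1)))) ∧
      (∀ x ∈ Set.Icc (0 : ℝ) 1, ∀ z, Code T p x z →
        Code T p (g x) (fun k => (T (k + 1)).G (z (k + 1)))) := by
  have hinv : ∀ k, Inv (T k) (T (k + 1)) (T (k + 2)) := fun k =>
    (hT (k + 2) (by omega)).inv k le_rfl
  have hlay : ∀ k, LayOK (T k).N (T (k + 1)) := fun k => (hinv k).okQ
  obtain ⟨f, hf0, hfc, hf⟩ := real_map hT hp (fun k u => (T (k + 1)).F u)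
    (fun k u hu => (hlay k).F_lt u hu)
    (fun k u u' hu hu' hn => nr_of_succ (hlay k).F_nr hu hu' hn)
    (fun k u hu => (hinv k).piF u hu)
  obtain ⟨g, hg0, hgc, hg⟩ := real_map hT hp (fun k u => (T (k + 1)).G u)
    (fun k u hu => (hlay k).G_lt u hu)
    (fun k u u' hu hu' hn => nr_of_succ (hlay k).G_nr hu hu' hn)
    (fun k u hu => (hinv k).piG u hu)
  refine ⟨f, g, hf0, hg0, hfc, hgc, fun x hx => ?_, hf, hg⟩
  obtain ⟨z, hz⟩ := code_exists hT hp hx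
  have h1 := hf (g x) (hg0 x hx) _ (hg x hx z hz)
  have h2 := hg (f x) (hf0 x hx) _ (hf x hx z hz)
  have h3 : (fun k => (T (k + 1)).F ((T (k + 1 + 1)).G (z (k + 1 + 1))))
      = (fun k => (T (k + 1)).G ((T (k + 1 + 1)).F (z (k + 1 + 1)))) := by
    funext k
    exact (hinv k).comm _ (hz.1 (k + 2)).1
  refine code_unique hp h1 ?_
  have h4 : Code T p (g (f x))
      (fun k => (T (k + 1)).F ((T (k + 1 + 1)).G (z (k + 1 + 1)))) := by
    rw [h3]
    exact h2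
  exact h4

end Pool.Agent.Work.NoCP
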