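import Pool.Agent.Work.NoCP.ItBasic

set_option autoImplicit false

namespace Pool.Agent.Work.NoCP

private theorem rect_nod {P Q R : Lay} (hI : Inv P Q R) {u u' : ℕ} (hu : u < R.N)
    (hu' : u' < R.N) (hn : Nr u u') (hF : R.F u ≠ R.F u') (hG : R.G u ≠ R.G u') :
    Q.F (R.G u) ≠ Q.F (R.G u') := by
  have hc : u = u' ∨ u + 1 = u' ∨ u' + 1 = u := by
    unfold Nr at hn
    omega
  rcases hc with hc | hc | hc
  · subst hc
    exact absurd rfl hF
  · subst hc
    exact hI.nod u hu' hF hG
  · subst hc
    exact (hI.nod u' hu hF.symm hG.symm).symm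

private theorem rect_step1 (T : ℕ → Lay) (i l x : ℕ) :
    itF T (i + 1) l x = (T (l + 1)).F (itF T i (l + 1) x) ∧
      itG T (i + 1) l x = (T (l + 1)).G (itG T i (l + 1) x) := by
  have h1 := it_add T 1 i l x
  have e : i + 1 = 1 + i := Nat.add_comm i 1
  rw [e, h1.1, h1.2.1]
  exact ⟨rfl, rfl⟩

private theorem rect_aux {T : ℕ → Lay} {h K : ℕ} (hT : TOK T h) (hK : K ≤ h) {e e' : ℕ}
    (he : e < (T K).N) (he' : e' < (T K).N) (hn : Nr e e') : ∀ n i j l : ℕ, i + j ≤ n →
    l + (i + j) = K →
    (∀ i' ≤ i, ∀ l', l' + i' = K → itF T i' l' e ≠ itF T i' l' e') →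
    (∀ j' ≤ j, ∀ l', l' + j' = K → itG T j' l' e ≠ itG T j' l' e') →
    itF T i l (itG T j (l + i) e) ≠ itF T i l (itG T j (l + i) e') := by
  intro n
  induction n with
  | zero =>
    intro i j l hij hl hF hG
    have hi : i = 0 := by omega
    have hj : j = 0 := by omega
    subst hi
    subst hj
    exact hF 0 le_rfl l (by omega)
  | succ n ih =>
    intro i j l hij hl hF hG
    rcases Nat.eq_zero_or_pos i with hi | hi
    · subst hi
      exact hG j le_rfl l (by omega)
    rcases Nat.eq_zero_or_pos j with hj | hj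
    · subst hj
      exact hF i le_rfl l (by omega)
    obtain ⟨i, rfl⟩ : ∃ i', i = i' + 1 := ⟨i - 1, by omega⟩
    obtain ⟨j, rfl⟩ : ∃ j', j = j' + 1 := ⟨j - 1, by omega⟩
    -- the blocks at level l + 2
    have hlt : ∀ x, x < (T K).N → itG T j (l + 2 + i) x < (T (l + 2 + i)).N := by
      intro x hx
      have e1 : l + 2 + i + j = K := by omega
      exact (it_lt hT j (l + 2 + i) (by omega) x (by rw [e1]; exact hx)).2.1
    have hlt2 : ∀ x, x < (T K).N →
        itF T i (l + 2) (itG T j (l + 2 + i) x) < (T (l + 2)).N := by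
      intro x hx
      exact (it_lt hT i (l + 2) (by omega) _ (hlt x hx)).1
    have hnr : Nr (itG T j (l + 2 + i) e) (itG T j (l + 2 + i) e') := by
      have e1 : l + 2 + i + j = K := by omega
      exact (it_nr hT j (l + 2 + i) (by omega) e e' (by rw [e1]; exact he)
        (by rw [e1]; exact he') hn).2
    have hnr2 : Nr (itF T i (l + 2) (itG T j (l + 2 + i) e))
        (itF T i (l + 2) (itG T j (l + 2 + i) e')) :=
      (it_nr hT i (l + 2) (by omega) _ _ (hlt e he) (hlt e' he') hnr).1
    -- one more F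
    have h10 : ∀ x, itF T (i + 1) (l + 1) (itG T j (l + 1 + (i + 1)) x) =
        (T (l + 2)).F (itF T i (l + 2) (itG T j (l + 2 + i) x)) := by
      intro x
      rw [(rect_step1 T i (l + 1) _).1]
      have e1 : l + 1 + (i + 1) = l + 2 + i := by omega
      rw [e1]
    -- one more G
    have h01 : ∀ x, x < (T K).N → itF T i (l + 1) (itG T (j + 1) (l + 1 + i) x) =
        (T (l + 2)).G (itF T i (l + 2) (itG T j (l + 2 + i) x)) := by
      intro x hx
      rw [(rect_step1 T j (l + 1 + i) x).2]
      have e1 : l + 1 + i + 1 = l + 2 + i := by omega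
      rw [e1]
      have h2 := it_comm hT i 1 (l + 1) (by omega) (itG T j (l + 2 + i) x) (by
        have e2 : l + 1 + (i + 1) = l + 2 + i := by omega
        rw [e2]
        exact hlt x hx)
      have h3 : itG T 1 (l + 1 + i) (itG T j (l + 2 + i) x) =
          (T (l + 2 + i)).G (itG T j (l + 2 + i) x) := by
        have e3 : l + 1 + i + 0 + 1 = l + 2 + i := by omega
        change (T (l + 1 + i + 0 + 1)).G _ = _
        rw [e3]
      rw [h3] at h2
      exact h2
    -- both
    have h11 : ∀ x, x < (T K).N → itF T (i + 1) l (itG T (j + 1) (l + (i + 1)) x) =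
        (T (l + 1)).F ((T (l + 2)).G (itF T i (l + 2) (itG T j (l + 2 + i) x))) := by
      intro x hx
      rw [(rect_step1 T i l _).1]
      have e1 : l + (i + 1) = l + 1 + i := by omega
      rw [e1, h01 x hx]
    rw [h11 e he, h11 e' he']
    have hI : Inv (T l) (T (l + 1)) (T (l + 2)) := hT.inv l (by omega)
    refine rect_nod hI (hlt2 e he) (hlt2 e' he') hnr2 ?_ ?_
    · rw [← h10 e, ← h10 e']
      exact ih (i + 1) j (l + 1) (by omega) (by omega) hF
        (fun j' hj' => hG j' (by omega))
    · rw [← h01 e he, ← h01 e' he']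
      exact ih i (j + 1) (l + 1) (by omega) (by omega)
        (fun i' hi' => hF i' (by omega)) hG

/-- Rectangle lemma: if `F^a` and `G^b` keep the boundary `(e, e')` of level `k` then so does
`F^a G^b`. Proof: with `X i j := F^i G^j (e, e')` is a boundary, `X i j`, `X (i+1) j`, `X i (j+1)` imply
`X (i+1) (j+1)` by `Inv.nod` (used in the form for arbitrary adjacent blocks), and
`X i 0` (`i ≤ a`), `X 0 j` (`j ≤ b`) hold since equality persists under further maps. -/
theorem rect {T : ℕ → Lay} {h : ℕ} (hT : TOK T h) (a b k : ℕ) (hab : k + (a + b) ≤ h) (e e' : ℕ)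
    (he : e < (T (k + (a + b))).N) (he' : e' < (T (k + (a + b))).N) (hn : Adj e e')
    (hF : itF T a (k + b) e ≠ itF T a (k + b) e') (hG : itG T b (k + a) e ≠ itG T b (k + a) e') :
    itF T a k (itG T b (k + a) e) ≠ itF T a k (itG T b (k + a) e') := by
  have hnr : Nr e e' := by
    unfold Adj at hn
    unfold Nr
    omega
  refine rect_aux hT hab he he' hnr (a + b) a b k le_rfl rfl ?_ ?_
  · intro i' hi' l' hl' heq
    apply hF
    obtain ⟨d, rfl⟩ : ∃ d, a = d + i' := ⟨a - i', by omega⟩
    rw [(it_add T d i' (k + b) e).1, (it_add T d i' (k + b) e').1]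
    have e1 : k + b + d = l' := by omega
    rw [e1, heq]
  · intro j' hj' l' hl' heq
    apply hG
    obtain ⟨d, rfl⟩ : ∃ d, b = d + j' := ⟨b - j', by omega⟩
    rw [(it_add T d j' (k + a) e).2.1, (it_add T d j' (k + a) e').2.1]
    have e1 : k + a + d = l' := by omega
    rw [e1, heq]

end Pool.Agent.Work.NoCP
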