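import Pool.Agent.Work.NoCP.LayBasic

set_option autoImplicit false

namespace Pool.Agent.Work.NoCP

private theorem rs_aux {n : ℕ} {R : Lay} (h : LayOK n R) {M s t : ℕ → ℕ}
    (hr : ∀ v, v < n → ∃ a b a' b', Sub M (R.fst v) (R.lst v) a b (s v) (t v) ∧
      Sub M (R.fst v) (R.lst v) a' b' (s v) (t v) ∧ b + 3 ≤ a') :
    ∃ A1 A2 : Set ℕ,
      (∀ v, v < n → ∃ a b, Sub M (R.fst v) (R.lst v) a b (s v) (t v) ∧
        ∀ x, a ≤ x → x ≤ b → x ∈ A1) ∧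
      (∀ v, v < n → ∃ a b, Sub M (R.fst v) (R.lst v) a b (s v) (t v) ∧
        ∀ x, a ≤ x → x ≤ b → x ∈ A2) ∧
      ∀ x y, x < R.N → y < R.N → x ∈ A1 → y ∈ A2 → R.pi x = R.pi y → x + 3 ≤ y := by
  choose! a b a' b' hab using hr
  refine ⟨{x | ∃ v, v < n ∧ a v ≤ x ∧ x ≤ b v}, {x | ∃ v, v < n ∧ a' v ≤ x ∧ x ≤ b' v},
    fun v hv => ⟨a v, b v, (hab v hv).1, fun x h1 h2 => ⟨v, hv, h1, h2⟩⟩,
    fun v hv => ⟨a' v, b' v, (hab v hv).2.1, fun x h1 h2 => ⟨v, hv, h1, h2⟩⟩, ?_⟩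
  rintro x y - - ⟨v, hv, h1, h2⟩ ⟨w, hw, h3, h4⟩ hpi
  obtain ⟨s1, s2, s3⟩ := hab v hv
  obtain ⟨u1, u2, u3⟩ := hab w hw
  have e1 := (layer_mem h hv (s1.l.trans h1) (h2.trans s1.r)).2
  have e2 := (layer_mem h hw (u2.l.trans h3) (h4.trans u2.r)).2
  have e3 : v = w := by rw [← e1, ← e2, hpi]
  subst e3
  omega

/-- the two types of full intervals at distance at least three -/
theorem rich_sets {P Q R : Lay} (hI : Inv P Q R) :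
    (∃ A1 A2 : Set ℕ, GoodF Q R A1 ∧ GoodF Q R A2 ∧
      ∀ x y, x < R.N → y < R.N → x ∈ A1 → y ∈ A2 → R.pi x = R.pi y → x + 3 ≤ y) ∧
    (∃ B1 B2 : Set ℕ, GoodG Q R B1 ∧ GoodG Q R B2 ∧
      ∀ x y, x < R.N → y < R.N → x ∈ B1 → y ∈ B2 → R.pi x = R.pi y → x + 3 ≤ y) := by
  have hF := rs_aux hI.okR hI.richF
  have hG := rs_aux hI.okR hI.richG
  exact ⟨hF, hG⟩

/-- the whole level is good -/
theorem good_univ {P Q R : Lay} (hI : Inv P Q R) :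
    GoodF Q R Set.univ ∧ GoodG Q R Set.univ := by
  exact ⟨fun v hv => ⟨_, _, ⟨le_rfl, hI.okR.fst_le v hv, le_rfl, hI.fullF v hv⟩,
      fun _ _ _ => Set.mem_univ _⟩,
    fun v hv => ⟨_, _, ⟨le_rfl, hI.okR.fst_le v hv, le_rfl, hI.fullG v hv⟩,
      fun _ _ _ => Set.mem_univ _⟩⟩

end Pool.Agent.Work.NoCP
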