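import Pool.Agent.Work.NoCP.Step
import Pool.Agent.Work.NoCP.RichSets

set_option autoImplicit false

namespace Pool.Agent.Work.NoCP

/-- Typed phase: `q` extensions with `As = [A1, A2, A2]`, `Bs = [B1, B2, B2]` (and `A = B = univ`), by
induction on `q`. -/
theorem typed_phase (q : ℕ) {T : ℕ → Lay} {g : ℕ} (hT : TOK T (g + 2)) {A1 A2 B1 B2 : Set ℕ}
    (hA1 : GoodF (T (g + 1)) (T (g + 2)) A1) (hA2 : GoodF (T (g + 1)) (T (g + 2)) A2)
    (hB1 : GoodG (T (g + 1)) (T (g + 2)) B1) (hB2 : GoodG (T (g + 1)) (T (g + 2)) B2) :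
    ∃ T' : ℕ → Lay, (∀ k, k ≤ g + 2 → T' k = T k) ∧ TOK T' (g + 2 + q) ∧
      GoodF (T' (g + 1 + q)) (T' (g + 2 + q)) {u | itG T' q (g + 2) u ∈ A1} ∧
      GoodF (T' (g + 1 + q)) (T' (g + 2 + q)) {u | itG T' q (g + 2) u ∈ A2} ∧
      GoodG (T' (g + 1 + q)) (T' (g + 2 + q)) {u | itF T' q (g + 2) u ∈ B1} ∧
      GoodG (T' (g + 1 + q)) (T' (g + 2 + q)) {u | itF T' q (g + 2) u ∈ B2} := by
  induction q with
  | zero => exact ⟨T, fun _ _ => rfl, hT, hA1, hA2, hB1, hB2⟩
  | succ q ih =>
    obtain ⟨T', hag, hok, h1, h2, h3, h4⟩ := ih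
    have e1 : g + 1 + q = g + q + 1 := by omega
    have e2 : g + 2 + q = g + q + 2 := by omega
    have e3 : g + 1 + (q + 1) = g + q + 2 := by omega
    have e4 : g + 2 + (q + 1) = g + q + 3 := by omega
    rw [e1, e2] at h1 h2 h3 h4
    rw [e2] at hok
    obtain ⟨hu1, hu2⟩ := good_univ (hok.inv (g + q) le_rfl)
    obtain ⟨T'', hag', hok', hext⟩ := tower_step hok hu1 hu2
      [{u | itG T' q (g + 2) u ∈ A1}, {u | itG T' q (g + 2) u ∈ A2},
        {u | itG T' q (g + 2) u ∈ A2}]
      [{u | itF T' q (g + 2) u ∈ B1}, {u | itF T' q (g + 2) u ∈ B2},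
        {u | itF T' q (g + 2) u ∈ B2}]
      (by
        intro X hX
        simp only [List.mem_cons, List.not_mem_nil, or_false] at hX
        rcases hX with rfl | rfl | rfl
        · exact h1
        · exact h2
        · exact h2)
      (by
        intro X hX
        simp only [List.mem_cons, List.not_mem_nil, or_false] at hX
        rcases hX with rfl | rfl | rfl
        · exact h3
        · exact h4
        · exact h4)
      (by simp) (by simp) (fun _ _ => True)
    have hG : ∀ u, itG T'' (q + 1) (g + 2) u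
        = itG T' q (g + 2) ((T'' (g + q + 3)).G u) := by
      intro u
      have e5 : g + 2 + q + 1 = g + q + 3 := by omega
      change itG T'' q (g + 2) ((T'' (g + 2 + q + 1)).G u) = _
      rw [e5]
      exact (it_congr hag' q (g + 2) (by omega) _).2.1
    have hF : ∀ u, itF T'' (q + 1) (g + 2) u
        = itF T' q (g + 2) ((T'' (g + q + 3)).F u) := by
      intro u
      have e5 : g + 2 + q + 1 = g + q + 3 := by omega
      change itF T'' q (g + 2) ((T'' (g + 2 + q + 1)).F u) = _
      rw [e5]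
      exact (it_congr hag' q (g + 2) (by omega) _).1
    have hE : T'' (g + q + 2) = T' (g + q + 2) := hag' _ le_rfl
    refine ⟨T'', ?_, ?_, ?_, ?_, ?_, ?_⟩
    · intro k hk
      rw [hag' k (by omega), hag k hk]
    · rw [e4]; exact hok'
    · rw [e3, e4, hE]
      simp only [hG]
      exact hext.goodF {u | itG T' q (g + 2) u ∈ A1} (by simp)
    · rw [e3, e4, hE]
      simp only [hG]
      exact hext.goodF {u | itG T' q (g + 2) u ∈ A2} (by simp)
    · rw [e3, e4, hE]
      simp only [hF]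
      exact hext.goodG {u | itF T' q (g + 2) u ∈ B1} (by simp)
    · rw [e3, e4, hE]
      simp only [hF]
      exact hext.goodG {u | itF T' q (g + 2) u ∈ B2} (by simp)

end Pool.Agent.Work.NoCP
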