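import Pool.Agent.Work.NoCP.ItBasic

set_option autoImplicit false

namespace Pool.Agent.Work.NoCP

private theorem tg_data {T : ℕ → Lay} {g q : ℕ} (hq : 1 ≤ q) (hT : TOK T (g + 2 + q)) {c : ℕ}
    (hc : c < (T (g + 1 + q)).N) : ∃ w x0 y0 : ℕ, ∀ u, (T (g + 2 + q)).fst c ≤ u →
      u ≤ (T (g + 2 + q)).lst c → itP T q (g + 2) u = w ∧
      (T (g + 2)).pi (itF T q (g + 2) u) = x0 ∧ (T (g + 2)).pi (itG T q (g + 2) u) = y0 ∧
      itF T q (g + 2) u < (T (g + 2)).N ∧ itG T q (g + 2) u < (T (g + 2)).N := by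
  obtain ⟨q', rfl⟩ : ∃ q', q = q' + 1 := ⟨q - 1, by omega⟩
  have hL : LayOK (T (g + 1 + (q' + 1))).N (T (g + 2 + (q' + 1))) := by
    have h := tok_layer hT (g + 1 + (q' + 1)) (by omega)
    rwa [show g + 1 + (q' + 1) + 1 = g + 2 + (q' + 1) by omega] at h
  refine ⟨itP T q' (g + 2) c, itF T (q' + 1) (g + 1) c, itG T (q' + 1) (g + 1) c, ?_⟩
  intro u h0 h1
  obtain ⟨hu, hpi⟩ := layer_mem hL hc h0 h1
  have h2 := it_pi hT (q' + 1) (g + 1) (by omega) u hu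
  have h3 := it_lt hT (q' + 1) (g + 2) (by omega) u hu
  refine ⟨?_, ?_, ?_, h3.1, h3.2.1⟩
  · change itP T q' (g + 2) ((T (g + 2 + (q' + 1))).pi u) = _
    rw [hpi]
  · have h4 := h2.1
    rw [show g + 1 + 1 + (q' + 1) = g + 2 + (q' + 1) by omega, hpi] at h4
    exact h4
  · have h4 := h2.2
    rw [show g + 1 + 1 + (q' + 1) = g + 2 + (q' + 1) by omega, hpi] at h4
    exact h4

/-- For a block `c` of level `g + 1 + q` and a child `u` of `c`: `pi^q u = pi^(q-1) c =: w` depends on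
`c` only, and the parent of `G^q u` is `G^q c`. If some `u1` of the interval of type 1 and some `u2` of
the interval of type 2 had `G^q u` within 1 of `w`, then `G^q u1 + 3 ≤ G^q u2` is contradicted. So one
of the two intervals lies in the set below. -/
theorem typed_goodF {T : ℕ → Lay} {g q : ℕ} (hq : 1 ≤ q) (hT : TOK T (g + 2 + q))
    {A1 A2 : Set ℕ}
    (hd : ∀ x y, x < (T (g + 2)).N → y < (T (g + 2)).N → x ∈ A1 → y ∈ A2 →
      (T (g + 2)).pi x = (T (g + 2)).pi y → x + 3 ≤ y)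
    (h1 : GoodF (T (g + 1 + q)) (T (g + 2 + q)) {u | itG T q (g + 2) u ∈ A1})
    (h2 : GoodF (T (g + 1 + q)) (T (g + 2 + q)) {u | itG T q (g + 2) u ∈ A2}) :
    GoodF (T (g + 1 + q)) (T (g + 2 + q))
      {u | ¬ Nr (itG T q (g + 2) u) (itP T q (g + 2) u)} := by
  intro c hc
  obtain ⟨w, x0, y0, hw⟩ := tg_data hq hT hc
  obtain ⟨a1, b1, s1, k1⟩ := h1 c hc
  obtain ⟨a2, b2, s2, k2⟩ := h2 c hc
  by_cases hn : ∀ u, a1 ≤ u → u ≤ b1 → ¬ Nr (itG T q (g + 2) u) (itP T q (g + 2) u)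
  · exact ⟨a1, b1, s1, hn⟩
  · refine ⟨a2, b2, s2, fun u2 hu2 hu2' hn2 => hn fun u1 hu1 hu1' hn1 => ?_⟩
    obtain ⟨p1, -, p3, -, p5⟩ := hw u1 (s1.l.trans hu1) (hu1'.trans s1.r)
    obtain ⟨r1, -, r3, -, r5⟩ := hw u2 (s2.l.trans hu2) (hu2'.trans s2.r)
    have h3 := hd _ _ p5 r5 (k1 u1 hu1 hu1') (k2 u2 hu2 hu2') (p3.trans r3.symm)
    rw [p1] at hn1
    rw [r1] at hn2
    unfold Nr at hn1 hn2
    omega

theorem typed_goodG {T : ℕ → Lay} {g q : ℕ} (hq : 1 ≤ q) (hT : TOK T (g + 2 + q))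
    {B1 B2 : Set ℕ}
    (hd : ∀ x y, x < (T (g + 2)).N → y < (T (g + 2)).N → x ∈ B1 → y ∈ B2 →
      (T (g + 2)).pi x = (T (g + 2)).pi y → x + 3 ≤ y)
    (h1 : GoodG (T (g + 1 + q)) (T (g + 2 + q)) {u | itF T q (g + 2) u ∈ B1})
    (h2 : GoodG (T (g + 1 + q)) (T (g + 2 + q)) {u | itF T q (g + 2) u ∈ B2}) :
    GoodG (T (g + 1 + q)) (T (g + 2 + q))
      {u | ¬ Nr (itF T q (g + 2) u) (itP T q (g + 2) u)} := by
  intro c hc
  obtain ⟨w, x0, y0, hw⟩ := tg_data hq hT hc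
  obtain ⟨a1, b1, s1, k1⟩ := h1 c hc
  obtain ⟨a2, b2, s2, k2⟩ := h2 c hc
  by_cases hn : ∀ u, a1 ≤ u → u ≤ b1 → ¬ Nr (itF T q (g + 2) u) (itP T q (g + 2) u)
  · exact ⟨a1, b1, s1, hn⟩
  · refine ⟨a2, b2, s2, fun u2 hu2 hu2' hn2 => hn fun u1 hu1 hu1' hn1 => ?_⟩
    obtain ⟨p1, p2, -, p4, -⟩ := hw u1 (s1.l.trans hu1) (hu1'.trans s1.r)
    obtain ⟨r1, r2, -, r4, -⟩ := hw u2 (s2.l.trans hu2) (hu2'.trans s2.r)
    have h3 := hd _ _ p4 r4 (k1 u1 hu1 hu1') (k2 u2 hu2 hu2') (p2.trans r2.symm)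
    rw [p1] at hn1
    rw [r1] at hn2
    unfold Nr at hn1 hn2
    omega

end Pool.Agent.Work.NoCP
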