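import Pool.Agent.Work.NoCP.SafePhase
import Pool.Agent.Work.NoCP.Typed
import Pool.Agent.Work.NoCP.TypedGood

set_option autoImplicit false

namespace Pool.Agent.Work.NoCP

/-- One round: killing the common period `q`. (`rich_sets`, `typed_phase`, `typed_goodF/G`,
`safe_phase` with `g' = g + q` and `j = g + q + 1`, `safe_end`.) -/
theorem round {T : ℕ → Lay} {h : ℕ} (hT : TOK T h) (hh : 2 ≤ h) (q : ℕ) (hq : 1 ≤ q) :
    ∃ (T' : ℕ → Lay) (h' : ℕ), h < h' ∧ (∀ k, k ≤ h → T' k = T k) ∧ TOK T' h' ∧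
      Kill T' h' q := by
  obtain ⟨g, rfl⟩ : ∃ g, h = g + 2 := ⟨h - 2, by omega⟩
  obtain ⟨⟨A1, A2, hA1, hA2, hdA⟩, ⟨B1, B2, hB1, hB2, hdB⟩⟩ := rich_sets (hT.inv g le_rfl)
  obtain ⟨T1, hc1, hT1, a1, a2, b1, b2⟩ := typed_phase q hT hA1 hA2 hB1 hB2
  have e1 := hc1 (g + 2) le_rfl
  rw [← e1] at hdA hdB
  have gA := typed_goodF hq hT1 hdA a1 a2
  have gB := typed_goodG hq hT1 hdB b1 b2
  have e2 : g + 2 + q = g + q + 2 := by omega
  have e3 : g + 1 + q = g + q + 1 := by omega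
  rw [e2, e3] at gA gB
  rw [e2] at hT1
  obtain ⟨T2, hc2, hS⟩ := safe_phase (g + q + 1) (g := g + q) hT1 gA gB
  have hend := safe_end hS (by omega) (by omega)
  refine ⟨T2, g + q + 2 + (g + q + 1), by omega,
    fun k hk => (hc2 k (by omega)).trans (hc1 k hk), hS.tok, g + 2, g + q + 1, by omega, ?_⟩
  intro v hv hh
  rw [e2] at hv hh
  obtain ⟨hF, hG⟩ := hh
  rcases hend v hv with h | h
  · have c := it_congr hc2 q (g + 2) (by omega) (itF T2 (g + q + 1) (g + q + 2) v)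
    apply h
    rw [← c.1, ← c.2.2]
    exact hF
  · have c := it_congr hc2 q (g + 2) (by omega) (itG T2 (g + q + 1) (g + q + 2) v)
    apply h
    rw [← c.2.1, ← c.2.2]
    exact hG

end Pool.Agent.Work.NoCP
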