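import Pool.Agent.Work.NoCP.SafeStep

set_option autoImplicit false

namespace Pool.Agent.Work.NoCP

theorem safe_phase (j : ℕ) {T : ℕ → Lay} {g : ℕ} (hT : TOK T (g + 2)) {A0 B0 : Set ℕ}
    (hA : GoodF (T (g + 1)) (T (g + 2)) A0) (hB : GoodG (T (g + 1)) (T (g + 2)) B0) :
    ∃ T' : ℕ → Lay, (∀ k, k ≤ g + 2 → T' k = T k) ∧ SafeSt T' g A0 B0 j := by
  induction j with
  | zero =>
    refine ⟨T, fun _ _ => rfl, hT, hA, hB, ?_, ?_, ?_⟩
    · intro e e' _ _ ha _ hF
      have h1 : e = e' := hF
      rcases ha with h | h <;> omega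
    · intro e e' _ _ ha _ _ hG
      have h1 : e = e' := hG
      rcases ha with h | h <;> omega
    · intro h
      omega
  | succ j ih =>
    obtain ⟨T1, h1, h2⟩ := ih
    obtain ⟨T2, h3, h4⟩ := safe_step h2
    exact ⟨T2, fun k hk => (h3 k (by omega)).trans (h1 k hk), h4⟩

/-- After sufficiently many steps all blocks are safe: otherwise `rect` gives a boundary of level 1,
which has only one block. (Take `a = j`, `b = g` in `rect`; level `g + 1 + j = 1 + (j + g)`.) -/
theorem safe_end {T : ℕ → Lay} {g j : ℕ} {A0 B0 : Set ℕ} (h : SafeSt T g A0 B0 j) (h1 : 1 ≤ j)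
    (h2 : g ≤ j) : ∀ u, u < (T (g + 2 + j)).N →
      itF T j (g + 2) u ∈ B0 ∨ itG T j (g + 2) u ∈ A0 := by
  intro u hu
  rcases h.sf h1 u hu with h3 | h3 | ⟨e', he', ha, hF, hG⟩
  · exact Or.inl h3
  · exact Or.inr h3
  · exfalso
    have hT := h.tok
    have hL : LayOK (T (g + 1 + j)).N (T (g + 2 + j)) := by
      have h4 := tok_layer hT (g + 1 + j) (by omega)
      have h5 : g + 1 + j + 1 = g + 2 + j := by omega
      rwa [h5] at h4
    have he := hL.pi_lt u hu
    generalize (T (g + 2 + j)).pi u = e at ha hF hG he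
    have hl : g + 1 + j = 1 + (j + g) := by omega
    rw [hl] at he he'
    have hF' : itF T j (1 + g) e ≠ itF T j (1 + g) e' := by
      rwa [show 1 + g = g + 1 by omega]
    have hG' : itG T g (1 + j) e ≠ itG T g (1 + j) e' := by
      intro h5
      apply hG
      have h6 := fun v => (it_add T (j - g) g (g + 1) v).2.1
      have h7 : g + 1 + (j - g) = 1 + j := by omega
      have h8 : j - g + g = j := by omega
      simp only [h7, h8] at h6
      rw [h6, h6, h5]
    have h9 := rect hT j g 1 (by omega) e e' he he' ha hF' hG'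
    have hN : (T 1).N = 1 := by rw [hT.t1]; rfl
    have key : ∀ v, v < (T (1 + (j + g))).N → itF T j 1 (itG T g (1 + j) v) = 0 := by
      intro v hv
      have h10 := (it_lt hT g (1 + j) (by omega) v (by
        rwa [show 1 + j + g = 1 + (j + g) by omega])).2.1
      have h11 := (it_lt hT j 1 (by omega) _ h10).1
      rw [hN] at h11
      omega
    exact h9 ((key e he).trans (key e' he').symm)

end Pool.Agent.Work.NoCP
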