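import Pool.Agent.Work.NoCP.Step
import Pool.Agent.Work.NoCP.Rect

set_option autoImplicit false

namespace Pool.Agent.Work.NoCP

/-- State of the safe phase after `j` steps; it started at height `g + 2` with the good sets
`A0`, `B0` of blocks of level `g + 2`. (`ea`, `eb` are the two clauses of claim `E_k`.) -/
structure SafeSt (T : ℕ → Lay) (g : ℕ) (A0 B0 : Set ℕ) (j : ℕ) : Prop where
  tok : TOK T (g + 2 + j)
  gF : GoodF (T (g + 1 + j)) (T (g + 2 + j)) {u | itG T j (g + 2) u ∈ A0}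
  gG : GoodG (T (g + 1 + j)) (T (g + 2 + j)) {u | itF T j (g + 2) u ∈ B0}
  ea : ∀ e e', e < (T (g + 1 + j)).N → e' < (T (g + 1 + j)).N → Adj e e' →
    (T (g + 1 + j)).G e ≠ (T (g + 1 + j)).G e' → itF T j (g + 1) e = itF T j (g + 1) e' →
    GE (T (g + 1 + j)) (T (g + 2 + j)) {u | itF T j (g + 2) u ∈ B0} e e'
  eb : ∀ e e', e < (T (g + 1 + j)).N → e' < (T (g + 1 + j)).N → Adj e e' →
    (T (g + 1 + j)).F e ≠ (T (g + 1 + j)).F e' → itF T j (g + 1) e ≠ itF T j (g + 1) e' →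
    itG T j (g + 1) e = itG T j (g + 1) e' →
    FE (T (g + 1 + j)) (T (g + 2 + j)) {u | itG T j (g + 2) u ∈ A0} e e'
  sf : 1 ≤ j → ∀ u, u < (T (g + 2 + j)).N → itF T j (g + 2) u ∈ B0 ∨ itG T j (g + 2) u ∈ A0 ∨
    ∃ e', e' < (T (g + 1 + j)).N ∧ Adj ((T (g + 2 + j)).pi u) e' ∧
      itF T j (g + 1) ((T (g + 2 + j)).pi u) ≠ itF T j (g + 1) e' ∧
      itG T j (g + 1) ((T (g + 2 + j)).pi u) ≠ itG T j (g + 1) e'

private theorem ss_inv {T : ℕ → Lay} {g j : ℕ} (hT : TOK T (g + 2 + j)) :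
    Inv (T (g + j)) (T (g + 1 + j)) (T (g + 2 + j)) := by
  have h := hT.inv (g + j) (by omega)
  have e1 : g + j + 1 = g + 1 + j := by omega
  have e2 : g + j + 2 = g + 2 + j := by omega
  rw [e1, e2] at h
  exact h

private theorem ss_nod {P Q R : Lay} (hI : Inv P Q R) {e e' : ℕ} (he : e < R.N) (he' : e' < R.N)
    (ha : Adj e e') (hF : R.F e ≠ R.F e') (hG : R.G e ≠ R.G e') :
    Q.F (R.G e) ≠ Q.F (R.G e') := by
  rcases ha with ha | ha
  · subst ha
    exact hI.nod e he' hF hG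
  · subst ha
    exact (hI.nod e' he hF.symm hG.symm).symm

private theorem ss_adjF {P Q R : Lay} (hI : Inv P Q R) {e e' : ℕ} (he : e < R.N) (he' : e' < R.N)
    (ha : Adj e e') (hF : R.F e ≠ R.F e') : Adj (R.F e) (R.F e') := by
  rcases ha with ha | ha
  · subst ha
    have := hI.okR.F_nr e he'
    unfold Nr at this
    unfold Adj
    omega
  · subst ha
    have := hI.okR.F_nr e' he
    unfold Nr at this
    unfold Adj
    omega

private theorem ss_adjG {P Q R : Lay} (hI : Inv P Q R) {e e' : ℕ} (he : e < R.N) (he' : e' < R.N)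
    (ha : Adj e e') (hG : R.G e ≠ R.G e') : Adj (R.G e) (R.G e') := by
  rcases ha with ha | ha
  · subst ha
    have := hI.okR.G_nr e he'
    unfold Nr at this
    unfold Adj
    omega
  · subst ha
    have := hI.okR.G_nr e' he
    unfold Nr at this
    unfold Adj
    omega

private theorem ss_itF (T : ℕ → Lay) (g j e : ℕ) :
    itF T (j + 1) (g + 1) e = itF T j (g + 1) ((T (g + 2 + j)).F e) := by
  have e1 : g + 2 + j = g + 1 + j + 1 := by omega
  rw [e1]
  rfl

private theorem ss_itG (T : ℕ → Lay) (g j e : ℕ) :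
    itG T (j + 1) (g + 1) e = itG T j (g + 1) ((T (g + 2 + j)).G e) := by
  have e1 : g + 2 + j = g + 1 + j + 1 := by omega
  rw [e1]
  rfl

private theorem ss_itG1 (T : ℕ → Lay) (g j e : ℕ) :
    itG T 1 (g + 1 + j) e = (T (g + 2 + j)).G e := by
  have e1 : g + 2 + j = g + 1 + j + 0 + 1 := by omega
  rw [e1]
  rfl

/-- Option D1 is possible when chosen. -/
theorem optG_holds {T : ℕ → Lay} {g j : ℕ} {A0 B0 : Set ℕ} (h : SafeSt T g A0 B0 j)
    {md : ℕ → ℕ → Prop}
    (hmd : ∀ e e', md e e' ↔ itF T (j + 1) (g + 1) e = itF T (j + 1) (g + 1) e') {e e' : ℕ}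
    (he : e < (T (g + 2 + j)).N) (he' : e' < (T (g + 2 + j)).N) (ha : Adj e e')
    (hF : (T (g + 2 + j)).F e ≠ (T (g + 2 + j)).F e')
    (hG : (T (g + 2 + j)).G e ≠ (T (g + 2 + j)).G e') (hm : md e e') :
    OptG (T (g + 1 + j)) (T (g + 2 + j)) {u | itF T j (g + 2) u ∈ B0} md e e' := by
  have hI := ss_inv h.tok
  refine ⟨hm, h.ea _ _ (hI.okR.F_lt e he) (hI.okR.F_lt e' he') (ss_adjF hI he he' ha hF) ?_ ?_⟩
  · rw [← hI.comm e he, ← hI.comm e' he']
    exact ss_nod hI he he' ha hF hG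
  · rw [← ss_itF, ← ss_itF]
    exact (hmd e e').1 hm

/-- Option D2 is possible when chosen and `G^(j+1)` collapses the boundary (uses `rect`). -/
theorem optF_holds {T : ℕ → Lay} {g j : ℕ} {A0 B0 : Set ℕ} (h : SafeSt T g A0 B0 j)
    {md : ℕ → ℕ → Prop}
    (hmd : ∀ e e', md e e' ↔ itF T (j + 1) (g + 1) e = itF T (j + 1) (g + 1) e') {e e' : ℕ}
    (he : e < (T (g + 2 + j)).N) (he' : e' < (T (g + 2 + j)).N) (ha : Adj e e')
    (hF : (T (g + 2 + j)).F e ≠ (T (g + 2 + j)).F e')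
    (hG : (T (g + 2 + j)).G e ≠ (T (g + 2 + j)).G e') (hm : ¬ md e e')
    (hG' : itG T (j + 1) (g + 1) e = itG T (j + 1) (g + 1) e') :
    OptF (T (g + 1 + j)) (T (g + 2 + j)) {u | itG T j (g + 2) u ∈ A0} md e e' := by
  have hI := ss_inv h.tok
  have hne : itF T (j + 1) (g + 1) e ≠ itF T (j + 1) (g + 1) e' := fun hc => hm ((hmd e e').2 hc)
  refine ⟨hm, h.eb _ _ (hI.okR.G_lt e he) (hI.okR.G_lt e' he') (ss_adjG hI he he' ha hG)
    (ss_nod hI he he' ha hF hG) ?_ ?_⟩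
  · have e1 : g + 1 + (j + 1) = g + 2 + j := by omega
    have h1 := rect h.tok j 1 (g + 1) (by omega) e e' (by rw [e1]; exact he)
      (by rw [e1]; exact he') ha ?_ ?_
    · rw [ss_itG1, ss_itG1] at h1
      exact h1
    · intro hc
      apply hne
      have e2 : j + 1 = 1 + j := Nat.add_comm j 1
      rw [e2, (it_add T 1 j (g + 1) e).1, (it_add T 1 j (g + 1) e').1, hc]
    · rw [ss_itG1, ss_itG1]
      exact hG
  · rw [← ss_itG, ← ss_itG]
    exact hG'

/-- One step of the safe phase: `tower_step` with `A = {u | itG T j (g+2) u ∈ A0}`, `As = [A, A, A]`,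
`B = {u | itF T j (g+2) u ∈ B0}`, `Bs = [B, B, B]`,
`md e e' := itF T (j+1) (g+1) e = itF T (j+1) (g+1) e'`. -/
theorem safe_step {T : ℕ → Lay} {g j : ℕ} {A0 B0 : Set ℕ} (h : SafeSt T g A0 B0 j) :
    ∃ T' : ℕ → Lay, (∀ k, k ≤ g + 2 + j → T' k = T k) ∧ SafeSt T' g A0 B0 (j + 1) := by
  have e1 : g + 1 + j = g + j + 1 := by omega
  have e2 : g + 2 + j = g + j + 2 := by omega
  have e3 : g + 2 + (j + 1) = g + j + 3 := by omega
  have e4 : g + 1 + (j + 1) = g + j + 2 := by omega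
  have e5 : g + 2 + j + 1 = g + j + 3 := by omega
  obtain ⟨md, hmd⟩ : ∃ md : ℕ → ℕ → Prop, ∀ e e',
      md e e' ↔ itF T (j + 1) (g + 1) e = itF T (j + 1) (g + 1) e' := ⟨_, fun _ _ => Iff.rfl⟩
  obtain ⟨A, hA⟩ : ∃ A : Set ℕ, A = {u | itG T j (g + 2) u ∈ A0} := ⟨_, rfl⟩
  obtain ⟨B, hB⟩ : ∃ B : Set ℕ, B = {u | itF T j (g + 2) u ∈ B0} := ⟨_, rfl⟩
  have hOG : ∀ e e', e < (T (g + j + 2)).N → e' < (T (g + j + 2)).N → Adj e e' →
      (T (g + j + 2)).F e ≠ (T (g + j + 2)).F e' → (T (g + j + 2)).G e ≠ (T (g + j + 2)).G e' →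
      itF T (j + 1) (g + 1) e = itF T (j + 1) (g + 1) e' →
      OptG (T (g + j + 1)) (T (g + j + 2)) B md e e' := by
    rw [← e2, ← e1, hB]
    intro e e' he he' ha hF hG hm
    exact optG_holds h hmd he he' ha hF hG ((hmd e e').2 hm)
  have hOF : ∀ e e', e < (T (g + j + 2)).N → e' < (T (g + j + 2)).N → Adj e e' →
      (T (g + j + 2)).F e ≠ (T (g + j + 2)).F e' → (T (g + j + 2)).G e ≠ (T (g + j + 2)).G e' →
      itF T (j + 1) (g + 1) e ≠ itF T (j + 1) (g + 1) e' →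
      itG T (j + 1) (g + 1) e = itG T (j + 1) (g + 1) e' →
      OptF (T (g + j + 1)) (T (g + j + 2)) A md e e' := by
    rw [← e2, ← e1, hA]
    intro e e' he he' ha hF hG hm hg
    exact optF_holds h hmd he he' ha hF hG (fun hc => hm ((hmd e e').1 hc)) hg
  have hT : TOK T (g + j + 2) := by
    rw [← e2]
    exact h.tok
  have hgF : GoodF (T (g + j + 1)) (T (g + j + 2)) A := by
    rw [← e2, ← e1, hA]
    exact h.gF
  have hgG : GoodG (T (g + j + 1)) (T (g + j + 2)) B := by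
    rw [← e2, ← e1, hB]
    exact h.gG
  obtain ⟨T', hTT, hT', hX⟩ := tower_step hT hgF hgG [A, A, A] [B, B, B]
    (by intro X hX; simp at hX; rw [hX]; exact hgF) (by intro X hX; simp at hX; rw [hX]; exact hgG)
    (by simp) (by simp) md
  have hR : T' (g + j + 2) = T (g + j + 2) := hTT _ le_rfl
  have hcF : ∀ e, itF T' (j + 1) (g + 1) e = itF T (j + 1) (g + 1) e := fun e =>
    (it_congr hTT (j + 1) (g + 1) (by omega) e).1
  have hcG : ∀ e, itG T' (j + 1) (g + 1) e = itG T (j + 1) (g + 1) e := fun e =>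
    (it_congr hTT (j + 1) (g + 1) (by omega) e).2.1
  have hdF : ∀ u, itF T' (j + 1) (g + 2) u = itF T j (g + 2) ((T' (g + j + 3)).F u) := by
    intro u
    change itF T' j (g + 2) ((T' (g + 2 + j + 1)).F u) = _
    rw [e5]
    exact (it_congr hTT j (g + 2) (by omega) _).1
  have hdG : ∀ u, itG T' (j + 1) (g + 2) u = itG T j (g + 2) ((T' (g + j + 3)).G u) := by
    intro u
    change itG T' j (g + 2) ((T' (g + 2 + j + 1)).G u) = _
    rw [e5]
    exact (it_congr hTT j (g + 2) (by omega) _).2.1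
  have hsA : {u | itG T' (j + 1) (g + 2) u ∈ A0} = {u | (T' (g + j + 3)).G u ∈ A} := by
    ext u
    rw [Set.mem_ofPred_eq, Set.mem_ofPred_eq, hdG, hA]
    exact Iff.rfl
  have hsB : {u | itF T' (j + 1) (g + 2) u ∈ B0} = {u | (T' (g + j + 3)).F u ∈ B} := by
    ext u
    rw [Set.mem_ofPred_eq, Set.mem_ofPred_eq, hdF, hB]
    exact Iff.rfl
  refine ⟨T', fun k hk => hTT k (by omega), ?_, ?_, ?_, ?_, ?_, ?_⟩
  · rw [e3]
    exact hT'
  · rw [hsA, e3, e4, hR]
    exact hX.goodF A (by simp)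
  · rw [hsB, e3, e4, hR]
    exact hX.goodG B (by simp)
  · intro e e' he he' ha hG hf
    rw [e4, hR] at he he' hG
    rw [hcF, hcF] at hf
    rw [hsB, e3, e4, hR]
    by_cases hF : (T (g + j + 2)).F e = (T (g + j + 2)).F e'
    · exact hX.geC e e' he he' ha hF hG
    · exact hX.geD e e' he he' ha hF hG (hOG e e' he he' ha hF hG hf)
  · intro e e' he he' ha hF hf hg
    rw [e4, hR] at he he' hF
    rw [hcF, hcF] at hf
    rw [hcG, hcG] at hg
    rw [hsA, e3, e4, hR]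
    by_cases hG : (T (g + j + 2)).G e = (T (g + j + 2)).G e'
    · exact hX.feB e e' he he' ha hF hG
    · exact hX.feD e e' he he' ha hF hG (hOF e e' he he' ha hF hG hf hg)
  · intro _ u hu
    rw [e3] at hu
    have hpi : (T' (g + j + 3)).pi u < (T (g + j + 2)).N := by
      have h1 := tok_layer hT' (g + j + 2) (by omega)
      have h2 := h1.pi_lt u hu
      rw [hR] at h2
      exact h2
    rcases hX.safe (by intro X hX; simp at hX; rw [hX]) (by intro X hX; simp at hX; rw [hX]) u hu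
      with h1 | h1 | ⟨e', he', ha, hF, hG, h3, h4⟩
    · left
      rw [hdF]
      rw [hB] at h1
      exact h1
    · right
      left
      rw [hdG]
      rw [hA] at h1
      exact h1
    · right
      right
      rw [e3, e4, hR]
      refine ⟨e', he', ha, ?_⟩
      rw [hcF, hcF, hcG, hcG]
      have h5 : itF T (j + 1) (g + 1) ((T' (g + j + 3)).pi u) ≠ itF T (j + 1) (g + 1) e' :=
        fun hc => h3 (hOG _ _ hpi he' ha hF hG hc)
      exact ⟨h5, fun hc => h4 (hOF _ _ hpi he' ha hF hG h5 hc)⟩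

end Pool.Agent.Work.NoCP
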