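import Pool.Agent.Work.NoCP.Extend
import Pool.Agent.Work.NoCP.ItBasic

set_option autoImplicit false

namespace Pool.Agent.Work.NoCP

/-- one extension step of a tower -/
theorem tower_step {T : ℕ → Lay} {g : ℕ} (hT : TOK T (g + 2)) {A B : Set ℕ}
    (hA : GoodF (T (g + 1)) (T (g + 2)) A) (hB : GoodG (T (g + 1)) (T (g + 2)) B)
    (As Bs : List (Set ℕ)) (hAs : ∀ X ∈ As, GoodF (T (g + 1)) (T (g + 2)) X)
    (hBs : ∀ X ∈ Bs, GoodG (T (g + 1)) (T (g + 2)) X) (hla : 3 ≤ As.length)
    (hlb : 3 ≤ Bs.length) (md : ℕ → ℕ → Prop) :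
    ∃ T' : ℕ → Lay, (∀ k, k ≤ g + 2 → T' k = T k) ∧ TOK T' (g + 3) ∧
      ExtOK (T (g + 1)) (T (g + 2)) (T' (g + 3)) A B As Bs md := by
  obtain ⟨S, h1, h2⟩ := extend (hT.inv g le_rfl) hA hB As Bs hAs hBs hla hlb md
  refine ⟨Function.update T (g + 3) S, ?_, ?_, ?_⟩
  · intro k hk
    rw [Function.update_of_ne (by omega)]
  · refine ⟨?_, ?_, ?_, ?_⟩
    · rw [Function.update_of_ne (by omega)]; exact hT.t0
    · rw [Function.update_of_ne (by omega)]; exact hT.t1
    · rw [Function.update_of_ne (by omega)]; exact hT.t2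
    · intro k hk
      rcases Nat.lt_or_ge (k + 2) (g + 3) with h | h
      · rw [Function.update_of_ne (by omega), Function.update_of_ne (by omega),
          Function.update_of_ne (by omega)]
        exact hT.inv k (by omega)
      · have : k = g + 1 := by omega
        subst this
        rw [Function.update_of_ne (by omega), Function.update_of_ne (by omega)]
        have e : g + 1 + 2 = g + 3 := by omega
        rw [e, Function.update_self]
        exact h1
  · rw [Function.update_self]
    exact h2

end Pool.Agent.Work.NoCP
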