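import Pool.Agent.Work.NoCP.BdA
import Pool.Agent.Work.NoCP.BdB
import Pool.Agent.Work.NoCP.BdC
import Pool.Agent.Work.NoCP.BdD
import Pool.Agent.Work.NoCP.LocMid

set_option autoImplicit false

namespace Pool.Agent.Work.NoCP

private theorem choice_exists {Q R : Lay} {A B : Set ℕ} (hA : GoodF Q R A)
    (hB : GoodG Q R B) : ∃ i0 i1 k0 k1, Choice Q R A B i0 i1 k0 k1 := by
  have h1 : ∀ v, ∃ a b, v < Q.N → (Sub R.G (R.fst v) (R.lst v) a b (Q.fst (Q.G v))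
      (Q.lst (Q.G v)) ∧ ∀ x, a ≤ x → x ≤ b → x ∈ B) := by
    intro v
    by_cases hv : v < Q.N
    · obtain ⟨a, b, h⟩ := hB v hv
      exact ⟨a, b, fun _ => h⟩
    · exact ⟨0, 0, fun h => absurd h hv⟩
  have h2 : ∀ v, ∃ a b, v < Q.N → (Sub R.F (R.fst v) (R.lst v) a b (Q.fst (Q.F v))
      (Q.lst (Q.F v)) ∧ ∀ x, a ≤ x → x ≤ b → x ∈ A) := by
    intro v
    by_cases hv : v < Q.N
    · obtain ⟨a, b, h⟩ := hA v hv
      exact ⟨a, b, fun _ => h⟩
    · exact ⟨0, 0, fun h => absurd h hv⟩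
  choose i0 i1 hi using h1
  choose k0 k1 hk using h2
  exact ⟨i0, i1, k0, k1, fun b hb => (hi b hb).1, fun c hc => (hk c hc).1,
    fun b hb x hx => (hi b hb).2 x hx.1 hx.2, fun c hc x hx => (hk c hc).2 x hx.1 hx.2⟩

private theorem bd_exists {P Q R : Lay} (hI : Inv P Q R) {A B : Set ℕ} (md : ℕ → ℕ → Prop)
    {i0 i1 k0 k1 : ℕ → ℕ} (hC : Choice Q R A B i0 i1 k0 k1) {e : ℕ} (he : e + 1 < R.N) :
    ∃ L1 L2, BD Q R A B md i0 i1 k0 k1 e L1 L2 := by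
  by_cases hF : R.F e = R.F (e + 1)
  · by_cases hG : R.G e = R.G (e + 1)
    · exact bdA hI md hC he hF hG
    · exact bdC hI md hC he hF hG
  · by_cases hG : R.G e = R.G (e + 1)
    · exact bdB hI md hC he hF hG
    · exact bdD hI md hC he hF hG

private theorem hub_exists {P Q R : Lay} (hI : Inv P Q R) {A B : Set ℕ}
    {i0 i1 k0 k1 : ℕ → ℕ} (hC : Choice Q R A B i0 i1 k0 k1) {e : ℕ} (he : e < R.N) :
    ∃ p, hubE Q R i0 i1 k0 k1 e p := by
  have hb := hI.okR.F_lt e he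
  have hc := hI.okR.G_lt e he
  have hcm := hI.comm e he
  obtain ⟨x, hx0, hx1, hx2⟩ := (hC.i _ hb).hit.1
  obtain ⟨y, hy0, hy1, hy2⟩ := (hC.k _ hc).hit.1
  rw [← hcm] at hx2
  exact ⟨(x, y), ⟨hx0, hx1, hy0, hy1, hx2.trans hy2.symm⟩, Or.inl hx2⟩

/-- the middle part of the walk of a block -/
private structure Mid (Q R : Lay) (A B : Set ℕ) (As Bs : List (Set ℕ)) (e : ℕ)
    (l : List (ℕ × ℕ)) (p q : ℕ × ℕ) : Prop where
  w : WalkL (nice2 R.F R.G) (stE R e) l p q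
  safe : (∀ X ∈ As, X ⊆ A) → (∀ X ∈ Bs, X ⊆ B) → ∀ x ∈ l, x.1 ∈ B ∨ x.2 ∈ A
  segF : ∀ X ∈ As, ∃ l1 T l2, l = l1 ++ (T ++ l2) ∧ SegF R e X T
  segG : ∀ X ∈ Bs, ∃ l1 T l2, l = l1 ++ (T ++ l2) ∧ SegG R e X T
  richF : ∃ l1 T1 l2 T2 l3, l = l1 ++ (T1 ++ (l2 ++ (T2 ++ l3))) ∧
    2 ≤ l2.length ∧ SegF R e Set.univ T1 ∧ SegF R e Set.univ T2
  richG : ∃ l1 T1 l2 T2 l3, l = l1 ++ (T1 ++ (l2 ++ (T2 ++ l3))) ∧
    2 ≤ l2.length ∧ SegG R e Set.univ T1 ∧ SegG R e Set.univ T2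

private theorem mid_exists {P Q R : Lay} (hI : Inv P Q R) {A B : Set ℕ}
    (As Bs : List (Set ℕ)) (hAs : ∀ X ∈ As, GoodF Q R X)
    (hBs : ∀ X ∈ Bs, GoodG Q R X) (hla : 3 ≤ As.length) (hlb : 3 ≤ Bs.length)
    {i0 i1 k0 k1 : ℕ → ℕ} (hC : Choice Q R A B i0 i1 k0 k1) {e : ℕ} (he : e < R.N)
    {p q : ℕ × ℕ} (hp : hubE Q R i0 i1 k0 k1 e p) (hq : hubE Q R i0 i1 k0 k1 e q) :
    ∃ l, Mid Q R A B As Bs e l p q := by
  have hb := hI.okR.F_lt e he
  have hc := hI.okR.G_lt e he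
  have hcm := hI.comm e he
  have h1 : ∀ X : Set ℕ, ∃ k : ℕ × ℕ, X ∈ As → (Sub R.F (R.fst (R.G e)) (R.lst (R.G e)) k.1 k.2
      (Q.fst (Q.F (R.G e))) (Q.lst (Q.F (R.G e))) ∧ ∀ x, In k.1 k.2 x → x ∈ X) := by
    intro X
    by_cases hX : X ∈ As
    · obtain ⟨a, b, h, h'⟩ := hAs X hX _ hc
      exact ⟨(a, b), fun _ => ⟨h, fun x hx => h' x hx.1 hx.2⟩⟩
    · exact ⟨(0, 0), fun h => absurd h hX⟩
  have h2 : ∀ X : Set ℕ, ∃ k : ℕ × ℕ, X ∈ Bs → (Sub R.G (R.fst (R.F e)) (R.lst (R.F e)) k.1 k.2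
      (Q.fst (Q.F (R.G e))) (Q.lst (Q.F (R.G e))) ∧ ∀ x, In k.1 k.2 x → x ∈ X) := by
    intro X
    by_cases hX : X ∈ Bs
    · obtain ⟨a, b, h, h'⟩ := hBs X hX _ hb
      rw [← hcm] at h
      exact ⟨(a, b), fun _ => ⟨h, fun x hx => h' x hx.1 hx.2⟩⟩
    · exact ⟨(0, 0), fun h => absurd h hX⟩
  choose f hf using h1
  choose g hg using h2
  have hi := hC.i _ hb
  rw [← hcm] at hi
  obtain ⟨l, hw, hreg, hA', hB', hrF, hrG⟩ := loc_mid (inv_loc hI he) hi (hC.k _ hc)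
    (hI.two _ hb) (hI.two _ hc) (As.map f) (Bs.map g) (by simpa using hla) (by simpa using hlb)
    (by
      intro k hk
      obtain ⟨X, hX, rfl⟩ := List.mem_map.1 hk
      exact (hf X hX).1)
    (by
      intro k hk
      obtain ⟨X, hX, rfl⟩ := List.mem_map.1 hk
      exact (hg X hX).1) hp hq
  refine ⟨l, hw, ?_, ?_, ?_, ?_, ?_⟩
  · intro hAA hBB x hx
    rcases hreg x hx with h | h | ⟨k, hk, h⟩ | ⟨k, hk, h⟩
    · exact Or.inl (hC.iB _ hb _ h)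
    · exact Or.inr (hC.kA _ hc _ h)
    · obtain ⟨X, hX, rfl⟩ := List.mem_map.1 hk
      exact Or.inr (hAA X hX ((hf X hX).2 _ h))
    · obtain ⟨X, hX, rfl⟩ := List.mem_map.1 hk
      exact Or.inl (hBB X hX ((hg X hX).2 _ h))
  · intro X hX
    obtain ⟨l1, l2, l3, hl, h2, h3, h4⟩ := hA' (f X) (List.mem_map_of_mem hX)
    exact ⟨l1, l2, l3, hl, fun x hx => (hf X hX).2 _ (h2 x hx), h3, h4⟩
  · intro X hX
    obtain ⟨l1, l2, l3, hl, h2, h3, h4⟩ := hB' (g X) (List.mem_map_of_mem hX)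
    exact ⟨l1, l2, l3, hl, fun x hx => (hg X hX).2 _ (h2 x hx), h3, h4⟩
  · obtain ⟨l1, l2, l3, l4, l5, hl, h2, h3, h4, h5, h6⟩ := hrF
    exact ⟨l1, l2, l3, l4, l5, hl, h2, ⟨fun _ _ => trivial, h3, h4⟩, ⟨fun _ _ => trivial, h5, h6⟩⟩
  · obtain ⟨l1, l2, l3, l4, l5, hl, h2, h3, h4, h5, h6⟩ := hrG
    exact ⟨l1, l2, l3, l4, l5, hl, h2, ⟨fun _ _ => trivial, h3, h4⟩, ⟨fun _ _ => trivial, h5, h6⟩⟩

/-- `L` is empty or a walk to `z` -/
private def OW {α : Type} (r : α → α → Prop) (S : α → Prop) (L : List α) (z : α) : Prop :=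
  L = [] ∨ ∃ a, WalkL r S L a z

private theorem glue {α : Type} {r : α → α → Prop} {S : α → Prop} (hr : ∀ x, r x x)
    (hs : ∀ x y, r x y → r y x) {L M N : List α} {p q : α} (hL : OW r S L p)
    (hM : WalkL r S M p q) (hN : OW r S N q) :
    ∃ a b, WalkL r S (L ++ (M ++ N.reverse)) a b := by
  have h1 : ∃ b, WalkL r S (M ++ N.reverse) p b := by
    rcases hN with rfl | ⟨a, ha⟩
    · exact ⟨q, by simpa using hM⟩
    · exact ⟨a, walkL_append hr hM (walkL_reverse hs ha)⟩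
  obtain ⟨b, hb⟩ := h1
  rcases hL with rfl | ⟨a, ha⟩
  · exact ⟨p, b, by simpa using hb⟩
  · exact ⟨a, b, walkL_append hr ha hb⟩

private theorem sync_ext {f : ℕ × ℕ → ℕ} {s t : ℕ} {L1 L2 : List (ℕ × ℕ)}
    (h : Sync f s t L1 L2) (m1 m2 : List (ℕ × ℕ)) : Sync f s t (L1 ++ m1) (L2 ++ m2) := by
  obtain ⟨T1, T2, l1, l2, h1, h2, h3, h4⟩ := h
  refine ⟨T1, T2, l1 ++ m1, l2 ++ m2, ?_, ?_, h3, h4⟩
  · rw [h1, List.append_assoc]
  · rw [h2, List.append_assoc]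

private theorem ends_ext {Q R : Lay} {A B : Set ℕ} {md : ℕ → ℕ → Prop} {e e' : ℕ}
    {L : List (ℕ × ℕ)} (h : Ends Q R A B md e e' L) (m : List (ℕ × ℕ)) :
    Ends Q R A B md e e' (L ++ m) := by
  refine ⟨?_, ?_, ?_, ?_⟩
  · intro h1 h2
    obtain ⟨T, l, hl, hT⟩ := h.fe h1 h2
    exact ⟨T, l ++ m, by rw [hl, List.append_assoc], hT⟩
  · intro h1 h2
    obtain ⟨T, l, hl, hT⟩ := h.ge h1 h2
    exact ⟨T, l ++ m, by rw [hl, List.append_assoc], hT⟩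
  · intro h1 h2 h3
    obtain ⟨T, l, hl, hT⟩ := h.d1 h1 h2 h3
    exact ⟨T, l ++ m, by rw [hl, List.append_assoc], hT⟩
  · intro h1 h2 h3
    obtain ⟨T, l, hl, hT⟩ := h.d2 h1 h2 h3
    exact ⟨T, l ++ m, by rw [hl, List.append_assoc], hT⟩

private theorem side_safe {Q R : Lay} {A B : Set ℕ} {md : ℕ → ℕ → Prop} {i0 i1 k0 k1 : ℕ → ℕ}
    {e e' : ℕ} {L : List (ℕ × ℕ)} (h : Side Q R A B md i0 i1 k0 k1 e e' L) (he' : e' < R.N)
    (ha : Adj e e') (p : ℕ × ℕ) (hp : p ∈ L) :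
    p.1 ∈ B ∨ p.2 ∈ A ∨ ∃ e', e' < R.N ∧ Adj e e' ∧ R.F e ≠ R.F e' ∧ R.G e ≠ R.G e' ∧
      ¬ OptG Q R B md e e' ∧ ¬ OptF Q R A md e e' := by
  by_cases hc : R.F e = R.F e' ∨ R.G e = R.G e' ∨ OptG Q R B md e e' ∨ OptF Q R A md e e'
  · rcases h.safe hc p hp with h | h
    · exact Or.inl h
    · exact Or.inr (Or.inl h)
  · push Not at hc
    exact Or.inr (Or.inr ⟨e', he', ha, hc.1, hc.2.1, hc.2.2.1, hc.2.2.2⟩)

/-- The walk of one block: given the lists `Lf` (from the left boundary inward; `[]` if there is no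
left neighbour) and `Rt` (from the right boundary inward), both ending in hubs, there is a middle part
`M` (from `loc_mid`, with the intervals of `As`, `Bs` given by goodness) such that
`Lf ++ (M ++ Rt.reverse)` has the properties needed in `WOK`. -/
theorem wok_exists {P Q R : Lay} (hI : Inv P Q R) {A B : Set ℕ} (hA : GoodF Q R A)
    (hB : GoodG Q R B) (As Bs : List (Set ℕ)) (hAs : ∀ X ∈ As, GoodF Q R X)
    (hBs : ∀ X ∈ Bs, GoodG Q R X) (hla : 3 ≤ As.length) (hlb : 3 ≤ Bs.length)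
    (md : ℕ → ℕ → Prop) : ∃ W, WOK Q R A B As Bs md W := by
  obtain ⟨i0, i1, k0, k1, hC⟩ := choice_exists hA hB
  have h1 : ∀ e, ∃ L1 L2 : List (ℕ × ℕ), e + 1 < R.N → BD Q R A B md i0 i1 k0 k1 e L1 L2 := by
    intro e
    by_cases he : e + 1 < R.N
    · obtain ⟨L1, L2, h⟩ := bd_exists hI md hC he
      exact ⟨L1, L2, fun _ => h⟩
    · exact ⟨[], [], fun h => absurd h he⟩
  choose L1 L2 hL using h1
  set Lf : ℕ → List (ℕ × ℕ) := fun e => match e with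
    | 0 => []
    | e + 1 => L2 e with hLf
  set Rt : ℕ → List (ℕ × ℕ) := fun e => if e + 1 < R.N then L1 e else [] with hRt
  have hLf0 : Lf 0 = [] := rfl
  have hLfs : ∀ e, Lf (e + 1) = L2 e := fun e => rfl
  have hRt1 : ∀ e, e + 1 < R.N → Rt e = L1 e := fun e he => by simp [hRt, he]
  have hRt2 : ∀ e, ¬ e + 1 < R.N → Rt e = [] := fun e he => by simp [hRt, he]
  have hl : ∀ e, e < R.N → ∃ p, hubE Q R i0 i1 k0 k1 e p ∧
      OW (nice2 R.F R.G) (stE R e) (Lf e) p := by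
    intro e he
    cases e with
    | zero =>
      obtain ⟨p, hp⟩ := hub_exists hI hC he
      exact ⟨p, hp, Or.inl hLf0⟩
    | succ e =>
      obtain ⟨a, z, hw, hz⟩ := (hL e he).s2.w
      exact ⟨z, hz, Or.inr ⟨a, by rw [hLfs]; exact hw⟩⟩
  have hr : ∀ e, e < R.N → ∃ p, hubE Q R i0 i1 k0 k1 e p ∧
      OW (nice2 R.F R.G) (stE R e) (Rt e) p := by
    intro e he
    by_cases he1 : e + 1 < R.N
    · obtain ⟨a, z, hw, hz⟩ := (hL e he1).s1.w
      exact ⟨z, hz, Or.inr ⟨a, by rw [hRt1 e he1]; exact hw⟩⟩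
    · obtain ⟨p, hp⟩ := hub_exists hI hC he
      exact ⟨p, hp, Or.inl (hRt2 e he1)⟩
  have hm : ∀ e, ∃ l : List (ℕ × ℕ), e < R.N → ∃ p q, Mid Q R A B As Bs e l p q ∧
      OW (nice2 R.F R.G) (stE R e) (Lf e) p ∧ OW (nice2 R.F R.G) (stE R e) (Rt e) q := by
    intro e
    by_cases he : e < R.N
    · obtain ⟨p, hp, hp'⟩ := hl e he
      obtain ⟨q, hq, hq'⟩ := hr e he
      obtain ⟨l, hM⟩ := mid_exists hI As Bs hAs hBs hla hlb hC he hp hq
      exact ⟨l, fun _ => ⟨p, q, hM, hp', hq'⟩⟩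
    · exact ⟨[], fun h => absurd h he⟩
  choose M hM using hm
  have hg : ∀ e, e < R.N → ∃ a b, WalkL (nice2 R.F R.G) (stE R e)
      (Lf e ++ (M e ++ (Rt e).reverse)) a b := by
    intro e he
    obtain ⟨p, q, h1, h2, h3⟩ := hM e he
    exact glue (nice2_refl _ _) (nice2_symm _ _) h2 h1.w h3
  have hrev : ∀ e, e + 1 < R.N → (Lf e ++ (M e ++ (Rt e).reverse)).reverse =
      L1 e ++ ((M e).reverse ++ (Lf e).reverse) := by
    intro e he
    rw [hRt1 e he]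
    simp [List.append_assoc]
  have hne1 : ∀ e, e + 1 < R.N → L1 e ≠ [] := by
    intro e he h
    obtain ⟨a, z, hw, hz⟩ := (hL e he).s1.w
    rw [h] at hw
    simpa using hw.1
  have hne2 : ∀ e, e + 1 < R.N → L2 e ≠ [] := by
    intro e he h
    obtain ⟨a, z, hw, hz⟩ := (hL e he).s2.w
    rw [h] at hw
    simpa using hw.1
  refine ⟨fun e => Lf e ++ (M e ++ (Rt e).reverse), ?_, ?_, ?_, ?_, ?_, ?_, ?_, ?_, ?_, ?_, ?_, ?_,
    ?_⟩
  · intro e he h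
    obtain ⟨a, b, hw⟩ := hg e he
    rw [h] at hw
    simpa using hw.1
  · intro e he p hp
    obtain ⟨a, b, hw⟩ := hg e he
    exact hw.2.2.2 p hp
  · intro e he
    obtain ⟨a, b, hw⟩ := hg e he
    exact hw.2.2.1
  · intro e he p q hp hq
    refine (hL e he).jn p q ?_ ?_
    · have h1 : (Lf e ++ (M e ++ (Rt e).reverse)).reverse.head? = some p := by
        rw [List.head?_reverse]; exact hp
      rw [hrev e he, List.head?_append_of_ne_nil _ (hne1 e he)] at h1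
      exact h1
    · simp only [hLfs] at hq
      rw [List.head?_append_of_ne_nil _ (hne2 e he)] at hq
      exact hq
  · intro e he hF
    simp only [hLfs]
    rw [hrev e he]
    exact sync_ext ((hL e he).mirF hF) _ _
  · intro e he hG
    simp only [hLfs]
    rw [hrev e he]
    exact sync_ext ((hL e he).mirG hG) _ _
  · intro e he X hX
    obtain ⟨p, q, h1, h2, h3⟩ := hM e he
    obtain ⟨l1, T, l2, hl, hT⟩ := h1.segF X hX
    refine ⟨Lf e ++ l1, T, l2 ++ (Rt e).reverse, ?_, hT⟩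
    simp only [hl, List.append_assoc]
  · intro e he X hX
    obtain ⟨p, q, h1, h2, h3⟩ := hM e he
    obtain ⟨l1, T, l2, hl, hT⟩ := h1.segG X hX
    refine ⟨Lf e ++ l1, T, l2 ++ (Rt e).reverse, ?_, hT⟩
    simp only [hl, List.append_assoc]
  · intro e he
    obtain ⟨p, q, h1, h2, h3⟩ := hM e he
    obtain ⟨l1, T1, l2, T2, l3, hl, hT⟩ := h1.richF
    refine ⟨Lf e ++ l1, T1, l2, T2, l3 ++ (Rt e).reverse, ?_, hT⟩
    simp only [hl, List.append_assoc]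
  · intro e he
    obtain ⟨p, q, h1, h2, h3⟩ := hM e he
    obtain ⟨l1, T1, l2, T2, l3, hl, hT⟩ := h1.richG
    refine ⟨Lf e ++ l1, T1, l2, T2, l3 ++ (Rt e).reverse, ?_, hT⟩
    simp only [hl, List.append_assoc]
  · intro e he
    rw [hrev e he]
    exact ends_ext (hL e he).s1.ends _
  · intro e he
    simp only [hLfs]
    exact ends_ext (hL e he).s2.ends _
  · intro hAA hBB e he p hp
    obtain ⟨p', q', h1, h2, h3⟩ := hM e he
    simp only [List.mem_append, List.mem_reverse] at hp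
    rcases hp with hp | hp | hp
    · cases e with
      | zero => rw [hLf0] at hp; simp at hp
      | succ e =>
        rw [hLfs] at hp
        exact side_safe (hL e he).s2 (by omega) (by unfold Adj; omega) p hp
    · rcases h1.safe hAA hBB p hp with h | h
      · exact Or.inl h
      · exact Or.inr (Or.inl h)
    · by_cases he1 : e + 1 < R.N
      · rw [hRt1 e he1] at hp
        exact side_safe (hL e he1).s1 he1 (by unfold Adj; omega) p hp
      · rw [hRt2 e he1] at hp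
        simp at hp

end Pool.Agent.Work.NoCP
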